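import Pool.Agent.Lib.H3R.T5a

/-! # T5b: points of rare colours -/

namespace Pool.Agent.Lib.H3R

open Equiv Function FirstOrder Language
open Pool.Agent.Lib.H3C (Cl FR Olig Sup pai pia autP)

/-- Points of the same colour are in the same orbit. -/
private theorem T5b_orb (L : Language.{0, 0}) (hL : L.IsRelational) {M : Type} [L.Structure M]
    (hu : L.IsUltrahomogeneous M) (a b : M) (h : colR L b = colR L a) :
    ∃ k ∈ autP L M, k a = b := by
  obtain ⟨k, hk, hka⟩ := ultra_ext L hL hu {a} (fun _ => b) (by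
    intro x hx y hy _
    rw [Finset.coe_singleton, Set.mem_singleton_iff] at hx hy
    rw [hx, hy]) (by
    intro n r x hx
    have e : x = fun _ => a := by
      funext k
      exact Finset.mem_singleton.1 (hx k)
    rw [e]
    exact Set.ext_iff.1 h ⟨n, r⟩)
  exact ⟨k, hk, hka a (Finset.mem_singleton_self a)⟩

/-- The extension of an automorphism of `strM` by the identity is an automorphism.

Proof. `mem_autP`.  Let `σ = ofSubtype τ`.  Colours: clear.  Types of `x ≠ y`: if both are in the subtype use `Au`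
and `strM_s` (`Equiv.Perm.ofSubtype_apply_of_mem` etc.).  If both are rare `σ` fixes them.  Let `x` be in the subtype
and `y` rare: `colR L (σ x) = colR L x`, so the map `x ↦ σ x` on `F = {x}` preserves the relations (`pres` for
`f = fun _ => σ x`, `S = {x}`; `n = 0` is clear) and `ultra_ext` gives `k ∈ autP L M` with `k x = σ x`, `k y = y` (`rare_fixed`),
so `typR L (σ x) y = typR L (k x) (k y) = typR L x y` (`typR_aut`).  The case `y` in the subtype, `x` rare is the
same. -/
theorem extS_le (L : Language.{0, 0}) (h2 : ∀ (n : ℕ) (_ : L.Relations n), n ≤ 2)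
    (hL : L.IsRelational) {M : Type} [L.Structure M] (hu : L.IsUltrahomogeneous M)
    [DecidablePred fun x : M => BigC L M (colR L x)] :
    extS (fun x : M => BigC L M (colR L x)) (Au (strM L M)) ≤ autP L M := by
  intro g hg
  obtain ⟨τ, hτ, rfl⟩ := Subgroup.mem_map.1 hg
  obtain ⟨hτc, hτs⟩ := hτ
  have hin : ∀ x : {x : M // BigC L M (colR L x)}, Equiv.Perm.ofSubtype τ x.1 = (τ x).1 :=
    fun x => Equiv.Perm.ofSubtype_apply_coe τ x
  have hout : ∀ x : M, ¬ BigC L M (colR L x) → Equiv.Perm.ofSubtype τ x = x :=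
    fun x hx => Equiv.Perm.ofSubtype_apply_of_not_mem τ hx
  have hcol : ∀ x : {x : M // BigC L M (colR L x)}, colR L (τ x).1 = colR L x.1 :=
    fun x => congrArg Subtype.val (hτc x)
  refine mem_autP L h2 _ ?_ ?_
  · intro x
    by_cases hx : BigC L M (colR L x)
    · rw [hin ⟨x, hx⟩]
      exact hcol ⟨x, hx⟩
    · rw [hout x hx]
  · intro x y hxy
    by_cases hx : BigC L M (colR L x) <;> by_cases hy : BigC L M (colR L y)
    · have hne : (⟨x, hx⟩ : {x : M // BigC L M (colR L x)}) ≠ ⟨y, hy⟩ := fun h =>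
        hxy (congrArg Subtype.val h)
      have h1 := congrArg Subtype.val (hτs ⟨x, hx⟩ ⟨y, hy⟩ hne)
      rw [strM_s L M _ _ hne, strM_s L M _ _ (fun h => hne (τ.injective h))] at h1
      rw [hin ⟨x, hx⟩, hin ⟨y, hy⟩]
      exact h1
    · obtain ⟨k, hk, hkx⟩ := T5b_orb L hL hu x (τ ⟨x, hx⟩).1 (hcol ⟨x, hx⟩)
      rw [hin ⟨x, hx⟩, hout y hy]
      have h1 := typR_aut L hk x y
      rw [hkx, rare_fixed L hk y hy] at h1
      exact h1
    · obtain ⟨k, hk, hky⟩ := T5b_orb L hL hu y (τ ⟨y, hy⟩).1 (hcol ⟨y, hy⟩)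
      rw [hin ⟨y, hy⟩, hout x hx]
      have h1 := typR_aut L hk x y
      rw [hky, rare_fixed L hk x hx] at h1
      exact h1
    · rw [hout x hx, hout y hy]

end Pool.Agent.Lib.H3R
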