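import Pool.Agent.Lib.H3R.T5a
import Pool.Agent.Lib.H3R.T5b

/-! # T5 (all parts): points of rare colours -/
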