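import Pool.Agent.Lib.H3R.Defs

/-! # A1: elementary facts -/

namespace Pool.Agent.Lib.H3R

open Equiv Function
open Pool.Agent.Lib.H3C (Cl FR Olig Sup pai pia)

variable {I T V ι κ : Type}

theorem Eqv.rfl' (A : Str I T ι) : Eqv A A := ⟨fun _ => rfl, fun _ _ _ => rfl⟩

theorem Eqv.symm {A B : Str I T ι} (h : Eqv A B) : Eqv B A :=
  ⟨fun u => (h.1 u).symm, fun u v huv => (h.2 u v huv).symm⟩

theorem Eqv.trans {A B C : Str I T ι} (h : Eqv A B) (h' : Eqv B C) : Eqv A C :=
  ⟨fun u => (h.1 u).trans (h'.1 u), fun u v huv => (h.2 u v huv).trans (h'.2 u v huv)⟩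

theorem Eqv.map {A B : Str I T ι} (h : Eqv A B) (e : κ → ι) (he : Injective e) :
    Eqv (A.map e) (B.map e) :=
  ⟨fun u => h.1 (e u), fun u v huv => h.2 (e u) (e v) (fun h1 => huv (he h1))⟩

theorem Val.eqv {D : TD I T} {A B : Str I T ι} (hA : Val D A) (h : Eqv A B) : Val D B := by
  intro u v huv
  rw [← h.1 u, ← h.1 v, ← h.2 u v huv, ← h.2 v u huv.symm]
  exact hA u v huv

theorem Val.map {D : TD I T} {A : Str I T ι} (hA : Val D A) (e : κ → ι) (he : Injective e) :
    Val D (A.map e) :=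
  fun u v huv => hA (e u) (e v) (fun h1 => huv (he h1))

/-- Two valid structures with the same colours which agree on one of `(u, v)`, `(v, u)` for all
`u ≠ v` are equal off the diagonal. -/
theorem eqv_of_rank {D : TD I T} {A B : Str I T ι} (hA : Val D A) (hB : Val D B)
    (hc : ∀ u, A.c u = B.c u) (ρ : ι → ℕ) (hρ : Injective ρ)
    (h : ∀ u v, ρ u < ρ v → A.s u v = B.s u v) : Eqv A B := by
  refine ⟨hc, fun u v huv => ?_⟩
  rcases lt_or_gt_of_ne (fun h1 => huv (hρ h1)) with h1 | h1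
  · exact h u v h1
  · rw [(hA v u huv.symm).2.2, (hB v u huv.symm).2.2, h v u h1]

theorem Has.eqv {M : Str I T V} {A B : Str I T ι} {a : ι → V} (h : Has M A a) (hAB : Eqv A B) :
    Has M B a := h.trans hAB

theorem Has.map {M : Str I T V} {A : Str I T ι} {a : ι → V} (h : Has M A a) (e : κ → ι)
    (he : Injective e) : Has M (A.map e) (fun u => a (e u)) :=
  ⟨fun u => h.1 (e u), fun u v huv => h.2 (e u) (e v) (fun h1 => huv (he h1))⟩

/-- A realised structure is valid. -/
theorem Has.val {D : TD I T} {M : Str I T V} (hM : Val D M) {A : Str I T ι} {a : ι → V}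
    (ha : Injective a) (h : Has M A a) : Val D A :=
  (hM.map a ha).eqv h

theorem has_self (M : Str I T V) (a : ι → V) : Has M (M.map a) a := Eqv.rfl' _

theorem Rel.congr {M : Str I T V} {G : Subgroup (Perm V)} {A B A' B' : Str I T ι}
    (h : Rel M G A B) (hA : Eqv A A') (hB : Eqv B B') : Rel M G A' B' := by
  obtain ⟨a, ha, h1, g, hg, h2⟩ := h
  exact ⟨a, ha, h1.eqv hA, g, hg, h2.eqv hB⟩

theorem Rel.map {M : Str I T V} {G : Subgroup (Perm V)} {A B : Str I T ι} (h : Rel M G A B)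
    (e : κ → ι) (he : Injective e) : Rel M G (A.map e) (B.map e) := by
  obtain ⟨a, ha, h1, g, hg, h2⟩ := h
  exact ⟨fun u => a (e u), fun u v huv => he (ha huv), h1.map e he, g, hg, h2.map e he⟩

theorem Rel.symm {M : Str I T V} {G : Subgroup (Perm V)} {A B : Str I T ι} (h : Rel M G A B) :
    Rel M G B A := by
  obtain ⟨a, ha, h1, g, hg, h2⟩ := h
  refine ⟨fun u => g (a u), fun u v huv => ha (g.injective huv), h2, g⁻¹, G.inv_mem hg, ?_⟩
  have h3 : (fun u => g⁻¹ (g (a u))) = a := by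
    funext u
    exact pia g (a u)
  rw [h3]
  exact h1

theorem Rel.val_left {D : TD I T} {M : Str I T V} (hM : Val D M) {G : Subgroup (Perm V)}
    {A B : Str I T ι} (h : Rel M G A B) : Val D A := by
  obtain ⟨a, ha, h1, -⟩ := h
  exact h1.val hM ha

theorem Rel.val_right {D : TD I T} {M : Str I T V} (hM : Val D M) {G : Subgroup (Perm V)}
    {A B : Str I T ι} (h : Rel M G A B) : Val D B := h.symm.val_left hM

theorem rel_of_mem (M : Str I T V) {G : Subgroup (Perm V)} {g : Perm V} (hg : g ∈ G) (a : ι → V)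
    (ha : Injective a) : Rel M G (M.map a) (M.map (fun u => g (a u))) :=
  ⟨a, ha, has_self M a, g, hg, has_self M _⟩

/-- For an equivalence the relations are the same. -/
theorem rel_equiv {M : Str I T V} {G : Subgroup (Perm V)} {A B : Str I T ι} (e : κ ≃ ι) :
    Rel M G (A.map e) (B.map e) ↔ Rel M G A B := by
  constructor
  · intro h
    refine (h.map e.symm e.symm.injective).congr ?_ ?_
    · exact ⟨fun u => by simp [Str.map], fun u v _ => by simp [Str.map]⟩
    · exact ⟨fun u => by simp [Str.map], fun u v _ => by simp [Str.map]⟩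
  · intro h
    exact h.map e e.injective

/-! ## Validity of the operations -/

theorem val_chg {D : TD I T} {A : Str I T ι} (hA : Val D A) {u v : ι} (huv : u ≠ v) {b : T}
    (h1 : D.src b = A.c u) (h2 : D.tgt b = A.c v) : Val D (chg D A u v b) := by
  intro x y hxy
  by_cases h3 : x = u ∧ y = v
  · obtain ⟨rfl, rfl⟩ := h3
    refine ⟨?_, ?_, ?_⟩ <;> simp [chg, h1, h2, huv, huv.symm]
  · by_cases h4 : x = v ∧ y = u
    · obtain ⟨rfl, rfl⟩ := h4
      refine ⟨?_, ?_, ?_⟩ <;> simp [chg, h1, h2, huv, huv.symm, D.src_opp, D.tgt_opp, D.opp_opp]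
    · have h5 : ¬ (y = u ∧ x = v) := fun h => h4 ⟨h.2, h.1⟩
      have h6 : ¬ (y = v ∧ x = u) := fun h => h3 ⟨h.2, h.1⟩
      refine ⟨?_, ?_, ?_⟩
      · simp only [chg, if_neg h3, if_neg h4]
        exact (hA x y hxy).1
      · simp only [chg, if_neg h3, if_neg h4]
        exact (hA x y hxy).2.1
      · simp only [chg, if_neg h3, if_neg h4, if_neg h5, if_neg h6]
        exact (hA x y hxy).2.2

theorem val_rep {D : TD I T} {A : Str I T ι} (hA : Val D A) (u : ι) (f : ι → T)
    (hf : ∀ w, w ≠ u → D.src (f w) = A.c u ∧ D.tgt (f w) = A.c w) : Val D (rep D A u f) := by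
  intro x y hxy
  by_cases h3 : x = u
  · subst h3
    have h4 := hf y hxy.symm
    refine ⟨?_, ?_, ?_⟩ <;> simp [rep, h4.1, h4.2, hxy.symm]
  · by_cases h4 : y = u
    · subst h4
      have h5 := hf x h3
      refine ⟨?_, ?_, ?_⟩ <;> simp [rep, h5.1, h5.2, h3, D.src_opp, D.tgt_opp, D.opp_opp]
    · refine ⟨?_, ?_, ?_⟩
      · simp only [rep, if_neg h3, if_neg h4]
        exact (hA x y hxy).1
      · simp only [rep, if_neg h3, if_neg h4]
        exact (hA x y hxy).2.1
      · simp only [rep, if_neg h3, if_neg h4]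
        exact (hA x y hxy).2.2

theorem rep_self_left {D : TD I T} (A : Str I T ι) (u : ι) (f : ι → T) (w : ι) :
    (rep D A u f).s u w = f w := by simp [rep]

theorem rep_self_right {D : TD I T} (A : Str I T ι) (u : ι) (f : ι → T) (w : ι) (h : w ≠ u) :
    (rep D A u f).s w u = D.opp (f w) := by simp [rep, h]

theorem rep_other {D : TD I T} (A : Str I T ι) (u : ι) (f : ι → T) (w w' : ι) (h : w ≠ u)
    (h' : w' ≠ u) : (rep D A u f).s w w' = A.s w w' := by simp [rep, h, h']

theorem rep_c {D : TD I T} (A : Str I T ι) (u : ι) (f : ι → T) : (rep D A u f).c = A.c := rfl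

theorem chg_c {D : TD I T} (A : Str I T ι) (u v : ι) (b : T) : (chg D A u v b).c = A.c := rfl

theorem chg_left {D : TD I T} (A : Str I T ι) (u v : ι) (b : T) : (chg D A u v b).s u v = b := by
  simp [chg]

theorem chg_right {D : TD I T} (A : Str I T ι) (u v : ι) (b : T) (h : u ≠ v) :
    (chg D A u v b).s v u = D.opp b := by simp [chg, h, h.symm]

theorem chg_other {D : TD I T} (A : Str I T ι) (u v : ι) (b : T) (x y : ι)
    (h : ¬ (x = u ∧ y = v)) (h' : ¬ (x = v ∧ y = u)) : (chg D A u v b).s x y = A.s x y := by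
  simp [chg, h, h']

/-- Changing the type of `(u, v)` to its old value does nothing. -/
theorem chg_self {D : TD I T} {A : Str I T ι} (hA : Val D A) (u v : ι) (huv : u ≠ v) :
    Eqv (chg D A u v (A.s u v)) A := by
  refine ⟨fun _ => rfl, fun x y hxy => ?_⟩
  by_cases h3 : x = u ∧ y = v
  · obtain ⟨rfl, rfl⟩ := h3
    exact chg_left _ _ _ _
  · by_cases h4 : x = v ∧ y = u
    · obtain ⟨rfl, rfl⟩ := h4
      rw [chg_right _ _ _ _ huv]
      exact ((hA _ _ huv).2.2).symm
    · exact chg_other _ _ _ _ _ _ h3 h4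

/-- Two changes of the same pair. -/
theorem chg_chg {D : TD I T} (A : Str I T ι) (u v : ι) (a b : T) :
    Eqv (chg D (chg D A u v a) u v b) (chg D A u v b) := by
  refine ⟨fun _ => rfl, fun x y hxy => ?_⟩
  by_cases h3 : x = u ∧ y = v
  · obtain ⟨rfl, rfl⟩ := h3
    rw [chg_left, chg_left]
  · by_cases h4 : x = v ∧ y = u
    · obtain ⟨rfl, rfl⟩ := h4
      rw [chg_right _ _ _ _ hxy.symm, chg_right _ _ _ _ hxy.symm]
    · rw [chg_other _ _ _ _ _ _ h3 h4, chg_other _ _ _ _ _ _ h3 h4, chg_other _ _ _ _ _ _ h3 h4]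

theorem val_apl {D : TD I T} {A : Str I T ι} (hA : Val D A) (β : I → I) (ψ : T → T)
    (hs : ∀ a, D.src (ψ a) = β (D.src a)) (ho : ∀ a, ψ (D.opp a) = D.opp (ψ a)) :
    Val D (apl β ψ A) := by
  intro u v huv
  have h := hA u v huv
  have ht : D.tgt (ψ (A.s u v)) = β (D.tgt (A.s u v)) := by
    rw [← D.src_opp, ← ho, hs, D.src_opp]
  refine ⟨?_, ?_, ?_⟩
  · show D.src (ψ (A.s u v)) = β (A.c u)
    rw [hs, h.1]
  · show D.tgt (ψ (A.s u v)) = β (A.c v)
    rw [ht, h.2.1]
  · show ψ (A.s v u) = D.opp (ψ (A.s u v))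
    rw [h.2.2, ho]

theorem val_opR {D : TD I T} {A : Str I T ι} (hA : Val D A) (β : I → I) (ψ : T → T) (ρ : ι → ℕ)
    (hρ : Injective ρ) (hs : ∀ a, D.src (ψ a) = β (D.src a))
    (ht : ∀ a, D.tgt (ψ a) = β (D.tgt a)) : Val D (opR D β ψ ρ A) := by
  intro u v huv
  have h := hA u v huv
  have h' := hA v u huv.symm
  rcases lt_or_gt_of_ne (fun h1 => huv (hρ h1)) with h1 | h1
  · have h2 : ¬ ρ v < ρ u := not_lt.2 h1.le
    refine ⟨?_, ?_, ?_⟩
    · simp only [opR, if_pos h1]
      rw [hs, h.1]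
    · simp only [opR, if_pos h1]
      rw [ht, h.2.1]
    · simp only [opR, if_pos h1, if_neg h2]
  · have h2 : ¬ ρ u < ρ v := not_lt.2 (le_of_lt h1)
    refine ⟨?_, ?_, ?_⟩
    · simp only [opR, if_neg h2]
      rw [D.src_opp, ht, h'.2.1]
    · simp only [opR, if_neg h2]
      rw [D.tgt_opp, hs, h'.1]
    · simp only [opR, if_neg h2]
      rw [if_pos h1, D.opp_opp]

end Pool.Agent.Lib.H3R
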