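import Pool.Agent.Lib.H3R.A1

/-! # A2: realising finite structures -/

namespace Pool.Agent.Lib.H3R

open Equiv Function
open Pool.Agent.Lib.H3C (Cl FR Olig Sup pai pia)

/-- One more point. -/
private theorem a2_step {I T V ι : Type} {D : TD I T} {M : Str I T V} (hM : Gen D M) [Finite ι]
    (A : Str I T ι) (hA : Val D A) (R : Set ι) (a : ι → V) (hinj : Set.InjOn a R)
    (hc : ∀ u ∈ R, M.c (a u) = A.c u)
    (hs : ∀ u ∈ R, ∀ v ∈ R, u ≠ v → M.s (a u) (a v) = A.s u v) (w : ι) (hw : w ∉ R) :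
    ∃ b : ι → V, (∀ u ∈ R, b u = a u) ∧ Set.InjOn b (insert w R) ∧
      (∀ u ∈ insert w R, M.c (b u) = A.c u) ∧
      ∀ u ∈ insert w R, ∀ v ∈ insert w R, u ≠ v → M.s (b u) (b v) = A.s u v := by
  classical
  obtain ⟨F, hF⟩ : ∃ F : Finset V, ∀ v, v ∈ F ↔ ∃ u ∈ R, a u = v := by
    refine ⟨(Set.toFinite (a '' R)).toFinset, fun v => ?_⟩
    rw [Set.Finite.mem_toFinset, Set.mem_image]
  obtain ⟨τ, hτ⟩ : ∃ τ : V → T, ∀ u ∈ R, τ (a u) = A.s w u := by
    refine ⟨fun v => if h : ∃ u ∈ R, a u = v then A.s w h.choose else A.s w w, fun u hu => ?_⟩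
    have h : ∃ u' ∈ R, a u' = a u := ⟨u, hu, rfl⟩
    have h1 : h.choose = u := hinj h.choose_spec.1 hu h.choose_spec.2
    show (if h : ∃ u' ∈ R, a u' = a u then A.s w h.choose else A.s w w) = A.s w u
    rw [dif_pos h, h1]
  obtain ⟨w', hw'F, hw'c, hw's⟩ := hM.2 F (A.c w) τ (by
    intro v hv
    obtain ⟨u, hu, rfl⟩ := (hF v).1 hv
    have huw : w ≠ u := fun h => hw (h ▸ hu)
    rw [hτ u hu, hc u hu]
    exact ⟨(hA w u huw).1, (hA w u huw).2.1⟩)
  have hne : ∀ u ∈ R, a u ≠ w' := fun u hu h => hw'F ((hF w').2 ⟨u, hu, h⟩)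
  have hbR : ∀ u ∈ R, Function.update a w w' u = a u := by
    intro u hu
    have huw : u ≠ w := fun h => hw (h ▸ hu)
    exact Function.update_of_ne huw _ _
  have hbw : Function.update a w w' w = w' := Function.update_self _ _ _
  refine ⟨Function.update a w w', hbR, ?_, ?_, ?_⟩
  · intro u hu v hv huv
    rcases hu with rfl | hu
    · rcases hv with rfl | hv
      · rfl
      · rw [hbw, hbR v hv] at huv
        exact absurd huv.symm (hne v hv)
    · rcases hv with rfl | hv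
      · rw [hbw, hbR u hu] at huv
        exact absurd huv (hne u hu)
      · rw [hbR u hu, hbR v hv] at huv
        exact hinj hu hv huv
  · intro u hu
    rcases hu with rfl | hu
    · rw [hbw, hw'c]
    · rw [hbR u hu, hc u hu]
  · intro u hu v hv huv
    rcases hu with rfl | hu
    · rcases hv with rfl | hv
      · exact absurd rfl huv
      · rw [hbw, hbR v hv, hw's (a v) ((hF _).2 ⟨v, hv, rfl⟩), hτ v hv]
    · rcases hv with rfl | hv
      · rw [hbw, hbR u hu, (hM.1 w' (a u) (hne u hu).symm).2.2, hw's (a u) ((hF _).2 ⟨u, hu, rfl⟩),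
          hτ u hu, (hA v u huv.symm).2.2]
      · rw [hbR u hu, hbR v hv, hs u hu v hv huv]

/-- A partial realisation extends.

Proof. By induction on the finite set `R` (`Finset.induction_on`): there is `a : ι → V` with
`a = a₀` on `S`, injective on `S ∪ R`, `M.c (a u) = A.c u` for `u ∈ S ∪ R` and
`M.s (a u) (a v) = A.s u v` for `u ≠ v` in `S ∪ R`; then take `R = Finset.univ`.  Step from `R` to
`insert w R`: if `w ∈ S ∪ R` nothing is to do.  Otherwise let `F` be the finite set of the `a u`,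
`u ∈ S ∪ R` (`Set.toFinite _).toFinset`), and let `τ v = A.s w u`, where `u ∈ S ∪ R` is chosen with
`a u = v` (`u` is unique by injectivity; for other `v` let `τ v` be anything, `A.s w w`).  `D.src (τ v) =
A.c w`, `D.tgt (τ v) = A.c u = M.c v` by `hA`.  `hM.2` gives `w'` not in `F` with `M.c w' = A.c w` and
`M.s w' (a u) = A.s w u`; then `M.s (a u) w' = D.opp (M.s w' (a u)) = D.opp (A.s w u) = A.s u w`
(`hM.1` and `hA`; `w' ≠ a u`).  Take `Function.update a w w'`. -/
theorem extend {I T V ι : Type} {D : TD I T} {M : Str I T V} (hM : Gen D M) [Finite ι]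
    (A : Str I T ι) (hA : Val D A) (S : Set ι) (a₀ : ι → V) (hinj : Set.InjOn a₀ S)
    (hc : ∀ u ∈ S, M.c (a₀ u) = A.c u)
    (hs : ∀ u ∈ S, ∀ v ∈ S, u ≠ v → M.s (a₀ u) (a₀ v) = A.s u v) :
    ∃ a : ι → V, Injective a ∧ Has M A a ∧ ∀ u ∈ S, a u = a₀ u := by
  classical
  have key : ∀ R : Finset ι, ∃ a : ι → V, (∀ u ∈ S, a u = a₀ u) ∧ Set.InjOn a (S ∪ (R : Set ι)) ∧
      (∀ u ∈ S ∪ (R : Set ι), M.c (a u) = A.c u) ∧
      ∀ u ∈ S ∪ (R : Set ι), ∀ v ∈ S ∪ (R : Set ι), u ≠ v → M.s (a u) (a v) = A.s u v := by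
    intro R
    induction R using Finset.induction_on with
    | empty =>
      refine ⟨a₀, fun _ _ => rfl, ?_, ?_, ?_⟩
      · simpa using hinj
      · simpa using hc
      · simpa using hs
    | insert w R hwR ih =>
      obtain ⟨a, h1, h2, h3, h4⟩ := ih
      have hset : S ∪ ((insert w R : Finset ι) : Set ι) = insert w (S ∪ (R : Set ι)) := by
        rw [Finset.coe_insert, Set.union_insert]
      rw [hset]
      by_cases hw : w ∈ S ∪ (R : Set ι)
      · rw [Set.insert_eq_of_mem hw]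
        exact ⟨a, h1, h2, h3, h4⟩
      · obtain ⟨b, hb1, hb2, hb3, hb4⟩ := a2_step hM A hA (S ∪ (R : Set ι)) a h2 h3 h4 w hw
        exact ⟨b, fun u hu => (hb1 u (Or.inl hu)).trans (h1 u hu), hb2, hb3, hb4⟩
  obtain ⟨R, hR⟩ : ∃ R : Finset ι, ∀ u, u ∈ R :=
    ⟨(Set.toFinite (Set.univ : Set ι)).toFinset, fun u => by simp⟩
  obtain ⟨a, h1, h2, h3, h4⟩ := key R
  have hmem : ∀ u, u ∈ S ∪ (R : Set ι) := fun u => Or.inr (hR u)
  exact ⟨a, fun u v huv => h2 (hmem u) (hmem v) huv,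
    ⟨fun u => h3 u (hmem u), fun u v huv => h4 u (hmem u) v (hmem v) huv⟩, h1⟩

/-- Every valid finite structure is realised.

Proof. If `ι` is empty, take the empty function.  Otherwise let `u : ι`; `hM.2 ∅ (A.c u) (fun _ => A.s u u)`
gives a point of `V`; apply `extend` with `S = ∅` and a constant function `a₀`. -/
theorem realize {I T V ι : Type} {D : TD I T} {M : Str I T V} (hM : Gen D M) [Finite ι]
    (A : Str I T ι) (hA : Val D A) : ∃ a : ι → V, Injective a ∧ Has M A a := by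
  rcases isEmpty_or_nonempty ι with hι | ⟨⟨u⟩⟩
  · exact ⟨fun u => hι.elim u, fun u => hι.elim u, fun u => hι.elim u, fun u => hι.elim u⟩
  · obtain ⟨x, -⟩ := hM.2 ∅ (A.c u) (fun _ => A.s u u) (fun v hv => absurd hv (Finset.notMem_empty v))
    obtain ⟨a, h1, h2, -⟩ := extend hM A hA ∅ (fun _ => x) (by simp) (by simp) (by simp)
    exact ⟨a, h1, h2⟩

end Pool.Agent.Lib.H3R
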