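import Pool.Agent.Lib.H3R.A1
import Pool.Agent.Lib.H3C.A1

/-! # A3: homogeneity -/

namespace Pool.Agent.Lib.H3R

open Equiv Function
open Pool.Agent.Lib.H3C (Cl FR Olig Sup pai pia)

/-- `M` is homogeneous.

Proof. `H3C.backForth` (file `Pool.Agent.Lib.H3C.A1`) with `X = Y = V` and `R` the set of the finite sets
`r` of pairs with: `p.1 = q.1 ↔ p.2 = q.2`, `M.c p.1 = M.c p.2`, and `M.s p.1 q.1 = M.s p.2 q.2` if
`p.1 ≠ q.1`, for all `p, q ∈ r`.  Extension on the left (`x` given): if `x = p.1` with `p ∈ r` take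
`y = p.2`.  Otherwise apply `hM.2` to the set `F` of second coordinates of `r`, the colour `M.c x` and
`τ y' = M.s x p.1` for a `p ∈ r` with `p.2 = y'` (choose; unique); validity from `hM.1` and
`M.c p.1 = M.c p.2`.  One gets `y` not in `F` with `M.c y = M.c x`, `M.s y p.2 = M.s x p.1`, and
`M.s p.2 y = D.opp (M.s y p.2) = D.opp (M.s x p.1) = M.s p.1 x`.  Extension on the right is the same
with the coordinates exchanged (or apply it to the set of the swapped pairs).  `r₀` is the image of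
`ι` under `u ↦ (a u, b u)`.  The bijection `σ` is in `Au M`: for `x ≠ y` take `F = {x, y}` in the last
statement of `backForth`. -/
theorem homog {I T V ι : Type} [Countable V] {D : TD I T} {M : Str I T V} (hM : Gen D M) [Finite ι]
    (a b : ι → V) (ha : Injective a) (hb : Injective b) (h : Eqv (M.map a) (M.map b)) :
    ∃ σ ∈ Au M, ∀ u, σ (a u) = b u := by
  classical
  haveI := Fintype.ofFinite ι
  have hext : ∀ r : Finset (V × V), (∀ p ∈ r, ∀ q ∈ r, (p.1 = q.1 ↔ p.2 = q.2) ∧ M.c p.1 = M.c p.2 ∧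
      (p.1 ≠ q.1 → M.s p.1 q.1 = M.s p.2 q.2)) → ∀ x : V, ∃ y : V, ∀ p ∈ insert (x, y) r,
      ∀ q ∈ insert (x, y) r, (p.1 = q.1 ↔ p.2 = q.2) ∧ M.c p.1 = M.c p.2 ∧
      (p.1 ≠ q.1 → M.s p.1 q.1 = M.s p.2 q.2) := by
    intro r hr x
    by_cases hx : ∃ p ∈ r, p.1 = x
    · obtain ⟨p, hp, rfl⟩ := hx
      refine ⟨p.2, ?_⟩
      have h1 : insert (p.1, p.2) r = r := Finset.insert_eq_of_mem hp
      rw [h1]
      exact hr
    · have hx' : ∀ p ∈ r, x ≠ p.1 := fun p hp h1 => hx ⟨p, hp, h1.symm⟩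
      have hτ : ∀ v : V, ∃ t : T, ∀ p ∈ r, p.2 = v → t = M.s x p.1 := by
        intro v
        by_cases hv : ∃ p ∈ r, p.2 = v
        · obtain ⟨p, hp, hpv⟩ := hv
          refine ⟨M.s x p.1, fun q hq hqv => ?_⟩
          have h2 : p.1 = q.1 := (hr p hp q hq).1.mpr (hpv.trans hqv.symm)
          rw [h2]
        · exact ⟨M.s x x, fun q hq hqv => absurd ⟨q, hq, hqv⟩ hv⟩
      choose τ hτ using hτ
      obtain ⟨y, hyF, hyc, hys⟩ := hM.2 (r.image Prod.snd) (M.c x) τ (by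
        intro v hv
        obtain ⟨p, hp, hpv⟩ := Finset.mem_image.mp hv
        have h3 := hM.1 x p.1 (hx' p hp)
        rw [hτ v p hp hpv]
        refine ⟨h3.1, ?_⟩
        rw [h3.2.1, (hr p hp p hp).2.1, hpv])
      have hyne : ∀ p ∈ r, y ≠ p.2 := fun p hp h1 => hyF (h1 ▸ Finset.mem_image_of_mem Prod.snd hp)
      have hys' : ∀ p ∈ r, M.s y p.2 = M.s x p.1 := fun p hp => by
        rw [hys p.2 (Finset.mem_image_of_mem Prod.snd hp)]
        exact hτ p.2 p hp rfl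
      refine ⟨y, ?_⟩
      intro p hp q hq
      rcases Finset.mem_insert.mp hp with rfl | hp
      · rcases Finset.mem_insert.mp hq with rfl | hq
        · exact ⟨⟨fun _ => rfl, fun _ => rfl⟩, hyc.symm, fun h1 => absurd rfl h1⟩
        · exact ⟨⟨fun h1 => absurd h1 (hx' q hq), fun h1 => absurd h1 (hyne q hq)⟩, hyc.symm,
            fun _ => (hys' q hq).symm⟩
      · rcases Finset.mem_insert.mp hq with rfl | hq
        · refine ⟨⟨fun h1 => absurd h1.symm (hx' p hp), fun h1 => absurd h1.symm (hyne p hp)⟩,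
            (hr p hp p hp).2.1, fun _ => ?_⟩
          show M.s p.1 x = M.s p.2 y
          rw [(hM.1 x p.1 (hx' p hp)).2.2, (hM.1 y p.2 (hyne p hp)).2.2, hys' p hp]
        · exact hr p hp q hq
  have hswp : ∀ r : Finset (V × V), (∀ p ∈ r, ∀ q ∈ r, (p.1 = q.1 ↔ p.2 = q.2) ∧ M.c p.1 = M.c p.2 ∧
      (p.1 ≠ q.1 → M.s p.1 q.1 = M.s p.2 q.2)) → ∀ p ∈ r.image Prod.swap,
      ∀ q ∈ r.image Prod.swap, (p.1 = q.1 ↔ p.2 = q.2) ∧ M.c p.1 = M.c p.2 ∧
      (p.1 ≠ q.1 → M.s p.1 q.1 = M.s p.2 q.2) := by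
    intro r hr p hp q hq
    obtain ⟨p', hp', rfl⟩ := Finset.mem_image.mp hp
    obtain ⟨q', hq', rfl⟩ := Finset.mem_image.mp hq
    obtain ⟨h1, h2, h3⟩ := hr p' hp' q' hq'
    refine ⟨h1.symm, h2.symm, fun h4 => ?_⟩
    exact (h3 (fun h5 => h4 (h1.mp h5))).symm
  obtain ⟨σ, hσ1, hσ2⟩ := Pool.Agent.Lib.H3C.backForth
    {r : Finset (V × V) | ∀ p ∈ r, ∀ q ∈ r, (p.1 = q.1 ↔ p.2 = q.2) ∧ M.c p.1 = M.c p.2 ∧
      (p.1 ≠ q.1 → M.s p.1 q.1 = M.s p.2 q.2)}
    (fun r hr p hp q hq => (hr p hp q hq).1)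
    (fun r hr x => hext r hr x)
    (by
      intro r hr y
      obtain ⟨x, hx⟩ := hext (r.image Prod.swap) (hswp r hr) y
      refine ⟨x, ?_⟩
      have h5 := hswp _ hx
      rw [Finset.image_insert, Finset.image_image, Prod.swap_swap_eq, Finset.image_id] at h5
      exact h5)
    (Finset.univ.image (fun u => (a u, b u)))
    (by
      intro p hp q hq
      obtain ⟨u, -, rfl⟩ := Finset.mem_image.mp hp
      obtain ⟨v, -, rfl⟩ := Finset.mem_image.mp hq
      refine ⟨⟨fun h1 => ?_, fun h1 => ?_⟩, h.1 u, fun h1 => ?_⟩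
      · show b u = b v
        rw [ha h1]
      · show a u = a v
        rw [hb h1]
      · exact h.2 u v (fun h2 => h1 (by rw [h2])))
  refine ⟨σ, ⟨fun x => ?_, fun x y hxy => ?_⟩, fun u => ?_⟩
  · obtain ⟨r, hr, hrF⟩ := hσ2 {x}
    have h1 := hrF x (Finset.mem_singleton_self x)
    exact ((hr _ h1 _ h1).2.1).symm
  · obtain ⟨r, hr, hrF⟩ := hσ2 {x, y}
    have h1 := hrF x (Finset.mem_insert_self x _)
    have h2 := hrF y (Finset.mem_insert_of_mem (Finset.mem_singleton_self y))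
    exact ((hr _ h1 _ h2).2.2 hxy).symm
  · exact hσ1 (a u, b u) (Finset.mem_image_of_mem _ (Finset.mem_univ u))

/-- Two realisations of the same structure are conjugate under `Au M`.  Proof. `homog`. -/
theorem homog' {I T V ι : Type} [Countable V] {D : TD I T} {M : Str I T V} (hM : Gen D M)
    [Finite ι] {A : Str I T ι} (a b : ι → V) (ha : Injective a) (hb : Injective b)
    (h : Has M A a) (h' : Has M A b) : ∃ σ ∈ Au M, ∀ u, σ (a u) = b u :=
  homog hM a b ha hb (h.trans h'.symm)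

end Pool.Agent.Lib.H3R
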