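import Pool.Agent.Lib.H3R.A2
import Pool.Agent.Lib.H3R.A3

/-! # A4: the relation `Rel` -/

namespace Pool.Agent.Lib.H3R

open Equiv Function
open Pool.Agent.Lib.H3C (Cl FR Olig Sup pai pia)

variable {I T V ι : Type} [Countable V] {D : TD I T} {M : Str I T V}

/-- If one copy of `A` is moved to a copy of `B`, then every copy is. -/
theorem Rel.all (hM : Gen D M) {G : Subgroup (Perm V)} (hG : Au M ≤ G) [Finite ι]
    {A B : Str I T ι} (h : Rel M G A B) (a : ι → V) (ha : Injective a) (h' : Has M A a) :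
    ∃ g ∈ G, Has M B (fun u => g (a u)) := by
  obtain ⟨b, hb, h1, g, hg, h2⟩ := h
  obtain ⟨σ, hσ, h3⟩ := homog' hM a b ha hb h' h1
  refine ⟨g * σ, G.mul_mem hg (hG hσ), ?_⟩
  have h4 : (fun u => (g * σ) (a u)) = fun u => g (b u) := by
    funext u
    rw [Perm.mul_apply, h3]
  rw [h4]
  exact h2

theorem Rel.trans (hM : Gen D M) {G : Subgroup (Perm V)} (hG : Au M ≤ G) [Finite ι]
    {A B C : Str I T ι} (h : Rel M G A B) (h' : Rel M G B C) : Rel M G A C := by
  obtain ⟨a, ha, h1, g, hg, h2⟩ := h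
  obtain ⟨g', hg', h3⟩ := h'.all hM hG (fun u => g (a u)) (fun u v huv => ha (g.injective huv)) h2
  exact ⟨a, ha, h1, g' * g, G.mul_mem hg' hg, h3⟩

omit [Countable V] in
theorem Rel.refl (hM : Gen D M) {G : Subgroup (Perm V)} [Finite ι] {A : Str I T ι}
    (hA : Val D A) : Rel M G A A := by
  obtain ⟨a, ha, h1⟩ := realize hM A hA
  exact ⟨a, ha, h1, 1, G.one_mem, h1⟩

omit [Countable V] in
theorem Rel.of_eqv (hM : Gen D M) {G : Subgroup (Perm V)} [Finite ι] {A B : Str I T ι}
    (hA : Val D A) (h : Eqv A B) : Rel M G A B :=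
  (Rel.refl hM hA).congr (Eqv.rfl' A) h

/-- Membership of a permutation in `G` from its action on finite structures.

Proof. `hG.2` (closedness): let `F` be a finite set, `a : Fin n → V` an injective enumeration of `F`
(`F.equivFin.symm`, or `Finset.equivFin`).  By `Rel.all` there is `g ∈ G` with
`Has M (M.map (σ ∘ a)) (g ∘ a)`; `homog` gives `h ∈ Au M ≤ G` with `h (g (a u)) = σ (a u)` for all `u`, so
`h * g ∈ G` agrees with `σ` on `F`. -/
theorem mem_of_rel (hM : Gen D M) {G : Subgroup (Perm V)} (hG : Sg M G) (σ : Perm V)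
    (h : ∀ (n : ℕ) (a : Fin n → V), Injective a →
      Rel M G (M.map a) (M.map (fun u => σ (a u)))) : σ ∈ G := by
  classical
  refine hG.2 σ fun F => ?_
  set a : Fin F.card → V := fun i => (F.equivFin.symm i : V) with ha
  have hai : Injective a := fun i j hij => F.equivFin.symm.injective (Subtype.ext hij)
  obtain ⟨g, hg, h1⟩ := (h F.card a hai).all hM hG.1 a hai (has_self M a)
  have h2 : Injective fun u => g (a u) := fun i j hij => hai (g.injective hij)
  have h3 : Injective fun u => σ (a u) := fun i j hij => hai (σ.injective hij)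
  obtain ⟨τ, hτ, h4⟩ := homog hM (fun u => g (a u)) (fun u => σ (a u)) h2 h3 h1
  refine ⟨τ * g, G.mul_mem (hG.1 hτ) hg, fun x hx => ?_⟩
  have h5 : a (F.equivFin ⟨x, hx⟩) = x := by
    show ((F.equivFin.symm (F.equivFin ⟨x, hx⟩) : F) : V) = x
    rw [Equiv.symm_apply_apply]
  have h6 := h4 (F.equivFin ⟨x, hx⟩)
  simp only [h5] at h6
  rw [Perm.mul_apply]
  exact h6

end Pool.Agent.Lib.H3R
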