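import Pool.Agent.Lib.H3R.A3

/-! # A5: finitely many orbits -/

namespace Pool.Agent.Lib.H3R

open Equiv Function
open Pool.Agent.Lib.H3C (Cl FR Olig Sup pai pia)

private theorem A5_conj {I T V : Type} [Countable V] {D : TD I T} {M : Str I T V} (hM : Gen D M)
    {k : ℕ} (t a : Fin k → V) (hc : ∀ i, M.c (t i) = M.c (a i))
    (hs : ∀ i j, M.s (t i) (t j) = M.s (a i) (a j)) (he : ∀ i j, t i = t j ↔ a i = a j) :
    ∃ h ∈ Au M, ∀ i, h (t i) = a i := by
  have hx : ∀ x : Set.range t, ∃ i, t i = (x : V) := fun x => x.2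
  choose f hf using hx
  have hb : Injective (fun x : Set.range t => a (f x)) := by
    intro x y hxy
    have h1 : t (f x) = t (f y) := (he _ _).2 hxy
    rw [hf, hf] at h1
    exact Subtype.ext h1
  obtain ⟨σ, hσ, h2⟩ := homog hM (fun x : Set.range t => (x : V)) (fun x => a (f x))
    Subtype.val_injective hb (by
      refine ⟨fun x => ?_, fun x y _ => ?_⟩
      · show M.c (x : V) = M.c (a (f x))
        rw [← hc, hf]
      · show M.s (x : V) (y : V) = M.s (a (f x)) (a (f y))
        rw [← hs, hf, hf])
  refine ⟨σ, hσ, fun i => ?_⟩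
  have h3 := h2 ⟨t i, i, rfl⟩
  have h4 : σ (t i) = a (f ⟨t i, i, rfl⟩) := h3
  rw [h4, ← he]
  exact hf ⟨t i, i, rfl⟩

/-- `Au M` has finitely many orbits on tuples.

Proof. Fix `k`.  The pattern of `a : Fin k → V` is the triple of the functions `i ↦ M.c (a i)`,
`(i, j) ↦ M.s (a i) (a j)` and `(i, j) ↦ (a i = a j)` (a `Prop`); there are finitely many patterns (`I`, `T`,
`Prop` are finite).  Let `T` be a finite set with one tuple for every pattern which occurs (image of
`Finset.univ` of the patterns under a choice function; if `Fin k → V` is empty take the empty set).  If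
`a` and `t` have the same pattern then `t i ↦ a i` is a well-defined bijection of the finite ranges.
Let `ι = Set.range t` (finite) and define `a' : ι → V` as the inclusion and `b' : ι → V` by
`b' x = a i` for a chosen `i` with `t i = x`.  Both are injective and `Eqv (M.map a') (M.map b')`; `homog` gives
`σ ∈ Au M` with `σ (t i) = b' (t i) = a i`. -/
theorem olig_Au {I T V : Type} [Countable V] [Finite I] [Finite T] {D : TD I T} {M : Str I T V}
    (hM : Gen D M) : Olig (Au M) := by
  intro k
  classical
  obtain ⟨s', -, hs'⟩ := Set.exists_subset_bijOn Set.univ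
    (fun a : Fin k → V => ((fun i => M.c (a i), fun i j => M.s (a i) (a j), fun i j => a i = a j) :
      (Fin k → I) × (Fin k → Fin k → T) × (Fin k → Fin k → Prop)))
  have hfin : s'.Finite := by
    refine Set.Finite.of_finite_image ?_ hs'.injOn
    exact Set.toFinite _
  refine ⟨hfin.toFinset, fun a => ?_⟩
  obtain ⟨t, ht, hta⟩ := hs'.surjOn ⟨a, Set.mem_univ a, rfl⟩
  rw [Prod.mk.injEq, Prod.mk.injEq] at hta
  refine ⟨t, hfin.mem_toFinset.2 ht, A5_conj hM t a (fun i => congrFun hta.1 i)
    (fun i j => congrFun (congrFun hta.2.1 i) j) (fun i j => ?_)⟩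
  exact Iff.of_eq (congrFun (congrFun hta.2.2 i) j)

end Pool.Agent.Lib.H3R
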