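import Pool.Agent.Lib.H3R.A6a

/-! # A6b: ranks -/

namespace Pool.Agent.Lib.H3R

open Equiv Function

/-- A ranking gives an enumeration in increasing order.

Proof. Let `F = Finset.univ.image ρ` (with `Fintype.ofFinite ι`), `r = F.card`, and
`F.orderIsoOfFin rfl : Fin r ≃o F`; composed with the inverse of the bijection `ι ≃ F` given by `ρ`. -/
theorem exists_enum {ι : Type} [Finite ι] (ρ : ι → ℕ) (hρ : Injective ρ) :
    ∃ (r : ℕ) (e : Fin r ≃ ι), ∀ k l, k < l ↔ ρ (e k) < ρ (e l) := by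
  classical
  have := Fintype.ofFinite ι
  obtain ⟨F, hF⟩ : ∃ F : Finset ℕ, F = Finset.univ.image ρ := ⟨_, rfl⟩
  have hm : ∀ i : ι, ρ i ∈ F := fun i => by
    rw [hF]
    exact Finset.mem_image_of_mem _ (Finset.mem_univ i)
  have hb : Bijective (fun i : ι => (⟨ρ i, hm i⟩ : F)) := by
    refine ⟨fun a b h => hρ (congrArg Subtype.val h), ?_⟩
    rintro ⟨x, hx⟩
    have hx' := hx
    rw [hF] at hx'
    obtain ⟨i, -, hi⟩ := Finset.mem_image.1 hx'
    exact ⟨i, Subtype.ext hi⟩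
  refine ⟨F.card, (F.orderIsoOfFin rfl).toEquiv.trans (Equiv.ofBijective _ hb).symm, fun k l => ?_⟩
  have key : ∀ k, ρ (((F.orderIsoOfFin rfl).toEquiv.trans (Equiv.ofBijective _ hb).symm) k) =
      ((F.orderIsoOfFin rfl) k : ℕ) := fun k =>
    congrArg Subtype.val ((Equiv.ofBijective _ hb).apply_symm_apply ((F.orderIsoOfFin rfl) k))
  rw [key, key]
  exact ((F.orderIsoOfFin rfl).lt_iff_lt (x := k) (y := l)).symm

end Pool.Agent.Lib.H3R
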