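import Pool.Agent.Lib.H3R.A6a
import Pool.Agent.Lib.H3R.A6b

/-! # A6 (all parts): ranks -/
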