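import Pool.Agent.Lib.H3R.A1

/-! # A6a: ranks -/

namespace Pool.Agent.Lib.H3R

open Equiv Function

/-- Two rankings which differ only in the order of `u` and `v`.

Proof. Let `e : ι ≃ Fin n` (`Finite.equivFin`).  `ρ u = 0`, `ρ v = 1`, `ρ x = e x + 2` for the other `x`;
`ρ' u = 1`, `ρ' v = 0`, `ρ' x = e x + 2` for the other `x`. -/
theorem exists_rank2 {ι : Type} [Finite ι] (u v : ι) (h : u ≠ v) :
    ∃ ρ ρ' : ι → ℕ, Injective ρ ∧ Injective ρ' ∧ ρ u < ρ v ∧ ρ' v < ρ' u ∧
      ∀ x y, ¬ (x = u ∧ y = v) → ¬ (x = v ∧ y = u) → (ρ x < ρ y ↔ ρ' x < ρ' y) := by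
  classical
  obtain ⟨n, ⟨e⟩⟩ := Finite.exists_equiv_fin ι
  have hinj : ∀ x y : ι, (e x : ℕ) = (e y : ℕ) → x = y := fun x y hxy =>
    e.injective (Fin.ext hxy)
  refine ⟨fun x => if x = u then 0 else if x = v then 1 else (e x : ℕ) + 2,
    fun x => if x = u then 1 else if x = v then 0 else (e x : ℕ) + 2, ?_, ?_, ?_, ?_, ?_⟩
  · intro x y hxy
    dsimp only at hxy
    split_ifs at hxy with h1 h2 h3 h4 h5 h6 h7 h8
    all_goals first
      | omega
      | (subst_vars; rfl)
      | exact hinj x y (by omega)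
  · intro x y hxy
    dsimp only at hxy
    split_ifs at hxy with h1 h2 h3 h4 h5 h6 h7 h8
    all_goals first
      | omega
      | (subst_vars; rfl)
      | exact hinj x y (by omega)
  · simp [h.symm]
  · simp [h.symm]
  · intro x y h1 h2
    dsimp only
    by_cases hxu : x = u
    · by_cases hyu : y = u
      · simp [hxu, hyu]
      · by_cases hyv : y = v
        · exact absurd ⟨hxu, hyv⟩ h1
        · simp [hxu, hyu, hyv]
    · by_cases hxv : x = v
      · by_cases hyu : y = u
        · exact absurd ⟨hxv, hyu⟩ h2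
        · by_cases hyv : y = v
          · simp [hxv, hyv]
          · simp only [if_neg hxu, if_pos hxv, if_neg hyu, if_neg hyv]
            constructor <;> intro _ <;> omega
      · by_cases hyu : y = u
        · simp [hxu, hxv, hyu]
        · by_cases hyv : y = v
          · simp only [if_neg hxu, if_neg hxv, if_neg hyu, if_pos hyv]
            constructor <;> intro _ <;> omega
          · simp [hxu, hxv, hyu, hyv]

/-- There is a ranking.  Proof. `Finite.equivFin`. -/
theorem exists_rank (ι : Type) [Finite ι] : ∃ ρ : ι → ℕ, Injective ρ := by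
  obtain ⟨n, ⟨e⟩⟩ := Finite.exists_equiv_fin ι
  exact ⟨fun x => (e x : ℕ), fun x y hxy => e.injective (Fin.ext hxy)⟩

end Pool.Agent.Lib.H3R
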