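import Pool.Agent.Lib.H3R.A1

/-! # B0: partite structures -/

namespace Pool.Agent.Lib.H3R

open Equiv Function

/-- Partite structures: `A.c x` is the part of `x`, `f p` the colour of the part `p`; only the types of
the pairs `(x, y)` with `R (A.c x) (A.c y)` matter. -/
def PV {Q I T X : Type} (D : TD I T) (f : Q → I) (R : Q → Q → Prop) (A : Str Q T X) : Prop :=
  ∀ x y, R (A.c x) (A.c y) → D.src (A.s x y) = f (A.c x) ∧ D.tgt (A.s x y) = f (A.c y)

/-- Morphisms of partite structures. -/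
def Mor {Q T X Y : Type} (R : Q → Q → Prop) (A : Str Q T X) (B : Str Q T Y) (φ : X → Y) : Prop :=
  (∀ x, B.c (φ x) = A.c x) ∧ ∀ x y, R (A.c x) (A.c y) → B.s (φ x) (φ y) = A.s x y

/-- `χ ∘ φ` is constant on the pairs of type `(p, q, a)`. -/
def Mono {Q T X Y Γ : Type} (A : Str Q T X) (χ : Y → Y → Γ) (φ : X → Y) (t : Q × Q × T) : Prop :=
  ∀ x y x' y', A.c x = t.1 → A.c y = t.2.1 → A.s x y = t.2.2 → A.c x' = t.1 → A.c y' = t.2.1 →
    A.s x' y' = t.2.2 → χ (φ x) (φ y) = χ (φ x') (φ y')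

theorem Mor.comp {Q T X Y Z : Type} {R : Q → Q → Prop} {A : Str Q T X} {B : Str Q T Y}
    {C : Str Q T Z} {φ : X → Y} {φ' : Y → Z} (h : Mor R A B φ) (h' : Mor R B C φ') :
    Mor R A C (fun x => φ' (φ x)) := by
  refine ⟨fun x => (h'.1 _).trans (h.1 x), fun x y hxy => ?_⟩
  rw [h'.2 _ _ (by rw [h.1, h.1]; exact hxy), h.2 _ _ hxy]

end Pool.Agent.Lib.H3R
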