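import Pool.Agent.Lib.H3R.B0

/-! # B1: the partite lemma -/

namespace Pool.Agent.Lib.H3R

open Equiv Function Combinatorics

/-- The type of a pair of functions. -/
private noncomputable def b1S {T J X : Type} (s : X → X → T) (a : T) (p p' : J → X) : T :=
  open Classical in if h : ∃ i, s (p i) (p' i) ≠ a then s (p h.choose) (p' h.choose) else a

/-- The vertices of the product structure. -/
private abbrev B1Y (J X₁ X₂ L X : Type) : Type := (J → X₁) ⊕ ((J → X₂) ⊕ (L × X))

/-- The point of `X` which represents a vertex at the coordinate `i`. -/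
private def b1ev {J X₁ X₂ L X : Type} (v₁ : X₁ → X) (v₂ : X₂ → X) (i : J) : B1Y J X₁ X₂ L X → X
  | Sum.inl p => v₁ (p i)
  | Sum.inr (Sum.inl p) => v₂ (p i)
  | Sum.inr (Sum.inr z) => z.2

/-- The types of the pairs of the product structure. -/
private noncomputable def b1s {T J X₁ X₂ L X : Type} (v₁ : X₁ → X) (v₂ : X₂ → X) (i₀ : L → J)
    (s : X → X → T) (a : T) : B1Y J X₁ X₂ L X → B1Y J X₁ X₂ L X → T
  | Sum.inl p, Sum.inr (Sum.inl p') => b1S s a (fun i => v₁ (p i)) (fun i => v₂ (p' i))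
  | Sum.inr (Sum.inr z), y => s z.2 (b1ev v₁ v₂ (i₀ z.1) y)
  | Sum.inl p, Sum.inr (Sum.inr z) => s (v₁ (p (i₀ z.1))) z.2
  | Sum.inr (Sum.inl p), Sum.inr (Sum.inr z) => s (v₂ (p (i₀ z.1))) z.2
  | Sum.inl _, Sum.inl _ => a
  | Sum.inr (Sum.inl _), Sum.inl _ => a
  | Sum.inr (Sum.inl _), Sum.inr (Sum.inl _) => a

/-- **Partite lemma** (Hales-Jewett).  For one pair of parts `t.1, t.2.1` with `R t.1 t.2.1` and one type
`t.2.2`.

Proof. Write `q₁ = t.1`, `q₂ = t.2.1`, `a = t.2.2`, and let `E` be the type of the pairs `e : X × X` with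
`A.c e.1 = q₁`, `A.c e.2 = q₂`, `A.s e.1 e.2 = a`.  If `E` is empty or `Γ` is empty, take `Y = X`, `B = A`,
`φ = id` (`Mono` holds trivially).  Otherwise let `X₁ = {x // A.c x = q₁}`, `X₂ = {x // A.c x = q₂}` and let `J`
be the finite type given by `Combinatorics.Line.exists_mono_in_high_dimension E Γ`: every
`C : (J → E) → Γ` has a monochromatic line `L : Line E J`.  (`J` is nonempty: lines exist, and
`L.proper : ∃ i, L.idxFun i = none`.)  Write `i₀ L = L.proper.choose`.  Put
`Y = (J → X₁) ⊕ ((J → X₂) ⊕ (Line E J × X))` (finite; `Line E J` is finite because `idxFun` is injective), and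
define `B.c` as `q₁`, `q₂`, and `A.c x` for `(L, x)`.  Types:
`B.s p p' = A.s (p i) (p' i)` for a chosen `i` with `A.s (p i) (p' i) ≠ a` if there is one, otherwise for
a fixed `i : J`, where `p : J → X₁`, `p' : J → X₂`;
`B.s p (L, x) = A.s (p (i₀ L)) x`, `B.s (L, x) p = A.s x (p (i₀ L))` for `p` in `J → X₁` or `J → X₂`;
`B.s (L, x) (L', y) = A.s x y`; all other types are `a` (there `R` fails by `hR`).
`PV` is clear from `hA`.  Given `χ`, let `C w = χ (fun i => (w i).1) (fun i => (w i).2)` (first and second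
coordinates as elements of `J → X₁` and `J → X₂`), and let `L` be a monochromatic line.
Let `φ x` be, for `A.c x = q₁`: the function `i ↦ x` if `L.idxFun i = none` and `i ↦` first coordinate of `e`
if `L.idxFun i = some e`; similarly (second coordinate) for `A.c x = q₂`; and `(L, x)` otherwise.
`Mor`: `B.c (φ x) = A.c x`.  Let `R (A.c x) (A.c y)` (so, by `hR`, `(A.c x, A.c y)` is not `(q₂, q₁)`, `(q₁, q₁)`,
`(q₂, q₂)`).  If `A.c x = q₁`, `A.c y = q₂`: the coordinates with `idxFun i = none` give `A.s x y`, the others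
give `A.s e.1 e.2 = a`; so `B.s (φ x) (φ y) = A.s x y` whether it is `a` or not.  The other cases follow
from `φ x (i₀ L) = x`.  `Mono`: for `e = (x, y) ∈ E` the functions `φ x`, `φ y` are the first and second
coordinates of the point `L e` of the line, so `χ (φ x) (φ y) = C (L e)` does not depend on `e`. -/
theorem partite_step {Q I T Γ X : Type} [Finite X] [Finite Γ] (D : TD I T) (f : Q → I)
    (R : Q → Q → Prop) (hR : ∀ p q, R p q → ¬ R q p) (A : Str Q T X) (hA : PV D f R A)
    (t : Q × Q × T) (ht : R t.1 t.2.1) :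
    ∃ (Y : Type) (_ : Finite Y) (B : Str Q T Y), PV D f R B ∧
      ∀ χ : Y → Y → Γ, ∃ φ : X → Y, Mor R A B φ ∧ Mono A χ φ t := by
  classical
  obtain ⟨q₁, q₂, a⟩ := t
  simp only at ht
  by_cases hE : Nonempty {e : X × X // A.c e.1 = q₁ ∧ A.c e.2 = q₂ ∧ A.s e.1 e.2 = a} ∧ Nonempty Γ
  swap
  · refine ⟨X, inferInstance, A, hA, fun χ => ⟨id, ⟨fun _ => rfl, fun _ _ _ => rfl⟩, ?_⟩⟩
    intro x y x' y' h1 h2 h3 _ _ _
    exact absurd ⟨⟨⟨(x, y), h1, h2, h3⟩⟩, ⟨χ x y⟩⟩ hE
  obtain ⟨⟨e₀⟩, -⟩ := hE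
  obtain ⟨J, hJ, hline⟩ := Line.exists_mono_in_high_dimension
    {e : X × X // A.c e.1 = q₁ ∧ A.c e.2 = q₂ ∧ A.s e.1 e.2 = a} Γ
  have hfin : Finite (Line {e : X × X // A.c e.1 = q₁ ∧ A.c e.2 = q₂ ∧ A.s e.1 e.2 = a} J) := by
    refine Finite.of_injective (fun L => L.idxFun) ?_
    intro L L' h
    cases L
    cases L'
    simp only at h
    subst h
    rfl
  have ha : D.src a = f q₁ ∧ D.tgt a = f q₂ := by
    have h1 := hA e₀.1.1 e₀.1.2 (by rw [e₀.2.1, e₀.2.2.1]; exact ht)
    rw [e₀.2.1, e₀.2.2.1, e₀.2.2.2] at h1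
    exact h1
  have hq11 : ¬ R q₁ q₁ := fun h => hR _ _ h h
  have hq22 : ¬ R q₂ q₂ := fun h => hR _ _ h h
  have hq21 : ¬ R q₂ q₁ := hR _ _ ht
  have hne : q₁ ≠ q₂ := fun h => hq11 (by rw [h] at ht ⊢; exact ht)
  obtain ⟨v₁, hv₁⟩ : ∃ v₁ : {x // A.c x = q₁} → X, v₁ = Subtype.val := ⟨_, rfl⟩
  obtain ⟨v₂, hv₂⟩ : ∃ v₂ : {x // A.c x = q₂} → X, v₂ = Subtype.val := ⟨_, rfl⟩
  have hv₁c : ∀ x, A.c (v₁ x) = q₁ := by rw [hv₁]; exact fun x => x.2
  have hv₂c : ∀ x, A.c (v₂ x) = q₂ := by rw [hv₂]; exact fun x => x.2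
  let i₀ : Line {e : X × X // A.c e.1 = q₁ ∧ A.c e.2 = q₂ ∧ A.s e.1 e.2 = a} J → J :=
    fun L => L.proper.choose
  have hi₀ : ∀ L : Line {e : X × X // A.c e.1 = q₁ ∧ A.c e.2 = q₂ ∧ A.s e.1 e.2 = a} J,
      L.idxFun (i₀ L) = none := fun L => L.proper.choose_spec
  let B : Str Q T (B1Y J {x // A.c x = q₁} {x // A.c x = q₂}
      (Line {e : X × X // A.c e.1 = q₁ ∧ A.c e.2 = q₂ ∧ A.s e.1 e.2 = a} J) X) :=
    ⟨Sum.elim (fun _ => q₁) (Sum.elim (fun _ => q₂) (fun z => A.c z.2)), b1s v₁ v₂ i₀ A.s a⟩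
  refine ⟨_, inferInstance, B, ?_, ?_⟩
  · -- the types fit
    have hev : ∀ (i : J) y, A.c (b1ev v₁ v₂ i y) = B.c y := by
      intro i y
      rcases y with p | p | z
      · exact hv₁c _
      · exact hv₂c _
      · rfl
    intro y y' hyy
    rcases y with p | p | z
    · rcases y' with p' | p' | z'
      · exact absurd hyy hq11
      · change D.src (b1S A.s a (fun i => v₁ (p i)) (fun i => v₂ (p' i))) = f q₁ ∧
          D.tgt (b1S A.s a (fun i => v₁ (p i)) (fun i => v₂ (p' i))) = f q₂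
        unfold b1S
        split_ifs with h
        · have h1 := hA (v₁ (p h.choose)) (v₂ (p' h.choose)) (by rw [hv₁c, hv₂c]; exact ht)
          rw [hv₁c, hv₂c] at h1
          exact h1
        · exact ha
      · have h1 := hA (v₁ (p (i₀ z'.1))) z'.2 (by rw [hv₁c]; exact hyy)
        rw [hv₁c] at h1
        exact h1
    · rcases y' with p' | p' | z'
      · exact absurd hyy hq21
      · exact absurd hyy hq22
      · have h1 := hA (v₂ (p (i₀ z'.1))) z'.2 (by rw [hv₂c]; exact hyy)
        rw [hv₂c] at h1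
        exact h1
    · have h1 := hA z.2 (b1ev v₁ v₂ (i₀ z.1) y') (by rw [hev]; exact hyy)
      rw [hev] at h1
      exact h1
  · intro χ
    obtain ⟨L, c, hc⟩ := hline (fun w => χ (Sum.inl fun i => ⟨(w i).1.1, (w i).2.1⟩)
      (Sum.inr (Sum.inl fun i => ⟨(w i).1.2, (w i).2.2.1⟩)))
    let φ : X → B1Y J {x // A.c x = q₁} {x // A.c x = q₂}
      (Line {e : X × X // A.c e.1 = q₁ ∧ A.c e.2 = q₂ ∧ A.s e.1 e.2 = a} J) X := fun x =>
      if h1 : A.c x = q₁ then Sum.inl (fun i => (L.idxFun i).elim ⟨x, h1⟩ (fun e => ⟨e.1.1, e.2.1⟩))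
      else if h2 : A.c x = q₂ then
        Sum.inr (Sum.inl (fun i => (L.idxFun i).elim ⟨x, h2⟩ (fun e => ⟨e.1.2, e.2.2.1⟩)))
      else Sum.inr (Sum.inr (L, x))
    have hφ1 : ∀ x (h1 : A.c x = q₁), φ x =
        Sum.inl (fun i => (L.idxFun i).elim ⟨x, h1⟩ (fun e => ⟨e.1.1, e.2.1⟩)) := by
      intro x h1
      exact dif_pos h1
    have hφ2 : ∀ x (h2 : A.c x = q₂), φ x =
        Sum.inr (Sum.inl (fun i => (L.idxFun i).elim ⟨x, h2⟩ (fun e => ⟨e.1.2, e.2.2.1⟩))) := by
      intro x h2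
      have h1 : ¬ A.c x = q₁ := fun h => hne (h.symm.trans h2)
      exact (dif_neg h1).trans (dif_pos h2)
    have hφ3 : ∀ x, A.c x ≠ q₁ → A.c x ≠ q₂ → φ x = Sum.inr (Sum.inr (L, x)) := by
      intro x h1 h2
      exact (dif_neg h1).trans (dif_neg h2)
    refine ⟨φ, ⟨?_, ?_⟩, ?_⟩
    · intro x
      by_cases h1 : A.c x = q₁
      · rw [hφ1 x h1, h1]
        rfl
      · by_cases h2 : A.c x = q₂
        · rw [hφ2 x h2, h2]
          rfl
        · rw [hφ3 x h1 h2]
          rfl
    · have hw : ∀ x, b1ev v₁ v₂ (i₀ L) (φ x) = x := by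
        intro x
        by_cases h1 : A.c x = q₁
        · rw [hφ1 x h1]
          change v₁ ((L.idxFun (i₀ L)).elim ⟨x, h1⟩ (fun e => ⟨e.1.1, e.2.1⟩)) = x
          rw [hi₀, hv₁]
          rfl
        · by_cases h2 : A.c x = q₂
          · rw [hφ2 x h2]
            change v₂ ((L.idxFun (i₀ L)).elim ⟨x, h2⟩ (fun e => ⟨e.1.2, e.2.2.1⟩)) = x
            rw [hi₀, hv₂]
            rfl
          · rw [hφ3 x h1 h2]
            rfl
      intro x y hxy
      by_cases hx1 : A.c x = q₁
      · by_cases hy1 : A.c y = q₁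
        · rw [hx1, hy1] at hxy
          exact absurd hxy hq11
        · by_cases hy2 : A.c y = q₂
          · rw [hφ1 x hx1, hφ2 y hy2]
            change b1S A.s a
              (fun i => v₁ ((L.idxFun i).elim ⟨x, hx1⟩ (fun e => ⟨e.1.1, e.2.1⟩)))
              (fun i => v₂ ((L.idxFun i).elim ⟨y, hy2⟩ (fun e => ⟨e.1.2, e.2.2.1⟩))) = A.s x y
            have hval : ∀ i, A.s (v₁ ((L.idxFun i).elim ⟨x, hx1⟩ (fun e => ⟨e.1.1, e.2.1⟩)))
                (v₂ ((L.idxFun i).elim ⟨y, hy2⟩ (fun e => ⟨e.1.2, e.2.2.1⟩))) =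
                (L.idxFun i).elim (A.s x y) (fun _ => a) := by
              intro i
              rw [hv₁, hv₂]
              cases L.idxFun i with
              | none => rfl
              | some e => exact e.2.2.2
            unfold b1S
            split_ifs with h
            · have h1 := h.choose_spec
              rw [hval] at h1 ⊢
              cases h2 : L.idxFun h.choose with
              | none => rfl
              | some e =>
                rw [h2] at h1
                exact absurd rfl h1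
            · push Not at h
              have h1 := h (i₀ L)
              rw [hval, hi₀] at h1
              exact h1.symm
          · have hwx := hw x
            rw [hφ1 x hx1] at hwx ⊢
            rw [hφ3 y hy1 hy2]
            exact congrArg (fun z => A.s z y) hwx
      · by_cases hx2 : A.c x = q₂
        · by_cases hy1 : A.c y = q₁
          · rw [hx2, hy1] at hxy
            exact absurd hxy hq21
          · by_cases hy2 : A.c y = q₂
            · rw [hx2, hy2] at hxy
              exact absurd hxy hq22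
            · have hwx := hw x
              rw [hφ2 x hx2] at hwx ⊢
              rw [hφ3 y hy1 hy2]
              exact congrArg (fun z => A.s z y) hwx
        · rw [hφ3 x hx1 hx2]
          change A.s x (b1ev v₁ v₂ (i₀ L) (φ y)) = A.s x y
          rw [hw]
    · intro x y x' y' h1 h2 h3 h1' h2' h3'
      have key : ∀ (x y : X) (h1 : A.c x = q₁) (h2 : A.c y = q₂) (h3 : A.s x y = a),
          χ (φ x) (φ y) = c := by
        intro x y h1 h2 h3
        rw [hφ1 x h1, hφ2 y h2, ← hc ⟨(x, y), h1, h2, h3⟩]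
        have e1 : (fun i => ((L.idxFun i).elim ⟨x, h1⟩ (fun e => ⟨e.1.1, e.2.1⟩) :
            {x // A.c x = q₁})) = fun i => ⟨(L ⟨(x, y), h1, h2, h3⟩ i).1.1,
              (L ⟨(x, y), h1, h2, h3⟩ i).2.1⟩ := by
          funext i
          apply Subtype.ext
          change (_ : {x // A.c x = q₁}).1 = (L ⟨(x, y), h1, h2, h3⟩ i).1.1
          rw [Line.apply_def]
          beta_reduce
          cases L.idxFun i with
          | none => rfl
          | some e => rfl
        have e2 : (fun i => ((L.idxFun i).elim ⟨y, h2⟩ (fun e => ⟨e.1.2, e.2.2.1⟩) :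
            {x // A.c x = q₂})) = fun i => ⟨(L ⟨(x, y), h1, h2, h3⟩ i).1.2,
              (L ⟨(x, y), h1, h2, h3⟩ i).2.2.1⟩ := by
          funext i
          apply Subtype.ext
          change (_ : {x // A.c x = q₂}).1 = (L ⟨(x, y), h1, h2, h3⟩ i).1.2
          rw [Line.apply_def]
          beta_reduce
          cases L.idxFun i with
          | none => rfl
          | some e => rfl
        rw [e1, e2]
      exact (key x y h1 h2 h3).trans (key x' y' h1' h2' h3').symm

end Pool.Agent.Lib.H3R
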