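import Pool.Agent.Lib.H3R.B2a

/-! # B2b: all pairs of parts -/

namespace Pool.Agent.Lib.H3R

open Equiv Function

/-- Proof. `partite_list` for a list of all triples `t : Q × Q × T` with `R t.1 t.2.1`
(`(Finset.univ.filter _).toList`, classical).  `Ψ p q a = χ (φ x) (φ y)` for a chosen pair with
`A.c x = p`, `A.c y = q`, `A.s x y = a`, if there is one (otherwise anything, `Γ` is nonempty). -/
theorem partite_all {Q I T Γ X : Type} [Finite Q] [Finite T] [Finite X] [Finite Γ] [Nonempty Γ]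
    (D : TD I T) (f : Q → I) (R : Q → Q → Prop) (hR : ∀ p q, R p q → ¬ R q p) (A : Str Q T X)
    (hA : PV D f R A) :
    ∃ (Y : Type) (_ : Finite Y) (B : Str Q T Y), PV D f R B ∧
      ∀ χ : Y → Y → Γ, ∃ φ : X → Y, Mor R A B φ ∧ ∃ Ψ : Q → Q → T → Γ,
        ∀ x y, R (A.c x) (A.c y) → χ (φ x) (φ y) = Ψ (A.c x) (A.c y) (A.s x y) := by
  classical
  cases nonempty_fintype Q
  cases nonempty_fintype T
  obtain ⟨Y, hY, B, hB, hχ⟩ := partite_list (Γ := Γ) D f R hR A hA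
    ((Finset.univ.filter fun t : Q × Q × T => R t.1 t.2.1).toList) (fun t ht => by
      rw [Finset.mem_toList] at ht
      exact (Finset.mem_filter.1 ht).2)
  refine ⟨Y, hY, B, hB, fun χ => ?_⟩
  obtain ⟨φ, hφ, hm⟩ := hχ χ
  refine ⟨φ, hφ, fun p q a =>
    if h : ∃ z : X × X, A.c z.1 = p ∧ A.c z.2 = q ∧ A.s z.1 z.2 = a then
      χ (φ h.choose.1) (φ h.choose.2) else Classical.arbitrary Γ, fun x y hxy => ?_⟩
  have h : ∃ z : X × X, A.c z.1 = A.c x ∧ A.c z.2 = A.c y ∧ A.s z.1 z.2 = A.s x y :=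
    ⟨(x, y), rfl, rfl, rfl⟩
  beta_reduce
  rw [dif_pos h]
  have ht : ((A.c x, A.c y, A.s x y) : Q × Q × T) ∈
      (Finset.univ.filter fun t : Q × Q × T => R t.1 t.2.1).toList := by
    rw [Finset.mem_toList]
    exact Finset.mem_filter.2 ⟨Finset.mem_univ _, hxy⟩
  exact hm _ ht x y _ _ rfl rfl rfl h.choose_spec.1 h.choose_spec.2.1 h.choose_spec.2.2

end Pool.Agent.Lib.H3R
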