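import Pool.Agent.Lib.H3R.B1

/-! # B2a: all pairs of parts -/

namespace Pool.Agent.Lib.H3R

open Equiv Function

/-- Proof. Induction on `l`.  `l = []`: `Y = X`, `B = A`, `φ = id`.  `l = t :: l'`: let `(Y, B)` be given by the
induction hypothesis for `A` and `l'`, and `(Z, C)` by `partite_step` for `B` and `t`.  Given `χ` on `Z` let
`φ' : Y → Z` be the morphism with `Mono B χ φ' t`, and let `φ : X → Y` be the morphism of the induction
hypothesis for the colouring `fun y y' => χ (φ' y) (φ' y')`.  Then `fun x => φ' (φ x)` is a morphism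
(`Mor.comp`); for the triples of `l'` the claim is that of the induction hypothesis; for `t`: pairs
`(x, y)` of type `t` in `A` are mapped by `φ` to pairs of type `t` in `B` (`R t.1 t.2.1`). -/
theorem partite_list {Q I T Γ X : Type} [Finite X] [Finite Γ] (D : TD I T) (f : Q → I)
    (R : Q → Q → Prop) (hR : ∀ p q, R p q → ¬ R q p) (A : Str Q T X) (hA : PV D f R A)
    (l : List (Q × Q × T)) (hl : ∀ t ∈ l, R t.1 t.2.1) :
    ∃ (Y : Type) (_ : Finite Y) (B : Str Q T Y), PV D f R B ∧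
      ∀ χ : Y → Y → Γ, ∃ φ : X → Y, Mor R A B φ ∧ ∀ t ∈ l, Mono A χ φ t := by
  induction l with
  | nil =>
    exact ⟨X, inferInstance, A, hA, fun χ => ⟨id, ⟨fun _ => rfl, fun _ _ _ => rfl⟩,
      fun t ht => by simp at ht⟩⟩
  | cons t l ih =>
    obtain ⟨Y, hY, B, hB, h1⟩ := ih (fun t ht => hl t (List.mem_cons_of_mem _ ht))
    obtain ⟨Z, hZ, C, hC, h2⟩ := partite_step (Γ := Γ) D f R hR B hB t (hl t List.mem_cons_self)
    refine ⟨Z, hZ, C, hC, fun χ => ?_⟩
    obtain ⟨φ', hφ', hm'⟩ := h2 χ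
    obtain ⟨φ, hφ, hm⟩ := h1 (fun y y' => χ (φ' y) (φ' y'))
    refine ⟨fun x => φ' (φ x), hφ.comp hφ', fun s hs => ?_⟩
    rcases List.mem_cons.1 hs with rfl | hs
    · intro x y x' y' e1 e2 e3 e4 e5 e6
      have hR1 : R (A.c x) (A.c y) := by rw [e1, e2]; exact hl _ List.mem_cons_self
      have hR2 : R (A.c x') (A.c y') := by rw [e4, e5]; exact hl _ List.mem_cons_self
      exact hm' (φ x) (φ y) (φ x') (φ y') ((hφ.1 x).trans e1) ((hφ.1 y).trans e2)
        ((hφ.2 x y hR1).trans e3) ((hφ.1 x').trans e4) ((hφ.1 y').trans e5)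
        ((hφ.2 x' y' hR2).trans e6)
    · exact hm s hs

end Pool.Agent.Lib.H3R
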