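import Pool.Agent.Lib.H3R.B3a
import Mathlib.Combinatorics.Pigeonhole

/-! # B3b: Ramsey's theorem for pairs -/

namespace Pool.Agent.Lib.H3R

open Equiv Function

/-- Ramsey's theorem for pairs with finitely many colours.

Proof. Take `m = Nat.card Δ * r` and `N` from `end_homog` for `m`; let `j`, `d` be an end-homogeneous
sequence in `S = Finset.range N` (extend `χ` to `ℕ` by a constant outside `Fin N`).  By the pigeonhole
principle (`Finset.exists_le_card_fiber_of_mul_le_card_of_maps_to` or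
`Fintype.exists_le_card_fiber_of_mul_le_card`) some value `d₀` is taken by `d` on a set `F` of at least `r`
elements of `Fin m`; compose `j` with the increasing enumeration of `r` elements of `F`
(`Finset.orderEmbOfCardLe`). -/
theorem ramsey_pairs (Δ : Type) [Finite Δ] [Nonempty Δ] (r : ℕ) :
    ∃ N : ℕ, ∀ χ : Fin N → Fin N → Δ, ∃ j : Fin r → Fin N, StrictMono j ∧
      ∃ d : Δ, ∀ k l, k < l → χ (j k) (j l) = d := by
  classical
  have := Fintype.ofFinite Δ
  obtain ⟨N, hN⟩ := end_homog Δ (Fintype.card Δ * r)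
  refine ⟨N, fun χ => ?_⟩
  let χ' : ℕ → ℕ → Δ := fun a b =>
    if h : a < N ∧ b < N then χ ⟨a, h.1⟩ ⟨b, h.2⟩ else Classical.arbitrary Δ
  obtain ⟨j, hj, hjS, d, hd⟩ := hN χ' (Finset.range N) (Finset.card_range N).ge
  have hlt : ∀ k, j k < N := fun k => Finset.mem_range.1 (hjS k)
  obtain ⟨d₀, hd₀⟩ := Fintype.exists_le_card_fiber_of_mul_le_card (f := d) (n := r)
    (by rw [Fintype.card_fin])
  have he : ∀ i, d (Finset.orderEmbOfCardLe _ hd₀ i) = d₀ := fun i =>
    (Finset.mem_filter.1 (Finset.orderEmbOfCardLe_mem _ hd₀ i)).2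
  refine ⟨fun i => ⟨j (Finset.orderEmbOfCardLe _ hd₀ i), hlt _⟩, ?_, d₀, ?_⟩
  · intro a b hab
    exact hj ((Finset.orderEmbOfCardLe _ hd₀).strictMono hab)
  · intro k l hkl
    have h1 := hd _ _ ((Finset.orderEmbOfCardLe _ hd₀).strictMono hkl)
    rw [he k] at h1
    have h2 : χ' (j (Finset.orderEmbOfCardLe _ hd₀ k)) (j (Finset.orderEmbOfCardLe _ hd₀ l)) =
        χ ⟨j (Finset.orderEmbOfCardLe _ hd₀ k), hlt _⟩
          ⟨j (Finset.orderEmbOfCardLe _ hd₀ l), hlt _⟩ := dif_pos ⟨hlt _, hlt _⟩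
    rw [← h2, h1]

end Pool.Agent.Lib.H3R
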