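import Pool.Agent.Lib.H3R.B0

/-! # B3a: Ramsey's theorem for pairs -/

namespace Pool.Agent.Lib.H3R

open Equiv Function

/-- End-homogeneous sequences.

Proof. Induction on `m`.  `m = 0`: `N = 0`.  Let `N` be good for `m`; take `N' = Nat.card Δ * N + 1`.  Let `S` have
at least `N'` elements, `x = S.min'`.  The sets `{y ∈ S | x < y, χ x y = d}`, `d : Δ`, partition `S \ {x}`, so
one of them has at least `N` elements; it contains a sequence `j` for `m`; take `Fin.cons x j`. -/
theorem end_homog (Δ : Type) [Finite Δ] [Nonempty Δ] (m : ℕ) :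
    ∃ N : ℕ, ∀ (χ : ℕ → ℕ → Δ) (S : Finset ℕ), N ≤ S.card → ∃ j : Fin m → ℕ, StrictMono j ∧
      (∀ k, j k ∈ S) ∧ ∃ d : Fin m → Δ, ∀ k l, k < l → χ (j k) (j l) = d k := by
  classical
  have : Fintype Δ := Fintype.ofFinite Δ
  induction m with
  | zero =>
    refine ⟨0, fun χ S _ => ⟨fun k => k.elim0, fun a => a.elim0, fun k => k.elim0,
      fun k => k.elim0, fun k => k.elim0⟩⟩
  | succ m ih =>
    obtain ⟨N, hN⟩ := ih
    refine ⟨Fintype.card Δ * N + 1, fun χ S hS => ?_⟩
    have hne : S.Nonempty := by
      rw [← Finset.card_pos]; omega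
    set x := S.min' hne with hx
    have hxS : x ∈ S := S.min'_mem hne
    have hcard : Fintype.card Δ * N ≤ (S.erase x).card := by
      rw [Finset.card_erase_of_mem hxS]; omega
    obtain ⟨d, hd⟩ : ∃ d : Δ, N ≤ ((S.erase x).filter (fun y => χ x y = d)).card := by
      by_contra hcon
      push Not at hcon
      have hsum := Finset.card_eq_sum_card_fiberwise (s := S.erase x) (t := (Finset.univ : Finset Δ))
        (f := fun y => χ x y) (fun y _ => Finset.mem_coe.2 (Finset.mem_univ _))
      rcases Nat.eq_zero_or_pos N with h0 | h0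
      · have := hcon (Classical.arbitrary Δ); omega
      · have hlt : ∑ b : Δ, ((S.erase x).filter (fun y => χ x y = b)).card < ∑ _b : Δ, N :=
          Finset.sum_lt_sum_of_nonempty Finset.univ_nonempty (fun b _ => hcon b)
        rw [Finset.sum_const, Finset.card_univ, smul_eq_mul] at hlt
        omega
    obtain ⟨j, hj, hjS, d', hd'⟩ := hN χ _ hd
    have hxj : ∀ k, x < j k := by
      intro k
      have h1 := Finset.mem_filter.1 (hjS k)
      have h2 := Finset.mem_erase.1 h1.1
      exact lt_of_le_of_ne (S.min'_le _ h2.2) (Ne.symm h2.1)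
    refine ⟨Fin.cons x j, ?_, ?_, Fin.cons d d', ?_⟩
    · intro a b hab
      refine Fin.cases ?_ (fun a hab => ?_) a hab
      · intro hab
        refine Fin.cases (fun h => absurd h (lt_irrefl _)) (fun b _ => ?_) b hab
        simpa using hxj b
      · refine Fin.cases (fun h => absurd h (Fin.not_lt_zero _)) (fun b h => ?_) b hab
        simpa using hj (Fin.succ_lt_succ_iff.1 h)
    · intro k
      refine Fin.cases ?_ (fun k => ?_) k
      · simpa using hxS
      · have h1 := Finset.mem_filter.1 (hjS k)
        have h2 := Finset.mem_erase.1 h1.1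
        simpa using h2.2
    · intro k l hkl
      refine Fin.cases ?_ (fun k hkl => ?_) k hkl
      · intro hkl
        refine Fin.cases (fun h => absurd h (lt_irrefl _)) (fun l _ => ?_) l hkl
        have h1 := Finset.mem_filter.1 (hjS l)
        simpa using h1.2
      · refine Fin.cases (fun h => absurd h (Fin.not_lt_zero _)) (fun l h => ?_) l hkl
        simpa using hd' k l (Fin.succ_lt_succ_iff.1 h)

end Pool.Agent.Lib.H3R
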