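import Pool.Agent.Lib.H3R.B4a

/-! # B4b: the Ramsey theorem for structures, colourings of pairs -/

namespace Pool.Agent.Lib.H3R

open Equiv Function

/-- **Ramsey theorem** for structures, colourings of pairs: for every `W` there is `A` such that for every
colouring `χ` of the pairs of `A` there is a copy of `W` on which the colour of a pair `k < l` depends
only on the colours and the type.

Proof. Let `Δ = K → K → T → Γ` (finite, nonempty), `N` from `ramsey_pairs Δ r`, `Q = Fin N × K`, `R p q` iff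
`p.1 < q.1`, `f q = pr q.2`.  Let `X₀` be the finite type of the pairs `(j, k)`, `j` a strictly increasing map
`Fin r → Fin N`, `k : Fin r`; let `A₀` be the partite structure on `X₀` with the parts `(j k, W.c k)` and
the types `W.s k l` for the pairs `(j, k), (j, l)` with the same `j`, and a type chosen with `D.ex` (from
`pr (W.c k)` to `pr (W.c l)`) for different `j`, `j'`.  `PV` holds (if `j k < j l` then `k ≠ l`).  Let
`(Y, B)` be given by `partite_all`, and `A` by `exists_str` with `k = Prod.snd`.  Given `χ`, let `φ`, `Ψ` be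
as in `partite_all`; by the choice of `N` there are `j` increasing and `d : Δ` with
`Ψ (j k, κ) (j l, κ') a = d κ κ' a` for all `k < l` and all `κ`, `κ'`, `a`.  Put `e k = φ (j, k)`.  The part of
`e k` is `(j k, W.c k)`, so `e` is injective and `A.c (e k) = W.c k`; for `k < l`:
`A.s (e k) (e l) = B.s _ _ = A₀.s _ _ = W.s k l`; for `l < k` use the validity of `A` and `W`; and
`χ (e k) (e l) = Ψ _ _ (W.s k l) = d (W.c k) (W.c l) (W.s k l)`. -/
theorem ram_pairs {K I T Γ : Type} [Finite K] [Finite T] [Finite Γ] [Nonempty Γ] (D : TD I T)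
    (pr : K → I) (r : ℕ) (W : Str K T (Fin r)) (hW : Val D (W.under pr)) :
    ∃ (X : Type) (_ : Finite X) (A : Str K T X), Val D (A.under pr) ∧
      ∀ χ : X → X → Γ, ∃ e : Fin r → X, Injective e ∧ Eqv (A.map e) W ∧
        ∃ Ψ : K → K → T → Γ, ∀ k l, k < l → χ (e k) (e l) = Ψ (W.c k) (W.c l) (W.s k l) := by
  classical
  obtain ⟨N, hN⟩ := ramsey_pairs (K → K → T → Γ) r
  have hR : ∀ p q : Fin N × K, p.1 < q.1 → ¬ q.1 < p.1 := fun p q h => not_lt.2 h.le
  let A₀ : Str (Fin N × K) T ({j : Fin r → Fin N // StrictMono j} × Fin r) :=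
    ⟨fun x => (x.1.1 x.2, W.c x.2), fun x y => if x.1 = y.1 then W.s x.2 y.2 else
      (D.ex (pr (W.c x.2)) (pr (W.c y.2))).choose⟩
  have hA₀ : PV D (fun q : Fin N × K => pr q.2) (fun p q => p.1 < q.1) A₀ := by
    intro x y hxy
    by_cases h : x.1 = y.1
    · have h1 : A₀.s x y = W.s x.2 y.2 := if_pos h
      have h2 : x.2 ≠ y.2 := by
        intro h3
        have h4 : x.1.1 x.2 < y.1.1 y.2 := hxy
        rw [h, h3] at h4
        exact lt_irrefl _ h4
      rw [h1]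
      exact ⟨(hW x.2 y.2 h2).1, (hW x.2 y.2 h2).2.1⟩
    · have h1 : A₀.s x y = (D.ex (pr (W.c x.2)) (pr (W.c y.2))).choose := if_neg h
      rw [h1]
      exact (D.ex (pr (W.c x.2)) (pr (W.c y.2))).choose_spec
  obtain ⟨Y, hYf, B, hB, hY⟩ := partite_all (Γ := Γ) D (fun q : Fin N × K => pr q.2)
    (fun p q => p.1 < q.1) hR A₀ hA₀
  obtain ⟨A, hA, hAc, hAs⟩ := exists_str D pr (Prod.snd : Fin N × K → K) (fun p q => p.1 < q.1) hR B hB
  refine ⟨Y, hYf, A, hA, fun χ => ?_⟩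
  obtain ⟨φ, hφ, Ψ, hΨ⟩ := hY χ
  obtain ⟨j, hj, d, hd⟩ := hN (fun m m' κ κ' a => Ψ (m, κ) (m', κ') a)
  have hc : ∀ k : Fin r, B.c (φ (⟨j, hj⟩, k)) = (j k, W.c k) := fun k => hφ.1 _
  have hinj : Injective (fun k : Fin r => φ (⟨j, hj⟩, k)) := by
    intro k l hkl
    have h1 := congrArg B.c hkl
    simp only [hc] at h1
    exact hj.injective (congrArg Prod.fst h1)
  have hs : ∀ k l : Fin r, A₀.s (⟨j, hj⟩, k) (⟨j, hj⟩, l) = W.s k l := fun k l => if_pos rfl
  have hlt : ∀ k l : Fin r, k < l → A.s (φ (⟨j, hj⟩, k)) (φ (⟨j, hj⟩, l)) = W.s k l := by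
    intro k l hkl
    have h1 : j k < j l := hj hkl
    rw [hAs _ _ (by rw [hc, hc]; exact h1), hφ.2 _ _ h1, hs]
  refine ⟨fun k => φ (⟨j, hj⟩, k), hinj, ⟨fun k => ?_, fun k l hkl => ?_⟩, d, fun k l hkl => ?_⟩
  · show A.c (φ (⟨j, hj⟩, k)) = W.c k
    rw [hAc, hc]
  · show A.s (φ (⟨j, hj⟩, k)) (φ (⟨j, hj⟩, l)) = W.s k l
    rcases lt_or_gt_of_ne hkl with h | h
    · exact hlt k l h
    · have h1 : A.s (φ (⟨j, hj⟩, k)) (φ (⟨j, hj⟩, l)) = D.opp (A.s (φ (⟨j, hj⟩, l)) (φ (⟨j, hj⟩, k))) :=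
        (hA _ _ (fun h2 => hkl (hinj h2.symm))).2.2
      have h3 : W.s k l = D.opp (W.s l k) := (hW l k hkl.symm).2.2
      rw [h1, h3, hlt l k h]
  · have h1 : j k < j l := hj hkl
    have h2 := hΨ (⟨j, hj⟩, k) (⟨j, hj⟩, l) h1
    rw [hs] at h2
    rw [h2]
    exact congrFun (congrFun (congrFun (hd k l hkl) (W.c k)) (W.c l)) (W.s k l)

end Pool.Agent.Lib.H3R
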