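import Pool.Agent.Lib.H3R.B4a
import Pool.Agent.Lib.H3R.B4b

/-! # B4 (all parts): the Ramsey theorem for structures, colourings of pairs -/
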