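import Pool.Agent.Lib.H3R.B2
import Pool.Agent.Lib.H3R.B3

/-! # B4a: the Ramsey theorem for structures, colourings of pairs -/

namespace Pool.Agent.Lib.H3R

open Equiv Function

/-- From a partite structure to a structure.

Proof. For `u ≠ v` in `Y` let the new type be `B.s u v` if `R (B.c u) (B.c v)`, `D.opp (B.s v u)` if
`R (B.c v) (B.c u)`; otherwise choose a type for one of the two orders: let `e : Y ≃ Fin n`; if
`e u < e v` take a type `a` with `D.src a = pr (k u)`, `D.tgt a = pr (k v)` (`D.ex`), otherwise `D.opp` of the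
type chosen for `(v, u)`.  (`hR` excludes that both `R` hold.) -/
theorem exists_str {Q K I T Y : Type} [Finite Y] (D : TD I T) (pr : K → I) (k : Q → K)
    (R : Q → Q → Prop) (hR : ∀ p q, R p q → ¬ R q p) (B : Str Q T Y)
    (hB : PV D (fun q => pr (k q)) R B) :
    ∃ A : Str K T Y, Val D (A.under pr) ∧ (∀ y, A.c y = k (B.c y)) ∧
      ∀ x y, R (B.c x) (B.c y) → A.s x y = B.s x y := by
  classical
  obtain ⟨n, ⟨e⟩⟩ := Finite.exists_equiv_fin Y
  choose ch hch using fun i j => D.ex i j
  let g : Y → Y → T := fun x y => ch (pr (k (B.c x))) (pr (k (B.c y)))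
  have hg : ∀ x y, D.src (g x y) = pr (k (B.c x)) ∧ D.tgt (g x y) = pr (k (B.c y)) :=
    fun x y => hch _ _
  let s : Y → Y → T := fun x y =>
    if R (B.c x) (B.c y) then B.s x y
    else if R (B.c y) (B.c x) then D.opp (B.s y x)
    else if e x < e y then g x y else D.opp (g y x)
  refine ⟨⟨fun y => k (B.c y), s⟩, ?_, fun y => rfl, ?_⟩
  · intro u v huv
    have hne : e u ≠ e v := fun h => huv (e.injective h)
    change D.src (s u v) = pr (k (B.c u)) ∧ D.tgt (s u v) = pr (k (B.c v)) ∧
      s v u = D.opp (s u v)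
    by_cases h1 : R (B.c u) (B.c v)
    · have h2 : ¬ R (B.c v) (B.c u) := hR _ _ h1
      have e1 : s u v = B.s u v := by simp only [s, if_pos h1]
      have e2 : s v u = D.opp (B.s u v) := by simp only [s, if_neg h2, if_pos h1]
      rw [e1, e2]
      exact ⟨(hB u v h1).1, (hB u v h1).2, rfl⟩
    · by_cases h2 : R (B.c v) (B.c u)
      · have e1 : s u v = D.opp (B.s v u) := by simp only [s, if_neg h1, if_pos h2]
        have e2 : s v u = B.s v u := by simp only [s, if_pos h2]
        rw [e1, e2, D.src_opp, D.tgt_opp, D.opp_opp]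
        exact ⟨(hB v u h2).2, (hB v u h2).1, rfl⟩
      · rcases lt_or_gt_of_ne hne with h3 | h3
        · have h4 : ¬ e v < e u := not_lt_of_gt h3
          have e1 : s u v = g u v := by simp only [s, if_neg h1, if_neg h2, if_pos h3]
          have e2 : s v u = D.opp (g u v) := by simp only [s, if_neg h1, if_neg h2, if_neg h4]
          rw [e1, e2]
          exact ⟨(hg u v).1, (hg u v).2, rfl⟩
        · have h4 : ¬ e u < e v := not_lt_of_gt h3
          have e1 : s u v = D.opp (g v u) := by simp only [s, if_neg h1, if_neg h2, if_neg h4]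
          have e2 : s v u = g v u := by simp only [s, if_neg h1, if_neg h2, if_pos h3]
          rw [e1, e2, D.src_opp, D.tgt_opp, D.opp_opp]
          exact ⟨(hg v u).2, (hg v u).1, rfl⟩
  · intro x y hxy
    change s x y = B.s x y
    simp only [s, if_pos hxy]

end Pool.Agent.Lib.H3R
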