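import Pool.Agent.Lib.H3R.B4

/-! # B5: the Ramsey theorem for structures, colourings of points and pairs -/

namespace Pool.Agent.Lib.H3R

open Equiv Function

/-- Proof. If `r = 0` take `X = Empty` (or `Fin 0`); `β`, `Ψ` are arbitrary constant functions.  Otherwise let
`k₀ = W.c 0` and for `k : K` let `t k` be a type with `D.src (t k) = pr k`, `D.tgt (t k) = pr k₀` (`D.ex`).  Let `W'`
be the structure on `Fin (r + 1)` which is `W` on the first `r` points (`Fin.castSucc`), the last
point has colour `k₀`, and the type of `(castSucc k, last)` is `t (W.c k)` (and `D.opp` of it for the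
reversed pair; use `Fin.lastCases`).  Apply `ram_pairs` to `W'` with `Λ × Γ` instead of `Γ` and the
colouring `(u, v) ↦ (b u, χ u v)`; restrict `e` to the first `r` points; `β k = (Ψ k k₀ (t k)).1` and the
second component of `Ψ`. -/
theorem ram_full {K I T Λ Γ : Type} [Finite K] [Finite T] [Finite Λ] [Nonempty Λ] [Finite Γ]
    [Nonempty Γ] (D : TD I T) (pr : K → I) (r : ℕ) (W : Str K T (Fin r))
    (hW : Val D (W.under pr)) :
    ∃ (X : Type) (_ : Finite X) (A : Str K T X), Val D (A.under pr) ∧
      ∀ (b : X → Λ) (χ : X → X → Γ), ∃ e : Fin r → X, Injective e ∧ Eqv (A.map e) W ∧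
        ∃ (β : K → Λ) (Ψ : K → K → T → Γ), (∀ k, b (e k) = β (W.c k)) ∧
          ∀ k l, k < l → χ (e k) (e l) = Ψ (W.c k) (W.c l) (W.s k l) := by
  classical
  rcases r with _ | r
  · refine ⟨Empty, inferInstance, ⟨fun x => x.elim, fun x _ => x.elim⟩, fun x => x.elim, ?_⟩
    intro b χ
    obtain ⟨z⟩ := (inferInstance : Nonempty Λ)
    obtain ⟨z'⟩ := (inferInstance : Nonempty Γ)
    refine ⟨fun k => k.elim0, fun k => k.elim0, ⟨fun k => k.elim0, fun k => k.elim0⟩,
      fun _ => z, fun _ _ _ => z', fun k => k.elim0, fun k => k.elim0⟩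
  · let t : K → T := fun k => (D.ex (pr k) (pr (W.c 0))).choose
    have ht : ∀ k, D.src (t k) = pr k ∧ D.tgt (t k) = pr (W.c 0) := fun k =>
      (D.ex (pr k) (pr (W.c 0))).choose_spec
    let W' : Str K T (Fin (r + 1 + 1)) :=
      ⟨fun u => Fin.lastCases (motive := fun _ => K) (W.c 0) W.c u,
        fun u v => Fin.lastCases (motive := fun _ => T)
          (Fin.lastCases (motive := fun _ => T) (t (W.c 0)) (fun l => D.opp (t (W.c l))) v)
          (fun k => Fin.lastCases (motive := fun _ => T) (t (W.c k)) (fun l => W.s k l) v) u⟩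
    have c1 : W'.c (Fin.last _) = W.c 0 := by
      simp only [W', Fin.lastCases_last]
    have c2 : ∀ k : Fin (r + 1), W'.c k.castSucc = W.c k := by
      intro k
      simp only [W', Fin.lastCases_castSucc]
    have s1 : ∀ k l : Fin (r + 1), W'.s k.castSucc l.castSucc = W.s k l := by
      intro k l
      simp only [W', Fin.lastCases_castSucc]
    have s2 : ∀ k : Fin (r + 1), W'.s k.castSucc (Fin.last _) = t (W.c k) := by
      intro k
      simp only [W', Fin.lastCases_castSucc, Fin.lastCases_last]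
    have s3 : ∀ l : Fin (r + 1), W'.s (Fin.last _) l.castSucc = D.opp (t (W.c l)) := by
      intro l
      simp only [W', Fin.lastCases_castSucc, Fin.lastCases_last]
    have hW' : Val D (W'.under pr) := by
      intro u v
      show u ≠ v → D.src (W'.s u v) = pr (W'.c u) ∧ D.tgt (W'.s u v) = pr (W'.c v) ∧
        W'.s v u = D.opp (W'.s u v)
      refine Fin.lastCases ?_ (fun k => ?_) u
      · refine Fin.lastCases (fun h => absurd rfl h) (fun l _ => ?_) v
        rw [s3, s2, c1, c2, D.src_opp, D.tgt_opp, D.opp_opp]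
        exact ⟨(ht _).2, (ht _).1, rfl⟩
      · refine Fin.lastCases (fun _ => ?_) (fun l h => ?_) v
        · rw [s3, s2, c1, c2]
          exact ⟨(ht _).1, (ht _).2, rfl⟩
        · rw [s1, s1, c2, c2]
          exact hW k l (fun h1 => h (congrArg Fin.castSucc h1))
    obtain ⟨X, hX, A, hA, hχ⟩ := ram_pairs (Γ := Λ × Γ) D pr (r + 1 + 1) W' hW'
    refine ⟨X, hX, A, hA, fun b χ => ?_⟩
    obtain ⟨e, he, h1, Ψ, hΨ⟩ := hχ (fun u v => (b u, χ u v))
    refine ⟨fun k => e k.castSucc, fun k l hkl => Fin.castSucc_injective _ (he hkl),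
      ⟨fun k => ?_, fun k l hkl => ?_⟩, fun k => (Ψ k (W.c 0) (t k)).1,
      fun k l a => (Ψ k l a).2, fun k => ?_, fun k l hkl => ?_⟩
    · exact (h1.1 k.castSucc).trans (c2 k)
    · exact (h1.2 k.castSucc l.castSucc (fun h2 => hkl (Fin.castSucc_injective _ h2))).trans (s1 k l)
    · have h2 := congrArg Prod.fst (hΨ k.castSucc (Fin.last _) (Fin.castSucc_lt_last k))
      rw [c1, c2, s2] at h2
      exact h2
    · have h2 := congrArg Prod.snd (hΨ k.castSucc l.castSucc (Fin.castSucc_lt_castSucc_iff.2 hkl))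
      rw [c2, c2, s1] at h2
      exact h2

end Pool.Agent.Lib.H3R
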