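import Pool.Agent.Lib.H3R.B6a

/-! # B6b: joint embedding and the choice of uniform data -/

namespace Pool.Agent.Lib.H3R

open Equiv Function

/-- Uniform choice.

Proof. Suppose not; for every `d : Δ` choose `(r d, W d)`, valid, not `Good _ _ d`.  By induction on the
finite set `S` of `Δ` there is a valid `U` on some `Fin n` such that for every `d ∈ S` there is a strictly
increasing `e : Fin (r d) → Fin n` with `Eqv (U.map e) (W d)` (`joint`; `Fin.castAdd`, `Fin.natAdd` are strictly
increasing).  For `S = Finset.univ` let `d` be with `Good n U d` (`hex`); then `Good (r d) (W d) d` by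
`hher`, a contradiction. -/
theorem uniform {K I T Δ : Type} [Finite Δ] (D : TD I T) (pr : K → I)
    (Good : (r : ℕ) → Str K T (Fin r) → Δ → Prop)
    (hher : ∀ (r s : ℕ) (e : Fin r → Fin s) (W : Str K T (Fin r)) (W' : Str K T (Fin s)) (d : Δ),
      StrictMono e → Eqv (W'.map e) W → Good s W' d → Good r W d)
    (hex : ∀ (r : ℕ) (W : Str K T (Fin r)), Val D (W.under pr) → ∃ d, Good r W d) :
    ∃ d, ∀ (r : ℕ) (W : Str K T (Fin r)), Val D (W.under pr) → Good r W d := by
  classical
  by_contra hcon
  have h1 : ∀ d : Δ, ∃ (r : ℕ) (W : Str K T (Fin r)), Val D (W.under pr) ∧ ¬ Good r W d := by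
    intro d
    by_contra h
    refine hcon ⟨d, fun r W hW => ?_⟩
    by_contra h2
    exact h ⟨r, W, hW, h2⟩
  choose r W hW hbad using h1
  have := Fintype.ofFinite Δ
  have key : ∀ S : Finset Δ, ∃ (n : ℕ) (U : Str K T (Fin n)), Val D (U.under pr) ∧
      ∀ d ∈ S, ∃ e : Fin (r d) → Fin n, StrictMono e ∧ Eqv (U.map e) (W d) := by
    intro S
    induction S using Finset.induction_on with
    | empty =>
      exact ⟨0, ⟨fun u => u.elim0, fun u => u.elim0⟩, fun u => u.elim0,
        fun d hd => absurd hd (Finset.notMem_empty d)⟩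
    | insert d S _ ih =>
      obtain ⟨n, U, hU, hS⟩ := ih
      obtain ⟨U', hU', hl, hr⟩ := joint D pr U (W d) hU (hW d)
      refine ⟨n + r d, U', hU', fun d' hd' => ?_⟩
      rcases Finset.mem_insert.1 hd' with h | h
      · subst h
        exact ⟨Fin.natAdd n, Fin.strictMono_natAdd n, hr⟩
      · obtain ⟨e, he, h2⟩ := hS d' h
        exact ⟨fun i => Fin.castAdd (r d) (e i), (Fin.strictMono_castAdd (r d)).comp he,
          (hl.map e he.injective).trans h2⟩
  obtain ⟨n, U, hU, hall⟩ := key Finset.univ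
  obtain ⟨d, hd⟩ := hex n U hU
  obtain ⟨e, he, h2⟩ := hall d (Finset.mem_univ d)
  exact hbad d (hher (r d) n e (W d) U d he h2 hd)

end Pool.Agent.Lib.H3R
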