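import Pool.Agent.Lib.H3R.A1

/-! # B6a: joint embedding and the choice of uniform data -/

namespace Pool.Agent.Lib.H3R

open Equiv Function

/-- Joint embedding.

Proof. On `Fin (r + s)` (`Fin.addCases`, or `finSumFinEquiv`): `W` on the first `r`, `W'` on the last `s` points; between them
types chosen with `D.ex` (and `D.opp` of them in the other order). -/
theorem joint {K I T : Type} (D : TD I T) (pr : K → I) {r s : ℕ} (W : Str K T (Fin r))
    (W' : Str K T (Fin s)) (hW : Val D (W.under pr)) (hW' : Val D (W'.under pr)) :
    ∃ U : Str K T (Fin (r + s)), Val D (U.under pr) ∧ Eqv (U.map (Fin.castAdd s)) W ∧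
      Eqv (U.map (Fin.natAdd r)) W' := by
  choose t ht1 ht2 using fun (i : Fin r) (j : Fin s) => D.ex (pr (W.c i)) (pr (W'.c j))
  refine ⟨⟨Fin.append W.c W'.c, fun x y =>
    Fin.append (fun i => Fin.append (fun j => W.s i j) (fun j => t i j) y)
      (fun i => Fin.append (fun j => D.opp (t j i)) (fun j => W'.s i j) y) x⟩, ?_, ⟨?_, ?_⟩, ⟨?_, ?_⟩⟩
  · intro u v huv
    induction u using Fin.addCases with
    | left i =>
      induction v using Fin.addCases with
      | left j =>
        have hij : i ≠ j := fun h => huv (by rw [h])
        simp only [Str.under, Fin.append_left]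
        exact hW i j hij
      | right j =>
        simp only [Str.under, Fin.append_left, Fin.append_right]
        exact ⟨ht1 i j, ht2 i j, trivial⟩
    | right i =>
      induction v using Fin.addCases with
      | left j =>
        simp only [Str.under, Fin.append_left, Fin.append_right]
        exact ⟨by rw [D.src_opp, ht2], by rw [D.tgt_opp, ht1], by rw [D.opp_opp]⟩
      | right j =>
        have hij : i ≠ j := fun h => huv (by rw [h])
        simp only [Str.under, Fin.append_right]
        exact hW' i j hij
  · intro i
    simp only [Str.map, Fin.append_left]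
  · intro i j _
    simp only [Str.map, Fin.append_left]
  · intro i
    simp only [Str.map, Fin.append_right]
  · intro i j _
    simp only [Str.map, Fin.append_right]

end Pool.Agent.Lib.H3R
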