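import Pool.Agent.Lib.H3R.A6
import Pool.Agent.Lib.H3R.B5
import Pool.Agent.Lib.H3R.B6

/-! # B7: canonical data -/

namespace Pool.Agent.Lib.H3R

open Equiv Function

/-- **Canonisation.**  `P ι A b C`: the structure `A` can be given the point colouring `b` and the pair
colouring `C` (only the values at pairs of different points matter for the use).  If `P` is inherited by
substructures and every valid finite structure has `b`, `C`, then `b`, `C` can be chosen canonical, with the
same functions `β`, `ψ` for all structures and all orders.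

Proof. For `W` on `Fin r` let `Good r W (β, ψ)` be: there are `b`, `C` with `P (Fin r) W b C`,
`b k = β (W.c k)` and `C k l = ψ (W.c k) (W.c l) (W.s k l)` for `k < l`.  It is inherited (`hP`; `e` strictly
increasing, and `(W'.map e)`, `W` agree off the diagonal).  For every valid `W` there is a good `(β, ψ)`:
take `A` on `X` from `ram_full`, `b`, `C` for `A` (`hex`), `e`, `β`, `ψ` from `ram_full`, and `hP` for `e`.
`uniform` (with `Δ = (K → Λ) × (K → K → T → Γ)`) gives `(β, ψ)` good for all `W`.  For `(ι, ρ, A)` let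
`e : Fin r ≃ ι` be the enumeration of `exists_enum`, apply the above to `A.map e` and transport `b`, `C` back
with `hP` for `e.symm`. -/
theorem canon {K I T Λ Γ : Type} [Finite K] [Finite T] [Finite Λ] [Nonempty Λ] [Finite Γ]
    [Nonempty Γ] (D : TD I T) (pr : K → I)
    (P : (ι : Type) → Str K T ι → (ι → Λ) → (ι → ι → Γ) → Prop)
    (hP : ∀ (ι κ : Type) [Finite ι] [Finite κ] (e : κ → ι) (A : Str K T ι) (B : Str K T κ)
      (b : ι → Λ) (C : ι → ι → Γ), Injective e → Eqv (A.map e) B → P ι A b C →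
        P κ B (fun u => b (e u)) (fun u v => C (e u) (e v)))
    (hex : ∀ (ι : Type) [Finite ι] (A : Str K T ι), Val D (A.under pr) → ∃ b C, P ι A b C) :
    ∃ (β : K → Λ) (ψ : K → K → T → Γ), ∀ (ι : Type) [Finite ι] (ρ : ι → ℕ) (A : Str K T ι),
      Injective ρ → Val D (A.under pr) → ∃ b C, P ι A b C ∧ (∀ u, b u = β (A.c u)) ∧
        ∀ u v, ρ u < ρ v → C u v = ψ (A.c u) (A.c v) (A.s u v) := by
  classical
  have key : ∃ d : (K → Λ) × (K → K → T → Γ), ∀ (r : ℕ) (W : Str K T (Fin r)),
      Val D (W.under pr) → ∃ (b : Fin r → Λ) (C : Fin r → Fin r → Γ), P (Fin r) W b C ∧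
        (∀ k, b k = d.1 (W.c k)) ∧ ∀ k l, k < l → C k l = d.2 (W.c k) (W.c l) (W.s k l) := by
    refine uniform D pr (fun r W (d : (K → Λ) × (K → K → T → Γ)) => ∃ (b : Fin r → Λ) (C : Fin r → Fin r → Γ), P (Fin r) W b C ∧
        (∀ k, b k = d.1 (W.c k)) ∧ ∀ k l, k < l → C k l = d.2 (W.c k) (W.c l) (W.s k l)) ?_ ?_
    · rintro r s e W W' d he hE ⟨b, C, h1, h2, h3⟩
      refine ⟨fun u => b (e u), fun u v => C (e u) (e v),
        hP (Fin s) (Fin r) e W' W b C he.injective hE h1, fun k => ?_, fun k l hkl => ?_⟩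
      · refine (h2 (e k)).trans ?_
        rw [← hE.1 k]
        rfl
      · refine (h3 (e k) (e l) (he hkl)).trans ?_
        rw [← hE.1 k, ← hE.1 l, ← hE.2 k l hkl.ne]
        rfl
    · intro r W hW
      obtain ⟨X, hX, A, hA, hram⟩ := ram_full (Λ := Λ) (Γ := Γ) D pr r W hW
      obtain ⟨b, C, hbC⟩ := hex X A hA
      obtain ⟨e, he, hE, β, Ψ, h1, h2⟩ := hram b C
      exact ⟨(β, Ψ), fun u => b (e u), fun u v => C (e u) (e v),
        hP X (Fin r) e A W b C he hE hbC, h1, h2⟩
  obtain ⟨⟨β, ψ⟩, hd⟩ := key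
  refine ⟨β, ψ, fun ι _ ρ A hρ hA => ?_⟩
  obtain ⟨r, e, he⟩ := exists_enum ρ hρ
  obtain ⟨b, C, h1, h2, h3⟩ := hd r (A.map e) (hA.map e e.injective)
  refine ⟨fun u => b (e.symm u), fun u v => C (e.symm u) (e.symm v), ?_, fun u => ?_,
    fun u v huv => ?_⟩
  · refine hP (Fin r) ι e.symm (A.map e) A b C e.symm.injective ⟨fun u => ?_, fun u v _ => ?_⟩ h1
    · simp [Str.map]
    · simp [Str.map]
  · refine (h2 (e.symm u)).trans ?_
    simp [Str.map]
  · have h4 : e.symm u < e.symm v := by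
      rw [he]
      simpa using huv
    refine (h3 _ _ h4).trans ?_
    simp [Str.map]

end Pool.Agent.Lib.H3R
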