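import Pool.Agent.Lib.H3R.C1a

/-! # C1b: canonical data over constants exist -/

namespace Pool.Agent.Lib.H3R

open Equiv Function
open Pool.Agent.Lib.H3C (Cl FR Olig Sup pai pia)

/-- Canonical data exist for every permutation.

Proof. If `I` is empty then `Orb` is empty, so `ι` is always empty and any functions `β`, `μ`, `ψ` (from the
empty type) with the empty `x` work.  Otherwise `T` is nonempty (`D.ex`).  Apply `canon` with
`K = Orb D M c` (finite), `pr = Orb.col`, `Λ = I × (κ → T)`, `Γ = T` and `P ι A b C` := there is `x` with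
`HasC D M c A x`, `b u = (M.c (g (x u)), fun m => M.s (g (x u)) (g (c m)))` for all `u` and
`C u v = M.s (g (x u)) (g (x v))` for all `u`, `v`.  `hex` is `exists_hasC`; `hP`: compose `x` with `e`.
`β o = (β' o).1`, `μ o = (β' o).2`. -/
theorem exists_CD {I T V κ : Type} [Finite I] [Finite T] [Finite κ] {D : TD I T} {M : Str I T V}
    (hM : Gen D M) (c : κ → V) (hc : Injective c) (g : Perm V) :
    ∃ (β : Orb D M c → I) (μ : Orb D M c → κ → T) (ψ : Orb D M c → Orb D M c → T → T),
      CD D M c g β μ ψ := by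
  classical
  rcases isEmpty_or_nonempty I with hI | hI
  · refine ⟨fun o => isEmptyElim o.col, fun o => isEmptyElim o.col, fun o => isEmptyElim o.col, ?_⟩
    intro ι _ ρ A _ _
    have hι : IsEmpty ι := ⟨fun u => isEmptyElim (A.c u).col⟩
    exact ⟨fun u => isEmptyElim u, ⟨fun u => isEmptyElim u, fun u => isEmptyElim u,
      ⟨fun u => isEmptyElim u, fun u => isEmptyElim u⟩, fun u => isEmptyElim u⟩,
      fun u => isEmptyElim u, fun u => isEmptyElim u, fun u => isEmptyElim u⟩
  · obtain ⟨i₀⟩ := hI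
    obtain ⟨a₀, -, -⟩ := D.ex i₀ i₀
    have hT : Nonempty T := ⟨a₀⟩
    have hI' : Nonempty I := ⟨i₀⟩
    have hΛ : Nonempty (I × (κ → T)) := ⟨(i₀, fun _ => a₀)⟩
    have hK : Finite (Orb D M c) := by
      unfold Orb
      infer_instance
    obtain ⟨β', ψ, h⟩ := canon (K := Orb D M c) (Λ := I × (κ → T)) (Γ := T) D Orb.col
      (fun ι A b C => ∃ x : ι → V, HasC D M c A x ∧
        (∀ u, b u = (M.c (g (x u)), fun m => M.s (g (x u)) (g (c m)))) ∧
        ∀ u v, C u v = M.s (g (x u)) (g (x v)))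
      (by
        intro ι κ' _ _ e A B b C he hAB hP
        obtain ⟨x, ⟨h1, h2, h3, h4⟩, h5, h6⟩ := hP
        refine ⟨fun u => x (e u), ⟨fun u v huv => he (h1 huv), fun u m => h2 (e u) m, ?_, ?_⟩,
          fun u => h5 (e u), fun u v => h6 (e u) (e v)⟩
        · refine (h3.map e he).eqv ?_
          exact ⟨fun u => congrArg Orb.col (hAB.1 u), fun u v huv => hAB.2 u v huv⟩
        · intro u m
          rw [← hAB.1 u]
          exact h4 (e u) m)
      (by
        intro ι _ A hA
        obtain ⟨x, hx⟩ := exists_hasC hM c hc A hA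
        exact ⟨_, _, x, hx, fun u => rfl, fun u v => rfl⟩)
    refine ⟨fun o => (β' o).1, fun o => (β' o).2, ψ, ?_⟩
    intro ι _ ρ A hρ hA
    obtain ⟨b, C, ⟨x, hx, h5, h6⟩, hb, hC⟩ := h ι ρ A hρ hA
    refine ⟨x, hx, fun u => ?_, fun u m => ?_, fun u v huv => ?_⟩
    · have h7 := (hb u).symm.trans (h5 u)
      exact (congrArg Prod.fst h7).symm
    · have h7 := (hb u).symm.trans (h5 u)
      exact (congrFun (congrArg Prod.snd h7) m).symm
    · exact (h6 u v).symm.trans (hC u v huv)

end Pool.Agent.Lib.H3R
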