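import Pool.Agent.Lib.H3R.C1a
import Pool.Agent.Lib.H3R.C1b

/-! # C1 (all parts): canonical data over constants exist -/
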