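import Pool.Agent.Lib.H3R.A4
import Pool.Agent.Lib.H3R.B7

/-! # C1a: canonical data over constants exist -/

namespace Pool.Agent.Lib.H3R

open Equiv Function
open Pool.Agent.Lib.H3C (Cl FR Olig Sup pai pia)

/-- The structure `A` together with the constants. -/
private def C1a_str {I T V κ ι : Type} {D : TD I T} {M : Str I T V} (c : κ → V)
    (A : Str (Orb D M c) T ι) : Str I T (ι ⊕ κ) :=
  ⟨Sum.elim (fun u => (A.c u).col) (fun m => M.c (c m)),
   fun p q => match p, q with
    | Sum.inl u, Sum.inl v => A.s u v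
    | Sum.inl u, Sum.inr m => (A.c u).ty m
    | Sum.inr m, Sum.inl u => D.opp ((A.c u).ty m)
    | Sum.inr m, Sum.inr m' => M.s (c m) (c m')⟩

private theorem C1a_val {I T V κ ι : Type} {D : TD I T} {M : Str I T V} (hM : Val D M)
    (c : κ → V) (hc : Injective c) (A : Str (Orb D M c) T ι) (hA : Val D (A.under Orb.col)) :
    Val D (C1a_str c A) := by
  have h1 : ∀ u m, D.src ((A.c u).ty m) = (A.c u).col := fun u m => ((A.c u).2 m).1
  have h2 : ∀ u m, D.tgt ((A.c u).ty m) = M.c (c m) := fun u m => ((A.c u).2 m).2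
  intro p q hpq
  rcases p with u | m
  · rcases q with v | m'
    · exact hA u v (fun h => hpq (by rw [h]))
    · exact ⟨h1 u m', h2 u m', rfl⟩
  · rcases q with v | m'
    · refine ⟨?_, ?_, ?_⟩
      · show D.src (D.opp ((A.c v).ty m)) = M.c (c m)
        rw [D.src_opp, h2]
      · show D.tgt (D.opp ((A.c v).ty m)) = (A.c v).col
        rw [D.tgt_opp, h1]
      · show (A.c v).ty m = D.opp (D.opp ((A.c v).ty m))
        rw [D.opp_opp]
    · exact hM (c m) (c m') (fun h => hpq (by rw [hc h]))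

private theorem C1a_fin {I T V κ ι : Type} {D : TD I T} {M : Str I T V} (c : κ → V)
    (A : Str (Orb D M c) T ι) (a : ι ⊕ κ → V) (ha : Injective a) (h : Has M (C1a_str c A) a)
    (hac : ∀ m, a (Sum.inr m) = c m) : HasC D M c A (fun u => a (Sum.inl u)) := by
  refine ⟨fun u v huv => Sum.inl_injective (ha huv), fun u m hum => ?_, ⟨fun u => ?_, ?_⟩, ?_⟩
  · rw [← hac m] at hum
    exact Sum.inl_ne_inr (ha hum)
  · exact h.1 (Sum.inl u)
  · intro u v huv
    exact h.2 (Sum.inl u) (Sum.inl v) (fun h1 => huv (Sum.inl_injective h1))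
  · intro u m
    show M.s (a (Sum.inl u)) (c m) = (A.c u).ty m
    rw [← hac m]
    exact h.2 (Sum.inl u) (Sum.inr m) Sum.inl_ne_inr

/-- Every finite structure over constants is realised.

Proof. `extend` for the structure `A'` on `ι ⊕ κ` which is `A.under Orb.col` on `ι`, `M.map c` on `κ`, has the
type `(A.c u).ty m` for the pair `(u, m)` and `D.opp` of it for `(m, u)`; `S` is the set of the elements of
`κ` and `a₀ = c` there (`a₀` on `ι` is irrelevant: `ι` or `κ` elements can be sent anywhere; if `κ` is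
empty use `realize`, which also gives a point of `V` if `ι` is nonempty).  The realisation restricted
to `ι` is `x`. -/
theorem exists_hasC {I T V κ ι : Type} [Finite κ] [Finite ι] {D : TD I T} {M : Str I T V}
    (hM : Gen D M) (c : κ → V) (hc : Injective c) (A : Str (Orb D M c) T ι)
    (hA : Val D (A.under Orb.col)) : ∃ x : ι → V, HasC D M c A x := by
  have hV := C1a_val hM.1 c hc A hA
  rcases isEmpty_or_nonempty κ with hκ | ⟨⟨m₀⟩⟩
  · obtain ⟨a, ha, h⟩ := realize hM (C1a_str c A) hV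
    exact ⟨_, C1a_fin c A a ha h (fun m => (hκ.false m).elim)⟩
  · have e1 : Set.InjOn (Sum.elim (fun _ : ι => c m₀) c) (Set.range Sum.inr) := by
      rintro _ ⟨m, rfl⟩ _ ⟨m', rfl⟩ hmm
      exact congrArg Sum.inr (hc hmm)
    have e2 : ∀ u ∈ Set.range (Sum.inr : κ → ι ⊕ κ),
        M.c (Sum.elim (fun _ : ι => c m₀) c u) = (C1a_str c A).c u := by
      rintro _ ⟨m, rfl⟩
      rfl
    have e3 : ∀ u ∈ Set.range (Sum.inr : κ → ι ⊕ κ), ∀ v ∈ Set.range (Sum.inr : κ → ι ⊕ κ),
        u ≠ v → M.s (Sum.elim (fun _ : ι => c m₀) c u) (Sum.elim (fun _ : ι => c m₀) c v) =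
          (C1a_str c A).s u v := by
      rintro _ ⟨m, rfl⟩ _ ⟨m', rfl⟩ _
      rfl
    obtain ⟨a, ha, h, h3⟩ := extend hM (C1a_str c A) hV (Set.range Sum.inr)
      (Sum.elim (fun _ => c m₀) c) e1 e2 e3
    exact ⟨_, C1a_fin c A a ha h (fun m => h3 _ ⟨m, rfl⟩)⟩

end Pool.Agent.Lib.H3R
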