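import Pool.Agent.Lib.H3R.C2a

/-! # C2b: the move lemma -/

namespace Pool.Agent.Lib.H3R

open Equiv Function
open Pool.Agent.Lib.H3C (Cl FR Olig Sup pai pia)

/-- The result of a move is determined.

Proof. Let `u ≠ v` and distinguish the four cases of `q u`, `q v`.  Two orbits: `ρ u < ρ v`: condition 3;
`ρ v < ρ u`: validity of `B`, `B'` and condition 3 for `(v, u)`.  Orbit, constant: condition 4.  Constant, orbit:
validity and condition 4 for `(v, u)`.  Two constants: condition 5. -/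
theorem moved_unique {I T V κ ι : Type} {D : TD I T} {M : Str I T V}
    {c : κ → V} {g : Perm V}
    {β : Orb D M c → I} {μ : Orb D M c → κ → T} {ψ : Orb D M c → Orb D M c → T → T}
    (q : ι → Orb D M c ⊕ κ) (ρ : ι → ℕ) (hρ : Injective ρ)
    {A B B' : Str I T ι} (hB : Val D B) (hB' : Val D B')
    (hm : Moved D M c g β μ ψ q ρ A B) (hm' : Moved D M c g β μ ψ q ρ A B') : Eqv B B' := by
  obtain ⟨h1, h2, h3, h4, h5⟩ := hm
  obtain ⟨h1', h2', h3', h4', h5'⟩ := hm'
  refine eqv_of_rank hB hB' (fun u => ?_) ρ hρ (fun u v huv => ?_)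
  · rcases hu : q u with o | m
    · rw [h1 u o hu, h1' u o hu]
    · rw [h2 u m hu, h2' u m hu]
  · have hne : u ≠ v := fun h => by
      rw [h] at huv
      exact lt_irrefl _ huv
    rcases hu : q u with o | m
    · rcases hv : q v with o' | m'
      · rw [h3 u v o o' hu hv huv, h3' u v o o' hu hv huv]
      · rw [h4 u v o m' hu hv, h4' u v o m' hu hv]
    · rcases hv : q v with o' | m'
      · rw [(hB v u hne.symm).2.2, (hB' v u hne.symm).2.2, h4 v u o' m hv hu, h4' v u o' m hv hu]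
      · rw [h5 u v m m' hne hu hv, h5' u v m m' hne hu hv]

/-- **Move lemma.**  Proof. `place` and `moved_unique`; `M.map (fun u => g (a u))` is valid (`Val.map`). -/
theorem move {I T V κ ι : Type} [Finite ι] {D : TD I T} {M : Str I T V}
    (hM : Gen D M) {G : Subgroup (Perm V)} {c : κ → V} (hc : Injective c) {g : Perm V}
    (hg : g ∈ G) {β : Orb D M c → I} {μ : Orb D M c → κ → T} {ψ : Orb D M c → Orb D M c → T → T}
    (h : CD D M c g β μ ψ) (q : ι → Orb D M c ⊕ κ) (ρ : ι → ℕ) (hρ : Injective ρ)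
    {A B : Str I T ι} (hA : Val D A) (hB : Val D B) (hq : Placed D M c q A)
    (hm : Moved D M c g β μ ψ q ρ A B) : Rel M G A B := by
  obtain ⟨a, ha, h1, h3⟩ := place hM hc h q ρ hρ hA hq
  refine ⟨a, ha, h1, g, hg, ?_⟩
  exact moved_unique q ρ hρ (hM.1.map _ (fun u v huv => ha (g.injective huv))) hB h3 hm

theorem move_ex {I T V κ ι : Type} [Finite ι] {D : TD I T} {M : Str I T V}
    (hM : Gen D M) {G : Subgroup (Perm V)} {c : κ → V} (hc : Injective c) {g : Perm V}
    (hg : g ∈ G) {β : Orb D M c → I} {μ : Orb D M c → κ → T} {ψ : Orb D M c → Orb D M c → T → T}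
    (h : CD D M c g β μ ψ) (q : ι → Orb D M c ⊕ κ) (ρ : ι → ℕ) (hρ : Injective ρ)
    {A : Str I T ι} (hA : Val D A) (hq : Placed D M c q A) :
    ∃ B : Str I T ι, Val D B ∧ Moved D M c g β μ ψ q ρ A B ∧ Rel M G A B := by
  obtain ⟨a, ha, h1, h3⟩ := place hM hc h q ρ hρ hA hq
  exact ⟨_, hM.1.map _ (fun u v huv => ha (g.injective huv)), h3, a, ha, h1, g, hg,
    has_self M _⟩

end Pool.Agent.Lib.H3R
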