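import Pool.Agent.Lib.H3R.C2b

/-! # C2c: the move lemma -/

namespace Pool.Agent.Lib.H3R

open Equiv Function
open Pool.Agent.Lib.H3C (Cl FR Olig Sup pai pia)

/-- Two structures which are moved to the same structure are related (two placements, two orders).

Proof. `move` twice, `Rel.symm` and `Rel.trans`. -/
theorem two_moves {I T V κ ι : Type} [Countable V] [Finite ι] {D : TD I T} {M : Str I T V}
    (hM : Gen D M) {G : Subgroup (Perm V)} (hG : Au M ≤ G) {c : κ → V} (hc : Injective c)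
    {g : Perm V} (hg : g ∈ G) {β : Orb D M c → I} {μ : Orb D M c → κ → T}
    {ψ : Orb D M c → Orb D M c → T → T} (h : CD D M c g β μ ψ) (q q' : ι → Orb D M c ⊕ κ)
    (ρ ρ' : ι → ℕ) (hρ : Injective ρ) (hρ' : Injective ρ') {A A' B : Str I T ι} (hA : Val D A)
    (hA' : Val D A') (hB : Val D B) (hq : Placed D M c q A) (hq' : Placed D M c q' A')
    (hm : Moved D M c g β μ ψ q ρ A B) (hm' : Moved D M c g β μ ψ q' ρ' A' B) :
    Rel M G A A' :=
  (move hM hc hg h q ρ hρ hA hB hq hm).trans hM hG (move hM hc hg h q' ρ' hρ' hA' hB hq' hm').symm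

/-- The placement without constants: the case of `Placed`, `Moved` where all vertices are in orbits.

Proof. Unfold. -/
theorem placed_orb {I T V κ ι : Type} {D : TD I T} {M : Str I T V} {c : κ → V}
    (p : ι → Orb D M c) (A : Str I T ι) (h : ∀ u, A.c u = (p u).col) :
    Placed D M c (fun u => Sum.inl (p u)) A := by
  refine ⟨?_, ?_, ?_, ?_, ?_⟩ <;> simp_all

theorem moved_orb {I T V κ ι : Type} {D : TD I T} {M : Str I T V} {c : κ → V} {g : Perm V}
    {β : Orb D M c → I} {μ : Orb D M c → κ → T} {ψ : Orb D M c → Orb D M c → T → T}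
    (p : ι → Orb D M c) (ρ : ι → ℕ) (A B : Str I T ι) (h : ∀ u, B.c u = β (p u))
    (h' : ∀ u v, ρ u < ρ v → B.s u v = ψ (p u) (p v) (A.s u v)) :
    Moved D M c g β μ ψ (fun u => Sum.inl (p u)) ρ A B := by
  refine ⟨?_, ?_, ?_, ?_, ?_⟩ <;> simp_all

end Pool.Agent.Lib.H3R
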