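import Pool.Agent.Lib.H3R.C2a
import Pool.Agent.Lib.H3R.C2b
import Pool.Agent.Lib.H3R.C2c

/-! # C2 (all parts): the move lemma -/
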