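import Pool.Agent.Lib.H3R.A4
import Pool.Agent.Lib.H3R.A6

/-! # C2a: placements -/

namespace Pool.Agent.Lib.H3R

open Equiv Function
open Pool.Agent.Lib.H3C (Cl FR Olig Sup pai pia)

/-- The conditions on a structure `A` whose vertices are placed by `q` (in an orbit or at a constant). -/
def Placed {I T V κ ι : Type} (D : TD I T) (M : Str I T V) (c : κ → V)
    (q : ι → Orb D M c ⊕ κ) (A : Str I T ι) : Prop :=
  (∀ u o, q u = Sum.inl o → A.c u = o.col) ∧ (∀ u m, q u = Sum.inr m → A.c u = M.c (c m)) ∧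
    (∀ u v o m, q u = Sum.inl o → q v = Sum.inr m → A.s u v = o.ty m) ∧
    (∀ u v m m', u ≠ v → q u = Sum.inr m → q v = Sum.inr m' → A.s u v = M.s (c m) (c m')) ∧
    ∀ u v m, q u = Sum.inr m → q v = Sum.inr m → u = v

/-- The conditions on the result of the move: `B` is the structure to which `g` moves `A`. -/
def Moved {I T V κ ι : Type} (D : TD I T) (M : Str I T V) (c : κ → V) (g : Perm V)
    (β : Orb D M c → I) (μ : Orb D M c → κ → T) (ψ : Orb D M c → Orb D M c → T → T)
    (q : ι → Orb D M c ⊕ κ) (ρ : ι → ℕ) (A B : Str I T ι) : Prop :=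
  (∀ u o, q u = Sum.inl o → B.c u = β o) ∧ (∀ u m, q u = Sum.inr m → B.c u = M.c (g (c m))) ∧
    (∀ u v o o', q u = Sum.inl o → q v = Sum.inl o' → ρ u < ρ v → B.s u v = ψ o o' (A.s u v)) ∧
    (∀ u v o m, q u = Sum.inl o → q v = Sum.inr m → B.s u v = μ o m) ∧
    ∀ u v m m', u ≠ v → q u = Sum.inr m → q v = Sum.inr m' → B.s u v = M.s (g (c m)) (g (c m'))

/-- Realisation of a placement.

Proof. Let `ι' = {u // ∃ o, q u = inl o}` with the structure `A'` whose colour at `u` is the orbit `o` (choose;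
unique) and whose types are those of `A`.  `A'.under Orb.col` is valid (`hA`, first condition of `Placed`).
`h` (with `ρ` restricted to `ι'`) gives `x : ι' → V`.  Let `a u = x u` for `u ∈ ι'` and `a u = c m` if
`q u = inr m`.  `a` is injective (`HasC`, `hc`, last condition of `Placed`), `Has M A a` (for `q u = inr m`,
`q v = inl o` use the validity of `A` and `M`: both types are `D.opp` of the types of the reversed
pair), and `Moved` for `M.map (fun u => g (a u))` by the last three statements of `CD`. -/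
theorem place {I T V κ ι : Type} [Finite ι] {D : TD I T} {M : Str I T V}
    (hM : Gen D M) {c : κ → V} (hc : Injective c) {g : Perm V}
    {β : Orb D M c → I} {μ : Orb D M c → κ → T} {ψ : Orb D M c → Orb D M c → T → T}
    (h : CD D M c g β μ ψ) (q : ι → Orb D M c ⊕ κ) (ρ : ι → ℕ) (hρ : Injective ρ)
    {A : Str I T ι} (hA : Val D A) (hq : Placed D M c q A) :
    ∃ a : ι → V, Injective a ∧ Has M A a ∧
      Moved D M c g β μ ψ q ρ A (M.map (fun u => g (a u))) := by
  classical
  obtain ⟨hq1, hq2, hq3, hq4, hq5⟩ := hq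
  let W : Type := {u : ι // ∃ o, q u = Sum.inl o}
  let B : Str (Orb D M c) T W := ⟨fun u => Classical.choose u.2, fun u v => A.s u.1 v.1⟩
  have hB : ∀ (u : W) (o : Orb D M c), q u.1 = Sum.inl o → B.c u = o := by
    intro u o ho
    have h1 : q u.1 = Sum.inl (B.c u) := Classical.choose_spec u.2
    rw [ho] at h1
    exact (Sum.inl.inj h1).symm
  have hBc : ∀ u : W, A.c u.1 = (B.c u).col := fun u =>
    hq1 u.1 _ (Classical.choose_spec u.2)
  have hV : Val D (B.under Orb.col) := by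
    intro u v huv
    have h1 := hA u.1 v.1 (fun h2 => huv (Subtype.ext h2))
    exact ⟨h1.1.trans (hBc u), h1.2.1.trans (hBc v), h1.2.2⟩
  obtain ⟨x, ⟨hx1, hx2, hx3, hx4⟩, hx5, hx6, hx7⟩ := h W (fun u => ρ u.1) B
    (fun u v huv => Subtype.ext (hρ huv)) hV
  have hex : ∀ u : ι, ∃ w : V, (∀ hu : ∃ o, q u = Sum.inl o, w = x ⟨u, hu⟩) ∧
      ∀ m, q u = Sum.inr m → w = c m := by
    intro u
    by_cases hu : ∃ o, q u = Sum.inl o
    · refine ⟨x ⟨u, hu⟩, fun _ => rfl, fun m hm => ?_⟩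
      obtain ⟨o, ho⟩ := hu
      rw [hm] at ho
      exact absurd ho (by simp)
    · obtain ⟨m, hm⟩ : ∃ m, q u = Sum.inr m := by
        rcases h2 : q u with o | m
        · exact absurd ⟨o, h2⟩ hu
        · exact ⟨m, rfl⟩
      refine ⟨c m, fun h1 => absurd h1 hu, fun m' hm' => ?_⟩
      rw [hm] at hm'
      rw [Sum.inr.inj hm']
  choose a ha1 ha2 using hex
  have hal : ∀ u o (ho : q u = Sum.inl o), a u = x ⟨u, o, ho⟩ := fun u o ho => ha1 u ⟨o, ho⟩
  have hbl : ∀ u o (ho : q u = Sum.inl o), B.c ⟨u, o, ho⟩ = o := fun u o ho => hB ⟨u, o, ho⟩ o ho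
  have hinj : Injective a := by
    intro u v huv
    rcases hu : q u with o | m <;> rcases hv : q v with o' | m'
    · rw [hal u o hu, hal v o' hv] at huv
      exact Subtype.ext_iff.1 (hx1 huv)
    · rw [hal u o hu, ha2 v m' hv] at huv
      exact absurd huv (hx2 _ _)
    · rw [ha2 u m hu, hal v o' hv] at huv
      exact absurd huv.symm (hx2 _ _)
    · rw [ha2 u m hu, ha2 v m' hv] at huv
      rw [← hc huv] at hv
      exact hq5 u v m hu hv
  have hlr : ∀ u v o m, q u = Sum.inl o → q v = Sum.inr m → M.s (a u) (a v) = A.s u v := by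
    intro u v o m hu hv
    rw [hal u o hu, ha2 v m hv, hx4, hbl u o hu, hq3 u v o m hu hv]
  refine ⟨a, hinj, ⟨fun u => ?_, fun u v huv => ?_⟩, fun u o hu => ?_, fun u m hu => ?_,
    fun u v o o' hu hv huv => ?_, fun u v o m hu hv => ?_, fun u v m m' huv hu hv => ?_⟩
  · show M.c (a u) = A.c u
    rcases hu : q u with o | m
    · rw [hal u o hu]
      exact (hx3.1 ⟨u, o, hu⟩).trans (hBc ⟨u, o, hu⟩).symm
    · rw [ha2 u m hu, hq2 u m hu]
  · show M.s (a u) (a v) = A.s u v
    rcases hu : q u with o | m <;> rcases hv : q v with o' | m'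
    · rw [hal u o hu, hal v o' hv]
      exact hx3.2 ⟨u, o, hu⟩ ⟨v, o', hv⟩ (fun h1 => huv (Subtype.ext_iff.1 h1))
    · exact hlr u v o m' hu hv
    · have h1 := hlr v u o' m hv hu
      rw [(hA v u huv.symm).2.2, ← h1]
      exact (hM.1 (a v) (a u) (fun h2 => huv (hinj h2).symm)).2.2
    · rw [ha2 u m hu, ha2 v m' hv, hq4 u v m m' huv hu hv]
  · show M.c (g (a u)) = β o
    rw [hal u o hu, hx5, hbl u o hu]
  · show M.c (g (a u)) = M.c (g (c m))
    rw [ha2 u m hu]
  · show M.s (g (a u)) (g (a v)) = ψ o o' (A.s u v)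
    rw [hal u o hu, hal v o' hv, hx7 ⟨u, o, hu⟩ ⟨v, o', hv⟩ huv, hbl u o hu, hbl v o' hv]
  · show M.s (g (a u)) (g (a v)) = μ o m
    rw [hal u o hu, ha2 v m hv, hx6, hbl u o hu]
  · show M.s (g (a u)) (g (a v)) = M.s (g (c m)) (g (c m'))
    rw [ha2 u m hu, ha2 v m' hv]

end Pool.Agent.Lib.H3R
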