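import Pool.Agent.Lib.H3R.D1a

/-! # D1b: operations -/

namespace Pool.Agent.Lib.H3R

open Equiv Function
open Pool.Agent.Lib.H3C (Cl FR Olig Sup pai pia)

variable {I T V : Type} {D : TD I T} {M : Str I T V} {G : Subgroup (Perm V)}

/-- Operations can be composed.

Proof. `opR D β' ψ' ρ (opR D β ψ ρ A)` and `opR D (β' ∘ β) (ψ' ∘ ψ) ρ A` agree off the diagonal;
`val_opR` (with `op_src`) and `Rel.trans`. -/
theorem op_comp [Countable V] (hM : Gen D M) (hG : Au M ≤ G) {β β' : I → I} {ψ ψ' : T → T}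
    (h : IsOp D M G β ψ) (h' : IsOp D M G β' ψ') :
    IsOp D M G (fun i => β' (β i)) (fun a => ψ' (ψ a)) := by
  intro ι _ ρ A hρ hA
  have h1 := h ι ρ A hρ hA
  have hB : Val D (opR D β ψ ρ A) :=
    val_opR hA β ψ ρ hρ (fun a => (op_src hM h a).1) (fun a => (op_src hM h a).2)
  have h2 := h' ι ρ _ hρ hB
  refine (h1.trans hM hG h2).congr (Eqv.rfl' A) ⟨fun _ => rfl, fun u v huv => ?_⟩
  rcases lt_or_gt_of_ne (fun h3 => huv (hρ h3)) with h3 | h3
  · simp only [opR, if_pos h3]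
  · have h4 : ¬ ρ u < ρ v := not_lt.2 (le_of_lt h3)
    have h5 : ρ v < ρ u := h3
    simp only [opR, if_neg h4, if_pos h5]

end Pool.Agent.Lib.H3R
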