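import Pool.Agent.Lib.H3R.D1b

/-! # D1c: operations -/

namespace Pool.Agent.Lib.H3R

open Equiv Function
open Pool.Agent.Lib.H3C (Cl FR Olig Sup pai pia)

variable {I T V : Type} {D : TD I T} {M : Str I T V} {G : Subgroup (Perm V)}

/-- Proof. `Apx D M G a b` (then `hns`): let `A` be valid, `A.s u v = a`; take `ρ` from `exists_rank2 u v` with
`ρ u < ρ v`.  `opR D β ψ ρ A` and `opR D β ψ ρ (chg D A u v b)` agree off the diagonal (`ψ a = ψ b`), so
`Rel.trans` and `Rel.symm` (`val_chg` for the validity of `chg D A u v b`). -/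
theorem op_inj [Countable V] (hM : Gen D M) (hG : Au M ≤ G) (hns : NS D M G) {β : I → I}
    {ψ : T → T} (h : IsOp D M G β ψ) {a b : T} (hs : D.src a = D.src b) (ht : D.tgt a = D.tgt b)
    (hab : ψ a = ψ b) : a = b := by
  refine hns a b ⟨hs, ht, ?_⟩
  intro ι _ A u v hA huv hauv
  obtain ⟨ρ, -, hρ, -, h1, -, -⟩ := exists_rank2 u v huv
  have h0 := hA u v huv
  have hB : Val D (chg D A u v b) := by
    refine val_chg hA huv ?_ ?_
    · rw [← hs, ← hauv, h0.1]
    · rw [← ht, ← hauv, h0.2.1]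
  have hr1 := h ι ρ A hρ hA
  have hr2 := h ι ρ (chg D A u v b) hρ hB
  have h2 : ¬ ρ v < ρ u := not_lt.2 h1.le
  have he : Eqv (opR D β ψ ρ (chg D A u v b)) (opR D β ψ ρ A) := by
    refine ⟨fun _ => rfl, fun x y hxy => ?_⟩
    by_cases h3 : x = u ∧ y = v
    · obtain ⟨rfl, rfl⟩ := h3
      simp only [opR, if_pos h1]
      rw [chg_left, hauv, hab]
    · by_cases h4 : x = v ∧ y = u
      · obtain ⟨rfl, rfl⟩ := h4
        simp only [opR, if_neg h2]
        rw [chg_left, hauv, hab]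
      · have h5 : ¬ (y = u ∧ x = v) := fun h => h4 ⟨h.2, h.1⟩
        have h6 : ¬ (y = v ∧ x = u) := fun h => h3 ⟨h.2, h.1⟩
        simp only [opR]
        rw [chg_other _ _ _ _ _ _ h3 h4, chg_other _ _ _ _ _ _ h5 h6]
  exact Rel.trans hM hG hr1 (hr2.congr (Eqv.rfl' _) he).symm

end Pool.Agent.Lib.H3R
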