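import Pool.Agent.Lib.H3R.D1c

/-! # D1d: operations -/

namespace Pool.Agent.Lib.H3R

open Equiv Function
open Pool.Agent.Lib.H3C (Cl FR Olig Sup pai pia)

variable {I T V : Type} {D : TD I T} {M : Str I T V} {G : Subgroup (Perm V)}

/-- Proof. `β` is injective by `hnm`, and bijective as `I` is finite.  If `ψ a = ψ b` then `β (D.src a) =
β (D.src b)` and `β (D.tgt a) = β (D.tgt b)` (`op_src`), so `a = b` by `op_inj`; `T` is finite. -/
theorem op_bij [Countable V] [Finite I] [Finite T] (hM : Gen D M) (hG : Au M ≤ G)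
    (hns : NS D M G) (hnm : NM D M G) {β : I → I} {ψ : T → T} (h : IsOp D M G β ψ) :
    Bijective β ∧ Bijective ψ := by
  have hβ : Injective β := hnm β ψ h
  refine ⟨Finite.injective_iff_bijective.1 hβ, Finite.injective_iff_bijective.1 ?_⟩
  intro a b hab
  refine op_inj hM hG hns h (hβ ?_) (hβ ?_) hab
  · rw [← (op_src hM h a).1, ← (op_src hM h b).1, hab]
  · rw [← (op_src hM h a).2, ← (op_src hM h b).2, hab]

end Pool.Agent.Lib.H3R
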