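import Pool.Agent.Lib.H3R.A4
import Pool.Agent.Lib.H3R.A6

/-! # D1a: operations -/

namespace Pool.Agent.Lib.H3R

open Equiv Function
open Pool.Agent.Lib.H3C (Cl FR Olig Sup pai pia)

variable {I T V : Type} {D : TD I T} {M : Str I T V} {G : Subgroup (Perm V)}

/-- Proof. Apply `h` to the structure on `Fin 2` with colours `D.src a`, `D.tgt a`, the type `a` for `(0, 1)`
and `D.opp a` for `(1, 0)`, and `ρ u = u`; the image is valid by `Rel.val_right hM.1`. -/
theorem op_src (hM : Gen D M) {β : I → I} {ψ : T → T} (h : IsOp D M G β ψ) (a : T) :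
    D.src (ψ a) = β (D.src a) ∧ D.tgt (ψ a) = β (D.tgt a) := by
  have hA : Val D (⟨fun u : Fin 2 => if u = 0 then D.src a else D.tgt a,
      fun u v : Fin 2 => if u = 0 then a else D.opp a⟩ : Str I T (Fin 2)) := by
    intro u v huv
    fin_cases u <;> fin_cases v <;>
      simp_all [D.src_opp, D.tgt_opp, D.opp_opp]
  have hρ : Injective (fun u : Fin 2 => (u : ℕ)) := fun u v h => Fin.ext h
  have h1 := (h (Fin 2) (fun u => (u : ℕ)) _ hρ hA).val_right hM.1
  have h2 := h1 0 1 (by decide)
  have h3 : ((0 : Fin 2) : ℕ) < ((1 : Fin 2) : ℕ) := by decide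
  simp only [opR, if_pos h3] at h2
  exact ⟨by simpa using h2.1, by simpa using h2.2.1⟩

/-- The identity is an operation.  Proof. `Rel.of_eqv`. -/
theorem op_id (hM : Gen D M) : IsOp D M G id id := by
  intro ι _ ρ A hρ hA
  refine Rel.of_eqv hM hA ⟨fun _ => rfl, fun u v huv => ?_⟩
  by_cases h : ρ u < ρ v
  · simp only [opR, if_pos h, id_eq]
  · simp only [opR, if_neg h, id_eq]
    exact (hA v u huv.symm).2.2

end Pool.Agent.Lib.H3R
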