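import Pool.Agent.Lib.H3R.D2a

/-! # D2b: bijective operations do not depend on the order -/

namespace Pool.Agent.Lib.H3R

open Equiv Function
open Pool.Agent.Lib.H3C (Cl FR Olig Sup pai pia)

variable {I T V : Type} [Countable V] [Finite I] [Finite T] {D : TD I T} {M : Str I T V}
  {G : Subgroup (Perm V)}

/-- Proof. `opR D β ψ ρ A` and `apl β ψ A` agree off the diagonal (`op_opp`; `exists_rank`). -/
theorem rel_apl (hM : Gen D M) (hG : Au M ≤ G) (hns : NS D M G) (hnm : NM D M G) {β : I → I}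
    {ψ : T → T} (h : IsOp D M G β ψ) {ι : Type} [Finite ι] {A : Str I T ι} (hA : Val D A) :
    Rel M G A (apl β ψ A) := by
  obtain ⟨ρ, hρ⟩ := exists_rank ι
  refine (h ι ρ A hρ hA).congr (Eqv.rfl' A) ⟨fun _ => rfl, fun u v huv => ?_⟩
  rcases lt_or_gt_of_ne (fun h1 => huv (hρ h1)) with h1 | h1
  · simp only [opR, apl, if_pos h1]
  · simp only [opR, apl, if_neg (not_lt.2 (le_of_lt h1))]
    rw [(hA u v huv).2.2, op_opp hM hG hns hnm h, D.opp_opp]

end Pool.Agent.Lib.H3R
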