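import Pool.Agent.Lib.H3R.D2b

/-! # D2c: bijective operations do not depend on the order -/

namespace Pool.Agent.Lib.H3R

open Equiv Function
open Pool.Agent.Lib.H3C (Cl FR Olig Sup pai pia)

variable {I T V : Type} [Countable V] [Finite I] [Finite T] {D : TD I T} {M : Str I T V}
  {G : Subgroup (Perm V)}

/-- Operations can be inverted.

Proof. `op_bij`: let `B` be the structure with `β (B.c w) = C.c w` and `ψ (B.s u v) = C.s u v`.  It is valid
by `op_src`, `op_opp` and the injectivity of `β` and `ψ`; `rel_apl` for `B`, and `apl β ψ B = C`. -/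
theorem exists_unapl (hM : Gen D M) (hG : Au M ≤ G) (hns : NS D M G) (hnm : NM D M G) {β : I → I}
    {ψ : T → T} (h : IsOp D M G β ψ) {ι : Type} [Finite ι] {C : Str I T ι} (hC : Val D C) :
    ∃ B : Str I T ι, Val D B ∧ (∀ u, β (B.c u) = C.c u) ∧ Rel M G C B := by
  obtain ⟨hβ, hψ⟩ := op_bij hM hG hns hnm h
  choose fc hfc using fun u : ι => hβ.2 (C.c u)
  choose fs hfs using fun (u v : ι) => hψ.2 (C.s u v)
  have hB : Val D (⟨fc, fs⟩ : Str I T ι) := by
    intro u v huv
    obtain ⟨h1, h2, h3⟩ := hC u v huv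
    refine ⟨?_, ?_, ?_⟩
    · apply hβ.1
      show β (D.src (fs u v)) = β (fc u)
      rw [← (op_src hM h (fs u v)).1, hfs, hfc, h1]
    · apply hβ.1
      show β (D.tgt (fs u v)) = β (fc v)
      rw [← (op_src hM h (fs u v)).2, hfs, hfc, h2]
    · apply hψ.1
      show ψ (fs v u) = ψ (D.opp (fs u v))
      rw [op_opp hM hG hns hnm h, hfs, hfs, h3]
  refine ⟨⟨fc, fs⟩, hB, hfc, ?_⟩
  refine ((rel_apl hM hG hns hnm h hB).congr (Eqv.rfl' _) ⟨?_, ?_⟩).symm
  · intro u
    exact hfc u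
  · intro u v _
    exact hfs u v

end Pool.Agent.Lib.H3R
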