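import Pool.Agent.Lib.H3R.D2a
import Pool.Agent.Lib.H3R.D2b
import Pool.Agent.Lib.H3R.D2c

/-! # D2 (all parts): bijective operations do not depend on the order -/
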