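import Pool.Agent.Lib.H3R.D1

/-! # D2a: bijective operations do not depend on the order -/

namespace Pool.Agent.Lib.H3R

open Equiv Function
open Pool.Agent.Lib.H3C (Cl FR Olig Sup pai pia)

variable {I T V : Type} [Countable V] [Finite I] [Finite T] {D : TD I T} {M : Str I T V}
  {G : Subgroup (Perm V)}

/-- Proof. Let `y = ψ a`, `y' = D.opp (ψ (D.opp a))`; they have the same source and target (`op_src`).
`Apx D M G y y'`: let `C` be valid on `ι`, `u ≠ v`, `C.s u v = y`.  Let `ρ`, `ρ'` be as in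
`exists_rank2 u v`.  By `op_bij` there is `A` with `β (A.c w) = C.c w`, and `ψ (A.s x y) = C.s x y` for
`ρ x < ρ y`, `A.s y x = D.opp (A.s x y)` for these; `A` is valid (`op_src` and the injectivity of `β`), and
`A.s u v = a`.  `opR D β ψ ρ A` is `C` off the diagonal.  `opR D β ψ ρ' A` is `chg D C u v y'` off the diagonal:
for the pairs other than `{u, v}` the orders `ρ`, `ρ'` agree, and for `(v, u)` (`ρ' v < ρ' u`) the
type is `ψ (A.s v u) = ψ (D.opp a) = D.opp y'`.  So `Rel M G A C` and `Rel M G A (chg D C u v y')`. -/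
theorem op_opp (hM : Gen D M) (hG : Au M ≤ G) (hns : NS D M G) (hnm : NM D M G) {β : I → I}
    {ψ : T → T} (h : IsOp D M G β ψ) (a : T) : ψ (D.opp a) = D.opp (ψ a) := by
  classical
  obtain ⟨hβ, hψ⟩ := op_bij hM hG hns hnm h
  have hsrc : ∀ t, D.src (ψ t) = β (D.src t) := fun t => (op_src hM h t).1
  have htgt : ∀ t, D.tgt (ψ t) = β (D.tgt t) := fun t => (op_src hM h t).2
  have key : ψ a = D.opp (ψ (D.opp a)) := by
    refine hns _ _ ⟨?_, ?_, ?_⟩
    · rw [D.src_opp, hsrc, htgt, D.tgt_opp]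
    · rw [D.tgt_opp, hsrc, htgt, D.src_opp]
    · intro ι _ C u v hC huv hCuv
      obtain ⟨ρ, ρ', hρ, hρ', huv1, huv2, hother⟩ := exists_rank2 u v huv
      obtain ⟨βi, hβi⟩ := hβ.2.hasRightInverse
      obtain ⟨ψi, hψi⟩ := hψ.2.hasRightInverse
      have hψs : ∀ t, D.src (ψi t) = βi (D.src t) := fun t => hβ.1 (by
        rw [← hsrc, hψi, hβi])
      have hψt : ∀ t, D.tgt (ψi t) = βi (D.tgt t) := fun t => hβ.1 (by
        rw [← htgt, hψi, hβi])
      obtain ⟨A, hA⟩ : ∃ A : Str I T ι, A = ⟨fun w => βi (C.c w),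
        fun x z => if ρ x < ρ z then ψi (C.s x z) else D.opp (ψi (C.s z x))⟩ := ⟨_, rfl⟩
      have hAc : ∀ w, A.c w = βi (C.c w) := fun w => by rw [hA]
      have hA1 : ∀ x z, ρ x < ρ z → A.s x z = ψi (C.s x z) := fun x z h1 => by
        rw [hA]
        exact if_pos h1
      have hA2 : ∀ x z, ρ z < ρ x → A.s x z = D.opp (ψi (C.s z x)) := fun x z h1 => by
        rw [hA]
        exact if_neg (not_lt.2 h1.le)
      have hAv : Val D A := by
        intro x z hxz
        rcases lt_or_gt_of_ne (fun h1 => hxz (hρ h1)) with h1 | h1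
        · rw [hA1 x z h1, hA2 z x h1, hAc, hAc, hψs, hψt, (hC x z hxz).1, (hC x z hxz).2.1]
          exact ⟨rfl, rfl, rfl⟩
        · rw [hA2 x z h1, hA1 z x h1, hAc, hAc, D.src_opp, D.tgt_opp, hψs, hψt,
            (hC z x hxz.symm).1, (hC z x hxz.symm).2.1, D.opp_opp]
          exact ⟨rfl, rfl, rfl⟩
      have hψA : ∀ x z, ρ x < ρ z → ψ (A.s x z) = C.s x z := fun x z h1 => by
        rw [hA1 x z h1, hψi]
      have hψA' : ∀ x z, ρ x < ρ z → D.opp (ψ (A.s x z)) = C.s z x := fun x z h1 => by
        rw [hψA x z h1]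
        exact ((hC x z (fun h2 => by rw [h2] at h1; exact lt_irrefl _ h1)).2.2).symm
      have hE : Eqv (opR D β ψ ρ A) C := by
        refine ⟨fun w => ?_, fun x z hxz => ?_⟩
        · show β (A.c w) = C.c w
          rw [hAc, hβi]
        · rcases lt_or_gt_of_ne (fun h1 => hxz (hρ h1)) with h1 | h1
          · simp only [opR, if_pos h1]
            exact hψA x z h1
          · simp only [opR, if_neg (not_lt.2 (le_of_lt h1))]
            exact hψA' z x h1
      have hAvu : A.s v u = D.opp a := by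
        rw [hA2 v u huv1, hCuv]
        exact congrArg D.opp (hψ.1 (hψi (ψ a)))
      have hE' : Eqv (opR D β ψ ρ' A) (chg D C u v (D.opp (ψ (D.opp a)))) := by
        refine ⟨fun w => ?_, fun x z hxz => ?_⟩
        · show β (A.c w) = C.c w
          rw [hAc, hβi]
        · by_cases h3 : x = u ∧ z = v
          · obtain ⟨rfl, rfl⟩ := h3
            rw [chg_left]
            simp only [opR, if_neg (not_lt.2 (le_of_lt huv2)), hAvu]
          · by_cases h4 : x = v ∧ z = u
            · obtain ⟨rfl, rfl⟩ := h4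
              rw [chg_right _ _ _ _ huv]
              simp only [opR, if_pos huv2, hAvu, D.opp_opp]
            · rw [chg_other _ _ _ _ _ _ h3 h4]
              rcases lt_or_gt_of_ne (fun h1 => hxz (hρ h1)) with h1 | h1
              · simp only [opR, if_pos ((hother x z h3 h4).1 h1)]
                exact hψA x z h1
              · have h5 : ρ' z < ρ' x :=
                  (hother z x (fun h => h4 ⟨h.2, h.1⟩) (fun h => h3 ⟨h.2, h.1⟩)).1 h1
                simp only [opR, if_neg (not_lt.2 (le_of_lt h5))]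
                exact hψA' z x h1
      have hR1 : Rel M G A C := (h ι ρ A hρ hAv).congr (Eqv.rfl' A) hE
      have hR2 : Rel M G A (chg D C u v (D.opp (ψ (D.opp a)))) :=
        (h ι ρ' A hρ' hAv).congr (Eqv.rfl' A) hE'
      exact hR1.symm.trans hM hG hR2
  rw [key, D.opp_opp]

end Pool.Agent.Lib.H3R
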