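import Pool.Agent.Lib.H3C.Defs
import Mathlib.Combinatorics.HalesJewett

/-!
# Random binary structures: definitions

Definitions for `Pool/Agent/Lib/H3R` (MP_f225a9, Thomas's conjecture for random binary structures).
`I` is the set of colours (1-types), `T` the set of 2-types.
-/

namespace Pool.Agent.Lib.H3R

open Equiv
open Pool.Agent.Lib.H3C (Cl FR Olig Sup pai pia)

/-- Type data: a 2-type `a` is the type of a pair of a point of colour `src a` and a point of colour
`tgt a`; `opp a` is the type of the reversed pair. -/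
structure TD (I T : Type) where
  src : T → I
  tgt : T → I
  opp : T → T
  opp_opp : ∀ a, opp (opp a) = a
  src_opp : ∀ a, src (opp a) = tgt a
  ex : ∀ i j, ∃ a, src a = i ∧ tgt a = j

theorem TD.tgt_opp {I T : Type} (D : TD I T) (a : T) : D.tgt (D.opp a) = D.src a := by
  rw [← D.src_opp, D.opp_opp]

theorem TD.opp_inj {I T : Type} (D : TD I T) {a b : T} (h : D.opp a = D.opp b) : a = b := by
  rw [← D.opp_opp a, h, D.opp_opp]

/-- A structure on `ι`: colours and types of pairs (the values `s u u` are irrelevant). -/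
structure Str (I T ι : Type) where
  c : ι → I
  s : ι → ι → T

/-- The structure induced along a map. -/
def Str.map {I T ι κ : Type} (A : Str I T ι) (e : κ → ι) : Str I T κ :=
  ⟨fun u => A.c (e u), fun u v => A.s (e u) (e v)⟩

/-- The types fit to the colours. -/
def Val {I T ι : Type} (D : TD I T) (A : Str I T ι) : Prop :=
  ∀ u v, u ≠ v → D.src (A.s u v) = A.c u ∧ D.tgt (A.s u v) = A.c v ∧ A.s v u = D.opp (A.s u v)

/-- Equality off the diagonal. -/
def Eqv {I T ι : Type} (A B : Str I T ι) : Prop :=
  (∀ u, A.c u = B.c u) ∧ ∀ u v, u ≠ v → A.s u v = B.s u v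

/-- `M` is the random structure with the type data `D`: the extension property. -/
def Gen {I T V : Type} (D : TD I T) (M : Str I T V) : Prop :=
  Val D M ∧ ∀ (F : Finset V) (i : I) (τ : V → T),
    (∀ v ∈ F, D.src (τ v) = i ∧ D.tgt (τ v) = M.c v) →
      ∃ w, w ∉ F ∧ M.c w = i ∧ ∀ v ∈ F, M.s w v = τ v

/-- The automorphism group. -/
def Au {I T V : Type} (M : Str I T V) : Subgroup (Perm V) where
  carrier := {σ | (∀ x, M.c (σ x) = M.c x) ∧ ∀ x y, x ≠ y → M.s (σ x) (σ y) = M.s x y}
  mul_mem' := fun {a b} ha hb => ⟨fun x => by rw [Perm.mul_apply, ha.1, hb.1], fun x y h => by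
    rw [Perm.mul_apply, Perm.mul_apply, ha.2 _ _ (fun h1 => h (b.injective h1)), hb.2 _ _ h]⟩
  one_mem' := ⟨fun _ => rfl, fun _ _ _ => rfl⟩
  inv_mem' := by
    intro a ha
    refine ⟨fun x => ?_, fun x y h => ?_⟩
    · have := ha.1 (a⁻¹ x)
      rw [pai] at this
      exact this.symm
    · have := ha.2 (a⁻¹ x) (a⁻¹ y) (fun h1 => h (a⁻¹.injective h1))
      rw [pai, pai] at this
      exact this.symm

/-- `a` is a realisation of `A` in `M`. -/
def Has {I T V ι : Type} (M : Str I T V) (A : Str I T ι) (a : ι → V) : Prop := Eqv (M.map a) A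

/-- Some element of `G` moves a copy of `A` to a copy of `B`. -/
def Rel {I T V ι : Type} (M : Str I T V) (G : Subgroup (Perm V)) (A B : Str I T ι) : Prop :=
  ∃ a : ι → V, Function.Injective a ∧ Has M A a ∧ ∃ g ∈ G, Has M B (fun u => g (a u))

/-- `G` is a closed group containing the automorphism group of `M`. -/
def Sg {I T V : Type} (M : Str I T V) (G : Subgroup (Perm V)) : Prop := Au M ≤ G ∧ Cl G

/-! ## Operations on structures -/

/-- Apply `β` to the colours and `ψ` to the types of the pairs in the order given by `ρ`. -/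
def opR {I T ι : Type} (D : TD I T) (β : I → I) (ψ : T → T) (ρ : ι → ℕ) (A : Str I T ι) :
    Str I T ι :=
  ⟨fun u => β (A.c u), fun u v => if ρ u < ρ v then ψ (A.s u v) else D.opp (ψ (A.s v u))⟩

/-- Apply `β` to the colours and `ψ` to all types. -/
def apl {I T ι : Type} (β : I → I) (ψ : T → T) (A : Str I T ι) : Str I T ι :=
  ⟨fun u => β (A.c u), fun u v => ψ (A.s u v)⟩

/-- The operation `(β, ψ)` is realised by `G` on all finite structures with all orders. -/
def IsOp {I T V : Type} (D : TD I T) (M : Str I T V) (G : Subgroup (Perm V)) (β : I → I)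
    (ψ : T → T) : Prop :=
  ∀ (ι : Type) [Finite ι] (ρ : ι → ℕ) (A : Str I T ι), Function.Injective ρ → Val D A →
    Rel M G A (opR D β ψ ρ A)

open Classical in
/-- Change the type of the pair `(u, v)` to `b`. -/
noncomputable def chg {I T ι : Type} (D : TD I T) (A : Str I T ι) (u v : ι) (b : T) : Str I T ι :=
  ⟨A.c, fun x y => if x = u ∧ y = v then b else if x = v ∧ y = u then D.opp b else A.s x y⟩

open Classical in
/-- Replace the types of the pairs which contain `u`: the new type of `(u, w)` is `f w`. -/
noncomputable def rep {I T ι : Type} (D : TD I T) (A : Str I T ι) (u : ι) (f : ι → T) :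
    Str I T ι :=
  ⟨A.c, fun x y => if x = u then f y else if y = u then D.opp (f x) else A.s x y⟩

/-- Switch at `u` with `l`. -/
noncomputable def sw {I T ι : Type} (D : TD I T) (A : Str I T ι) (u : ι) (l : T → T) :
    Str I T ι :=
  rep D A u (fun w => l (A.s u w))

/-- The types `a` and `b` can be exchanged in any pair of any finite structure. -/
def Apx {I T V : Type} (D : TD I T) (M : Str I T V) (G : Subgroup (Perm V)) (a b : T) : Prop :=
  D.src a = D.src b ∧ D.tgt a = D.tgt b ∧
    ∀ (ι : Type) [Finite ι] (A : Str I T ι) (u v : ι), Val D A → u ≠ v → A.s u v = a →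
      Rel M G A (chg D A u v b)

/-- No two types can be exchanged. -/
def NS {I T V : Type} (D : TD I T) (M : Str I T V) (G : Subgroup (Perm V)) : Prop :=
  ∀ a b, Apx D M G a b → a = b

/-- No operation merges colours. -/
def NM {I T V : Type} (D : TD I T) (M : Str I T V) (G : Subgroup (Perm V)) : Prop :=
  ∀ β ψ, IsOp D M G β ψ → Function.Injective β

/-- Switching with `l` at any vertex of colour `i` is realised by `G`. -/
def IsSw {I T V : Type} (D : TD I T) (M : Str I T V) (G : Subgroup (Perm V)) (i : I)
    (l : T → T) : Prop :=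
  (∀ a, D.src a = i → D.src (l a) = i ∧ D.tgt (l a) = D.tgt a) ∧
    ∀ (ι : Type) [Finite ι] (A : Str I T ι) (u : ι), Val D A → A.c u = i →
      Rel M G A (sw D A u l)

/-! ## Points over constants -/

/-- The possible colours of a point over the constants `c m`, `m : κ`. -/
def Orb {I T V κ : Type} (D : TD I T) (M : Str I T V) (c : κ → V) : Type :=
  {o : I × (κ → T) // ∀ m, D.src (o.2 m) = o.1 ∧ D.tgt (o.2 m) = M.c (c m)}

/-- The colour of a point over the constants. -/
def Orb.col {I T V κ : Type} {D : TD I T} {M : Str I T V} {c : κ → V} (o : Orb D M c) : I := o.1.1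

/-- The type of the pair `(x, c m)` for a point `x` of the orbit `o`. -/
def Orb.ty {I T V κ : Type} {D : TD I T} {M : Str I T V} {c : κ → V} (o : Orb D M c) (m : κ) : T :=
  o.1.2 m

/-- The structure with the colours in `I` underlying a structure with the colours in `K`. -/
def Str.under {I K T ι : Type} (pr : K → I) (A : Str K T ι) : Str I T ι :=
  ⟨fun u => pr (A.c u), A.s⟩

/-- `x` realises the structure `A` over the constants. -/
def HasC {I T V κ ι : Type} (D : TD I T) (M : Str I T V) (c : κ → V)
    (A : Str (Orb D M c) T ι) (x : ι → V) : Prop :=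
  Function.Injective x ∧ (∀ u m, x u ≠ c m) ∧ Has M (A.under Orb.col) x ∧
    ∀ u m, M.s (x u) (c m) = (A.c u).ty m

/-- Canonical data of `g` over the constants `c`: every finite structure over the constants has a copy
on which `g` acts by the functions `β` (new colour), `μ` (new type with the constants) and `ψ` (new
type of pairs, in the order `ρ`). -/
def CD {I T V κ : Type} (D : TD I T) (M : Str I T V) (c : κ → V) (g : Perm V)
    (β : Orb D M c → I) (μ : Orb D M c → κ → T) (ψ : Orb D M c → Orb D M c → T → T) : Prop :=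
  ∀ (ι : Type) [Finite ι] (ρ : ι → ℕ) (A : Str (Orb D M c) T ι), Function.Injective ρ →
    Val D (A.under Orb.col) →
      ∃ x : ι → V, HasC D M c A x ∧ (∀ u, M.c (g (x u)) = β (A.c u)) ∧
        (∀ u m, M.s (g (x u)) (g (c m)) = μ (A.c u) m) ∧
        ∀ u v, ρ u < ρ v → M.s (g (x u)) (g (x v)) = ψ (A.c u) (A.c v) (A.s u v)

end Pool.Agent.Lib.H3R
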