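import Pool.Agent.Lib.H3R.E1a

/-! # E1b: operations from canonical data -/

namespace Pool.Agent.Lib.H3R

open Equiv Function
open Pool.Agent.Lib.H3C (Cl FR Olig Sup pai pia)

variable {I T V κ : Type} {D : TD I T} {M : Str I T V} {c : κ → V}

/-- Canonical data give operations: place every colour `i` in one orbit `σ i`.

Proof. For `(ι, ρ, A)` let `q u = inl (σ (A.c u))`; `placed_orb`.  `move_ex` gives `B` valid with `Moved` and
`Rel M G A B`; `B` and `opR D _ _ ρ A` agree off the diagonal: `B.c u = β (σ (A.c u))`; for `ρ u < ρ v`: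
`B.s u v = ψ (σ (A.c u)) (σ (A.c v)) (A.s u v)` and `A.c u = D.src (A.s u v)`, `A.c v = D.tgt (A.s u v)`; for
`ρ v < ρ u`: `B.s u v = D.opp (B.s v u)`. -/
theorem sec_op (hM : Gen D M) {G : Subgroup (Perm V)} (hc : Injective c) {g : Perm V}
    (hg : g ∈ G) {β : Orb D M c → I} {μ : Orb D M c → κ → T} {ψ : Orb D M c → Orb D M c → T → T}
    (h : CD D M c g β μ ψ) (σ : I → Orb D M c) (hσ : ∀ i, (σ i).col = i) :
    IsOp D M G (fun i => β (σ i)) (fun a => ψ (σ (D.src a)) (σ (D.tgt a)) a) := by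
  intro ι _ ρ A hρ hA
  have hq : Placed D M c (fun u => Sum.inl (σ (A.c u))) A :=
    placed_orb (fun u => σ (A.c u)) A (fun u => (hσ _).symm)
  obtain ⟨B, hB, hm, hr⟩ := move_ex hM hc hg h (fun u => Sum.inl (σ (A.c u))) ρ hρ hA hq
  have hlt : ∀ u v, ρ u < ρ v →
      B.s u v = ψ (σ (D.src (A.s u v))) (σ (D.tgt (A.s u v))) (A.s u v) := by
    intro u v hlt
    have huv : u ≠ v := fun h1 => by
      rw [h1] at hlt
      exact lt_irrefl _ hlt
    rw [hm.2.2.1 u v _ _ rfl rfl hlt, (hA u v huv).1, (hA u v huv).2.1]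
  refine hr.congr (Eqv.rfl' _) ⟨fun u => ?_, fun u v huv => ?_⟩
  · exact hm.1 u _ rfl
  · rcases lt_or_gt_of_ne (fun h1 => huv (hρ h1)) with h1 | h1
    · simp only [opR, if_pos h1]
      exact hlt u v h1
    · simp only [opR, if_neg (not_lt.2 (le_of_lt h1))]
      rw [(hB v u huv.symm).2.2, hlt v u h1]

end Pool.Agent.Lib.H3R
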