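import Pool.Agent.Lib.H3R.E1b

/-! # E1c: operations from canonical data -/

namespace Pool.Agent.Lib.H3R

open Equiv Function
open Pool.Agent.Lib.H3C (Cl FR Olig Sup pai pia)

variable {I T V κ : Type} {D : TD I T} {M : Str I T V} {c : κ → V}

/-- The new colour depends only on the colour.

Proof. Let `σ` be a section (`exists_orb`) and `π i = β (σ i)`; it is injective by `hnm` and `sec_op`, hence
bijective.  Let `o` be an orbit of colour `i` and `σ' = Function.update σ i o`; `i' ↦ β (σ' i')` is also
injective, hence bijective, and agrees with `π` except at `i`; so `β o = β (σ' i) = π i`. -/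
theorem beta_eq [Finite I] (hM : Gen D M) {G : Subgroup (Perm V)} (hnm : NM D M G)
    (hc : Injective c) {g : Perm V} (hg : g ∈ G) {β : Orb D M c → I} {μ : Orb D M c → κ → T}
    {ψ : Orb D M c → Orb D M c → T → T} (h : CD D M c g β μ ψ) :
    ∃ π : I → I, Bijective π ∧ ∀ o, β o = π o.col := by
  classical
  have hinj : ∀ σ : I → Orb D M c, (∀ i, (σ i).col = i) → Bijective (fun i => β (σ i)) := by
    intro σ hσ
    exact Finite.injective_iff_bijective.1 (hnm _ _ (sec_op hM hc hg h σ hσ))
  choose σ hσ using fun i : I => exists_orb D M c i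
  refine ⟨fun i => β (σ i), hinj σ hσ, fun o => ?_⟩
  obtain ⟨σ', hσ'⟩ : ∃ σ' : I → Orb D M c, σ' = Function.update σ o.col o := ⟨_, rfl⟩
  have h1 : σ' o.col = o := by rw [hσ', Function.update_self]
  have h2 : ∀ i, i ≠ o.col → σ' i = σ i := fun i hi => by
    rw [hσ', Function.update_of_ne hi]
  have h3 : ∀ i, (σ' i).col = i := by
    intro i
    by_cases hi : i = o.col
    · rw [hi, h1]
    · rw [h2 i hi, hσ]
  obtain ⟨j, hj⟩ := (hinj σ hσ).2 (β o)
  have hj' : β (σ j) = β o := hj
  by_cases hjo : j = o.col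
  · show β o = β (σ o.col)
    rw [← hjo, hj']
  · exfalso
    apply hjo
    apply (hinj σ' h3).1
    show β (σ' j) = β (σ' o.col)
    rw [h1, h2 j hjo, hj']

end Pool.Agent.Lib.H3R
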