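import Pool.Agent.Lib.H3R.E1c

/-! # E1d: operations from canonical data -/

namespace Pool.Agent.Lib.H3R

open Equiv Function
open Pool.Agent.Lib.H3C (Cl FR Olig Sup pai pia)

variable {I T V κ : Type} {D : TD I T} {M : Str I T V} {c : κ → V}

/-- Sources and targets of the new types.

Proof. Apply `h` to the two-point structure with the orbits `o`, `o'` and the type `a` (`D.opp a` for the
reversed pair) on `Fin 2` with `ρ u = u`: the points `g (x 0)`, `g (x 1)` are different, so `hM.1` gives the source and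
target of `M.s (g (x 0)) (g (x 1)) = ψ o o' a`.  For `μ` use a one-point structure (`ι = Unit`; `T` is nonempty:
`a`) and `x 0 ≠ c m` (`HasC`). -/
theorem psi_src (hM : Gen D M) {g : Perm V} {β : Orb D M c → I} {μ : Orb D M c → κ → T}
    {ψ : Orb D M c → Orb D M c → T → T} (h : CD D M c g β μ ψ) (o o' : Orb D M c) (a : T)
    (h1 : D.src a = o.col) (h2 : D.tgt a = o'.col) :
    D.src (ψ o o' a) = β o ∧ D.tgt (ψ o o' a) = β o' := by
  classical
  obtain ⟨A, hA0, hA1, hA01, hA10⟩ : ∃ A : Str (Orb D M c) T (Fin 2), A.c 0 = o ∧ A.c 1 = o' ∧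
      A.s 0 1 = a ∧ A.s 1 0 = D.opp a :=
    ⟨⟨fun u => if u = 0 then o else o', fun u _ => if u = 0 then a else D.opp a⟩, by simp, by simp,
      by simp, by simp⟩
  have hval : Val D (A.under Orb.col) := by
    intro u v huv
    fin_cases u <;> fin_cases v
    · exact absurd rfl huv
    · refine ⟨?_, ?_, ?_⟩
      · show D.src (A.s 0 1) = (A.c 0).col
        rw [hA01, hA0, h1]
      · show D.tgt (A.s 0 1) = (A.c 1).col
        rw [hA01, hA1, h2]
      · show A.s 1 0 = D.opp (A.s 0 1)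
        rw [hA10, hA01]
    · refine ⟨?_, ?_, ?_⟩
      · show D.src (A.s 1 0) = (A.c 1).col
        rw [hA10, hA1, D.src_opp, h2]
      · show D.tgt (A.s 1 0) = (A.c 0).col
        rw [hA10, hA0, D.tgt_opp, h1]
      · show A.s 0 1 = D.opp (A.s 1 0)
        rw [hA10, hA01, D.opp_opp]
    · exact absurd rfl huv
  obtain ⟨x, hx, hβ, -, hψ⟩ := h (Fin 2) (fun u => (u : ℕ)) A Fin.val_injective hval
  have hne : g (x 0) ≠ g (x 1) := fun h3 => by
    have h4 := hx.1 (g.injective h3)
    exact absurd h4 (by decide)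
  have h3 := hM.1 (g (x 0)) (g (x 1)) hne
  have h4 := hψ 0 1 (by decide)
  rw [hA0, hA1, hA01] at h4
  rw [h4, hβ, hβ, hA0, hA1] at h3
  exact ⟨h3.1, h3.2.1⟩

theorem mu_src (hM : Gen D M) {g : Perm V} {β : Orb D M c → I} {μ : Orb D M c → κ → T}
    {ψ : Orb D M c → Orb D M c → T → T} (h : CD D M c g β μ ψ) (o : Orb D M c) (m : κ) :
    D.src (μ o m) = β o ∧ D.tgt (μ o m) = M.c (g (c m)) := by
  have hval : Val D ((⟨fun _ => o, fun _ _ => o.ty m⟩ : Str (Orb D M c) T Unit).under Orb.col) :=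
    fun u v huv => absurd (Subsingleton.elim u v) huv
  obtain ⟨x, hx, hβ, hμ, -⟩ := h Unit (fun _ => 0) ⟨fun _ => o, fun _ _ => o.ty m⟩
    (fun u v _ => Subsingleton.elim u v) hval
  have hne : g (x ()) ≠ g (c m) := fun h3 => hx.2.1 () m (g.injective h3)
  have h3 := hM.1 (g (x ())) (g (c m)) hne
  rw [hμ () m, hβ] at h3
  exact ⟨h3.1, h3.2.1⟩

end Pool.Agent.Lib.H3R
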