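import Pool.Agent.Lib.H3R.C2
import Pool.Agent.Lib.H3R.D1

/-! # E1a: operations from canonical data -/

namespace Pool.Agent.Lib.H3R

open Equiv Function
open Pool.Agent.Lib.H3C (Cl FR Olig Sup pai pia)

variable {I T V κ : Type} {D : TD I T} {M : Str I T V} {c : κ → V}

/-- An orbit with prescribed types for one or two constants.

Proof. `ty m = a`, `ty m' = a'`, and for the other constants types from `D.ex i (M.c (c k))`. -/
theorem exists_orb2 (D : TD I T) (M : Str I T V) (c : κ → V) (i : I) (m m' : κ) (hmm : m ≠ m')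
    (a a' : T) (h1 : D.src a = i) (h2 : D.tgt a = M.c (c m)) (h3 : D.src a' = i)
    (h4 : D.tgt a' = M.c (c m')) : ∃ o : Orb D M c, o.col = i ∧ o.ty m = a ∧ o.ty m' = a' := by
  classical
  choose f hf1 hf2 using fun k : κ => D.ex i (M.c (c k))
  have hv : ∀ k, D.src ((fun k => if k = m then a else if k = m' then a' else f k) k) = i ∧
      D.tgt ((fun k => if k = m then a else if k = m' then a' else f k) k) = M.c (c k) := by
    intro k
    dsimp only
    by_cases hk : k = m
    · rw [if_pos hk, hk]
      exact ⟨h1, h2⟩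
    · rw [if_neg hk]
      by_cases hk' : k = m'
      · rw [if_pos hk', hk']
        exact ⟨h3, h4⟩
      · rw [if_neg hk']
        exact ⟨hf1 k, hf2 k⟩
  refine ⟨⟨(i, fun k => if k = m then a else if k = m' then a' else f k), hv⟩, rfl, ?_, ?_⟩
  · show (if m = m then a else if m = m' then a' else f m) = a
    rw [if_pos rfl]
  · show (if m' = m then a else if m' = m' then a' else f m') = a'
    rw [if_neg hmm.symm, if_pos rfl]

theorem exists_orb1 (D : TD I T) (M : Str I T V) (c : κ → V) (i : I) (m : κ)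
    (a : T) (h1 : D.src a = i) (h2 : D.tgt a = M.c (c m)) :
    ∃ o : Orb D M c, o.col = i ∧ o.ty m = a := by
  classical
  choose f hf1 hf2 using fun k : κ => D.ex i (M.c (c k))
  have hv : ∀ k, D.src ((fun k => if k = m then a else f k) k) = i ∧
      D.tgt ((fun k => if k = m then a else f k) k) = M.c (c k) := by
    intro k
    dsimp only
    by_cases hk : k = m
    · rw [if_pos hk, hk]
      exact ⟨h1, h2⟩
    · rw [if_neg hk]
      exact ⟨hf1 k, hf2 k⟩
  refine ⟨⟨(i, fun k => if k = m then a else f k), hv⟩, rfl, ?_⟩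
  show (if m = m then a else f m) = a
  rw [if_pos rfl]

theorem exists_orb (D : TD I T) (M : Str I T V) (c : κ → V) (i : I) :
    ∃ o : Orb D M c, o.col = i := by
  choose f hf1 hf2 using fun k : κ => D.ex i (M.c (c k))
  exact ⟨⟨(i, f), fun k => ⟨hf1 k, hf2 k⟩⟩, rfl⟩

/-- The types of `Orb`.  Proof. By definition. -/
theorem Orb.src_ty (o : Orb D M c) (m : κ) : D.src (o.ty m) = o.col := (o.2 m).1

theorem Orb.tgt_ty (o : Orb D M c) (m : κ) : D.tgt (o.ty m) = M.c (c m) := (o.2 m).2

end Pool.Agent.Lib.H3R
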