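import Pool.Agent.Lib.H3R.E2a

/-! # E2b: the functions `ψ o o'` are bijections -/

namespace Pool.Agent.Lib.H3R

open Equiv Function
open Pool.Agent.Lib.H3C (Cl FR Olig Sup pai pia)

variable {I T V κ : Type} [Countable V] {D : TD I T} {M : Str I T V} {c : κ → V}
  {G : Subgroup (Perm V)} {g : Perm V} {μ : Orb D M c → κ → T}
  {ψ : Orb D M c → Orb D M c → T → T} {π : I → I}

/-- Proof. Let `i = o.col`, `j = o'.col`.  The map `ψ o o'` is injective from `{a // D.src a = i ∧ D.tgt a = j}`
to `{d // D.src d = π i ∧ D.tgt d = π j}` (`psi_src`, `psi_inj`).  The two finite types have the same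
number of elements: for a section `σ` the operation `(π, ψ')` of `sec_op` has `ψ'` bijective (`op_bij`)
with source `π (D.src a)` and target `π (D.tgt a)` (`op_src`), `π` injective, so it is a bijection between them.
An injective map between finite types of the same cardinality is surjective
(`Function.Injective.bijective_of_nat_card_le` or `Finite.injective_iff_surjective_of_equiv`). -/
theorem psi_surj [Finite I] [Finite T] (hM : Gen D M) (hG : Au M ≤ G) (hns : NS D M G)
    (hnm : NM D M G) (hc : Injective c) (hg : g ∈ G)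
    (h : CD D M c g (fun o => π o.col) μ ψ) (hπ : Bijective π) (o o' : Orb D M c) (d : T)
    (h1 : D.src d = π o.col) (h2 : D.tgt d = π o'.col) :
    ∃ a, D.src a = o.col ∧ D.tgt a = o'.col ∧ ψ o o' a = d := by
  classical
  choose σ hσ using fun i : I => exists_orb D M c i
  have hop := sec_op hM hc hg h σ hσ
  obtain ⟨hβ, hψ⟩ := op_bij hM hG hns hnm hop
  have hsrc := op_src hM hop
  have hπ' : (fun i => π (σ i).col) = π := by
    funext i
    rw [hσ]
  set X := {a : T // D.src a = o.col ∧ D.tgt a = o'.col} with hX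
  set Y := {d : T // D.src d = π o.col ∧ D.tgt d = π o'.col} with hY
  have hcard : Nat.card X = Nat.card Y := by
    refine Nat.card_eq_of_bijective
      (fun a : X => (⟨ψ (σ (D.src a.1)) (σ (D.tgt a.1)) a.1, ?_⟩ : Y)) ⟨?_, ?_⟩
    · obtain ⟨a, ha1, ha2⟩ := a
      have h5 := hsrc a
      simp only [hσ] at h5
      refine ⟨?_, ?_⟩
      · rw [h5.1, ha1]
      · rw [h5.2, ha2]
    · intro a b hab
      exact Subtype.ext (hψ.1 (congrArg Subtype.val hab))
    · rintro ⟨d', hd1, hd2⟩
      obtain ⟨a, ha⟩ := hψ.2 d'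
      have h5 := hsrc a
      simp only [hσ] at h5 ha
      refine ⟨⟨a, ?_, ?_⟩, Subtype.ext ha⟩
      · apply hπ.1
        rw [← h5.1, ha, hd1]
      · apply hπ.1
        rw [← h5.2, ha, hd2]
  have hinj : Injective (fun a : X => (⟨ψ o o' a.1, psi_src hM h o o' a.1 a.2.1 a.2.2⟩ : Y)) := by
    intro a b hab
    exact Subtype.ext (psi_inj hM hG hns hc hg h o o' a.1 b.1 a.2.1 a.2.2 b.2.1 b.2.2
      (congrArg Subtype.val hab))
  have hbij := hinj.bijective_of_nat_card_le hcard.ge
  obtain ⟨a, ha⟩ := hbij.2 ⟨d, h1, h2⟩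
  exact ⟨a.1, a.2.1, a.2.2, congrArg Subtype.val ha⟩

end Pool.Agent.Lib.H3R
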