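import Pool.Agent.Lib.H3R.E2b

/-! # E2c: the functions `ψ o o'` are bijections -/

namespace Pool.Agent.Lib.H3R

open Equiv Function
open Pool.Agent.Lib.H3C (Cl FR Olig Sup pai pia)

variable {I T V κ : Type} [Countable V] {D : TD I T} {M : Str I T V} {c : κ → V}
  {G : Subgroup (Perm V)} {g : Perm V} {μ : Orb D M c → κ → T}
  {ψ : Orb D M c → Orb D M c → T → T} {π : I → I}

/-- Pulling back a structure along a placement and an order.

Proof. `A.c w = (p w).col`; for `ρ x < ρ y` let `A.s x y` be the type given by `psi_surj` for `C.s x y`, and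
`A.s y x = D.opp (A.s x y)`. -/
theorem pullback [Finite I] [Finite T] (hM : Gen D M) (hG : Au M ≤ G) (hns : NS D M G)
    (hnm : NM D M G) (hc : Injective c) (hg : g ∈ G)
    (h : CD D M c g (fun o => π o.col) μ ψ) (hπ : Bijective π) {ι : Type} (ρ : ι → ℕ)
    (hρ : Injective ρ) (p : ι → Orb D M c) (C : Str I T ι) (hC : Val D C)
    (hp : ∀ w, π (p w).col = C.c w) :
    ∃ A : Str I T ι, Val D A ∧ (∀ w, A.c w = (p w).col) ∧
      ∀ x y, ρ x < ρ y → ψ (p x) (p y) (A.s x y) = C.s x y := by
  classical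
  have key : ∀ x y : ι, ∃ a : T, ρ x < ρ y → D.src a = (p x).col ∧ D.tgt a = (p y).col ∧
      ψ (p x) (p y) a = C.s x y := by
    intro x y
    by_cases hxy : ρ x < ρ y
    · have hne : x ≠ y := by
        rintro rfl
        exact lt_irrefl _ hxy
      obtain ⟨h1, h2, h3⟩ := hC x y hne
      obtain ⟨a, ha1, ha2, ha3⟩ := psi_surj hM hG hns hnm hc hg h hπ (p x) (p y) (C.s x y)
        (by rw [h1, hp]) (by rw [h2, hp])
      exact ⟨a, fun _ => ⟨ha1, ha2, ha3⟩⟩
    · exact ⟨C.s x y, fun h => absurd h hxy⟩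
  choose f hf using key
  refine ⟨⟨fun w => (p w).col, fun x y => if ρ x < ρ y then f x y else D.opp (f y x)⟩, ?_,
    fun w => rfl, ?_⟩
  · intro u v huv
    have hρuv : ρ u ≠ ρ v := fun h => huv (hρ h)
    rcases lt_or_gt_of_ne hρuv with hlt | hgt
    · have hnlt : ¬ ρ v < ρ u := not_lt.mpr hlt.le
      obtain ⟨h1, h2, h3⟩ := hf u v hlt
      refine ⟨?_, ?_, ?_⟩
      · show D.src (if ρ u < ρ v then f u v else D.opp (f v u)) = _
        rw [if_pos hlt]
        exact h1
      · show D.tgt (if ρ u < ρ v then f u v else D.opp (f v u)) = _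
        rw [if_pos hlt]
        exact h2
      · show (if ρ v < ρ u then f v u else D.opp (f u v)) =
          D.opp (if ρ u < ρ v then f u v else D.opp (f v u))
        rw [if_pos hlt, if_neg hnlt]
    · have hnlt : ¬ ρ u < ρ v := not_lt.mpr (le_of_lt hgt)
      have hgt' : ρ v < ρ u := hgt
      obtain ⟨h1, h2, h3⟩ := hf v u hgt'
      refine ⟨?_, ?_, ?_⟩
      · show D.src (if ρ u < ρ v then f u v else D.opp (f v u)) = _
        rw [if_neg hnlt, D.src_opp]
        exact h2
      · show D.tgt (if ρ u < ρ v then f u v else D.opp (f v u)) = _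
        rw [if_neg hnlt, D.tgt_opp]
        exact h1
      · show (if ρ v < ρ u then f v u else D.opp (f u v)) =
          D.opp (if ρ u < ρ v then f u v else D.opp (f v u))
        rw [if_neg hnlt, if_pos hgt', D.opp_opp]
  · intro x y hxy
    show ψ (p x) (p y) (if ρ x < ρ y then f x y else D.opp (f y x)) = _
    rw [if_pos hxy]
    exact (hf x y hxy).2.2

end Pool.Agent.Lib.H3R
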