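import Pool.Agent.Lib.H3R.E2c

/-! # E2d: the functions `ψ o o'` are bijections -/

namespace Pool.Agent.Lib.H3R

open Equiv Function
open Pool.Agent.Lib.H3C (Cl FR Olig Sup pai pia)

variable {I T V κ : Type} [Countable V] {D : TD I T} {M : Str I T V} {c : κ → V}
  {G : Subgroup (Perm V)} {g : Perm V} {μ : Orb D M c → κ → T}
  {ψ : Orb D M c → Orb D M c → T → T} {π : I → I}

/-- Independence of the order.

Proof. `y = ψ o o' a` and `y' = D.opp (ψ o' o (D.opp a))` have the same source and target (`psi_src`).
`Apx D M G y y'`: let `C` be valid on `ι`, `u ≠ v`, `C.s u v = y`.  Let `ρ`, `ρ'` be as in `exists_rank2 u v`, and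
`p : ι → Orb` with `p u = o`, `p v = o'`, `π (p w).col = C.c w` for all `w` (`hπ`, `exists_orb`).  Let `A` be given
by `pullback` for `ρ`; `A.s u v = a` by `psi_inj`.  `Moved` holds for `(ρ, A, C)` and for
`(ρ', A, chg D C u v y')`: for the pairs other than `{u, v}` the orders agree, and `ρ' v < ρ' u`,
`ψ o' o (A.s v u) = ψ o' o (D.opp a) = D.opp y'`.  By `move` twice, `Rel M G A C` and
`Rel M G A (chg D C u v y')`, so `Rel M G C (chg D C u v y')`. -/
theorem psi_opp [Finite I] [Finite T] (hM : Gen D M) (hG : Au M ≤ G) (hns : NS D M G)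
    (hnm : NM D M G) (hc : Injective c) (hg : g ∈ G)
    (h : CD D M c g (fun o => π o.col) μ ψ) (hπ : Bijective π) (o o' : Orb D M c) (a : T)
    (h1 : D.src a = o.col) (h2 : D.tgt a = o'.col) :
    ψ o' o (D.opp a) = D.opp (ψ o o' a) := by
  classical
  have hs := psi_src hM h o o' a h1 h2
  have hs' := psi_src hM h o' o (D.opp a) (by rw [D.src_opp, h2]) (by rw [D.tgt_opp, h1])
  have key : ψ o o' a = D.opp (ψ o' o (D.opp a)) := by
    refine hns _ _ ⟨?_, ?_, ?_⟩
    · rw [D.src_opp, hs.1, hs'.2]
    · rw [D.tgt_opp, hs.2, hs'.1]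
    · intro ι _ C u v hC huv hCs
      obtain ⟨ρ, ρ', hρ, hρ', hlt, hlt', hag⟩ := exists_rank2 u v huv
      have hex : ∀ w, ∃ q : Orb D M c, π q.col = C.c w := by
        intro w
        obtain ⟨j, hj⟩ := hπ.2 (C.c w)
        obtain ⟨q, hq⟩ := exists_orb D M c j
        exact ⟨q, by rw [hq, hj]⟩
      choose p0 hp0 using hex
      let p : ι → Orb D M c := fun w => if w = u then o else if w = v then o' else p0 w
      have hpu : p u = o := if_pos rfl
      have hpv : p v = o' := by
        show (if v = u then o else if v = v then o' else p0 v) = o'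
        rw [if_neg huv.symm, if_pos rfl]
      have hv1 := hC u v huv
      have hp : ∀ w, π (p w).col = C.c w := by
        intro w
        by_cases hwu : w = u
        · rw [hwu, hpu, ← hv1.1, hCs, hs.1]
        · by_cases hwv : w = v
          · rw [hwv, hpv, ← hv1.2.1, hCs, hs.2]
          · have h5 : p w = p0 w := by
              show (if w = u then o else if w = v then o' else p0 w) = p0 w
              rw [if_neg hwu, if_neg hwv]
            rw [h5, hp0]
      obtain ⟨A, hA, hAc, hAs⟩ := pullback hM hG hns hnm hc hg h hπ ρ hρ p C hC hp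
      have hAuv : A.s u v = a := by
        have h6 := hA u v huv
        have h7 := hAs u v hlt
        rw [hpu, hpv, hCs] at h7
        refine psi_inj hM hG hns hc hg h o o' _ _ ?_ ?_ h1 h2 h7
        · rw [h6.1, hAc, hpu]
        · rw [h6.2.1, hAc, hpv]
      have hAvu : A.s v u = D.opp a := by rw [(hA u v huv).2.2, hAuv]
      have hr1 : Rel M G A C := move hM hc hg h (fun w => Sum.inl (p w)) ρ hρ hA hC
        (placed_orb p A hAc) (moved_orb p ρ A C (fun w => (hp w).symm)
          (fun x y hxy => (hAs x y hxy).symm))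
      have hC' : Val D (chg D C u v (D.opp (ψ o' o (D.opp a)))) := by
        refine val_chg hC huv ?_ ?_
        · rw [D.src_opp, hs'.2, ← hp u, hpu]
        · rw [D.tgt_opp, hs'.1, ← hp v, hpv]
      have hr2 : Rel M G A (chg D C u v (D.opp (ψ o' o (D.opp a)))) := by
        refine move hM hc hg h (fun w => Sum.inl (p w)) ρ' hρ' hA hC'
          (placed_orb p A hAc) (moved_orb p ρ' A _ (fun w => ?_) (fun x y hxy => ?_))
        · rw [chg_c]
          exact (hp w).symm
        · by_cases h8 : x = v ∧ y = u
          · obtain ⟨rfl, rfl⟩ := h8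
            rw [chg_right _ _ _ _ huv, D.opp_opp, hpu, hpv, hAvu]
          · have h9 : ¬ (x = u ∧ y = v) := by
              rintro ⟨rfl, rfl⟩
              exact absurd hxy (not_lt.2 hlt'.le)
            rw [chg_other _ _ _ _ _ _ h9 h8]
            exact (hAs x y ((hag x y h9 h8).2 hxy)).symm
      exact hr1.symm.trans hM hG hr2
  rw [key, D.opp_opp]

end Pool.Agent.Lib.H3R
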