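import Pool.Agent.Lib.H3R.E2a
import Pool.Agent.Lib.H3R.E2b
import Pool.Agent.Lib.H3R.E2c
import Pool.Agent.Lib.H3R.E2d

/-! # E2 (all parts): the functions `ψ o o'` are bijections -/
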