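import Pool.Agent.Lib.H3R.E1
import Pool.Agent.Lib.H3R.D2

/-! # E2a: the functions `ψ o o'` are bijections -/

namespace Pool.Agent.Lib.H3R

open Equiv Function
open Pool.Agent.Lib.H3C (Cl FR Olig Sup pai pia)

variable {I T V κ : Type} [Countable V] {D : TD I T} {M : Str I T V} {c : κ → V}
  {G : Subgroup (Perm V)} {g : Perm V} {μ : Orb D M c → κ → T}
  {ψ : Orb D M c → Orb D M c → T → T} {π : I → I}

/-- Proof. `Apx D M G a b`: let `A` be valid on `ι`, `u ≠ v`, `A.s u v = a`.  Let `ρ` be as in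
`exists_rank2 u v` (`ρ u < ρ v`), and `p : ι → Orb` with `p u = o`, `p v = o'` and `(p w).col = A.c w` for the others
(`exists_orb`; `Function.update`).  `move_ex` for `A` gives `B`.  `Moved` also holds for `chg D A u v b` and `B`
(only the pair `u, v` changes, `ρ u < ρ v` and `ψ o o' a = ψ o o' b`).  So `two_moves`. -/
theorem psi_inj (hM : Gen D M) (hG : Au M ≤ G) (hns : NS D M G) (hc : Injective c) (hg : g ∈ G)
    (h : CD D M c g (fun o => π o.col) μ ψ) (o o' : Orb D M c) (a b : T)
    (h1 : D.src a = o.col) (h2 : D.tgt a = o'.col) (h3 : D.src b = o.col)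
    (h4 : D.tgt b = o'.col) (hab : ψ o o' a = ψ o o' b) : a = b := by
  classical
  apply hns
  refine ⟨h1.trans h3.symm, h2.trans h4.symm, ?_⟩
  intro ι _ A u v hA huv hAa
  obtain ⟨ρ, -, hρ, -, hlt, -, -⟩ := exists_rank2 u v huv
  choose f hf using fun w : ι => exists_orb D M c (A.c w)
  set p : ι → Orb D M c := fun w => if w = u then o else if w = v then o' else f w with hp
  have hpu : p u = o := by simp [hp]
  have hpv : p v = o' := by simp [hp, huv.symm]
  have hsu : A.c u = o.col := by rw [← h1, ← hAa]; exact ((hA u v huv).1).symm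
  have hsv : A.c v = o'.col := by rw [← h2, ← hAa]; exact ((hA u v huv).2.1).symm
  have hcol : ∀ w, A.c w = (p w).col := by
    intro w
    by_cases hw : w = u
    · rw [hw, hpu, hsu]
    · by_cases hw' : w = v
      · rw [hw', hpv, hsv]
      · simp only [hp, if_neg hw, if_neg hw']
        exact (hf w).symm
  have hq : Placed D M c (fun w => Sum.inl (p w)) A := placed_orb p A hcol
  obtain ⟨B, hB, hm, -⟩ := move_ex hM hc hg h (fun w => Sum.inl (p w)) ρ hρ hA hq
  have hA' : Val D (chg D A u v b) := val_chg hA huv (h3.trans hsu.symm) (h4.trans hsv.symm)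
  have hq' : Placed D M c (fun w => Sum.inl (p w)) (chg D A u v b) := placed_orb p _ hcol
  have hm' : Moved D M c g (fun o => π o.col) μ ψ (fun w => Sum.inl (p w)) ρ (chg D A u v b) B := by
    refine moved_orb p ρ _ B (fun w => hm.1 w _ rfl) (fun x y hxy => ?_)
    by_cases h5 : x = u ∧ y = v
    · rw [h5.1, h5.2, chg_left, hpu, hpv, ← hab, ← hAa]
      exact hm.2.2.1 u v o o' (congrArg Sum.inl hpu) (congrArg Sum.inl hpv) hlt
    · by_cases h6 : x = v ∧ y = u
      · rw [h6.1, h6.2] at hxy
        exact absurd hxy (not_lt.2 hlt.le)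
      · rw [chg_other _ _ _ _ _ _ h5 h6]
        exact hm.2.2.1 x y _ _ rfl rfl hxy
  exact two_moves hM hG hc hg h _ _ ρ ρ hρ hρ hA hA' hB hq hq' hm hm'

end Pool.Agent.Lib.H3R
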