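import Pool.Agent.Lib.H3R.E3a

/-! # E3b: nice canonical data -/

namespace Pool.Agent.Lib.H3R

open Equiv Function
open Pool.Agent.Lib.H3C (Cl FR Olig Sup pai pia)

/-- The result of a move with nice data (no order). -/
def MovedN {I T V κ ι : Type} (D : TD I T) (M : Str I T V) (c : κ → V) (g : Perm V)
    (π : I → I) (μ : Orb D M c → κ → T) (ψ : Orb D M c → Orb D M c → T → T)
    (q : ι → Orb D M c ⊕ κ) (A B : Str I T ι) : Prop :=
  (∀ u o, q u = Sum.inl o → B.c u = π o.col) ∧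
    (∀ u m, q u = Sum.inr m → B.c u = M.c (g (c m))) ∧
    (∀ u v o o', u ≠ v → q u = Sum.inl o → q v = Sum.inl o' → B.s u v = ψ o o' (A.s u v)) ∧
    (∀ u v o m, q u = Sum.inl o → q v = Sum.inr m → B.s u v = μ o m) ∧
    ∀ u v m m', u ≠ v → q u = Sum.inr m → q v = Sum.inr m' → B.s u v = M.s (g (c m)) (g (c m'))

/-- Proof. `Moved` for any `ρ` (`exists_rank`) follows from `MovedN`; `two_moves`. -/
theorem two_movesN {I T V κ ι : Type} [Countable V] [Finite ι] {D : TD I T} {M : Str I T V}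
    (hM : Gen D M) {G : Subgroup (Perm V)} (hG : Au M ≤ G) {c : κ → V} (hc : Injective c)
    {g : Perm V} (hg : g ∈ G) {π : I → I} {μ : Orb D M c → κ → T}
    {ψ : Orb D M c → Orb D M c → T → T} (h : Nice D M c g π μ ψ) (q q' : ι → Orb D M c ⊕ κ)
    {A A' B : Str I T ι} (hA : Val D A) (hA' : Val D A') (hB : Val D B)
    (hq : Placed D M c q A) (hq' : Placed D M c q' A') (hm : MovedN D M c g π μ ψ q A B)
    (hm' : MovedN D M c g π μ ψ q' A' B) : Rel M G A A' := by
  obtain ⟨ρ, hρ⟩ := exists_rank ι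
  have key : ∀ (p : ι → Orb D M c ⊕ κ) (A₁ : Str I T ι), MovedN D M c g π μ ψ p A₁ B →
      Moved D M c g (fun o => π o.col) μ ψ p ρ A₁ B := by
    intro p A₁ h1
    refine ⟨h1.1, h1.2.1, fun u v o o' hu hv huv => ?_, h1.2.2.2.1, h1.2.2.2.2⟩
    exact h1.2.2.1 u v o o' (fun h2 => by
      rw [h2] at huv
      exact lt_irrefl _ huv) hu hv
  exact two_moves hM hG hc hg h.cd q q' ρ ρ hρ hρ hA hA' hB hq hq' (key q A hm) (key q' A' hm')

end Pool.Agent.Lib.H3R
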