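import Pool.Agent.Lib.H3R.E3b

/-! # E3c: nice canonical data -/

namespace Pool.Agent.Lib.H3R

open Equiv Function
open Pool.Agent.Lib.H3C (Cl FR Olig Sup pai pia)

/-- Proof. `move_ex` for any `ρ` (`exists_rank`) gives `B`, valid, with `Moved`; for pairs in orbits with
`ρ v < ρ u`: `B.s u v = D.opp (B.s v u) = D.opp (ψ o' o (A.s v u)) = ψ o o' (A.s u v)` by `Nice.opp` and the
validity of `A`, `B` (the colours of `A` are those of the orbits by `hq`). -/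
theorem move_exN {I T V κ ι : Type} [Finite ι] {D : TD I T} {M : Str I T V}
    (hM : Gen D M) {G : Subgroup (Perm V)} {c : κ → V} (hc : Injective c)
    {g : Perm V} (hg : g ∈ G) {π : I → I} {μ : Orb D M c → κ → T}
    {ψ : Orb D M c → Orb D M c → T → T} (h : Nice D M c g π μ ψ) (q : ι → Orb D M c ⊕ κ)
    {A : Str I T ι} (hA : Val D A) (hq : Placed D M c q A) :
    ∃ B : Str I T ι, Val D B ∧ MovedN D M c g π μ ψ q A B ∧ Rel M G A B := by
  obtain ⟨ρ, hρ⟩ := exists_rank ι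
  obtain ⟨B, hB, hm, hR⟩ := move_ex hM hc hg h.cd q ρ hρ hA hq
  refine ⟨B, hB, ⟨hm.1, hm.2.1, ?_, hm.2.2.2.1, hm.2.2.2.2⟩, hR⟩
  intro u v o o' huv hu hv
  rcases lt_or_gt_of_ne (fun e => huv (hρ e) : ρ u ≠ ρ v) with hlt | hgt
  · exact hm.2.2.1 u v o o' hu hv hlt
  · have e1 := hm.2.2.1 v u o' o hv hu hgt
    obtain ⟨a1, a2, a3⟩ := hA v u (Ne.symm huv)
    obtain ⟨_, _, b3⟩ := hB v u (Ne.symm huv)
    rw [b3, e1, a3]
    exact (h.opp o' o (A.s v u) (a1.trans (hq.1 v o' hv)) (a2.trans (hq.1 u o hu))).symm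

end Pool.Agent.Lib.H3R
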