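import Pool.Agent.Lib.H3R.E3a
import Pool.Agent.Lib.H3R.E3b
import Pool.Agent.Lib.H3R.E3c

/-! # E3 (all parts): nice canonical data -/
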