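import Pool.Agent.Lib.H3R.E2
import Pool.Agent.Lib.H3R.C1

/-! # E3a: nice canonical data -/

namespace Pool.Agent.Lib.H3R

open Equiv Function
open Pool.Agent.Lib.H3C (Cl FR Olig Sup pai pia)

/-- Canonical data all whose functions are bijections. -/
structure Nice {I T V κ : Type} (D : TD I T) (M : Str I T V) (c : κ → V) (g : Perm V) (π : I → I)
    (μ : Orb D M c → κ → T) (ψ : Orb D M c → Orb D M c → T → T) : Prop where
  cd : CD D M c g (fun o => π o.col) μ ψ
  bij : Function.Bijective π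
  src : ∀ (o o' : Orb D M c) (a : T), D.src a = o.col → D.tgt a = o'.col →
    D.src (ψ o o' a) = π o.col
  tgt : ∀ (o o' : Orb D M c) (a : T), D.src a = o.col → D.tgt a = o'.col →
    D.tgt (ψ o o' a) = π o'.col
  opp : ∀ (o o' : Orb D M c) (a : T), D.src a = o.col → D.tgt a = o'.col →
    ψ o' o (D.opp a) = D.opp (ψ o o' a)
  inj : ∀ (o o' : Orb D M c) (a b : T), D.src a = o.col → D.tgt a = o'.col → D.src b = o.col →
    D.tgt b = o'.col → ψ o o' a = ψ o o' b → a = b
  surj : ∀ (o o' : Orb D M c) (d : T), D.src d = π o.col → D.tgt d = π o'.col →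
    ∃ a, D.src a = o.col ∧ D.tgt a = o'.col ∧ ψ o o' a = d
  musrc : ∀ (o : Orb D M c) (m : κ), D.src (μ o m) = π o.col
  mutgt : ∀ (o : Orb D M c) (m : κ), D.tgt (μ o m) = M.c (g (c m))

/-- Proof. `exists_CD`, `beta_eq` (with `β = fun o => π o.col` by `funext`), `psi_src`, `psi_opp`, `psi_inj`,
`psi_surj`, `mu_src`. -/
theorem exists_nice {I T V κ : Type} [Countable V] [Finite I] [Finite T] [Finite κ] {D : TD I T}
    {M : Str I T V} (hM : Gen D M) {G : Subgroup (Perm V)} (hG : Au M ≤ G) (hns : NS D M G)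
    (hnm : NM D M G) (c : κ → V) (hc : Injective c) {g : Perm V} (hg : g ∈ G) :
    ∃ (π : I → I) (μ : Orb D M c → κ → T) (ψ : Orb D M c → Orb D M c → T → T),
      Nice D M c g π μ ψ := by
  obtain ⟨β, μ, ψ, h⟩ := exists_CD hM c hc g
  obtain ⟨π, hπ, hβ⟩ := beta_eq hM hnm hc hg h
  have hβ' : β = fun o => π o.col := funext hβ
  rw [hβ'] at h
  exact ⟨π, μ, ψ,
    { cd := h
      bij := hπ
      src := fun o o' a h1 h2 => (psi_src hM h o o' a h1 h2).1
      tgt := fun o o' a h1 h2 => (psi_src hM h o o' a h1 h2).2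
      opp := fun o o' a h1 h2 => psi_opp hM hG hns hnm hc hg h hπ o o' a h1 h2
      inj := fun o o' a b h1 h2 h3 h4 h5 => psi_inj hM hG hns hc hg h o o' a b h1 h2 h3 h4 h5
      surj := fun o o' d h1 h2 => psi_surj hM hG hns hnm hc hg h hπ o o' d h1 h2
      musrc := fun o m => (mu_src hM h o m).1
      mutgt := fun o m => (mu_src hM h o m).2 }⟩

end Pool.Agent.Lib.H3R
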