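import Pool.Agent.Lib.H3R.F1a

/-! # F1b: the colours of the images of the constants -/

namespace Pool.Agent.Lib.H3R

open Equiv Function
open Pool.Agent.Lib.H3C (Cl FR Olig Sup pai pia)

variable {I T V κ : Type} [Countable V] [Finite I] [Finite T] {D : TD I T} {M : Str I T V}
  {c : κ → V} {G : Subgroup (Perm V)} {g : Perm V} {μ : Orb D M c → κ → T}
  {ψ : Orb D M c → Orb D M c → T → T} {π : I → I}

open Classical in
/-- All vertices of the colour of a constant can be recoloured.

Proof. By induction on the finite set `S` of vertices (`Finset.induction_on`, at the end `S` is everything):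
there is `B` with `Rel M G A B` and `B.c w = i'` if `w ∈ S` and `A.c w = M.c (c m)`, otherwise
`B.c w = A.c w`.  `S = ∅`: `B = A` (`Rel.refl`).  Step from `S` to `insert u S` (`u` not in `S`): if
`A.c u ≠ M.c (c m)` take the same `B`, otherwise apply `recolor_one` to `B` (`Rel.val_right hM.1`) and `u`
(`B.c u = A.c u`), and `Rel.trans`. -/
theorem recolor_all (hM : Gen D M) (hG : Au M ≤ G) (hns : NS D M G) (hnm : NM D M G)
    (hc : Injective c) (hg : g ∈ G) (h : Nice D M c g π μ ψ) (m : κ) (i' : I)
    (hi : π i' = M.c (g (c m))) {ι : Type} [Finite ι] (A : Str I T ι) (hA : Val D A) :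
    ∃ B : Str I T ι, Rel M G A B ∧ ∀ w, B.c w = if A.c w = M.c (c m) then i' else A.c w := by
  classical
  haveI : Fintype ι := Fintype.ofFinite ι
  have key : ∀ S : Finset ι, ∃ B : Str I T ι, Rel M G A B ∧
      ∀ w, B.c w = if w ∈ S ∧ A.c w = M.c (c m) then i' else A.c w := by
    intro S
    induction S using Finset.induction_on with
    | empty =>
      refine ⟨A, Rel.refl hM hA, fun w => ?_⟩
      rw [if_neg]
      rintro ⟨h1, -⟩
      exact absurd h1 (Finset.notMem_empty w)
    | insert u S huS ih =>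
      obtain ⟨B, hB, h1⟩ := ih
      by_cases hu : A.c u = M.c (c m)
      · have hBu : B.c u = M.c (c m) := by
          rw [h1 u, if_neg (fun h2 => huS h2.1), hu]
        obtain ⟨B', hB', h2, h3⟩ :=
          recolor_one hM hG hns hnm hc hg h m i' hi B (hB.val_right hM.1) u hBu
        refine ⟨B', Rel.trans hM hG hB hB', fun w => ?_⟩
        by_cases hw : w = u
        · rw [hw, h2, if_pos ⟨Finset.mem_insert_self u S, hu⟩]
        · rw [h3 w hw, h1 w]
          by_cases h4 : w ∈ S ∧ A.c w = M.c (c m)
          · rw [if_pos h4, if_pos ⟨Finset.mem_insert_of_mem h4.1, h4.2⟩]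
          · rw [if_neg h4, if_neg]
            rintro ⟨h5, h6⟩
            exact h4 ⟨(Finset.mem_insert.1 h5).resolve_left hw, h6⟩
      · refine ⟨B, hB, fun w => ?_⟩
        rw [h1 w]
        by_cases h4 : w ∈ S ∧ A.c w = M.c (c m)
        · rw [if_pos h4, if_pos ⟨Finset.mem_insert_of_mem h4.1, h4.2⟩]
        · rw [if_neg h4, if_neg]
          rintro ⟨h5, h6⟩
          rcases Finset.mem_insert.1 h5 with h7 | h7
          · exact hu (h7 ▸ h6)
          · exact h4 ⟨h7, h6⟩
  obtain ⟨B, hB, h1⟩ := key Finset.univ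
  refine ⟨B, hB, fun w => ?_⟩
  rw [h1 w]
  by_cases h2 : A.c w = M.c (c m)
  · rw [if_pos h2, if_pos ⟨Finset.mem_univ w, h2⟩]
  · rw [if_neg h2, if_neg (fun h3 => h2 h3.2)]

end Pool.Agent.Lib.H3R
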