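import Pool.Agent.Lib.H3R.F1b

/-! # F1c: the colours of the images of the constants -/

namespace Pool.Agent.Lib.H3R

open Equiv Function
open Pool.Agent.Lib.H3C (Cl FR Olig Sup pai pia)

variable {I T V κ : Type} [Countable V] [Finite I] [Finite T] {D : TD I T} {M : Str I T V}
  {c : κ → V} {G : Subgroup (Perm V)} {g : Perm V} {μ : Orb D M c → κ → T}
  {ψ : Orb D M c → Orb D M c → T → T} {π : I → I}

/-- A recolouring which is always possible gives an operation.

Proof. If `I` is empty then `ι` is always empty and `ψ = id` works.  Otherwise `T` is nonempty (`D.ex`).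
`canon` with `K = I`, `pr = id`, `Λ = Unit`, `Γ = T` and `P ι A b C` := there is `B` with `Rel M G A B`,
`B.c w = β (A.c w)` for all `w` and `C u v = B.s u v` for `u ≠ v` (`hP`: `Rel.map` and `Rel.congr`; `hex`: `h0`).  It gives
`ψ₀ : I → I → T → T`; put `ψ a = ψ₀ (D.src a) (D.tgt a) a`.  For `(ι, ρ, A)` the structure `B` agrees with
`opR D β ψ ρ A` off the diagonal: for `ρ u < ρ v`: `B.s u v = C u v = ψ₀ (A.c u) (A.c v) (A.s u v)` and
`A.c u = D.src (A.s u v)`, `A.c v = D.tgt (A.s u v)`; for `ρ v < ρ u` by the validity of `B`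
(`Rel.val_right hM.1`). -/
theorem op_of_recolor (hM : Gen D M) (β : I → I)
    (h0 : ∀ (ι : Type) [Finite ι] (A : Str I T ι), Val D A →
      ∃ B : Str I T ι, Rel M G A B ∧ ∀ w, B.c w = β (A.c w)) :
    ∃ ψ : T → T, IsOp D M G β ψ := by
  classical
  rcases isEmpty_or_nonempty I with hI | ⟨⟨i₀⟩⟩
  · refine ⟨id, ?_⟩
    intro ι _ ρ A _ _
    have hι : IsEmpty ι := ⟨fun u => isEmptyElim (A.c u)⟩
    exact ⟨fun u => isEmptyElim u, fun u => isEmptyElim u,
      ⟨fun u => isEmptyElim u, fun u => isEmptyElim u⟩, 1, G.one_mem,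
      ⟨fun u => isEmptyElim u, fun u => isEmptyElim u⟩⟩
  · obtain ⟨a₀, -, -⟩ := D.ex i₀ i₀
    have hT : Nonempty T := ⟨a₀⟩
    obtain ⟨β', ψ₀, h⟩ := canon (K := I) (Λ := Unit) (Γ := T) D id
      (fun ι A b C => ∃ B : Str I T ι, Rel M G A B ∧ (∀ w, B.c w = β (A.c w)) ∧
        ∀ u v, u ≠ v → C u v = B.s u v)
      (by
        intro ι κ' _ _ e A A' b C he hAB hP
        obtain ⟨B, hB, h1, h2⟩ := hP
        refine ⟨B.map e, (hB.map e he).congr hAB (Eqv.rfl' _), fun w => ?_, fun u v huv => ?_⟩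
        · rw [← hAB.1 w]
          exact h1 (e w)
        · exact h2 (e u) (e v) (fun h3 => huv (he h3)))
      (by
        intro ι _ A hA
        obtain ⟨B, hB, h1⟩ := h0 ι A hA
        exact ⟨fun _ => (), fun u v => B.s u v, B, hB, h1, fun _ _ _ => rfl⟩)
    refine ⟨fun a => ψ₀ (D.src a) (D.tgt a) a, ?_⟩
    intro ι _ ρ A hρ hA
    obtain ⟨b, C, ⟨B, hB, hBc, hBC⟩, -, hC⟩ := h ι ρ A hρ hA
    have hBv : Val D B := hB.val_right hM.1
    have hlt : ∀ u v, ρ u < ρ v →
        B.s u v = ψ₀ (D.src (A.s u v)) (D.tgt (A.s u v)) (A.s u v) := by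
      intro u v hlt
      have huv : u ≠ v := fun h1 => by
        rw [h1] at hlt
        exact lt_irrefl _ hlt
      rw [← hBC u v huv, hC u v hlt, (hA u v huv).1, (hA u v huv).2.1]
    refine hB.congr (Eqv.rfl' _) ⟨hBc, fun u v huv => ?_⟩
    rcases lt_or_gt_of_ne (fun h1 => huv (hρ h1)) with h1 | h1
    · simp only [opR, if_pos h1]
      exact hlt u v h1
    · simp only [opR, if_neg (not_lt.2 (le_of_lt h1))]
      rw [(hBv v u huv.symm).2.2, hlt v u h1]

end Pool.Agent.Lib.H3R
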