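import Pool.Agent.Lib.H3R.F1c

/-! # F1d: the colours of the images of the constants -/

namespace Pool.Agent.Lib.H3R

open Equiv Function
open Pool.Agent.Lib.H3C (Cl FR Olig Sup pai pia)

variable {I T V κ : Type} [Countable V] [Finite I] [Finite T] {D : TD I T} {M : Str I T V}
  {c : κ → V} {G : Subgroup (Perm V)} {g : Perm V} {μ : Orb D M c → κ → T}
  {ψ : Orb D M c → Orb D M c → T → T} {π : I → I}

/-- **The colours of the images of the constants.**

Proof. `π` is surjective: let `π i' = M.c (g (c m))`.  `recolor_all` and `op_of_recolor` give an operation with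
`β j = if j = M.c (c m) then i' else j`; it is injective by `hnm`; `β (M.c (c m)) = i' = β i'`, so
`M.c (c m) = i'`. -/
theorem const_col (hM : Gen D M) (hG : Au M ≤ G) (hns : NS D M G) (hnm : NM D M G)
    (hc : Injective c) (hg : g ∈ G) (h : Nice D M c g π μ ψ) (m : κ) :
    M.c (g (c m)) = π (M.c (c m)) := by
  classical
  obtain ⟨i', hi⟩ := h.bij.surjective (M.c (g (c m)))
  obtain ⟨β, hβ⟩ : ∃ β : I → I, ∀ j, β j = if j = M.c (c m) then i' else j := ⟨_, fun _ => rfl⟩
  obtain ⟨ψ', hψ'⟩ := op_of_recolor (G := G) hM β (by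
    intro ι _ A hA
    obtain ⟨B, hB, hBc⟩ := recolor_all hM hG hns hnm hc hg h m i' hi A hA
    refine ⟨B, hB, fun w => ?_⟩
    rw [hBc w, hβ])
  have hinj := hnm β ψ' hψ'
  have h1 : β (M.c (c m)) = i' := by
    rw [hβ, if_pos rfl]
  have h2 : β i' = i' := by
    rw [hβ]
    split_ifs <;> rfl
  have h3 : M.c (c m) = i' := hinj (h1.trans h2.symm)
  rw [h3, hi]

end Pool.Agent.Lib.H3R
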