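import Pool.Agent.Lib.H3R.F1a
import Pool.Agent.Lib.H3R.F1b
import Pool.Agent.Lib.H3R.F1c
import Pool.Agent.Lib.H3R.F1d

/-! # F1 (all parts): the colours of the images of the constants -/
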