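import Pool.Agent.Lib.H3R.E3

/-! # F1a: the colours of the images of the constants -/

namespace Pool.Agent.Lib.H3R

open Equiv Function
open Pool.Agent.Lib.H3C (Cl FR Olig Sup pai pia)

variable {I T V κ : Type} [Countable V] [Finite I] [Finite T] {D : TD I T} {M : Str I T V}
  {c : κ → V} {G : Subgroup (Perm V)} {g : Perm V} {μ : Orb D M c → κ → T}
  {ψ : Orb D M c → Orb D M c → T → T} {π : I → I}

/-- One vertex of the colour of a constant can be recoloured.

Proof. For `w ≠ u` let `b w` be an orbit of colour `A.c w` with `(b w).ty m = A.s w u` (`exists_orb1`;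
`D.tgt (A.s w u) = A.c u = M.c (c m)`), and `q u = inr m`, `q w = inl (b w)` for `w ≠ u`.  `Placed` holds.
`move_exN` gives `B'` with `B'.c u = M.c (g (c m)) = π i'` and `B'.c w = π (A.c w)` for `w ≠ u`.  For a
section `σ` (`exists_orb`) `sec_op` is an operation with `β = π`; `exists_unapl` for `B'` gives `B` with
`π (B.c x) = B'.c x`; `π` is injective; `Rel.trans`. -/
theorem recolor_one (hM : Gen D M) (hG : Au M ≤ G) (hns : NS D M G) (hnm : NM D M G)
    (hc : Injective c) (hg : g ∈ G) (h : Nice D M c g π μ ψ) (m : κ) (i' : I)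
    (hi : π i' = M.c (g (c m))) {ι : Type} [Finite ι] (A : Str I T ι) (hA : Val D A) (u : ι)
    (hu : A.c u = M.c (c m)) :
    ∃ B : Str I T ι, Rel M G A B ∧ B.c u = i' ∧ ∀ w, w ≠ u → B.c w = A.c w := by
  classical
  have hb : ∀ w, ∃ b : Orb D M c, w ≠ u → b.col = A.c w ∧ b.ty m = A.s w u := by
    intro w
    by_cases hw : w = u
    · obtain ⟨o, -⟩ := exists_orb D M c (A.c u)
      exact ⟨o, fun h' => absurd hw h'⟩
    · obtain ⟨o, h1, h2⟩ := exists_orb1 D M c (A.c w) m (A.s w u) (hA w u hw).1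
        (by rw [(hA w u hw).2.1, hu])
      exact ⟨o, fun _ => ⟨h1, h2⟩⟩
  choose b hb using hb
  obtain ⟨q, hq⟩ : ∃ q : ι → Orb D M c ⊕ κ, q = fun w => if w = u then Sum.inr m else Sum.inl (b w) :=
    ⟨_, rfl⟩
  have hqu : q u = Sum.inr m := by rw [hq]; exact if_pos rfl
  have hqw : ∀ w, w ≠ u → q w = Sum.inl (b w) := fun w hw => by rw [hq]; exact if_neg hw
  have hinl : ∀ w o, q w = Sum.inl o → w ≠ u ∧ b w = o := by
    intro w o h1
    by_cases hw : w = u
    · rw [hw, hqu] at h1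
      exact absurd h1 Sum.inr_ne_inl
    · rw [hqw w hw] at h1
      exact ⟨hw, Sum.inl_injective h1⟩
  have hinr : ∀ w k, q w = Sum.inr k → w = u ∧ k = m := by
    intro w k h1
    by_cases hw : w = u
    · rw [hw, hqu] at h1
      exact ⟨hw, (Sum.inr_injective h1).symm⟩
    · rw [hqw w hw] at h1
      exact absurd h1 Sum.inl_ne_inr
  have hP : Placed D M c q A := by
    refine ⟨?_, ?_, ?_, ?_, ?_⟩
    · intro w o h1
      obtain ⟨h2, h3⟩ := hinl w o h1
      rw [← h3]
      exact ((hb w h2).1).symm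
    · intro w k h1
      obtain ⟨h2, h3⟩ := hinr w k h1
      rw [h2, h3]
      exact hu
    · intro w v o k h1 h2
      obtain ⟨h3, h4⟩ := hinl w o h1
      obtain ⟨h5, h6⟩ := hinr v k h2
      rw [← h4, h5, h6]
      exact ((hb w h3).2).symm
    · intro w v k k' hne h1 h2
      exact absurd ((hinr w k h1).1.trans (hinr v k' h2).1.symm) hne
    · intro w v k h1 h2
      exact (hinr w k h1).1.trans (hinr v k h2).1.symm
  obtain ⟨B', hB', hm, hr⟩ := move_exN hM hc hg h q hA hP
  choose σ hσ using fun i : I => exists_orb D M c i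
  have hop := sec_op hM hc hg h.cd σ hσ
  obtain ⟨B, -, hBc, hr2⟩ := exists_unapl hM hG hns hnm hop hB'
  simp only [hσ] at hBc
  refine ⟨B, hr.trans hM hG hr2, ?_, ?_⟩
  · apply h.bij.1
    rw [hBc u, hm.2.1 u m hqu, hi]
  · intro w hw
    apply h.bij.1
    rw [hBc w, hm.1 w _ (hqw w hw), (hb w hw).1]

end Pool.Agent.Lib.H3R
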