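import Pool.Agent.Lib.H3R.F2a

/-! # F2b: one constant -/

namespace Pool.Agent.Lib.H3R

open Equiv Function
open Pool.Agent.Lib.H3C (Cl FR Olig Sup pai pia)

variable {I T V κ : Type} [Countable V] [Finite I] [Finite T] {D : TD I T} {M : Str I T V}
  {c : κ → V} {G : Subgroup (Perm V)} {g : Perm V} {μ : Orb D M c → κ → T}
  {ψ : Orb D M c → Orb D M c → T → T} {π : I → I}

/-- Selections exist, with a prescribed value.  Proof. `exists_orb1` (`D.tgt (D.opp e) = D.src e`) and
`Function.update`; for `e` with `D.src e ≠ M.c (c m)` take any orbit (`exists_orb`, e.g. the orbit `b`). -/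
theorem exists_sel (m : κ) (e : T) (b : Orb D M c) (h1 : D.src e = M.c (c m))
    (h2 : b.col = D.tgt e) (h3 : b.ty m = D.opp e) :
    ∃ sel, IsSel D M c m sel ∧ sel e = b := by
  classical
  have h4 : ∀ e' : T, ∃ o : Orb D M c, D.src e' = M.c (c m) →
      o.col = D.tgt e' ∧ o.ty m = D.opp e' := by
    intro e'
    by_cases h5 : D.src e' = M.c (c m)
    · obtain ⟨o, h6, h7⟩ := exists_orb1 D M c (D.tgt e') m (D.opp e') (D.src_opp e')
        ((D.tgt_opp e').trans h5)
      exact ⟨o, fun _ => ⟨h6, h7⟩⟩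
    · exact ⟨b, fun h6 => absurd h6 h5⟩
  choose f hf using h4
  refine ⟨Function.update f e b, fun e' he' => ?_, Function.update_self _ _ _⟩
  by_cases h5 : e' = e
  · rw [h5, Function.update_self]
    exact ⟨h2, h3⟩
  · rw [Function.update_of_ne h5]
    exact hf e' he'

end Pool.Agent.Lib.H3R
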