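import Pool.Agent.Lib.H3R.F2b

/-! # F2c: one constant -/

namespace Pool.Agent.Lib.H3R

open Equiv Function
open Pool.Agent.Lib.H3C (Cl FR Olig Sup pai pia)

variable {I T V κ : Type} [Countable V] [Finite I] [Finite T] {D : TD I T} {M : Str I T V}
  {c : κ → V} {G : Subgroup (Perm V)} {g : Perm V} {μ : Orb D M c → κ → T}
  {ψ : Orb D M c → Orb D M c → T → T} {π : I → I}

/-- Replacing the star of a vertex.

Proof. `two_movesN` for `A`, `q u = inr m`, `q w = inl (b w)` (`w ≠ u`), and for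
`A' = rep D A u (fun w => L (b w))`, `q' u = inl s₀`, `q' w = inl (b w)` (`w ≠ u`), with the structure `B` of
`move_exN` for `A`, `q`.  `Placed` for `A`, `q`: `hb` and `hu`.  `A'` is valid by `val_rep`.  `MovedN` for
`A'`, `q'`: the colour of `u` is `M.c (g (c m)) = π (M.c (c m)) = π s₀.col` (`const_col`); for `w ≠ u`:
`B.s w u = μ (b w) m = D.opp (ψ s₀ (b w) (L (b w))) = ψ (b w) s₀ (D.opp (L (b w)))` (`Nice.opp`), which is the
condition for the pair `(w, u)`; for `(u, w)` take `D.opp` (`B` is valid); other pairs are unchanged. -/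
theorem rel_rep (hM : Gen D M) (hG : Au M ≤ G) (hns : NS D M G) (hnm : NM D M G)
    (hc : Injective c) (hg : g ∈ G) (h : Nice D M c g π μ ψ) (m : κ) (s₀ : Orb D M c)
    (hs : s₀.col = M.c (c m)) (L : Orb D M c → T) (hL : IsL D M c μ ψ m s₀ L) {ι : Type}
    [Finite ι] (A : Str I T ι) (hA : Val D A) (u : ι) (hu : A.c u = M.c (c m))
    (b : ι → Orb D M c) (hb : ∀ w, w ≠ u → (b w).col = A.c w ∧ (b w).ty m = A.s w u) :
    Rel M G A (rep D A u (fun w => L (b w))) := by
  classical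
  let q : ι → Orb D M c ⊕ κ := fun w => if w = u then Sum.inr m else Sum.inl (b w)
  let q' : ι → Orb D M c ⊕ κ := fun w => if w = u then Sum.inl s₀ else Sum.inl (b w)
  have hqu : q u = Sum.inr m := if_pos rfl
  have hqw : ∀ w, w ≠ u → q w = Sum.inl (b w) := fun w hw => if_neg hw
  have hqu' : q' u = Sum.inl s₀ := if_pos rfl
  have hqw' : ∀ w, w ≠ u → q' w = Sum.inl (b w) := fun w hw => if_neg hw
  have k1 : ∀ w o, q w = Sum.inl o → w ≠ u ∧ b w = o := by
    intro w o hw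
    by_cases hwu : w = u
    · rw [hwu, hqu] at hw
      exact absurd hw (by simp)
    · rw [hqw w hwu] at hw
      exact ⟨hwu, Sum.inl.inj hw⟩
  have k2 : ∀ w m', q w = Sum.inr m' → w = u ∧ m = m' := by
    intro w m' hw
    by_cases hwu : w = u
    · rw [hwu, hqu] at hw
      exact ⟨hwu, Sum.inr.inj hw⟩
    · rw [hqw w hwu] at hw
      exact absurd hw (by simp)
  have k1' : ∀ w o, q' w = Sum.inl o → (w = u ∧ s₀ = o) ∨ (w ≠ u ∧ b w = o) := by
    intro w o hw
    by_cases hwu : w = u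
    · rw [hwu, hqu'] at hw
      exact Or.inl ⟨hwu, Sum.inl.inj hw⟩
    · rw [hqw' w hwu] at hw
      exact Or.inr ⟨hwu, Sum.inl.inj hw⟩
  have k2' : ∀ w m', q' w ≠ Sum.inr m' := by
    intro w m' hw
    by_cases hwu : w = u
    · rw [hwu, hqu'] at hw
      exact absurd hw (by simp)
    · rw [hqw' w hwu] at hw
      exact absurd hw (by simp)
  have hq : Placed D M c q A := by
    refine ⟨?_, ?_, ?_, ?_, ?_⟩
    · intro w o hw
      obtain ⟨h1, rfl⟩ := k1 w o hw
      exact (hb w h1).1.symm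
    · intro w m' hw
      obtain ⟨rfl, rfl⟩ := k2 w m' hw
      exact hu
    · intro x y o m' hx hy
      obtain ⟨h1, rfl⟩ := k1 x o hx
      obtain ⟨rfl, rfl⟩ := k2 y m' hy
      exact (hb x h1).2.symm
    · intro x y m1 m2 hxy hx hy
      exact absurd ((k2 x m1 hx).1.trans (k2 y m2 hy).1.symm) hxy
    · intro x y m1 hx hy
      exact (k2 x m1 hx).1.trans (k2 y m1 hy).1.symm
  obtain ⟨B, hB, ⟨g1, g2, g3, g4, g5⟩, -⟩ := move_exN hM hc hg h q hA hq
  have hA' : Val D (rep D A u (fun w => L (b w))) := by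
    refine val_rep hA u _ (fun w hw => ⟨?_, ?_⟩)
    · rw [(hL (b w)).1, hs, hu]
    · rw [(hL (b w)).2.1, (hb w hw).1]
  have hq' : Placed D M c q' (rep D A u (fun w => L (b w))) := by
    refine ⟨?_, ?_, ?_, ?_, ?_⟩
    · intro w o hw
      rw [rep_c]
      rcases k1' w o hw with ⟨rfl, rfl⟩ | ⟨h1, rfl⟩
      · rw [hu, hs]
      · exact (hb w h1).1.symm
    · intro w m' hw
      exact absurd hw (k2' w m')
    · intro x y o m' hx hy
      exact absurd hy (k2' y m')
    · intro x y m1 m2 hxy hx hy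
      exact absurd hy (k2' y m2)
    · intro x y m1 hx hy
      exact absurd hy (k2' y m1)
  refine two_movesN hM hG hc hg h q q' hA hA' hB hq hq' ⟨g1, g2, g3, g4, g5⟩ ⟨?_, ?_, ?_, ?_, ?_⟩
  · intro w o hw
    rcases k1' w o hw with ⟨rfl, rfl⟩ | ⟨h1, rfl⟩
    · rw [g2 w m hqu, const_col hM hG hns hnm hc hg h m, hs]
    · exact g1 w (b w) (hqw w h1)
  · intro w m' hw
    exact absurd hw (k2' w m')
  · intro x y o o' hxy hx hy
    rcases k1' x o hx with ⟨hxu, ho⟩ | ⟨hxu, ho⟩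
    · rcases k1' y o' hy with ⟨hyu, ho'⟩ | ⟨hyu, ho'⟩
      · exact absurd (hxu.trans hyu.symm) hxy
      · rw [← ho, ← ho', hxu, rep_self_left, (hL (b y)).2.2, (hB y u hyu).2.2,
          g4 y u (b y) m (hqw y hyu) hqu]
    · rcases k1' y o' hy with ⟨hyu, ho'⟩ | ⟨hyu, ho'⟩
      · rw [← ho, ← ho', hyu, rep_self_right _ _ _ _ hxu,
          h.opp s₀ (b x) (L (b x)) (hL (b x)).1 (hL (b x)).2.1, (hL (b x)).2.2, D.opp_opp,
          g4 x u (b x) m (hqw x hxu) hqu]
      · rw [← ho, ← ho', rep_other _ _ _ _ _ hxu hyu]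
        exact g3 x y (b x) (b y) hxy (hqw x hxu) (hqw y hyu)
  · intro x y o m' hx hy
    exact absurd hy (k2' y m')
  · intro x y m1 m2 hxy hx hy
    exact absurd hy (k2' y m2)

end Pool.Agent.Lib.H3R
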