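import Pool.Agent.Lib.H3R.F2c

/-! # F2d: one constant -/

namespace Pool.Agent.Lib.H3R

open Equiv Function
open Pool.Agent.Lib.H3C (Cl FR Olig Sup pai pia)

variable {I T V κ : Type} [Countable V] [Finite I] [Finite T] {D : TD I T} {M : Str I T V}
  {c : κ → V} {G : Subgroup (Perm V)} {g : Perm V} {μ : Orb D M c → κ → T}
  {ψ : Orb D M c → Orb D M c → T → T} {π : I → I}

/-- Selections give injective maps.

Proof. `Apx D M G e e'`: let `A` be valid, `u ≠ w`, `A.s u w = e`; `A' = chg D A u w e'`.  Let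
`b x = sel (A.s u x)`, `b' x = sel (A'.s u x)`; `rel_rep` for `A`, `b` and for `A'`, `b'`.  The two results agree off the
diagonal (`L (sel e) = L (sel e')`; the other pairs with `u` are not changed).  So `Rel M G A A'`. -/
theorem sel_inj (hM : Gen D M) (hG : Au M ≤ G) (hns : NS D M G) (hnm : NM D M G)
    (hc : Injective c) (hg : g ∈ G) (h : Nice D M c g π μ ψ) (m : κ) (s₀ : Orb D M c)
    (hs : s₀.col = M.c (c m)) (L : Orb D M c → T) (hL : IsL D M c μ ψ m s₀ L)
    (sel : T → Orb D M c) (hsel : IsSel D M c m sel) (e e' : T) (h1 : D.src e = M.c (c m))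
    (h2 : D.src e' = M.c (c m)) (h3 : D.tgt e = D.tgt e') (h4 : L (sel e) = L (sel e')) :
    e = e' := by
  refine hns e e' ⟨h1.trans h2.symm, h3, ?_⟩
  intro ι _ A u v hA huv he
  have hu : A.c u = M.c (c m) := by rw [← (hA u v huv).1, he, h1]
  have hA' : Val D (chg D A u v e') :=
    val_chg hA huv (by rw [hu, h2]) (by rw [← h3, ← he, (hA u v huv).2.1])
  have key : ∀ B : Str I T ι, Val D B → B.c u = M.c (c m) →
      Rel M G B (rep D B u (fun w => L (sel (B.s u w)))) := by
    intro B hB hBu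
    refine rel_rep hM hG hns hnm hc hg h m s₀ hs L hL B hB u hBu (fun w => sel (B.s u w)) ?_
    intro w hw
    have h5 := hB u w hw.symm
    have h6 := hsel (B.s u w) (h5.1.trans hBu)
    exact ⟨h6.1.trans h5.2.1, h6.2.trans h5.2.2.symm⟩
  have k1 := key A hA hu
  have k2 := key _ hA' hu
  refine Rel.trans hM hG k1 (k2.symm.congr ?_ (Eqv.rfl' _))
  have hf : ∀ w, w ≠ u → L (sel ((chg D A u v e').s u w)) = L (sel (A.s u w)) := by
    intro w hw
    by_cases hwv : w = v
    · rw [hwv, chg_left, he]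
      exact h4.symm
    · rw [chg_other _ _ _ _ _ _ (fun h => hwv h.2) (fun h => huv h.1)]
  refine ⟨fun _ => rfl, fun x y hxy => ?_⟩
  by_cases hx : x = u
  · rw [hx, rep_self_left, rep_self_left]
    exact hf y (fun h => hxy (hx.trans h.symm))
  · by_cases hy : y = u
    · rw [hy, rep_self_right _ _ _ _ hx, rep_self_right _ _ _ _ hx, hf x hx]
    · rw [rep_other _ _ _ _ _ hx hy, rep_other _ _ _ _ _ hx hy]
      exact chg_other _ _ _ _ _ _ (fun h => hx h.1) (fun h => hy h.2)

end Pool.Agent.Lib.H3R
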