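import Pool.Agent.Lib.H3R.F2d

/-! # F2e: one constant -/

namespace Pool.Agent.Lib.H3R

open Equiv Function
open Pool.Agent.Lib.H3C (Cl FR Olig Sup pai pia)

variable {I T V κ : Type} [Countable V] [Finite I] [Finite T] {D : TD I T} {M : Str I T V}
  {c : κ → V} {G : Subgroup (Perm V)} {g : Perm V} {μ : Orb D M c → κ → T}
  {ψ : Orb D M c → Orb D M c → T → T} {π : I → I}

/-- Proof. The map `e ↦ L (sel e)` of the finite type `{e // D.src e = M.c (c m)}` to itself is injective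
(`sel_inj`; `D.tgt e = (sel e).col = D.tgt (L (sel e))`), so it is surjective. -/
theorem sel_surj (hM : Gen D M) (hG : Au M ≤ G) (hns : NS D M G) (hnm : NM D M G)
    (hc : Injective c) (hg : g ∈ G) (h : Nice D M c g π μ ψ) (m : κ) (s₀ : Orb D M c)
    (hs : s₀.col = M.c (c m)) (L : Orb D M c → T) (hL : IsL D M c μ ψ m s₀ L)
    (sel : T → Orb D M c) (hsel : IsSel D M c m sel) (d : T) (h1 : D.src d = M.c (c m)) :
    ∃ e, D.src e = M.c (c m) ∧ D.tgt e = D.tgt d ∧ L (sel e) = d := by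
  have h2 : ∀ e, D.src e = M.c (c m) → D.tgt e = D.tgt (L (sel e)) := fun e he => by
    rw [(hL (sel e)).2.1, (hsel e he).1]
  have h3 : Injective (fun e : {e // D.src e = M.c (c m)} =>
      (⟨L (sel e.1), (hL (sel e.1)).1.trans hs⟩ : {e // D.src e = M.c (c m)})) := by
    intro e e' hee
    have h4 : L (sel e.1) = L (sel e'.1) := congrArg Subtype.val hee
    refine Subtype.ext (sel_inj hM hG hns hnm hc hg h m s₀ hs L hL sel hsel e.1 e'.1 e.2 e'.2 ?_ h4)
    rw [h2 e.1 e.2, h2 e'.1 e'.2, h4]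
  obtain ⟨e, he⟩ := (Finite.injective_iff_surjective.1 h3) ⟨d, h1⟩
  have h5 : L (sel e.1) = d := congrArg Subtype.val he
  exact ⟨e.1, e.2, by rw [h2 e.1 e.2, h5], h5⟩

end Pool.Agent.Lib.H3R
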