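import Pool.Agent.Lib.H3R.F1

/-! # F2a: one constant -/

namespace Pool.Agent.Lib.H3R

open Equiv Function
open Pool.Agent.Lib.H3C (Cl FR Olig Sup pai pia)

/-- `L b` is the type which the placement of a vertex in the orbit `s₀` needs in order to give the same
result as the constant `c m`. -/
def IsL {I T V κ : Type} (D : TD I T) (M : Str I T V) (c : κ → V) (μ : Orb D M c → κ → T)
    (ψ : Orb D M c → Orb D M c → T → T) (m : κ) (s₀ : Orb D M c) (L : Orb D M c → T) : Prop :=
  ∀ b, D.src (L b) = s₀.col ∧ D.tgt (L b) = b.col ∧ ψ s₀ b (L b) = D.opp (μ b m)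

/-- A selection: for every type `e` with source `i` an orbit whose type with `c m` is `D.opp e`. -/
def IsSel {I T V κ : Type} (D : TD I T) (M : Str I T V) (c : κ → V) (m : κ)
    (sel : T → Orb D M c) : Prop :=
  ∀ e, D.src e = M.c (c m) → (sel e).col = D.tgt e ∧ (sel e).ty m = D.opp e

variable {I T V κ : Type} [Countable V] [Finite I] [Finite T] {D : TD I T} {M : Str I T V}
  {c : κ → V} {G : Subgroup (Perm V)} {g : Perm V} {μ : Orb D M c → κ → T}
  {ψ : Orb D M c → Orb D M c → T → T} {π : I → I}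

/-- Proof. `Nice.surj` for `s₀`, `b` and `d = D.opp (μ b m)`: its source is `D.tgt (μ b m) = M.c (g (c m)) =
π (M.c (c m))` (`const_col`) `= π s₀.col`, its target is `D.src (μ b m) = π b.col`. -/
theorem exists_L (hM : Gen D M) (hG : Au M ≤ G) (hns : NS D M G) (hnm : NM D M G)
    (hc : Injective c) (hg : g ∈ G) (h : Nice D M c g π μ ψ) (m : κ) (s₀ : Orb D M c)
    (hs : s₀.col = M.c (c m)) : ∃ L, IsL D M c μ ψ m s₀ L := by
  have h1 : ∀ b : Orb D M c, ∃ a, D.src a = s₀.col ∧ D.tgt a = b.col ∧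
      ψ s₀ b a = D.opp (μ b m) := by
    intro b
    refine h.surj s₀ b (D.opp (μ b m)) ?_ ?_
    · rw [D.src_opp, h.mutgt, const_col hM hG hns hnm hc hg h m, hs]
    · rw [D.tgt_opp, h.musrc]
  choose L hL using h1
  exact ⟨L, hL⟩

end Pool.Agent.Lib.H3R
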