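import Pool.Agent.Lib.H3R.F3a

/-! # F3b: the switching of a constant -/

namespace Pool.Agent.Lib.H3R

open Equiv Function
open Pool.Agent.Lib.H3C (Cl FR Olig Sup pai pia)

variable {I T V κ : Type} [Countable V] [Finite I] [Finite T] {D : TD I T} {M : Str I T V}
  {c : κ → V} {G : Subgroup (Perm V)} {g : Perm V} {μ : Orb D M c → κ → T}
  {ψ : Orb D M c → Orb D M c → T → T} {π : I → I}

/-- **The switching of a constant.**

Proof. Let `L` be given by `exists_L`, `sel` a selection (`exists_sel`; if there is no `e` with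
`D.src e = M.c (c m)` take any: there is one by `D.ex`) and `l e = L (sel e)`.  `IsSw`: sources and targets by
`IsL`, `IsSel`; for a valid `A` and `A.c u = M.c (c m)`: `sw D A u l = rep D A u (fun w => L (sel (A.s u w)))`
and `rel_rep` with `b w = sel (A.s u w)` (`A.s w u = D.opp (A.s u w)`).  For `b`, `e` with `b.col = D.tgt e`,
`b.ty m = D.opp e`: `L (sel e) = L b` by `L_eq`, so `ψ s₀ b (l e) = D.opp (μ b m)`. -/
theorem exists_sw (hM : Gen D M) (hG : Au M ≤ G) (hns : NS D M G) (hnm : NM D M G)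
    (hc : Injective c) (hg : g ∈ G) (h : Nice D M c g π μ ψ) (m : κ) (s₀ : Orb D M c)
    (hs : s₀.col = M.c (c m)) :
    ∃ l : T → T, IsSw D M G (M.c (c m)) l ∧ ∀ (b : Orb D M c) (e : T),
      D.src e = M.c (c m) → b.col = D.tgt e → b.ty m = D.opp e →
        ψ s₀ b (l e) = D.opp (μ b m) := by
  classical
  obtain ⟨L, hL⟩ := exists_L hM hG hns hnm hc hg h m s₀ hs
  obtain ⟨e0, he1, -⟩ := D.ex (M.c (c m)) (M.c (c m))
  obtain ⟨b0, hb1, hb2⟩ := exists_orb1 D M c (D.tgt e0) m (D.opp e0) (D.src_opp e0)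
    (by rw [D.tgt_opp, he1])
  obtain ⟨sel, hsel, -⟩ := exists_sel m e0 b0 he1 hb1 hb2
  refine ⟨fun e => L (sel e), ⟨fun a ha => ?_, ?_⟩, ?_⟩
  · have h1 := hL (sel a)
    exact ⟨by rw [h1.1, hs], by rw [h1.2.1, (hsel a ha).1]⟩
  · intro ι _ A u hA hu
    refine rel_rep hM hG hns hnm hc hg h m s₀ hs L hL A hA u hu (fun w => sel (A.s u w))
      (fun w hw => ?_)
    have h2 := hA u w hw.symm
    have h3 := hsel (A.s u w) (by rw [h2.1, hu])
    exact ⟨by rw [h3.1, h2.2.1], by rw [h3.2, h2.2.2]⟩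
  · intro b e h1 h2 h3
    have h4 : L (sel e) = L b := L_eq hM hG hns hnm hc hg h m s₀ hs L hL (sel e) b
      (by rw [(hsel e h1).1, h2]) (by rw [(hsel e h1).2, h3])
    show ψ s₀ b (L (sel e)) = D.opp (μ b m)
    rw [h4]
    exact (hL b).2.2

end Pool.Agent.Lib.H3R
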