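import Pool.Agent.Lib.H3R.F3b

/-! # F3c: the switching of a constant -/

namespace Pool.Agent.Lib.H3R

open Equiv Function
open Pool.Agent.Lib.H3C (Cl FR Olig Sup pai pia)

variable {I T V κ : Type} [Countable V] [Finite I] [Finite T] {D : TD I T} {M : Str I T V}
  {c : κ → V} {G : Subgroup (Perm V)} {g : Perm V} {μ : Orb D M c → κ → T}
  {ψ : Orb D M c → Orb D M c → T → T} {π : I → I}

/-- Switchings are injective.

Proof. `D.tgt a = D.tgt (l a) = D.tgt (l b) = D.tgt b`.  `Apx D M G a b`: if `A` is valid, `u ≠ w`, `A.s u w = a`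
then `sw D A u l` and `sw D (chg D A u w b) u l` agree off the diagonal. -/
theorem sw_inj (hM : Gen D M) (hG : Au M ≤ G) (hns : NS D M G) {i : I} {l : T → T}
    (h : IsSw D M G i l) (a b : T) (ha : D.src a = i) (hb : D.src b = i) (hab : l a = l b) :
    a = b := by
  refine hns a b ⟨ha.trans hb.symm, ?_, ?_⟩
  · rw [← (h.1 a ha).2, hab, (h.1 b hb).2]
  · intro ι _ A u v hA huv haa
    have hcu : A.c u = i := by rw [← (hA u v huv).1, haa, ha]
    have hcv : D.tgt b = A.c v := by
      rw [← (h.1 b hb).2, ← hab, (h.1 a ha).2, ← haa, (hA u v huv).2.1]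
    have hB : Val D (chg D A u v b) := val_chg hA huv (by rw [hb, hcu]) hcv
    have h1 := h.2 ι A u hA hcu
    have h2 := h.2 ι (chg D A u v b) u hB hcu
    have hk : ∀ y, l ((chg D A u v b).s u y) = l (A.s u y) := by
      intro y
      by_cases h3 : y = v
      · subst h3
        rw [chg_left, haa, hab]
      · rw [chg_other _ _ _ _ _ _ (fun h4 => h3 h4.2) (fun h4 => huv h4.1)]
    have he : Eqv (sw D (chg D A u v b) u l) (sw D A u l) := by
      refine ⟨fun _ => rfl, fun x y hxy => ?_⟩
      unfold sw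
      by_cases h3 : x = u
      · subst h3
        rw [rep_self_left, rep_self_left, hk]
      · by_cases h4 : y = u
        · subst h4
          rw [rep_self_right _ _ _ _ h3, rep_self_right _ _ _ _ h3, hk]
        · rw [rep_other _ _ _ _ _ h3 h4, rep_other _ _ _ _ _ h3 h4,
            chg_other _ _ _ _ _ _ (fun h5 => h3 h5.1) (fun h5 => h4 h5.2)]
    exact h1.trans hM hG ((h2.congr (Eqv.rfl' _) he).symm)

/-- Proof. `l` maps the finite type `{a // D.src a = i}` injectively (`sw_inj`) to itself. -/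
theorem sw_surj (hM : Gen D M) (hG : Au M ≤ G) (hns : NS D M G) {i : I} {l : T → T}
    (h : IsSw D M G i l) (d : T) (hd : D.src d = i) :
    ∃ a, D.src a = i ∧ D.tgt a = D.tgt d ∧ l a = d := by
  let f : {a : T // D.src a = i} → {a : T // D.src a = i} :=
    fun a => ⟨l a.1, (h.1 a.1 a.2).1⟩
  have hf : Injective f := by
    intro a b hab
    exact Subtype.ext (sw_inj hM hG hns h a.1 b.1 a.2 b.2 (congrArg Subtype.val hab))
  obtain ⟨a, ha⟩ := Finite.surjective_of_injective hf ⟨d, hd⟩
  have ha1 : l a.1 = d := congrArg Subtype.val ha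
  exact ⟨a.1, a.2, by rw [← ha1, (h.1 a.1 a.2).2], ha1⟩

end Pool.Agent.Lib.H3R
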