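import Pool.Agent.Lib.H3R.F2

/-! # F3a: the switching of a constant -/

namespace Pool.Agent.Lib.H3R

open Equiv Function
open Pool.Agent.Lib.H3C (Cl FR Olig Sup pai pia)

variable {I T V κ : Type} [Countable V] [Finite I] [Finite T] {D : TD I T} {M : Str I T V}
  {c : κ → V} {G : Subgroup (Perm V)} {g : Perm V} {μ : Orb D M c → κ → T}
  {ψ : Orb D M c → Orb D M c → T → T} {π : I → I}

/-- `L b` depends only on the colour of `b` and its type with `c m`.

Proof. Let `e = D.opp (b.ty m)` (`D.src e = M.c (c m)`, `D.tgt e = b.col`).  `Apx D M G (L b) (L b')`: let `C` be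
valid on `ι`, `u ≠ w`, `C.s u w = L b` (so `C.c u = M.c (c m)`, `C.c w = b.col`).  Let `sel` be a selection
with `sel e = b` (`exists_sel`), and `A = rep D C u f` with `D.src (f x) = M.c (c m)`, `D.tgt (f x) = C.c x`,
`L (sel (f x)) = C.s u x` for `x ≠ u` (`sel_surj`).  `A` is valid (`val_rep`) and `A.s u w = f w = e` by `sel_inj`
(`L (sel e) = L b = C.s u w = L (sel (f w))`).  `rel_rep` for `A` and `x ↦ sel (f x)`: the result is `C` off the
diagonal.  `rel_rep` for `A` and `Function.update (fun x => sel (f x)) w b'`: the result is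
`chg D C u w (L b')` off the diagonal (`b'.col = b.col`, `b'.ty m = b.ty m = D.opp e = A.s w u`). -/
theorem L_eq (hM : Gen D M) (hG : Au M ≤ G) (hns : NS D M G) (hnm : NM D M G)
    (hc : Injective c) (hg : g ∈ G) (h : Nice D M c g π μ ψ) (m : κ) (s₀ : Orb D M c)
    (hs : s₀.col = M.c (c m)) (L : Orb D M c → T) (hL : IsL D M c μ ψ m s₀ L)
    (b b' : Orb D M c) (h1 : b.col = b'.col) (h2 : b.ty m = b'.ty m) : L b = L b' := by
  classical
  have hb1 : D.src (b.ty m) = b.col := (b.2 m).1
  have hb2 : D.tgt (b.ty m) = M.c (c m) := (b.2 m).2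
  obtain ⟨e, he⟩ : ∃ e : T, e = D.opp (b.ty m) := ⟨_, rfl⟩
  have he1 : D.src e = M.c (c m) := by rw [he, D.src_opp, hb2]
  have he2 : D.tgt e = b.col := by rw [he, D.tgt_opp, hb1]
  have he3 : b.ty m = D.opp e := by rw [he, D.opp_opp]
  obtain ⟨sel, hsel, hse⟩ := exists_sel m e b he1 he2.symm he3
  refine hns _ _ ⟨by rw [(hL b).1, (hL b').1], by rw [(hL b).2.1, (hL b').2.1, h1], ?_⟩
  intro ι _ C u w hC huw hCs
  have hCu : C.c u = M.c (c m) := by rw [← (hC u w huw).1, hCs, (hL b).1, hs]
  have hCw : C.c w = b.col := by rw [← (hC u w huw).2.1, hCs, (hL b).2.1]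
  have hf : ∀ x, ∃ a, x ≠ u → D.src a = M.c (c m) ∧ D.tgt a = C.c x ∧ L (sel a) = C.s u x := by
    intro x
    by_cases hx : x = u
    · exact ⟨e, fun h' => absurd hx h'⟩
    · obtain ⟨a, x1, x2, x3⟩ := sel_surj hM hG hns hnm hc hg h m s₀ hs L hL sel hsel (C.s u x)
        (by rw [(hC u x (Ne.symm hx)).1, hCu])
      exact ⟨a, fun _ => ⟨x1, by rw [x2, (hC u x (Ne.symm hx)).2.1], x3⟩⟩
  choose f hf using hf
  have hfw : f w = e := by
    obtain ⟨y1, y2, y3⟩ := hf w huw.symm
    exact sel_inj hM hG hns hnm hc hg h m s₀ hs L hL sel hsel (f w) e y1 he1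
      (by rw [y2, hCw, he2]) (by rw [y3, hse, hCs])
  have hA : Val D (rep D C u f) :=
    val_rep hC u f (fun x hx => ⟨by rw [(hf x hx).1, hCu], (hf x hx).2.1⟩)
  have r1 : Rel M G (rep D C u f) (rep D (rep D C u f) u (fun x => L (sel (f x)))) := by
    refine rel_rep hM hG hns hnm hc hg h m s₀ hs L hL _ hA u hCu (fun x => sel (f x)) ?_
    intro x hx
    refine ⟨?_, ?_⟩
    · show (sel (f x)).col = C.c x
      rw [(hsel (f x) (hf x hx).1).1, (hf x hx).2.1]
    · show (sel (f x)).ty m = _
      rw [rep_self_right _ _ _ _ hx, (hsel (f x) (hf x hx).1).2]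
  have r2 : Rel M G (rep D C u f)
      (rep D (rep D C u f) u (fun x => L (Function.update (fun x => sel (f x)) w b' x))) := by
    refine rel_rep hM hG hns hnm hc hg h m s₀ hs L hL _ hA u hCu
      (Function.update (fun x => sel (f x)) w b') ?_
    intro x hx
    by_cases hxw : x = w
    · subst hxw
      rw [Function.update_self, rep_self_right _ _ _ _ hx]
      refine ⟨?_, ?_⟩
      · show b'.col = C.c x
        rw [← h1, hCw]
      · rw [← h2, hfw, he3]
    · rw [Function.update_of_ne hxw]
      refine ⟨?_, ?_⟩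
      · show (sel (f x)).col = C.c x
        rw [(hsel (f x) (hf x hx).1).1, (hf x hx).2.1]
      · show (sel (f x)).ty m = _
        rw [rep_self_right _ _ _ _ hx, (hsel (f x) (hf x hx).1).2]
  have q1 : Eqv (rep D (rep D C u f) u (fun x => L (sel (f x)))) C := by
    refine ⟨fun _ => rfl, fun x y hxy => ?_⟩
    by_cases hx : x = u
    · subst hx
      rw [rep_self_left]
      exact (hf y hxy.symm).2.2
    · by_cases hy : y = u
      · subst hy
        rw [rep_self_right _ _ _ _ hx, (hf x hx).2.2]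
        exact ((hC y x (Ne.symm hx)).2.2).symm
      · rw [rep_other _ _ _ _ _ hx hy, rep_other _ _ _ _ _ hx hy]
  have q2 : Eqv (rep D (rep D C u f) u
      (fun x => L (Function.update (fun x => sel (f x)) w b' x))) (chg D C u w (L b')) := by
    refine ⟨fun _ => rfl, fun x y hxy => ?_⟩
    by_cases hx : x = u
    · subst hx
      rw [rep_self_left]
      by_cases hy : y = w
      · subst hy
        rw [Function.update_self, chg_left]
      · rw [Function.update_of_ne hy, chg_other _ _ _ _ _ _ (fun h' => hy h'.2)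
          (fun h' => huw h'.1)]
        exact (hf y hxy.symm).2.2
    · by_cases hy : y = u
      · subst hy
        rw [rep_self_right _ _ _ _ hx]
        by_cases hxw : x = w
        · subst hxw
          rw [Function.update_self, chg_right _ _ _ _ huw]
        · rw [Function.update_of_ne hxw, (hf x hx).2.2, chg_other _ _ _ _ _ _
            (fun h' => hx h'.1) (fun h' => hxw h'.1)]
          exact ((hC y x (Ne.symm hx)).2.2).symm
      · rw [rep_other _ _ _ _ _ hx hy, rep_other _ _ _ _ _ hx hy,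
          chg_other _ _ _ _ _ _ (fun h' => hx h'.1) (fun h' => hy h'.2)]
  exact (r1.congr (Eqv.rfl' _) q1).symm.trans hM hG (r2.congr (Eqv.rfl' _) q2)

end Pool.Agent.Lib.H3R
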