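import Pool.Agent.Lib.H3R.F4a

/-! # F4b: two constants -/

namespace Pool.Agent.Lib.H3R

open Equiv Function
open Pool.Agent.Lib.H3C (Cl FR Olig Sup pai pia)

variable {I T V κ : Type} [Countable V] [Finite I] [Finite T] {D : TD I T} {M : Str I T V}
  {c : κ → V} {G : Subgroup (Perm V)} {g : Perm V} {μ : Orb D M c → κ → T}
  {ψ : Orb D M c → Orb D M c → T → T} {π : I → I}

/-- The second comparison: two switchings.

Proof. `IsSw` for `A`, `u` and then for `sw D A u l`, `v`; the result agrees with `C` off the diagonal.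
(`D.src`, `D.tgt` of the types by `IsSw`; `sw D A u l` is valid by `Rel.val_right`.) -/
theorem cmp_two (hM : Gen D M) (hG : Au M ≤ G) {i j : I} (l l' : T → T) (hl : IsSw D M G i l)
    (hl' : IsSw D M G j l') {ι : Type} [Finite ι] (A C : Str I T ι) (hA : Val D A)
    (hC : Val D C) (u v : ι) (huv : u ≠ v) (hu : A.c u = i) (hv : A.c v = j)
    (hcc : ∀ w, C.c w = A.c w)
    (h1 : ∀ w, w ≠ u → w ≠ v → C.s u w = l (A.s u w))
    (h2 : ∀ w, w ≠ u → w ≠ v → C.s v w = l' (A.s v w))
    (h3 : C.s u v = D.opp (l' (D.opp (l (A.s u v)))))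
    (h4 : ∀ w w', w ≠ w' → w ≠ u → w ≠ v → w' ≠ u → w' ≠ v → C.s w w' = A.s w w') :
    Rel M G A C := by
  classical
  have r1 : Rel M G A (sw D A u l) := hl.2 ι A u hA hu
  have hA1 : Val D (sw D A u l) := r1.val_right hM.1
  have r2 : Rel M G (sw D A u l) (sw D (sw D A u l) v l') := hl'.2 ι _ v hA1 hv
  refine (r1.trans hM hG r2).congr (Eqv.rfl' A) ⟨fun w => (hcc w).symm, fun x y hxy => ?_⟩
  show (rep D (sw D A u l) v (fun w => l' ((sw D A u l).s v w))).s x y = C.s x y
  have e1 : (sw D A u l).s v u = D.opp (l (A.s u v)) := rep_self_right _ _ _ _ huv.symm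
  have e2 : ∀ w, w ≠ u → (sw D A u l).s v w = A.s v w := fun w hw =>
    rep_other _ _ _ _ _ huv.symm hw
  by_cases hx : x = v
  · rw [hx] at hxy ⊢
    rw [rep_self_left]
    by_cases hy : y = u
    · rw [hy, e1, (hC u v huv).2.2, h3, D.opp_opp]
    · rw [e2 y hy, h2 y hy hxy.symm]
  · by_cases hy : y = v
    · rw [hy, rep_self_right _ _ _ _ hx]
      by_cases hxu : x = u
      · rw [hxu, e1, h3]
      · rw [e2 x hxu, ← h2 x hxu hx, (hC v x (Ne.symm hx)).2.2]
    · rw [rep_other _ _ _ _ _ hx hy]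
      show (rep D A u (fun w => l (A.s u w))).s x y = C.s x y
      by_cases hxu : x = u
      · rw [hxu] at hxy ⊢
        rw [rep_self_left, h1 y hxy.symm hy]
      · by_cases hyu : y = u
        · rw [hyu, rep_self_right _ _ _ _ hxu, ← h1 x hxu hx, (hC u x (Ne.symm hxu)).2.2]
        · rw [rep_other _ _ _ _ _ hxu hyu, h4 x y hxy hxu hx hyu hy]

end Pool.Agent.Lib.H3R
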