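import Pool.Agent.Lib.H3R.F4b

/-! # F4c: two constants -/

namespace Pool.Agent.Lib.H3R

open Equiv Function
open Pool.Agent.Lib.H3C (Cl FR Olig Sup pai pia)

variable {I T V κ : Type} [Countable V] [Finite I] [Finite T] {D : TD I T} {M : Str I T V}
  {c : κ → V} {G : Subgroup (Perm V)} {g : Perm V} {μ : Orb D M c → κ → T}
  {ψ : Orb D M c → Orb D M c → T → T} {π : I → I}

/-- **The type of the images of two constants.**

Proof. Let `i = M.c (c m)`, `j = M.c (c m')`, `e₀ = M.s (c m) (c m')` (`D.src e₀ = i`, `D.tgt e₀ = j`, as `c m ≠ c m'`) and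
`η₀` the type with source `i`, target `j`, `ψ s s' η₀ = M.s (g (c m)) (g (c m'))` (`Nice.surj`, `const_col`, validity
of `M`).  Let `η₁ = D.opp (l' (D.opp (l e₀)))` (source `i`, target `j`).  `Apx D M G η₀ η₁`: let `C` be valid,
`u ≠ v`, `C.s u v = η₀`.  By `sw_surj` there is a valid `A` with the colours of `C`, `A.s u v = e₀`,
`l (A.s u w) = C.s u w`, `l' (A.s v w) = C.s v w` for `w ≠ u, v` and `A.s w w' = C.s w w'` for the other pairs
(e.g. `A = chg D (rep D (rep D C u f) v f') u v e₀`).  `cmp_one` gives `Rel M G A C` and `cmp_two` gives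
`Rel M G A (chg D C u v η₁)`.  So `η₀ = η₁` by `hns`. -/
theorem two_const (hM : Gen D M) (hG : Au M ≤ G) (hns : NS D M G) (hnm : NM D M G)
    (hc : Injective c) (hg : g ∈ G) (h : Nice D M c g π μ ψ) (m m' : κ) (hmm : m ≠ m')
    (s s' : Orb D M c) (hs : s.col = M.c (c m)) (hs' : s'.col = M.c (c m')) (l l' : T → T)
    (hsw : IsSw D M G (M.c (c m)) l) (hsw' : IsSw D M G (M.c (c m')) l')
    (hl : ∀ (b : Orb D M c) (e : T), D.src e = M.c (c m) → b.col = D.tgt e →
      b.ty m = D.opp e → ψ s b (l e) = D.opp (μ b m))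
    (hl' : ∀ (b : Orb D M c) (e : T), D.src e = M.c (c m') → b.col = D.tgt e →
      b.ty m' = D.opp e → ψ s' b (l' e) = D.opp (μ b m')) :
    M.s (g (c m)) (g (c m')) = ψ s s' (D.opp (l' (D.opp (l (M.s (c m) (c m')))))) := by
  classical
  have hcm : c m ≠ c m' := fun h1 => hmm (hc h1)
  have hgm : g (c m) ≠ g (c m') := fun h1 => hcm (g.injective h1)
  obtain ⟨e1, e2, -⟩ := hM.1 (c m) (c m') hcm
  obtain ⟨g1, g2, -⟩ := hM.1 (g (c m)) (g (c m')) hgm
  have k1 := const_col hM hG hns hnm hc hg h m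
  have k2 := const_col hM hG hns hnm hc hg h m'
  obtain ⟨η₀, a1, a2, a3⟩ := h.surj s s' (M.s (g (c m)) (g (c m')))
    (by rw [g1, k1, hs]) (by rw [g2, k2, hs'])
  have b1 := hsw.1 (M.s (c m) (c m')) e1
  have b2 := hsw'.1 (D.opp (l (M.s (c m) (c m')))) (by rw [D.src_opp, b1.2, e2])
  obtain ⟨η₁, hη₁⟩ : ∃ η₁ : T, η₁ = D.opp (l' (D.opp (l (M.s (c m) (c m'))))) := ⟨_, rfl⟩
  have c1 : D.src η₁ = M.c (c m) := by
    rw [hη₁, D.src_opp, b2.2, D.tgt_opp, b1.1]
  have c2 : D.tgt η₁ = M.c (c m') := by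
    rw [hη₁, D.tgt_opp, b2.1]
  have hapx : Apx D M G η₀ η₁ := by
    refine ⟨by rw [a1, hs, c1], by rw [a2, hs', c2], ?_⟩
    intro ι _ C u v hC huv hCs
    have hCu : C.c u = M.c (c m) := by
      rw [← (hC u v huv).1, hCs, a1, hs]
    have hCv : C.c v = M.c (c m') := by
      rw [← (hC u v huv).2.1, hCs, a2, hs']
    have hf : ∀ w, ∃ a, w ≠ u → D.src a = C.c u ∧ D.tgt a = C.c w ∧ l a = C.s u w := by
      intro w
      by_cases hw : w = u
      · exact ⟨η₀, fun h' => absurd hw h'⟩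
      · obtain ⟨a, x1, x2, x3⟩ := sw_surj hM hG hns hsw (C.s u w)
          (by rw [(hC u w (Ne.symm hw)).1, hCu])
        exact ⟨a, fun _ => ⟨by rw [x1, hCu], by rw [x2, (hC u w (Ne.symm hw)).2.1], x3⟩⟩
    have hf' : ∀ w, ∃ a, w ≠ v → D.src a = C.c v ∧ D.tgt a = C.c w ∧ l' a = C.s v w := by
      intro w
      by_cases hw : w = v
      · exact ⟨η₀, fun h' => absurd hw h'⟩
      · obtain ⟨a, x1, x2, x3⟩ := sw_surj hM hG hns hsw' (C.s v w)
          (by rw [(hC v w (Ne.symm hw)).1, hCv])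
        exact ⟨a, fun _ => ⟨by rw [x1, hCv], by rw [x2, (hC v w (Ne.symm hw)).2.1], x3⟩⟩
    choose f hf using hf
    choose f' hf' using hf'
    have hR1 : Val D (rep D C u f) := val_rep hC u f (fun w hw => ⟨(hf w hw).1, (hf w hw).2.1⟩)
    have hR2 : Val D (rep D (rep D C u f) v f') :=
      val_rep hR1 v f' (fun w hw => ⟨(hf' w hw).1, (hf' w hw).2.1⟩)
    have hA : Val D (chg D (rep D (rep D C u f) v f') u v (M.s (c m) (c m'))) :=
      val_chg hR2 huv (by rw [e1]; exact hCu.symm) (by rw [e2]; exact hCv.symm)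
    have s1 : ∀ w, w ≠ u → w ≠ v →
        (chg D (rep D (rep D C u f) v f') u v (M.s (c m) (c m'))).s u w = f w := by
      intro w hwu hwv
      rw [chg_other _ _ _ _ _ _ (fun h' => hwv h'.2) (fun h' => huv h'.1),
        rep_other _ _ _ _ _ huv hwv, rep_self_left]
    have s2 : ∀ w, w ≠ u → w ≠ v →
        (chg D (rep D (rep D C u f) v f') u v (M.s (c m) (c m'))).s v w = f' w := by
      intro w hwu hwv
      rw [chg_other _ _ _ _ _ _ (fun h' => huv h'.1.symm) (fun h' => hwu h'.2), rep_self_left]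
    have s4 : ∀ w w', w ≠ w' → w ≠ u → w ≠ v → w' ≠ u → w' ≠ v → C.s w w' =
        (chg D (rep D (rep D C u f) v f') u v (M.s (c m) (c m'))).s w w' := by
      intro w w' _ h1 h2 h3 h4
      rw [chg_other _ _ _ _ _ _ (fun h' => h1 h'.1) (fun h' => h2 h'.1),
        rep_other _ _ _ _ _ h2 h4, rep_other _ _ _ _ _ h1 h3]
    have r1 : Rel M G (chg D (rep D (rep D C u f) v f') u v (M.s (c m) (c m'))) C := by
      refine cmp_one hM hG hns hnm hc hg h m m' hmm s s' hs hs' l l' hl hl' _ C hA hC u v huv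
        hCu hCv (chg_left _ _ _ _) (fun w => rfl) ?_ ?_ ?_ s4
      · intro w hwu hwv
        rw [s1 w hwu hwv, (hf w hwu).2.2]
      · intro w hwu hwv
        rw [s2 w hwu hwv, (hf' w hwv).2.2]
      · rw [hCs, a3]
    have hC' : Val D (chg D C u v η₁) :=
      val_chg hC huv (by rw [c1, hCu]) (by rw [c2, hCv])
    have r2 : Rel M G (chg D (rep D (rep D C u f) v f') u v (M.s (c m) (c m')))
        (chg D C u v η₁) := by
      refine cmp_two hM hG l l' hsw hsw' _ _ hA hC' u v huv hCu hCv (fun w => rfl) ?_ ?_ ?_ ?_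
      · intro w hwu hwv
        rw [s1 w hwu hwv, (hf w hwu).2.2,
          chg_other _ _ _ _ _ _ (fun h' => hwv h'.2) (fun h' => huv h'.1)]
      · intro w hwu hwv
        rw [s2 w hwu hwv, (hf' w hwv).2.2,
          chg_other _ _ _ _ _ _ (fun h' => huv h'.1.symm) (fun h' => hwu h'.2)]
      · rw [chg_left, chg_left, hη₁]
      · intro w w' h0 h1 h2 h3 h4
        rw [← s4 w w' h0 h1 h2 h3 h4,
          chg_other _ _ _ _ _ _ (fun h' => h1 h'.1) (fun h' => h2 h'.1)]
    exact r1.symm.trans hM hG r2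
  have hfin := hns _ _ hapx
  rw [← hη₁, ← hfin, a3]

end Pool.Agent.Lib.H3R
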