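import Pool.Agent.Lib.H3R.F4a
import Pool.Agent.Lib.H3R.F4b
import Pool.Agent.Lib.H3R.F4c

/-! # F4 (all parts): two constants -/
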