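import Pool.Agent.Lib.H3R.F3

/-! # F4a: two constants -/

namespace Pool.Agent.Lib.H3R

open Equiv Function
open Pool.Agent.Lib.H3C (Cl FR Olig Sup pai pia)

variable {I T V κ : Type} [Countable V] [Finite I] [Finite T] {D : TD I T} {M : Str I T V}
  {c : κ → V} {G : Subgroup (Perm V)} {g : Perm V} {μ : Orb D M c → κ → T}
  {ψ : Orb D M c → Orb D M c → T → T} {π : I → I}

/-- The first comparison: the constants `c m`, `c m'` and the orbits `s`, `s'`.

Proof. For `w ≠ u, v` let `b w` be an orbit of colour `A.c w` with `(b w).ty m = A.s w u`,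
`(b w).ty m' = A.s w v` (`exists_orb2`).  `two_movesN` for `A` with `q u = inr m`, `q v = inr m'`,
`q w = inl (b w)`, and for `C` with `q' u = inl s`, `q' v = inl s'`, `q' w = inl (b w)`, with the structure `B` of
`move_exN` for `A`, `q`.  `MovedN` for `C`, `q'`: colours by `const_col`; `(w, u)`:
`B.s w u = μ (b w) m = D.opp (ψ s (b w) (l (A.s u w))) = D.opp (ψ s (b w) (C.s u w)) = ψ (b w) s (C.s w u)`
(`hl`, `h1`, `Nice.opp`, validity of `C`), `(u, w)` by `D.opp`; similarly `(w, v)`; `(u, v)`: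
`B.s u v = M.s (g (c m)) (g (c m')) = ψ s s' (C.s u v)` by `h3`, and `(v, u)` by `D.opp`; other pairs by `h4`. -/
theorem cmp_one (hM : Gen D M) (hG : Au M ≤ G) (hns : NS D M G) (hnm : NM D M G)
    (hc : Injective c) (hg : g ∈ G) (h : Nice D M c g π μ ψ) (m m' : κ) (hmm : m ≠ m')
    (s s' : Orb D M c) (hs : s.col = M.c (c m)) (hs' : s'.col = M.c (c m')) (l l' : T → T)
    (hl : ∀ (b : Orb D M c) (e : T), D.src e = M.c (c m) → b.col = D.tgt e →
      b.ty m = D.opp e → ψ s b (l e) = D.opp (μ b m))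
    (hl' : ∀ (b : Orb D M c) (e : T), D.src e = M.c (c m') → b.col = D.tgt e →
      b.ty m' = D.opp e → ψ s' b (l' e) = D.opp (μ b m'))
    {ι : Type} [Finite ι] (A C : Str I T ι) (hA : Val D A) (hC : Val D C) (u v : ι)
    (huv : u ≠ v) (hu : A.c u = M.c (c m)) (hv : A.c v = M.c (c m'))
    (hAs : A.s u v = M.s (c m) (c m')) (hcc : ∀ w, C.c w = A.c w)
    (h1 : ∀ w, w ≠ u → w ≠ v → C.s u w = l (A.s u w))
    (h2 : ∀ w, w ≠ u → w ≠ v → C.s v w = l' (A.s v w))
    (h3 : ψ s s' (C.s u v) = M.s (g (c m)) (g (c m')))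
    (h4 : ∀ w w', w ≠ w' → w ≠ u → w ≠ v → w' ≠ u → w' ≠ v → C.s w w' = A.s w w') :
    Rel M G A C := by
  classical
  have hcm : c m ≠ c m' := fun he => hmm (hc he)
  have hex : ∀ w, ∃ o : Orb D M c, (w = u → o = s) ∧ (w = v → o = s') ∧
      (w ≠ u → w ≠ v → o.col = A.c w ∧ o.ty m = A.s w u ∧ o.ty m' = A.s w v) := by
    intro w
    by_cases hwu : w = u
    · exact ⟨s, fun _ => rfl, fun hwv => absurd (hwu.symm.trans hwv) huv, fun h1 => absurd hwu h1⟩
    · by_cases hwv : w = v
      · exact ⟨s', fun h1 => absurd h1 hwu, fun _ => rfl, fun _ h2 => absurd hwv h2⟩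
      · have h5 := hA w u hwu
        have h6 := hA w v hwv
        obtain ⟨o, ho1, ho2, ho3⟩ := exists_orb2 D M c (A.c w) m m' hmm (A.s w u) (A.s w v) h5.1
          (h5.2.1.trans hu) h6.1 (h6.2.1.trans hv)
        exact ⟨o, fun h1 => absurd h1 hwu, fun h1 => absurd h1 hwv, fun _ _ => ⟨ho1, ho2, ho3⟩⟩
  choose b hbu hbv hb using hex
  have hbu' := hbu u rfl
  have hbv' := hbv v rfl
  obtain ⟨q, hq⟩ : ∃ q : ι → Orb D M c ⊕ κ, ∀ w, q w = if w = u then Sum.inr m else
      if w = v then Sum.inr m' else Sum.inl (b w) := ⟨_, fun _ => rfl⟩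
  have hqu : q u = Sum.inr m := by rw [hq, if_pos rfl]
  have hqv : q v = Sum.inr m' := by rw [hq, if_neg (Ne.symm huv), if_pos rfl]
  have hqw : ∀ w, w ≠ u → w ≠ v → q w = Sum.inl (b w) := by
    intro w h5 h6
    rw [hq, if_neg h5, if_neg h6]
  have hql : ∀ x o, q x = Sum.inl o → x ≠ u ∧ x ≠ v ∧ o = b x := by
    intro x o hx
    by_cases hxu : x = u
    · subst hxu
      rw [hqu] at hx
      exact absurd hx (by simp)
    · by_cases hxv : x = v
      · subst hxv
        rw [hqv] at hx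
        exact absurd hx (by simp)
      · rw [hqw x hxu hxv] at hx
        exact ⟨hxu, hxv, (Sum.inl.inj hx).symm⟩
  have hqr : ∀ x k, q x = Sum.inr k → (x = u ∧ k = m) ∨ (x = v ∧ k = m') := by
    intro x k hx
    by_cases hxu : x = u
    · subst hxu
      rw [hqu] at hx
      exact Or.inl ⟨rfl, (Sum.inr.inj hx).symm⟩
    · by_cases hxv : x = v
      · subst hxv
        rw [hqv] at hx
        exact Or.inr ⟨rfl, (Sum.inr.inj hx).symm⟩
      · rw [hqw x hxu hxv] at hx
        exact absurd hx (by simp)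
  have hP : Placed D M c q A := by
    refine ⟨?_, ?_, ?_, ?_, ?_⟩
    · intro x o hx
      obtain ⟨h5, h6, rfl⟩ := hql x o hx
      exact (hb x h5 h6).1.symm
    · intro x k hx
      rcases hqr x k hx with ⟨rfl, rfl⟩ | ⟨rfl, rfl⟩
      · exact hu
      · exact hv
    · intro x y o k hx hy
      obtain ⟨h5, h6, rfl⟩ := hql x o hx
      rcases hqr y k hy with ⟨rfl, rfl⟩ | ⟨rfl, rfl⟩
      · exact (hb x h5 h6).2.1.symm
      · exact (hb x h5 h6).2.2.symm
    · intro x y k k' hxy hx hy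
      rcases hqr x k hx with ⟨h5, h6⟩ | ⟨h5, h6⟩ <;> rcases hqr y k' hy with ⟨h7, h8⟩ | ⟨h7, h8⟩
      · exact absurd (h5.trans h7.symm) hxy
      · rw [h5, h6, h7, h8]
        exact hAs
      · rw [h5, h6, h7, h8, (hA u v huv).2.2, hAs, (hM.1 (c m) (c m') hcm).2.2]
      · exact absurd (h5.trans h7.symm) hxy
    · intro x y k hx hy
      rcases hqr x k hx with ⟨h5, h6⟩ | ⟨h5, h6⟩ <;> rcases hqr y k hy with ⟨h7, h8⟩ | ⟨h7, h8⟩
      · exact h5.trans h7.symm
      · exact absurd (h6.symm.trans h8) hmm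
      · exact absurd (h8.symm.trans h6) hmm
      · exact h5.trans h7.symm
  have hbc : ∀ x, (b x).col = C.c x := by
    intro x
    rw [hcc]
    by_cases hxu : x = u
    · subst hxu
      rw [hbu', hs, hu]
    · by_cases hxv : x = v
      · subst hxv
        rw [hbv', hs', hv]
      · exact (hb x hxu hxv).1
  have hP' : Placed D M c (fun x => Sum.inl (b x)) C := by
    refine ⟨?_, ?_, ?_, ?_, ?_⟩
    · intro x o hx
      rw [← Sum.inl.inj hx]
      exact (hbc x).symm
    · intro x k hx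
      exact absurd hx (by simp)
    · intro x y o k hx hy
      exact absurd hy (by simp)
    · intro x y k k' hxy hx hy
      exact absurd hx (by simp)
    · intro x y k hx hy
      exact absurd hx (by simp)
  obtain ⟨B, hB, hMv, -⟩ := move_exN hM hc hg h q hA hP
  obtain ⟨m1, m2, m3, m4, m5⟩ := hMv
  have hsym : ∀ x y, x ≠ y → B.s x y = ψ (b x) (b y) (C.s x y) →
      B.s y x = ψ (b y) (b x) (C.s y x) := by
    intro x y hxy hE
    have h5 := hC x y hxy
    rw [(hB x y hxy).2.2, hE, h5.2.2, h.opp (b x) (b y) (C.s x y) (h5.1.trans (hbc x).symm)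
      (h5.2.1.trans (hbc y).symm)]
  have hUV : B.s u v = ψ (b u) (b v) (C.s u v) := by
    rw [hbu', hbv', h3]
    exact m5 u v m m' huv hqu hqv
  have hU : ∀ y, y ≠ u → y ≠ v → B.s u y = ψ (b u) (b y) (C.s u y) := by
    intro y h5 h6
    have h7 := hA u y (Ne.symm h5)
    rw [hbu', h1 y h5 h6, hl (b y) (A.s u y) (h7.1.trans hu) ((hb y h5 h6).1.trans h7.2.1.symm)
      ((hb y h5 h6).2.1.trans h7.2.2), (hB y u h5).2.2, m4 y u (b y) m (hqw y h5 h6) hqu]
  have hV : ∀ y, y ≠ u → y ≠ v → B.s v y = ψ (b v) (b y) (C.s v y) := by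
    intro y h5 h6
    have h7 := hA v y (Ne.symm h6)
    rw [hbv', h2 y h5 h6, hl' (b y) (A.s v y) (h7.1.trans hv) ((hb y h5 h6).1.trans h7.2.1.symm)
      ((hb y h5 h6).2.2.trans h7.2.2), (hB y v h6).2.2, m4 y v (b y) m' (hqw y h5 h6) hqv]
  have hW : ∀ x y, x ≠ y → x ≠ u → x ≠ v → y ≠ u → y ≠ v →
      B.s x y = ψ (b x) (b y) (C.s x y) := by
    intro x y hxy h5 h6 h7 h8
    rw [h4 x y hxy h5 h6 h7 h8]
    exact m3 x y (b x) (b y) hxy (hqw x h5 h6) (hqw y h7 h8)
  have hall : ∀ x y, x ≠ y → B.s x y = ψ (b x) (b y) (C.s x y) := by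
    intro x y hxy
    by_cases hxu : x = u
    · subst hxu
      by_cases hyv : y = v
      · subst hyv
        exact hUV
      · exact hU y (Ne.symm hxy) hyv
    · by_cases hxv : x = v
      · subst hxv
        by_cases hyu : y = u
        · subst hyu
          exact hsym y x (Ne.symm hxy) hUV
        · exact hV y hyu (Ne.symm hxy)
      · by_cases hyu : y = u
        · subst hyu
          exact hsym y x (Ne.symm hxy) (hU x hxu hxv)
        · by_cases hyv : y = v
          · subst hyv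
            exact hsym y x (Ne.symm hxy) (hV x hxu hxv)
          · exact hW x y hxy hxu hxv hyu hyv
  have hMv' : MovedN D M c g π μ ψ (fun x => Sum.inl (b x)) C B := by
    refine ⟨?_, ?_, ?_, ?_, ?_⟩
    · intro x o hx
      rw [← Sum.inl.inj hx]
      by_cases hxu : x = u
      · subst hxu
        rw [m2 x m hqu, const_col hM hG hns hnm hc hg h m, hbu', hs]
      · by_cases hxv : x = v
        · subst hxv
          rw [m2 x m' hqv, const_col hM hG hns hnm hc hg h m', hbv', hs']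
        · exact m1 x (b x) (hqw x hxu hxv)
    · intro x k hx
      exact absurd hx (by simp)
    · intro x y o o' hxy hx hy
      rw [← Sum.inl.inj hx, ← Sum.inl.inj hy]
      exact hall x y hxy
    · intro x y o k hx hy
      exact absurd hy (by simp)
    · intro x y k k' hxy hx hy
      exact absurd hx (by simp)
  exact two_movesN hM hG hc hg h q (fun x => Sum.inl (b x)) hA hC hB hP hP' ⟨m1, m2, m3, m4, m5⟩
    hMv'

end Pool.Agent.Lib.H3R
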