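import Pool.Agent.Lib.H3R.A4

/-! # G1: switching at all vertices -/

namespace Pool.Agent.Lib.H3R

open Equiv Function
open Pool.Agent.Lib.H3C (Cl FR Olig Sup pai pia)

/-- The type of the pair `u < v` after the switches at the vertices below `k`. -/
private def G1_F {I T : Type} (D : TD I T) {n : ℕ} (l : Fin n → T → T) (k : ℕ) (u v : Fin n)
    (e : T) : T :=
  if k ≤ (u : ℕ) then e else if k ≤ (v : ℕ) then l u e else D.opp (l v (D.opp (l u e)))

/-- The structure after the switches at the vertices below `k`. -/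
private def G1_A {I T : Type} (D : TD I T) {n : ℕ} (A : Str I T (Fin n)) (l : Fin n → T → T)
    (k : ℕ) : Str I T (Fin n) :=
  ⟨A.c, fun u v => if u < v then G1_F D l k u v (A.s u v) else D.opp (G1_F D l k v u (A.s v u))⟩

private theorem G1_lt {I T : Type} (D : TD I T) {n : ℕ} (A : Str I T (Fin n)) (l : Fin n → T → T)
    (k : ℕ) {u v : Fin n} (h : u < v) : (G1_A D A l k).s u v = G1_F D l k u v (A.s u v) := by
  simp [G1_A, h]

private theorem G1_gt {I T : Type} (D : TD I T) {n : ℕ} (A : Str I T (Fin n)) (l : Fin n → T → T)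
    (k : ℕ) {u v : Fin n} (h : v < u) :
    (G1_A D A l k).s u v = D.opp (G1_F D l k v u (A.s v u)) := by
  simp [G1_A, not_lt.2 h.le]

private theorem G1_step {I T : Type} (D : TD I T) {n : ℕ} (A : Str I T (Fin n))
    (l : Fin n → T → T) (k : ℕ) (hk : k < n) :
    Eqv (sw D (G1_A D A l k) ⟨k, hk⟩ (l ⟨k, hk⟩)) (G1_A D A l (k + 1)) := by
  refine ⟨fun _ => rfl, fun x y hxy => ?_⟩
  by_cases hx : x = ⟨k, hk⟩
  · subst hx
    unfold sw
    rw [rep_self_left]
    rcases lt_or_gt_of_ne hxy with h | h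
    · rw [G1_lt D A l k h, G1_lt D A l (k + 1) h]
      have h' : k < (y : ℕ) := h
      simp [G1_F, Nat.succ_le_of_lt h']
    · rw [G1_gt D A l k h, G1_gt D A l (k + 1) h]
      have h' : (y : ℕ) < k := h
      have h1 : ¬ k ≤ (y : ℕ) := not_le.2 h'
      have h2 : ¬ k + 1 ≤ (y : ℕ) := by omega
      simp [G1_F, h1, h2, D.opp_opp]
  · by_cases hy : y = ⟨k, hk⟩
    · subst hy
      unfold sw
      rw [rep_self_right _ _ _ _ hx]
      rcases lt_or_gt_of_ne hxy with h | h
      · rw [G1_gt D A l k h, G1_lt D A l (k + 1) h]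
        have h' : (x : ℕ) < k := h
        have h1 : ¬ k ≤ (x : ℕ) := not_le.2 h'
        have h2 : ¬ k + 1 ≤ (x : ℕ) := by omega
        simp [G1_F, h1, h2]
      · rw [G1_lt D A l k h, G1_gt D A l (k + 1) h]
        have h' : k < (x : ℕ) := h
        simp [G1_F, Nat.succ_le_of_lt h']
    · unfold sw
      rw [rep_other _ _ _ _ _ hx hy]
      have hx' : (x : ℕ) ≠ k := fun h => hx (Fin.ext h)
      have hy' : (y : ℕ) ≠ k := fun h => hy (Fin.ext h)
      have e1 : (k + 1 ≤ (x : ℕ)) = (k ≤ (x : ℕ)) := by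
        apply propext; omega
      have e2 : (k + 1 ≤ (y : ℕ)) = (k ≤ (y : ℕ)) := by
        apply propext; omega
      rcases lt_or_gt_of_ne hxy with h | h
      · rw [G1_lt D A l k h, G1_lt D A l (k + 1) h]
        simp only [G1_F, e1, e2]
      · rw [G1_gt D A l k h, G1_gt D A l (k + 1) h]
        simp only [G1_F, e1, e2]

/-- Switching at all vertices, in increasing order.

Proof. By induction on `k ≤ n`: let `A_k` be the structure with the colours of `A` and, for `u < v` with
`e = A.s u v`: `e` if `k ≤ u`, `l u e` if `u < k ≤ v`, `D.opp (l v (D.opp (l u e)))` if `v < k`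
(`D.opp` of it for `(v, u)`).  `Rel M G A A_k`: `A_0 = A` off the diagonal (`Rel.of_eqv`), and
`sw D A_k k (l k)` is `A_{k+1}` off the diagonal: for `u < k` the type of `(k, u)` in `A_k` is `D.opp (l u e)`, so that
of `(k, u)` becomes `l k (D.opp (l u e))`; for `k < v` the type of `(k, v)` in `A_k` is `e` and becomes `l k e`.
`A_k` is valid by `Rel.val_right hM.1`.  `B` is `A_n` off the diagonal. -/
theorem switch_all {I T V : Type} [Countable V] {D : TD I T} {M : Str I T V} (hM : Gen D M)
    {G : Subgroup (Perm V)} (hG : Au M ≤ G) (n : ℕ) (A B : Str I T (Fin n)) (hA : Val D A)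
    (hB : Val D B) (hc : ∀ u, B.c u = A.c u) (l : Fin n → T → T)
    (hl : ∀ u, IsSw D M G (A.c u) (l u))
    (hs : ∀ u v, u < v → B.s u v = D.opp (l v (D.opp (l u (A.s u v))))) : Rel M G A B := by
  have key : ∀ k, k ≤ n → Rel M G A (G1_A D A l k) := by
    intro k
    induction k with
    | zero =>
      intro _
      refine Rel.of_eqv hM hA ⟨fun _ => rfl, fun u v huv => ?_⟩
      rcases lt_or_gt_of_ne huv with h | h
      · rw [G1_lt D A l 0 h]
        simp [G1_F]
      · rw [G1_gt D A l 0 h]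
        simp only [G1_F, Nat.zero_le, if_true]
        exact (hA v u huv.symm).2.2
    | succ k ih =>
      intro hk
      have h1 := ih (Nat.le_of_succ_le hk)
      have h2 : Val D (G1_A D A l k) := h1.val_right hM.1
      have h3 := (hl ⟨k, hk⟩).2 (Fin n) (G1_A D A l k) ⟨k, hk⟩ h2 rfl
      exact h1.trans hM hG (h3.congr (Eqv.rfl' _) (G1_step D A l k hk))
  have h1 := key n le_rfl
  refine h1.congr (Eqv.rfl' _) ?_
  refine eqv_of_rank (h1.val_right hM.1) hB (fun u => (hc u).symm) (fun u => (u : ℕ))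
    Fin.val_injective fun u v huv => ?_
  have huv' : u < v := huv
  rw [G1_lt D A l n huv', hs u v huv']
  have h2 : ¬ n ≤ (u : ℕ) := not_le.2 u.2
  have h3 : ¬ n ≤ (v : ℕ) := not_le.2 v.2
  simp [G1_F, h2, h3]

end Pool.Agent.Lib.H3R
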