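import Pool.Agent.Lib.H3R.G2a

/-! # G2b: groups without exchangeable types and without merging operations -/

namespace Pool.Agent.Lib.H3R

open Equiv Function
open Pool.Agent.Lib.H3C (Cl FR Olig Sup pai pia)

/-- `G` is determined by its operations and switchings.

Proof. Let `g ∈ G`; `mem_of_rel` for `G'`: let `c : Fin n → V` be injective, and `π`, `ψ`, `l` from `exists_data`.
Let `B` be the structure on `Fin n` with the colours of `M.map c` and for `u < v` the types
`D.opp (l v (D.opp (l u (M.s (c u) (c v)))))` (`D.opp` of it for `(v, u)`); it is valid (`IsSw`).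
`switch_all` for `G'` (`hsw`) gives `Rel M G' (M.map c) B`; `hop` with `ρ u = u` gives
`Rel M G' B (opR D π ψ ρ B)`, and `opR D π ψ ρ B` is `M.map (g ∘ c)` off the diagonal. -/
theorem le_of_ops {I T V : Type} [Countable V] [Finite I] [Finite T] {D : TD I T}
    {M : Str I T V} (hM : Gen D M) {G G' : Subgroup (Perm V)} (hG : Au M ≤ G) (hns : NS D M G)
    (hnm : NM D M G) (hG' : Sg M G') (hop : ∀ β ψ, IsOp D M G β ψ → IsOp D M G' β ψ)
    (hsw : ∀ i l, IsSw D M G i l → IsSw D M G' i l) : G ≤ G' := by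
  intro g hg
  refine mem_of_rel hM hG' g (fun n c hc => ?_)
  obtain ⟨π, ψ, l, h1, h2, h3, h4⟩ := exists_data hM hG hns hnm n c hc hg
  have hgc : Injective (fun u => g (c u)) := fun u v huv => hc (g.injective huv)
  have haux : ∀ x y, x ≠ y → D.src (l y (D.opp (l x (M.s (c x) (c y))))) = M.c (c y) ∧
      D.tgt (l y (D.opp (l x (M.s (c x) (c y))))) = M.c (c x) := by
    intro x y hxy
    have h5 := hM.1 (c x) (c y) (fun h => hxy (hc h))
    have h6 := (h2 x).1 _ h5.1
    have h7 : D.src (D.opp (l x (M.s (c x) (c y)))) = M.c (c y) := by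
      rw [D.src_opp, h6.2, h5.2.1]
    have h8 := (h2 y).1 _ h7
    exact ⟨h8.1, by rw [h8.2, D.tgt_opp, h6.1]⟩
  obtain ⟨B, hBc, hB1, hB2⟩ : ∃ B : Str I T (Fin n), (∀ u, B.c u = M.c (c u)) ∧
      (∀ u v, u < v → B.s u v = D.opp (l v (D.opp (l u (M.s (c u) (c v)))))) ∧
      ∀ u v, v < u → B.s u v = l u (D.opp (l v (M.s (c v) (c u)))) :=
    ⟨⟨fun u => M.c (c u), fun u v => if u < v then D.opp (l v (D.opp (l u (M.s (c u) (c v)))))
      else l u (D.opp (l v (M.s (c v) (c u))))⟩, fun _ => rfl, fun u v huv => if_pos huv,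
      fun u v huv => if_neg (lt_asymm huv)⟩
  have hB : Val D B := by
    intro u v huv
    rw [hBc, hBc]
    rcases lt_or_gt_of_ne huv with h5 | h5
    · have h6 := haux u v huv
      rw [hB1 u v h5, hB2 v u h5, D.src_opp, D.tgt_opp, D.opp_opp]
      exact ⟨h6.2, h6.1, rfl⟩
    · have h6 := haux v u huv.symm
      rw [hB2 u v h5, hB1 v u h5]
      exact ⟨h6.1, h6.2, rfl⟩
  have hρ : Injective (fun u : Fin n => (u : ℕ)) := fun u v huv => Fin.ext huv
  have h5 : Rel M G' (M.map c) B := switch_all hM hG'.1 n (M.map c) B (hM.1.map c hc) hB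
    (fun u => hBc u) l (fun u => hsw _ _ (h2 u)) (fun u v huv => hB1 u v huv)
  have h6 : Rel M G' B (opR D π ψ (fun u : Fin n => (u : ℕ)) B) := hop π ψ h1 (Fin n) _ B hρ hB
  refine (h5.trans hM hG'.1 h6).congr (Eqv.rfl' _) ⟨fun u => ?_, fun u v huv => ?_⟩
  · show π (B.c u) = M.c (g (c u))
    rw [hBc, h3]
  · show (if (u : ℕ) < (v : ℕ) then ψ (B.s u v) else D.opp (ψ (B.s v u))) = M.s (g (c u)) (g (c v))
    rcases lt_or_gt_of_ne huv with h7 | h7
    · rw [if_pos (show (u : ℕ) < (v : ℕ) from h7), hB1 u v h7, h4 u v huv]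
    · rw [if_neg (show ¬ (u : ℕ) < (v : ℕ) from lt_asymm h7), hB1 v u h7, ← h4 v u huv.symm]
      exact ((hM.1 _ _ (fun h => huv (hgc h).symm)).2.2).symm

end Pool.Agent.Lib.H3R
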