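import Pool.Agent.Lib.H3R.G2b

/-! # G2c: groups without exchangeable types and without merging operations -/

namespace Pool.Agent.Lib.H3R

open Equiv Function
open Pool.Agent.Lib.H3C (Cl FR Olig Sup pai pia)

/-- **Case 3.**  There are finitely many closed groups above `Au M` without exchangeable types and without
merging operations.

Proof. The map `G ↦ ({(β, ψ) | IsOp D M G β ψ}, {(i, l) | IsSw D M G i l})` is injective on this set by
`le_of_ops` (both inclusions), and its values are pairs of sets of elements of finite types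
(`Set.Finite.of_injOn` or `Set.Finite.of_finite_image`). -/
theorem finite_three {I T V : Type} [Countable V] [Finite I] [Finite T] {D : TD I T}
    {M : Str I T V} (hM : Gen D M) :
    {G : Subgroup (Perm V) | Sg M G ∧ NS D M G ∧ NM D M G}.Finite := by
  refine Set.Finite.of_finite_image
    (f := fun G : Subgroup (Perm V) =>
      (({p : (I → I) × (T → T) | IsOp D M G p.1 p.2} : Set ((I → I) × (T → T))),
        ({p : I × (T → T) | IsSw D M G p.1 p.2} : Set (I × (T → T))))) ?_ ?_
  · exact Set.toFinite _
  · intro G hG G' hG' hGG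
    have h1 : ({p : (I → I) × (T → T) | IsOp D M G p.1 p.2} : Set ((I → I) × (T → T))) =
        {p | IsOp D M G' p.1 p.2} := congrArg Prod.fst hGG
    have h2 : ({p : I × (T → T) | IsSw D M G p.1 p.2} : Set (I × (T → T))) =
        {p | IsSw D M G' p.1 p.2} := congrArg Prod.snd hGG
    have e1 : ∀ β ψ, IsOp D M G β ψ ↔ IsOp D M G' β ψ := fun β ψ =>
      iff_of_eq (congrFun h1 (β, ψ))
    have e2 : ∀ i l, IsSw D M G i l ↔ IsSw D M G' i l := fun i l =>
      iff_of_eq (congrFun h2 (i, l))
    exact le_antisymm
      (le_of_ops hM hG.1.1 hG.2.1 hG.2.2 hG'.1 (fun β ψ => (e1 β ψ).1) (fun i l => (e2 i l).1))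
      (le_of_ops hM hG'.1.1 hG'.2.1 hG'.2.2 hG.1 (fun β ψ => (e1 β ψ).2) (fun i l => (e2 i l).2))

end Pool.Agent.Lib.H3R
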