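import Pool.Agent.Lib.H3R.G2a
import Pool.Agent.Lib.H3R.G2b
import Pool.Agent.Lib.H3R.G2c

/-! # G2 (all parts): groups without exchangeable types and without merging operations -/
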