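import Pool.Agent.Lib.H3R.F4
import Pool.Agent.Lib.H3R.G1

/-! # G2a: groups without exchangeable types and without merging operations -/

namespace Pool.Agent.Lib.H3R

open Equiv Function
open Pool.Agent.Lib.H3C (Cl FR Olig Sup pai pia)

/-- Nice data for `g` and all the points of a finite injective sequence, as needed in `le_of_ops`.

Proof. `exists_nice` gives `π`, `μ`, `ψ`; let `σ` be a section (`exists_orb`); `exists_sw` for every `m` with
`s₀ = σ (M.c (c m))` gives `l m`; `β = π` and the operation `ψ' a = ψ (σ (D.src a)) (σ (D.tgt a)) a` of `sec_op`;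
`const_col`, `two_const` (with `D.src`, `D.tgt` of `D.opp (l m' (D.opp (l m e)))`, which are `M.c (c m)`,
`M.c (c m')` by `IsSw`). -/
theorem exists_data {I T V : Type} [Countable V] [Finite I] [Finite T] {D : TD I T}
    {M : Str I T V} (hM : Gen D M) {G : Subgroup (Perm V)} (hG : Au M ≤ G) (hns : NS D M G)
    (hnm : NM D M G) (n : ℕ) (c : Fin n → V) (hc : Injective c) {g : Perm V} (hg : g ∈ G) :
    ∃ (π : I → I) (ψ : T → T) (l : Fin n → T → T), IsOp D M G π ψ ∧
      (∀ m, IsSw D M G (M.c (c m)) (l m)) ∧ (∀ m, M.c (g (c m)) = π (M.c (c m))) ∧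
      ∀ m m', m ≠ m' → M.s (g (c m)) (g (c m')) =
        ψ (D.opp (l m' (D.opp (l m (M.s (c m) (c m')))))) := by
  classical
  obtain ⟨π, μ, ψ, hN⟩ := exists_nice hM hG hns hnm c hc hg
  choose σ hσ using fun i : I => exists_orb D M c i
  choose l hl1 hl2 using fun m : Fin n =>
    exists_sw hM hG hns hnm hc hg hN m (σ (M.c (c m))) (hσ _)
  have hop := sec_op hM hc hg hN.cd σ hσ
  have hπ : (fun i => π (σ i).col) = π := by
    funext i
    rw [hσ]
  rw [hπ] at hop
  refine ⟨π, fun a => ψ (σ (D.src a)) (σ (D.tgt a)) a, l, hop, hl1,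
    fun m => const_col hM hG hns hnm hc hg hN m, fun m m' hmm => ?_⟩
  have h1 := two_const hM hG hns hnm hc hg hN m m' hmm (σ (M.c (c m))) (σ (M.c (c m'))) (hσ _) (hσ _)
    (l m) (l m') (hl1 m) (hl1 m') (hl2 m) (hl2 m')
  have h2 := hM.1 (c m) (c m') (fun h => hmm (hc h))
  have h3 := (hl1 m).1 (M.s (c m) (c m')) h2.1
  have h4 := (hl1 m').1 (D.opp (l m (M.s (c m) (c m')))) (by rw [D.src_opp, h3.2, h2.2.1])
  have h5 : D.src (D.opp (l m' (D.opp (l m (M.s (c m) (c m')))))) = M.c (c m) := by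
    rw [D.src_opp, h4.2, D.tgt_opp, h3.1]
  have h6 : D.tgt (D.opp (l m' (D.opp (l m (M.s (c m) (c m')))))) = M.c (c m') := by
    rw [D.tgt_opp, h4.1]
  simp only [h5, h6]
  exact h1

end Pool.Agent.Lib.H3R
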