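import Pool.Agent.Lib.H3R.H1a

/-! # H1b: exchangeable types -/

namespace Pool.Agent.Lib.H3R

open Equiv Function
open Pool.Agent.Lib.H3C (Cl FR Olig Sup pai pia)

variable {I T V : Type} {D : TD I T} {M : Str I T V} {G : Subgroup (Perm V)}

/-- Structures with exchangeable types are related.

Proof. By induction on a finite set `S` of pairs `(u, v)`, `u ≠ v` (`Finset.induction_on`; at the end all
pairs): there is `C`, valid, with `Rel M G A C`, `C.c = A.c`, `C.s u v = B.s u v` for `(u, v) ∈ S` or
`(v, u) ∈ S`, `C.s u v = A.s u v` for the other pairs `u ≠ v`.  Step: for a new pair `(u, v)` with `C.s u v` equal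
to `A.s u v` apply `h u v` to `C`: `chg D C u v (B.s u v)`. -/
theorem rel_of_apx [Countable V] (hM : Gen D M) (hG : Au M ≤ G) {ι : Type} [Finite ι]
    {A B : Str I T ι} (hA : Val D A) (hB : Val D B) (hc : ∀ u, A.c u = B.c u)
    (h : ∀ u v, u ≠ v → Apx D M G (A.s u v) (B.s u v)) : Rel M G A B := by
  classical
  have _ := Fintype.ofFinite ι
  have key : ∀ S : Finset (ι × ι), (∀ p ∈ S, p.1 ≠ p.2) → ∃ C : Str I T ι, Rel M G A C ∧
      (∀ u, C.c u = A.c u) ∧
      (∀ u v, u ≠ v → ((u, v) ∈ S ∨ (v, u) ∈ S) → C.s u v = B.s u v) ∧
      ∀ u v, u ≠ v → (u, v) ∉ S → (v, u) ∉ S → C.s u v = A.s u v := by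
    intro S
    induction S using Finset.induction_on with
    | empty =>
      intro _
      refine ⟨A, Rel.refl hM hA, fun _ => rfl, fun u v _ h1 => ?_, fun _ _ _ _ _ => rfl⟩
      simp at h1
    | insert p S hp ih =>
      intro hS
      obtain ⟨C, h1, h2, h3, h4⟩ := ih fun q hq => hS q (Finset.mem_insert_of_mem hq)
      obtain ⟨u, v⟩ := p
      have huv : u ≠ v := hS (u, v) (Finset.mem_insert_self _ _)
      by_cases h5 : (v, u) ∈ S
      · refine ⟨C, h1, h2, fun x y hxy h6 => ?_, fun x y hxy h6 h7 => ?_⟩
        · apply h3 x y hxy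
          rcases h6 with h6 | h6
          · rcases Finset.mem_insert.1 h6 with h7 | h7
            · rw [Prod.mk.injEq] at h7
              rw [h7.1, h7.2]
              exact Or.inr h5
            · exact Or.inl h7
          · rcases Finset.mem_insert.1 h6 with h7 | h7
            · rw [Prod.mk.injEq] at h7
              rw [h7.1, h7.2]
              exact Or.inl h5
            · exact Or.inr h7
        · exact h4 x y hxy (fun h8 => h6 (Finset.mem_insert_of_mem h8))
            (fun h8 => h7 (Finset.mem_insert_of_mem h8))
      · have hC : Val D C := h1.val_right hM.1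
        have h6 : C.s u v = A.s u v := h4 u v huv hp h5
        have h7 := (h u v huv).2.2 ι C u v hC huv h6
        refine ⟨chg D C u v (B.s u v), h1.trans hM hG h7, h2, fun x y hxy h8 => ?_,
          fun x y hxy h8 h9 => ?_⟩
        · by_cases h10 : x = u ∧ y = v
          · rw [h10.1, h10.2, chg_left]
          · by_cases h11 : x = v ∧ y = u
            · rw [h11.1, h11.2, chg_right _ _ _ _ huv]
              exact ((hB u v huv).2.2).symm
            · rw [chg_other _ _ _ _ _ _ h10 h11]
              apply h3 x y hxy
              rcases h8 with h8 | h8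
              · rcases Finset.mem_insert.1 h8 with h12 | h12
                · rw [Prod.mk.injEq] at h12
                  exact absurd h12 h10
                · exact Or.inl h12
              · rcases Finset.mem_insert.1 h8 with h12 | h12
                · rw [Prod.mk.injEq] at h12
                  exact absurd ⟨h12.2, h12.1⟩ h11
                · exact Or.inr h12
        · have h10 : ¬ (x = u ∧ y = v) := fun h12 => h8 (by
            rw [h12.1, h12.2]
            exact Finset.mem_insert_self _ _)
          have h11 : ¬ (x = v ∧ y = u) := fun h12 => h9 (by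
            rw [h12.1, h12.2]
            exact Finset.mem_insert_self _ _)
          rw [chg_other _ _ _ _ _ _ h10 h11]
          exact h4 x y hxy (fun h12 => h8 (Finset.mem_insert_of_mem h12))
            (fun h12 => h9 (Finset.mem_insert_of_mem h12))
  obtain ⟨C, h1, h2, h3, -⟩ := key (Finset.univ.filter fun p : ι × ι => p.1 ≠ p.2)
    fun p hp => (Finset.mem_filter.1 hp).2
  refine h1.congr (Eqv.rfl' _) ⟨fun u => (h2 u).trans (hc u), fun u v huv => ?_⟩
  exact h3 u v huv (Or.inl (Finset.mem_filter.2 ⟨Finset.mem_univ _, huv⟩))

end Pool.Agent.Lib.H3R
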