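import Pool.Agent.Lib.H3R.H1a
import Pool.Agent.Lib.H3R.H1b

/-! # H1 (all parts): exchangeable types -/
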