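import Pool.Agent.Lib.H3R.A4

/-! # H1a: exchangeable types -/

namespace Pool.Agent.Lib.H3R

open Equiv Function
open Pool.Agent.Lib.H3C (Cl FR Olig Sup pai pia)

variable {I T V : Type} {D : TD I T} {M : Str I T V} {G : Subgroup (Perm V)}

/-- Proof. `chg_self` and `Rel.of_eqv`. -/
theorem Apx.refl (hM : Gen D M) (a : T) : Apx D M G a a := by
  refine ⟨rfl, rfl, fun ι _ A u v hA huv h => ?_⟩
  have h1 := (chg_self hA u v huv).symm
  rw [h] at h1
  exact Rel.of_eqv hM hA h1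

/-- Proof. Let `A.s u v = b`.  `A' = chg D A u v a` is valid (`val_chg`) and `A'.s u v = a`, so
`Rel M G A' (chg D A' u v b)`, and `chg D A' u v b` is `A` off the diagonal (`chg_chg`, `chg_self`);
`Rel.symm`. -/
theorem Apx.symm (hM : Gen D M) {a b : T} (h : Apx D M G a b) : Apx D M G b a := by
  refine ⟨h.1.symm, h.2.1.symm, fun ι _ A u v hA huv hb => ?_⟩
  have hv : Val D (chg D A u v a) := val_chg hA huv
    (by rw [h.1, ← hb]; exact (hA u v huv).1) (by rw [h.2.1, ← hb]; exact (hA u v huv).2.1)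
  have h1 := h.2.2 ι (chg D A u v a) u v hv huv (chg_left _ _ _ _)
  have h2 := chg_self hA u v huv
  rw [hb] at h2
  exact (h1.congr (Eqv.rfl' _) ((chg_chg A u v a b).trans h2)).symm

/-- Proof. `Rel M G A (chg D A u v b)` and `Rel M G (chg D A u v b) (chg D (chg D A u v b) u v d)`,
`chg_chg`. -/
theorem Apx.trans [Countable V] (hM : Gen D M) (hG : Au M ≤ G) {a b d : T} (h : Apx D M G a b)
    (h' : Apx D M G b d) : Apx D M G a d := by
  refine ⟨h.1.trans h'.1, h.2.1.trans h'.2.1, fun ι _ A u v hA huv ha => ?_⟩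
  have hv : Val D (chg D A u v b) := val_chg hA huv
    (by rw [← h.1, ← ha]; exact (hA u v huv).1) (by rw [← h.2.1, ← ha]; exact (hA u v huv).2.1)
  have h1 := h.2.2 ι A u v hA huv ha
  have h2 := h'.2.2 ι (chg D A u v b) u v hv huv (chg_left _ _ _ _)
  exact (h1.trans hM hG h2).congr (Eqv.rfl' _) (chg_chg A u v b d)

/-- Proof. If `A.s u v = D.opp a` then `A.s v u = a`, and `chg D A v u b`, `chg D A u v (D.opp b)` agree. -/
theorem Apx.opp {a b : T} (h : Apx D M G a b) : Apx D M G (D.opp a) (D.opp b) := by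
  refine ⟨by rw [D.src_opp, D.src_opp, h.2.1], by rw [D.tgt_opp, D.tgt_opp, h.1],
    fun ι _ A u v hA huv ha => ?_⟩
  have h1 : A.s v u = a := by rw [(hA u v huv).2.2, ha, D.opp_opp]
  have h2 := h.2.2 ι A v u hA huv.symm h1
  refine h2.congr (Eqv.rfl' _) ⟨fun _ => rfl, fun x y hxy => ?_⟩
  by_cases h3 : x = u ∧ y = v
  · obtain ⟨rfl, rfl⟩ := h3
    rw [chg_left, chg_right _ _ _ _ hxy.symm]
  · by_cases h4 : x = v ∧ y = u
    · obtain ⟨rfl, rfl⟩ := h4
      rw [chg_left, chg_right _ _ _ _ hxy.symm, D.opp_opp]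
    · rw [chg_other _ _ _ _ _ _ h4 h3, chg_other _ _ _ _ _ _ h3 h4]

end Pool.Agent.Lib.H3R
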