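import Pool.Agent.Lib.H3R.H2a

/-! # H2b: identifying types -/

namespace Pool.Agent.Lib.H3R

open Equiv Function
open Pool.Agent.Lib.H3C (Cl FR Olig Sup pai pia)

/-- If the identified types are exchangeable then `G` contains the automorphism group.

Proof. Let `σ ∈ Au (quoM M S)`; `mem_of_rel`: for `a : Fin n → V` injective, `rel_of_apx` for `M.map a` and
`M.map (σ ∘ a)`: the colours are equal, and the types of a pair `u ≠ v` are equivalent under `S`
(`Quotient.exact`). -/
theorem au_quo_le {I T V : Type} [Countable V] {D : TD I T} {M : Str I T V} (hM : Gen D M)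
    {G : Subgroup (Perm V)} (hG : Sg M G) (S : Setoid T)
    (h : ∀ a b, S.r a b → Apx D M G a b) : Au (quoM M S) ≤ G := by
  intro σ hσ
  refine mem_of_rel hM hG σ fun n a ha => ?_
  have ha' : Injective fun u => σ (a u) := fun u v huv => ha (σ.injective huv)
  refine rel_of_apx hM hG.1 (hM.1.map a ha) (hM.1.map _ ha') (fun u => (hσ.1 (a u)).symm)
    fun u v huv => h _ _ ?_
  exact Quotient.exact (hσ.2 (a u) (a v) (fun h1 => huv (ha h1))).symm

end Pool.Agent.Lib.H3R
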