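import Pool.Agent.Lib.H3R.H2b

/-! # H2c: identifying types -/

namespace Pool.Agent.Lib.H3R

open Equiv Function
open Pool.Agent.Lib.H3C (Cl FR Olig Sup pai pia)

/-- **Case 1.**  Finitely many closed groups above `Au M` have exchangeable types, by the induction
hypothesis.

Proof. Every such `G` gives the equivalence relation `S` with `S.r a b ↔ Apx D M G a b` (`Apx.refl`,
`Apx.symm`, `Apx.trans`; `Cong` by `Apx.opp`), which is not the identity, so
`Nat.card (Quotient S) < Nat.card T` (`Quotient.mk` is surjective and not injective), and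
`G` is in the finite set `{G | Au (quoM M S) ≤ G ∧ Cl G}` (`au_quo_le`, `ih` with `gen_quo`).  The union over
the finitely many `S : Setoid T` (`Set.finite_iUnion`; `Setoid T` is finite as `S ↦ S.r` is injective to
`T → T → Prop`) of these sets, for the `S` with `Cong D S` and `Nat.card (Quotient S) < Nat.card T`, is finite. -/
theorem finite_one {I T V : Type} [Countable V] [Finite I] [Finite T] {D : TD I T}
    {M : Str I T V} (hM : Gen D M)
    (ih : ∀ (S : Setoid T) (hS : Cong D S), Nat.card (Quotient S) < Nat.card T →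
      FR (Au (quoM M S))) :
    {G : Subgroup (Perm V) | Sg M G ∧ ¬ NS D M G}.Finite := by
  have : Finite (Setoid T) := Finite.of_injective (fun (S : Setoid T) => fun a b => S.r a b)
    (fun S S' h => Setoid.ext (fun a b => iff_of_eq (congrFun (congrFun h a) b)))
  have hsub : {G : Subgroup (Perm V) | Sg M G ∧ ¬ NS D M G} ⊆
      ⋃ S : Setoid T, {G : Subgroup (Perm V) |
        (Cong D S ∧ Nat.card (Quotient S) < Nat.card T) ∧ Au (quoM M S) ≤ G ∧ Cl G} := by
    rintro G ⟨hG, hns⟩
    unfold NS at hns
    push Not at hns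
    obtain ⟨a, b, hab, hne⟩ := hns
    rw [Set.mem_iUnion]
    have hS : Cong D (⟨fun a b => Apx D M G a b, ⟨fun a => Apx.refl hM a, fun h => Apx.symm hM h,
        fun h h' => Apx.trans hM hG.1 h h'⟩⟩ : Setoid T) := by
      intro a b h
      exact ⟨h.1, h.2.1, Apx.opp h⟩
    refine ⟨⟨fun a b => Apx D M G a b, ⟨fun a => Apx.refl hM a, fun h => Apx.symm hM h,
        fun h h' => Apx.trans hM hG.1 h h'⟩⟩, ⟨hS, ?_⟩, ?_, hG.2⟩
    · have := Fintype.ofFinite T
      have := Fintype.ofFinite (Quotient (⟨fun a b => Apx D M G a b, ⟨fun a => Apx.refl hM a,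
        fun h => Apx.symm hM h, fun h h' => Apx.trans hM hG.1 h h'⟩⟩ : Setoid T))
      rw [Nat.card_eq_fintype_card, Nat.card_eq_fintype_card]
      refine Fintype.card_lt_of_surjective_not_injective (Quotient.mk _) Quotient.mk_surjective ?_
      intro hinj
      exact hne (hinj (Quotient.sound hab))
    · exact au_quo_le hM hG _ (fun a b h => h)
  refine Set.Finite.subset (Set.finite_iUnion fun S => ?_) hsub
  by_cases hS : Cong D S ∧ Nat.card (Quotient S) < Nat.card T
  · exact (ih S hS.1 hS.2).subset (fun G hG => hG.2)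
  · have h0 : {G : Subgroup (Perm V) |
        (Cong D S ∧ Nat.card (Quotient S) < Nat.card T) ∧ Au (quoM M S) ≤ G ∧ Cl G} = ∅ := by
      ext G
      simp only [Set.mem_ofPred_eq, Set.mem_empty_iff_false, iff_false]
      exact fun h => hS h.1
    rw [h0]
    exact Set.finite_empty

end Pool.Agent.Lib.H3R
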