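import Pool.Agent.Lib.H3R.H2a
import Pool.Agent.Lib.H3R.H2b
import Pool.Agent.Lib.H3R.H2c

/-! # H2 (all parts): identifying types -/
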