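import Pool.Agent.Lib.H3R.H1

/-! # H2a: identifying types -/

namespace Pool.Agent.Lib.H3R

open Equiv Function
open Pool.Agent.Lib.H3C (Cl FR Olig Sup pai pia)

/-- The equivalence relation `S` on the types is compatible with the type data. -/
def Cong {I T : Type} (D : TD I T) (S : Setoid T) : Prop :=
  ∀ a b, S.r a b → D.src a = D.src b ∧ D.tgt a = D.tgt b ∧ S.r (D.opp a) (D.opp b)

/-- The type data with the types identified. -/
def quoTD {I T : Type} (D : TD I T) (S : Setoid T) (hS : Cong D S) : TD I (Quotient S) where
  src := Quotient.lift D.src (fun a b h => (hS a b h).1)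
  tgt := Quotient.lift D.tgt (fun a b h => (hS a b h).2.1)
  opp := Quotient.map D.opp (fun a b h => (hS a b h).2.2)
  opp_opp := by
    intro a
    induction a using Quotient.inductionOn with
    | h a => exact congrArg _ (D.opp_opp a)
  src_opp := by
    intro a
    induction a using Quotient.inductionOn with
    | h a => exact D.src_opp a
  ex := by
    intro i j
    obtain ⟨a, h1, h2⟩ := D.ex i j
    exact ⟨Quotient.mk S a, h1, h2⟩

/-- The structure with the types identified. -/
def quoM {I T V : Type} (M : Str I T V) (S : Setoid T) : Str I (Quotient S) V :=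
  ⟨M.c, fun u v => Quotient.mk S (M.s u v)⟩

/-- Proof. Validity is clear.  Extension property: given `τ : V → Quotient S`, apply `hM.2` to
`fun v => (τ v).out`. -/
theorem gen_quo {I T V : Type} {D : TD I T} {M : Str I T V} (hM : Gen D M) (S : Setoid T)
    (hS : Cong D S) : Gen (quoTD D S hS) (quoM M S) := by
  refine ⟨fun u v huv => ?_, fun F i τ hτ => ?_⟩
  · obtain ⟨h1, h2, h3⟩ := hM.1 u v huv
    refine ⟨h1, h2, ?_⟩
    show Quotient.mk S (M.s v u) = Quotient.mk S (D.opp (M.s u v))
    rw [h3]
  · obtain ⟨w, hw, h1, h2⟩ := hM.2 F i (fun v => (τ v).out) (fun v hv => by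
      have h := hτ v hv
      rw [← Quotient.out_eq (τ v)] at h
      exact h)
    refine ⟨w, hw, h1, fun v hv => ?_⟩
    show Quotient.mk S (M.s w v) = τ v
    rw [h2 v hv]
    exact Quotient.out_eq _

end Pool.Agent.Lib.H3R
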