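import Pool.Agent.Lib.H3R.J1a

/-! # J1b: idempotent operations -/

namespace Pool.Agent.Lib.H3R

open Equiv Function
open Pool.Agent.Lib.H3C (Cl FR Olig Sup pai pia)

/-- An operation which merges colours has an idempotent power which merges colours.

Proof. `β^[n]`, `ψ^[n]` is an operation for every `n` (induction, `op_id`, `op_comp`).  Apply
`exists_idem_iter` to `Sum.map β ψ : I ⊕ T → I ⊕ T` (its iterates are `Sum.map β^[n] ψ^[n]`).
`β^[n]` is not injective: otherwise `β` is (`n > 0`, `β^[n] = β^[n-1] ∘ β`). -/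
theorem exists_idem_op {I T V : Type} [Countable V] [Finite I] [Finite T] {D : TD I T}
    {M : Str I T V} (hM : Gen D M) {G : Subgroup (Perm V)} (hG : Au M ≤ G) {β : I → I}
    {ψ : T → T} (h : IsOp D M G β ψ) (hβ : ¬ Injective β) :
    ∃ (β' : I → I) (ψ' : T → T), IsOp D M G β' ψ' ∧ ¬ Injective β' ∧
      (∀ i, β' (β' i) = β' i) ∧ ∀ a, ψ' (ψ' a) = ψ' a := by
  have hit : ∀ n : ℕ, IsOp D M G (β^[n]) (ψ^[n]) := by
    intro n
    induction n with
    | zero => exact op_id hM
    | succ n ih =>
      have h1 := op_comp hM hG h ih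
      exact h1
  obtain ⟨n, hn, hidem⟩ := exists_idem_iter (X := I ⊕ T) (Sum.map β ψ)
  have hmap : ∀ m : ℕ, (Sum.map β ψ)^[m] = Sum.map (β^[m]) (ψ^[m]) := by
    intro m
    induction m with
    | zero =>
      funext x
      rcases x with x | x <;> rfl
    | succ m ih =>
      funext x
      rw [Function.iterate_succ_apply, ih]
      rcases x with x | x <;> rfl
  refine ⟨β^[n], ψ^[n], hit n, ?_, ?_, ?_⟩
  · intro hinj
    apply hβ
    obtain ⟨m, rfl⟩ : ∃ m, n = m + 1 := ⟨n - 1, by omega⟩
    intro i j hij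
    apply hinj
    rw [Function.iterate_succ_apply, Function.iterate_succ_apply, hij]
  · intro i
    have h1 := hidem (Sum.inl i)
    rw [hmap] at h1
    exact Sum.inl.inj h1
  · intro a
    have h1 := hidem (Sum.inr a)
    rw [hmap] at h1
    exact Sum.inr.inj h1

end Pool.Agent.Lib.H3R
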