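import Pool.Agent.Lib.H3R.J1b

/-! # J1c: idempotent operations -/

namespace Pool.Agent.Lib.H3R

open Equiv Function
open Pool.Agent.Lib.H3C (Cl FR Olig Sup pai pia)

/-- An idempotent operation is the identity on the types between fixed colours.

Proof. `op_inj` for `ψ a` and `a`: `D.src (ψ a) = β (D.src a) = D.src a` (`op_src`), same for the target, and
`ψ (ψ a) = ψ a`. -/
theorem idem_id {I T V : Type} [Countable V] {D : TD I T}
    {M : Str I T V} (hM : Gen D M) {G : Subgroup (Perm V)} (hG : Au M ≤ G) (hns : NS D M G)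
    {β : I → I} {ψ : T → T} (h : IsOp D M G β ψ) (hψ : ∀ a, ψ (ψ a) = ψ a) (a : T)
    (h1 : β (D.src a) = D.src a) (h2 : β (D.tgt a) = D.tgt a) : ψ a = a := by
  obtain ⟨h3, h4⟩ := op_src hM h a
  exact op_inj hM hG hns h (h3.trans h1) (h4.trans h2) (hψ a)

end Pool.Agent.Lib.H3R
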