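import Pool.Agent.Lib.H3R.J1a
import Pool.Agent.Lib.H3R.J1b
import Pool.Agent.Lib.H3R.J1c

/-! # J1 (all parts): idempotent operations -/
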