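import Pool.Agent.Lib.H3R.D1

/-! # J1a: idempotent operations -/

namespace Pool.Agent.Lib.H3R

open Equiv Function
open Pool.Agent.Lib.H3C (Cl FR Olig Sup pai pia)

/-- Proof. `X → X` is finite and `k ↦ f^[k]` is a map from `ℕ`, so `f^[i] = f^[i + p]` with `p > 0`
(`Finite.exists_ne_map_eq_of_infinite`); then `f^[k + p] = f^[k]` for `k ≥ i`, and `f^[k + q * p] = f^[k]`.
Take `n = (i + 1) * p`: `n ≥ i`, so `f^[n + n] = f^[n]`. -/
theorem exists_idem_iter {X : Type} [Finite X] (f : X → X) :
    ∃ n, 0 < n ∧ ∀ x, f^[n] (f^[n] x) = f^[n] x := by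
  obtain ⟨a, b, hab, he⟩ := Finite.exists_ne_map_eq_of_infinite (fun k : ℕ => f^[k])
  obtain ⟨i, p, hp, hip⟩ : ∃ i p : ℕ, 0 < p ∧ f^[i] = f^[i + p] := by
    rcases lt_or_gt_of_ne hab with h | h
    · exact ⟨a, b - a, by omega, by
        have h1 : a + (b - a) = b := by omega
        rw [h1]; exact he⟩
    · exact ⟨b, a - b, by omega, by
        have h1 : b + (a - b) = a := by omega
        rw [h1]; exact he.symm⟩
  have h1 : ∀ k, i ≤ k → f^[k + p] = f^[k] := by
    intro k hk
    obtain ⟨t, rfl⟩ := Nat.exists_eq_add_of_le hk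
    have h2 : i + t + p = t + (i + p) := by omega
    have h3 : i + t = t + i := by omega
    rw [h2, h3, Function.iterate_add f t (i + p), Function.iterate_add f t i, hip]
  have h2 : ∀ q k, i ≤ k → f^[k + q * p] = f^[k] := by
    intro q
    induction q with
    | zero => intro k _; simp
    | succ q ih =>
      intro k hk
      have h3 : k + (q + 1) * p = (k + q * p) + p := by ring
      rw [h3, h1 (k + q * p) (by omega), ih k hk]
  refine ⟨(i + 1) * p, Nat.mul_pos (by omega) hp, ?_⟩
  have h3 : i ≤ (i + 1) * p := by nlinarith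
  intro x
  have h4 := h2 (i + 1) ((i + 1) * p) h3
  rw [Function.iterate_add] at h4
  exact congrFun h4 x

end Pool.Agent.Lib.H3R
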