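import Pool.Agent.Lib.H3R.J2a

/-! # J2b: the structure on some of the colours -/

namespace Pool.Agent.Lib.H3R

open Equiv Function
open Pool.Agent.Lib.H3C (Cl FR Olig Sup pai pia)

/-- The permutations of the points with `p` all whose finite parts are parts of elements of `G`. -/
def GJ {V : Type} (G : Subgroup (Perm V)) (p : V → Prop) : Subgroup (Perm (Subtype p)) where
  carrier := {σ | ∀ F : Finset (Subtype p), ∃ g ∈ G, ∀ x ∈ F, g (x : V) = (σ x : V)}
  mul_mem' := by
    classical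
    intro σ τ hσ hτ F
    obtain ⟨g, hg, h1⟩ := hτ F
    obtain ⟨g', hg', h2⟩ := hσ (F.image τ)
    refine ⟨g' * g, G.mul_mem hg' hg, fun x hx => ?_⟩
    rw [Perm.mul_apply, Perm.mul_apply, h1 x hx, h2 _ (Finset.mem_image_of_mem τ hx)]
  one_mem' := fun _ => ⟨1, G.one_mem, fun _ _ => rfl⟩
  inv_mem' := by
    classical
    intro σ hσ F
    obtain ⟨g, hg, h1⟩ := hσ (F.image (fun x => σ⁻¹ x))
    refine ⟨g⁻¹, G.inv_mem hg, fun x hx => ?_⟩
    have h2 := h1 _ (Finset.mem_image_of_mem (fun x => σ⁻¹ x) hx)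
    rw [pai] at h2
    rw [← h2, pia]

/-- Proof. Compare with an element of `GJ G p` which agrees with `σ` on `F`. -/
theorem cl_GJ {V : Type} (G : Subgroup (Perm V)) (p : V → Prop) : Cl (GJ G p) := by
  intro σ hσ F
  obtain ⟨τ, hτ, h1⟩ := hσ F
  obtain ⟨g, hg, h2⟩ := hτ F
  exact ⟨g, hg, fun x hx => by rw [h2 x hx, h1 x hx]⟩

/-- Proof. Let `σ ∈ Au (subM D M J)` and `F` finite; `homog` for `ι = F`, `a` the inclusion, `b x = σ x` gives an
element of `Au M ≤ G` which agrees with `σ` on `F`. -/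
theorem au_le_GJ {I T V : Type} [Countable V] {D : TD I T} {M : Str I T V} (hM : Gen D M)
    {G : Subgroup (Perm V)} (hG : Au M ≤ G) (J : Set I) :
    Au (subM D M J) ≤ GJ G (fun v => M.c v ∈ J) := by
  intro σ hσ F
  have hinj : Injective (fun x : F => ((x : {v : V // M.c v ∈ J}) : V)) := fun x y hxy =>
    Subtype.ext (Subtype.ext hxy)
  have hinj' : Injective (fun x : F => ((σ (x : {v : V // M.c v ∈ J}) : {v : V // M.c v ∈ J}) : V)) :=
    fun x y hxy => Subtype.ext (σ.injective (Subtype.ext hxy))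
  obtain ⟨g, hg, h1⟩ := homog hM (fun x : F => ((x : {v : V // M.c v ∈ J}) : V))
    (fun x : F => ((σ (x : {v : V // M.c v ∈ J}) : {v : V // M.c v ∈ J}) : V)) hinj hinj' (by
      refine ⟨fun x => ?_, fun x y hxy => ?_⟩
      · have h2 := congrArg Subtype.val (hσ.1 (x : {v : V // M.c v ∈ J}))
        exact h2.symm
      · have hne : (x : {v : V // M.c v ∈ J}) ≠ (y : {v : V // M.c v ∈ J}) := fun h3 =>
          hxy (Subtype.ext h3)
        have hne' : σ (x : {v : V // M.c v ∈ J}) ≠ σ (y : {v : V // M.c v ∈ J}) := fun h3 =>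
          hne (σ.injective h3)
        have h2 := congrArg Subtype.val (hσ.2 (x : {v : V // M.c v ∈ J}) y hne)
        rw [subM_s hM.1 J _ _ hne, subM_s hM.1 J _ _ hne'] at h2
        exact h2.symm)
  exact ⟨g, hG hg, fun x hx => h1 ⟨x, hx⟩⟩

end Pool.Agent.Lib.H3R
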