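import Pool.Agent.Lib.H3R.J2a
import Pool.Agent.Lib.H3R.J2b

/-! # J2 (all parts): the structure on some of the colours -/
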