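import Pool.Agent.Lib.H3R.A3

/-! # J2a: the structure on some of the colours -/

namespace Pool.Agent.Lib.H3R

open Equiv Function
open Pool.Agent.Lib.H3C (Cl FR Olig Sup pai pia)

/-- The type data on the colours in `J`. -/
def subTD {I T : Type} (D : TD I T) (J : Set I) : TD J {a : T // D.src a ∈ J ∧ D.tgt a ∈ J} where
  src := fun a => ⟨D.src a.1, a.2.1⟩
  tgt := fun a => ⟨D.tgt a.1, a.2.2⟩
  opp := fun a => ⟨D.opp a.1, by rw [D.src_opp, D.tgt_opp]; exact ⟨a.2.2, a.2.1⟩⟩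
  opp_opp := fun a => Subtype.ext (D.opp_opp a.1)
  src_opp := fun a => Subtype.ext (D.src_opp a.1)
  ex := by
    rintro ⟨i, hi⟩ ⟨j, hj⟩
    obtain ⟨a, rfl, rfl⟩ := D.ex i j
    exact ⟨⟨a, hi, hj⟩, rfl, rfl⟩

open Classical in
/-- The structure on the points with colours in `J` (the values on the diagonal are irrelevant). -/
noncomputable def subM {I T V : Type} (D : TD I T) (M : Str I T V) (J : Set I) :
    Str J {a : T // D.src a ∈ J ∧ D.tgt a ∈ J} {v : V // M.c v ∈ J} :=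
  ⟨fun v => ⟨M.c v.1, v.2⟩, fun u v =>
    if h : D.src (M.s u.1 v.1) ∈ J ∧ D.tgt (M.s u.1 v.1) ∈ J then ⟨M.s u.1 v.1, h⟩
    else ((subTD D J).ex ⟨M.c u.1, u.2⟩ ⟨M.c v.1, v.2⟩).choose⟩

/-- Off the diagonal the types are those of `M`.  Proof. `hM`: source and target are in `J`. -/
theorem subM_s {I T V : Type} {D : TD I T} {M : Str I T V} (hM : Val D M) (J : Set I)
    (u v : {v : V // M.c v ∈ J}) (h : u ≠ v) : ((subM D M J).s u v).1 = M.s u.1 v.1 := by
  have h1 : u.1 ≠ v.1 := fun h2 => h (Subtype.ext h2)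
  have h2 := hM u.1 v.1 h1
  have h3 : D.src (M.s u.1 v.1) ∈ J ∧ D.tgt (M.s u.1 v.1) ∈ J := by
    rw [h2.1, h2.2.1]
    exact ⟨u.2, v.2⟩
  have h4 : (subM D M J).s u v = ⟨M.s u.1 v.1, h3⟩ := dif_pos h3
  rw [h4]

/-- Proof. Validity by `subM_s`.  Extension property: for `F`, `i`, `τ` apply `hM.2` to the image of `F` in `V`,
the colour `i.1` and the function which is `(τ v).1` at `v.1`, `v ∈ F` (anything else elsewhere; `dite` on
`M.c v ∈ J`). -/
theorem gen_sub {I T V : Type} {D : TD I T} {M : Str I T V} (hM : Gen D M) (J : Set I) :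
    Gen (subTD D J) (subM D M J) := by
  classical
  refine ⟨?_, ?_⟩
  · intro u v huv
    have h1 : u.1 ≠ v.1 := fun h2 => huv (Subtype.ext h2)
    have h2 := hM.1 u.1 v.1 h1
    have h3 := subM_s hM.1 J u v huv
    have h4 := subM_s hM.1 J v u huv.symm
    refine ⟨Subtype.ext ?_, Subtype.ext ?_, Subtype.ext ?_⟩
    · show D.src ((subM D M J).s u v).1 = M.c u.1
      rw [h3, h2.1]
    · show D.tgt ((subM D M J).s u v).1 = M.c v.1
      rw [h3, h2.2.1]
    · show ((subM D M J).s v u).1 = D.opp ((subM D M J).s u v).1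
      rw [h3, h4, h2.2.2]
  · intro F i τ hτ
    obtain ⟨w, hw1, hw2, hw3⟩ := hM.2 (F.image (fun v : {v : V // M.c v ∈ J} => (v : V))) i.1
      (fun v => if h : M.c v ∈ J then (τ ⟨v, h⟩).1 else M.s v v) (by
        intro v hv
        obtain ⟨x, hx, rfl⟩ := Finset.mem_image.1 hv
        have h1 := hτ x hx
        have h2 : (if h : M.c (x : V) ∈ J then (τ ⟨(x : V), h⟩).1 else M.s (x : V) (x : V)) =
            (τ x).1 := dif_pos x.2
        show D.src (if h : M.c (x : V) ∈ J then (τ ⟨(x : V), h⟩).1 else M.s (x : V) (x : V)) = _ ∧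
          D.tgt (if h : M.c (x : V) ∈ J then (τ ⟨(x : V), h⟩).1 else M.s (x : V) (x : V)) = _
        rw [h2]
        exact ⟨congrArg Subtype.val h1.1, congrArg Subtype.val h1.2⟩)
    have hwJ : M.c w ∈ J := by
      rw [hw2]
      exact i.2
    have hwF : (⟨w, hwJ⟩ : {v : V // M.c v ∈ J}) ∉ F := fun h =>
      hw1 (Finset.mem_image_of_mem (fun v : {v : V // M.c v ∈ J} => (v : V)) h)
    refine ⟨⟨w, hwJ⟩, hwF, Subtype.ext hw2, fun v hv => Subtype.ext ?_⟩
    rw [subM_s hM.1 J _ v (fun h => hwF (by rw [h]; exact hv))]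
    have h1 := hw3 v.1 (Finset.mem_image_of_mem (fun v : {v : V // M.c v ∈ J} => (v : V)) hv)
    show M.s w v.1 = _
    rw [h1]
    exact dif_pos v.2

end Pool.Agent.Lib.H3R
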