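import Pool.Agent.Lib.H3R.J3a

/-! # J3b: merging operations -/

namespace Pool.Agent.Lib.H3R

open Equiv Function
open Pool.Agent.Lib.H3C (Cl FR Olig Sup pai pia)

variable {I T V : Type} [Countable V] {D : TD I T} {M : Str I T V}

/-- Extension of partial maps inside the points with fixed colours.

Proof. `H3C.backForth` with `X = Y =` the subtype, `R` the set of the finite `r` such that some `g ∈ G` has
`g p.1 = p.2` for all `p ∈ r` (`hinj` as `g` is injective).  Left extension by `x`: `push` for the set of the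
second coordinates and `w = g x` gives `g₀`; `y = g₀ (g x)` and `g₀ * g`.  Right extension by `y`: `push` for the
set of the first coordinates and `w = g⁻¹ y` gives `g₀`; `x = g₀ (g⁻¹ y)` and `g * g₀⁻¹` (`g₀⁻¹ p.1 = p.1`).
`r₀` is the set of the pairs `(x, g x)`, `x ∈ F`. -/
theorem GJ_ext (hM : Gen D M) {G : Subgroup (Perm V)} (hG : Au M ≤ G) {β : I → I} {ψ : T → T}
    (h : IsOp D M G β ψ) (hi : Idem D β ψ) (J : Set I) (hJ : ∀ i, i ∈ J ↔ β i = i)
    (F : Finset {v : V // M.c v ∈ J}) (g : Perm V) (hg : g ∈ G)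
    (hgF : ∀ x ∈ F, M.c (g (x : V)) ∈ J) :
    ∃ σ ∈ GJ G (fun v => M.c v ∈ J), ∀ x ∈ F, ((σ x : {v : V // M.c v ∈ J}) : V) = g x := by
  classical
  obtain ⟨σ, h1, h2⟩ := Pool.Agent.Lib.H3C.backForth (X := {v : V // M.c v ∈ J})
    (Y := {v : V // M.c v ∈ J})
    {r | ∃ g ∈ G, ∀ p ∈ r, g (p.1 : V) = (p.2 : V)} (by
      rintro r ⟨g, hg, hr⟩ p hp q hq
      constructor
      · intro h3
        apply Subtype.ext
        rw [← hr p hp, ← hr q hq, h3]
      · intro h3
        apply Subtype.ext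
        apply g.injective
        rw [hr p hp, hr q hq, h3]) (by
      rintro r ⟨g, hg, hr⟩ x
      obtain ⟨g₀, hg₀, h3, h4⟩ := push hM hG h hi (r.image (fun p => (p.2 : V))) (by
        intro y hy
        obtain ⟨p, hp, rfl⟩ := Finset.mem_image.1 hy
        exact (hJ _).1 p.2.2) (g (x : V))
      refine ⟨⟨g₀ (g (x : V)), (hJ _).2 h4⟩, g₀ * g, G.mul_mem hg₀ hg, ?_⟩
      intro p hp
      rcases Finset.mem_insert.1 hp with rfl | hp
      · exact Perm.mul_apply _ _ _
      · rw [Perm.mul_apply, hr p hp]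
        exact h3 _ (Finset.mem_image_of_mem _ hp)) (by
      rintro r ⟨g, hg, hr⟩ y
      obtain ⟨g₀, hg₀, h3, h4⟩ := push hM hG h hi (r.image (fun p => (p.1 : V))) (by
        intro y hy
        obtain ⟨p, hp, rfl⟩ := Finset.mem_image.1 hy
        exact (hJ _).1 p.1.2) (g⁻¹ (y : V))
      refine ⟨⟨g₀ (g⁻¹ (y : V)), (hJ _).2 h4⟩, g * g₀⁻¹, G.mul_mem hg (G.inv_mem hg₀), ?_⟩
      intro p hp
      rcases Finset.mem_insert.1 hp with rfl | hp
      · show (g * g₀⁻¹) (g₀ (g⁻¹ (y : V))) = (y : V)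
        rw [Perm.mul_apply, pia, pai]
      · rw [Perm.mul_apply]
        have h5 : g₀ (p.1 : V) = (p.1 : V) := h3 _ (Finset.mem_image_of_mem _ hp)
        have h6 : g₀⁻¹ (p.1 : V) = (p.1 : V) := by
          conv_lhs => rw [← h5]
          exact pia _ _
        rw [h6, hr p hp])
    (F.attach.image (fun x : {x // x ∈ F} =>
      (x.1, (⟨g (x.1 : V), hgF x.1 x.2⟩ : {v : V // M.c v ∈ J})))) (by
      refine ⟨g, hg, ?_⟩
      intro p hp
      obtain ⟨x, -, rfl⟩ := Finset.mem_image.1 hp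
      rfl)
  refine ⟨σ, ?_, ?_⟩
  · intro F'
    obtain ⟨r, ⟨g', hg', h3⟩, h4⟩ := h2 F'
    exact ⟨g', hg', fun x hx => h3 _ (h4 x hx)⟩
  · intro x hx
    have h3 := h1 _ (Finset.mem_image_of_mem
      (fun x : {x // x ∈ F} => (x.1, (⟨g (x.1 : V), hgF x.1 x.2⟩ : {v : V // M.c v ∈ J})))
      (Finset.mem_attach F ⟨x, hx⟩))
    exact congrArg Subtype.val h3

end Pool.Agent.Lib.H3R
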