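import Pool.Agent.Lib.H3R.J3b

/-! # J3c: merging operations -/

namespace Pool.Agent.Lib.H3R

open Equiv Function
open Pool.Agent.Lib.H3C (Cl FR Olig Sup pai pia)

variable {I T V : Type} [Countable V] {D : TD I T} {M : Str I T V}

/-- `G` is determined by the operation and the group on the fixed colours.

Proof. Let `g ∈ G`; `mem_of_rel` for `G'`: let `a : Fin n → V` be injective, `A = M.map a`,
`B = M.map (g ∘ a)`, `A₁ = opR D β ψ (fun u => u) A`, `B₁ = opR D β ψ (fun u => u) B`.  `Rel M G A A₁`, `Rel M G B B₁`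
(`h`), `Rel M G A B` (`rel_of_mem`), so `Rel M G A₁ B₁`: there are `b` and `g₁ ∈ G` with `Has M A₁ b`,
`Has M B₁ (g₁ ∘ b)`.  The colours of `A₁`, `B₁` are values of `β`, so `b u` and `g₁ (b u)` are in the subtype;
`GJ_ext` gives `σ ∈ GJ G _ ≤ GJ G' _` with `σ (b u) = g₁ (b u)`, so there is `g₂ ∈ G'` with
`g₂ (b u) = g₁ (b u)`: `Rel M G' A₁ B₁`.  With `h'`: `Rel M G' A A₁`, `Rel M G' B B₁`, so `Rel M G' A B`. -/
theorem le_of_GJ (hM : Gen D M) {G G' : Subgroup (Perm V)} (hG : Au M ≤ G) (hG' : Sg M G')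
    {β : I → I} {ψ : T → T} (h : IsOp D M G β ψ) (h' : IsOp D M G' β ψ) (hi : Idem D β ψ)
    (J : Set I) (hJ : ∀ i, i ∈ J ↔ β i = i)
    (hle : GJ G (fun v => M.c v ∈ J) ≤ GJ G' (fun v => M.c v ∈ J)) : G ≤ G' := by
  classical
  intro g hg
  refine mem_of_rel hM hG' g (fun n a ha => ?_)
  have hga : Injective (fun u => g (a u)) := fun u v huv => ha (g.injective huv)
  have hA : Val D (M.map a) := hM.1.map a ha
  have hB : Val D (M.map (fun u => g (a u))) := hM.1.map _ hga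
  have hAB : Rel M G (M.map a) (M.map (fun u => g (a u))) := rel_of_mem M hg a ha
  have hρ : Injective (fun u : Fin n => (u : ℕ)) := fun u v huv => Fin.ext huv
  have h1 := h (Fin n) (fun u : Fin n => (u : ℕ)) _ hρ hA
  have h2 := h (Fin n) (fun u : Fin n => (u : ℕ)) _ hρ hB
  obtain ⟨b, hb, h4, g₁, hg₁, h5⟩ := (h1.symm.trans hM hG hAB).trans hM hG h2
  have h4c : ∀ u, M.c (b u) ∈ J := by
    intro u
    rw [hJ]
    have h6 : M.c (b u) = β (M.c (a u)) := h4.1 u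
    rw [h6, hi.1]
  have h5c : ∀ u, M.c (g₁ (b u)) ∈ J := by
    intro u
    rw [hJ]
    have h6 : M.c (g₁ (b u)) = β (M.c (g (a u))) := h5.1 u
    rw [h6, hi.1]
  have hmem : ∀ u, (⟨b u, h4c u⟩ : {v : V // M.c v ∈ J}) ∈
      Finset.univ.image (fun u : Fin n => (⟨b u, h4c u⟩ : {v : V // M.c v ∈ J})) :=
    fun u => Finset.mem_image_of_mem _ (Finset.mem_univ u)
  obtain ⟨σ, hσ, h6⟩ := GJ_ext hM hG h hi J hJ
    (Finset.univ.image (fun u : Fin n => (⟨b u, h4c u⟩ : {v : V // M.c v ∈ J}))) g₁ hg₁ (by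
      intro x hx
      obtain ⟨u, -, rfl⟩ := Finset.mem_image.1 hx
      exact h5c u)
  obtain ⟨g₂, hg₂, h7⟩ := hle hσ
    (Finset.univ.image (fun u : Fin n => (⟨b u, h4c u⟩ : {v : V // M.c v ∈ J})))
  have h8 : (fun u => g₂ (b u)) = fun u => g₁ (b u) := by
    funext u
    exact (h7 _ (hmem u)).trans (h6 _ (hmem u))
  have h9 : Rel M G' (opR D β ψ (fun u : Fin n => (u : ℕ)) (M.map a))
      (opR D β ψ (fun u : Fin n => (u : ℕ)) (M.map (fun u => g (a u)))) :=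
    ⟨b, hb, h4, g₂, hg₂, by rw [h8]; exact h5⟩
  exact ((h' (Fin n) (fun u : Fin n => (u : ℕ)) _ hρ hA).trans hM hG'.1 h9).trans hM hG'.1
    (h' (Fin n) (fun u : Fin n => (u : ℕ)) _ hρ hB).symm

end Pool.Agent.Lib.H3R
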