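import Pool.Agent.Lib.H3R.J3c

/-! # J3d: merging operations -/

namespace Pool.Agent.Lib.H3R

open Equiv Function
open Pool.Agent.Lib.H3C (Cl FR Olig Sup pai pia)

variable {I T V : Type} [Countable V] {D : TD I T} {M : Str I T V}

/-- **Case 2.**  Finitely many closed groups without exchangeable types have a merging operation, by the
induction hypothesis.

Proof. Every such `G` has an operation `(β, ψ)` with `Idem D β ψ` and `β` not injective (`exists_idem_op`,
`idem_id`).  There are finitely many pairs `(β, ψ)`; for each of them the map `G ↦ GJ G _` (with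
`J = {i | β i = i}`) is injective on the closed `G ≥ Au M` which have this operation (`le_of_GJ` twice), with values
in the finite set `{K | Au (subM D M J) ≤ K ∧ Cl K}` (`au_le_GJ`, `cl_GJ`, `ih`; `J ≠ Set.univ`, as otherwise
`β = id` is injective). -/
theorem finite_two [Finite I] [Finite T] (hM : Gen D M)
    (ih : ∀ J : Set I, J ≠ Set.univ → FR (Au (subM D M J))) :
    {G : Subgroup (Perm V) | Sg M G ∧ NS D M G ∧ ¬ NM D M G}.Finite := by
  have hsub : {G : Subgroup (Perm V) | Sg M G ∧ NS D M G ∧ ¬ NM D M G} ⊆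
      ⋃ p : (I → I) × (T → T), {G : Subgroup (Perm V) | Sg M G ∧ IsOp D M G p.1 p.2 ∧
        ¬ Injective p.1 ∧ Idem D p.1 p.2} := by
    rintro G ⟨hG, hns, hnm⟩
    unfold NM at hnm
    push Not at hnm
    obtain ⟨β, ψ, hop, hβ⟩ := hnm
    obtain ⟨β', ψ', hop', hβ', h1, h2⟩ := exists_idem_op hM hG.1 hop hβ
    rw [Set.mem_iUnion]
    exact ⟨(β', ψ'), hG, hop', hβ', h1, fun a h3 h4 => idem_id hM hG.1 hns hop' h2 a h3 h4⟩
  refine Set.Finite.subset (Set.finite_iUnion fun p => ?_) hsub
  obtain ⟨β, ψ⟩ := p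
  by_cases hβ : Injective β
  · have h0 : {G : Subgroup (Perm V) | Sg M G ∧ IsOp D M G β ψ ∧ ¬ Injective β ∧ Idem D β ψ} = ∅ := by
      ext G
      simp only [Set.mem_ofPred_eq, Set.mem_empty_iff_false, iff_false]
      exact fun h => h.2.2.1 hβ
    show {G : Subgroup (Perm V) | Sg M G ∧ IsOp D M G β ψ ∧ ¬ Injective β ∧ Idem D β ψ}.Finite
    rw [h0]
    exact Set.finite_empty
  by_cases hi : Idem D β ψ
  swap
  · have h0 : {G : Subgroup (Perm V) | Sg M G ∧ IsOp D M G β ψ ∧ ¬ Injective β ∧ Idem D β ψ} = ∅ := by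
      ext G
      simp only [Set.mem_ofPred_eq, Set.mem_empty_iff_false, iff_false]
      exact fun h => hi h.2.2.2
    show {G : Subgroup (Perm V) | Sg M G ∧ IsOp D M G β ψ ∧ ¬ Injective β ∧ Idem D β ψ}.Finite
    rw [h0]
    exact Set.finite_empty
  have hJ : ({i | β i = i} : Set I) ≠ Set.univ := by
    intro h0
    apply hβ
    intro a b hab
    have ha : β a = a := by
      have : a ∈ ({i | β i = i} : Set I) := by rw [h0]; exact Set.mem_univ a
      exact this
    have hb : β b = b := by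
      have : b ∈ ({i | β i = i} : Set I) := by rw [h0]; exact Set.mem_univ b
      exact this
    rw [← ha, hab, hb]
  have hfin := ih {i | β i = i} hJ
  have hJm : ∀ i, i ∈ ({i | β i = i} : Set I) ↔ β i = i := fun i => Iff.rfl
  refine Set.Finite.of_finite_image
    (f := fun G : Subgroup (Perm V) => GJ G (fun v => M.c v ∈ ({i | β i = i} : Set I))) ?_ ?_
  · refine Set.Finite.subset hfin ?_
    rintro K ⟨G, hG, rfl⟩
    exact ⟨au_le_GJ hM hG.1.1 _, cl_GJ _ _⟩
  · intro G hG G' hG' hGG
    exact le_antisymm (le_of_GJ hM hG.1.1 hG'.1 hG.2.1 hG'.2.1 hi _ hJm (le_of_eq hGG))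
      (le_of_GJ hM hG'.1.1 hG.1 hG'.2.1 hG.2.1 hi _ hJm (le_of_eq hGG.symm))

end Pool.Agent.Lib.H3R
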