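import Pool.Agent.Lib.H3R.J3a
import Pool.Agent.Lib.H3R.J3b
import Pool.Agent.Lib.H3R.J3c
import Pool.Agent.Lib.H3R.J3d

/-! # J3 (all parts): merging operations -/
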