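import Pool.Agent.Lib.H3R.J1
import Pool.Agent.Lib.H3R.J2

/-! # J3a: merging operations -/

namespace Pool.Agent.Lib.H3R

open Equiv Function
open Pool.Agent.Lib.H3C (Cl FR Olig Sup pai pia)

/-- The properties of an idempotent operation. -/
def Idem {I T : Type} (D : TD I T) (β : I → I) (ψ : T → T) : Prop :=
  (∀ i, β (β i) = β i) ∧ ∀ a, β (D.src a) = D.src a → β (D.tgt a) = D.tgt a → ψ a = a

variable {I T V : Type} [Countable V] {D : TD I T} {M : Str I T V}

/-- A point can be moved into the fixed colours, keeping finitely many points of fixed colours.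

Proof. If `w ∈ F` take `g = 1`.  Otherwise let `ι` be the finite type of the elements of `insert w F`, `a` the
inclusion, `A = M.map a`, `ρ` a ranking (`exists_rank`).  `h` and `Rel.all` give `g₀ ∈ G` with
`Has M (opR D β ψ ρ A) (g₀ ∘ a)`.  For `x ≠ y` in `F` the type of `(g₀ x, g₀ y)` is `ψ (M.s x y) = M.s x y` or
`D.opp (ψ (M.s y x)) = D.opp (M.s y x) = M.s x y`, and the colour of `g₀ x` is `β (M.c x) = M.c x` (`hi`).
`homog` for `F` gives `k ∈ Au M` with `k (g₀ x) = x` for `x ∈ F`.  `g = k * g₀`; the colour of `g w` is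
that of `g₀ w`, `β (M.c w)`. -/
theorem push (hM : Gen D M) {G : Subgroup (Perm V)} (hG : Au M ≤ G) {β : I → I} {ψ : T → T}
    (h : IsOp D M G β ψ) (hi : Idem D β ψ) (F : Finset V)
    (hF : ∀ x ∈ F, β (M.c x) = M.c x) (w : V) :
    ∃ g ∈ G, (∀ x ∈ F, g x = x) ∧ β (M.c (g w)) = M.c (g w) := by
  classical
  by_cases hw : w ∈ F
  · exact ⟨1, G.one_mem, fun _ _ => rfl, hF w hw⟩
  obtain ⟨ρ, hρ⟩ := exists_rank {x : V // x ∈ insert w F}
  have hinj : Injective (fun x : {x : V // x ∈ insert w F} => (x : V)) := Subtype.val_injective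
  have hA : Val D (M.map (fun x : {x : V // x ∈ insert w F} => (x : V))) := hM.1.map _ hinj
  obtain ⟨g₀, hg₀, h1⟩ := (h {x : V // x ∈ insert w F} ρ _ hρ hA).all hM hG
    (fun x : {x : V // x ∈ insert w F} => (x : V)) hinj (has_self M _)
  have hc : ∀ x : {x : V // x ∈ insert w F}, M.c (g₀ (x : V)) = β (M.c (x : V)) := fun x => h1.1 x
  have hs : ∀ x y : V, x ∈ F → y ∈ F → x ≠ y → M.s (g₀ x) (g₀ y) = M.s x y := by
    intro x y hx hy hxy
    have h2 := h1.2 ⟨x, Finset.mem_insert_of_mem hx⟩ ⟨y, Finset.mem_insert_of_mem hy⟩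
      (fun h3 => hxy (congrArg Subtype.val h3))
    have h3 : M.s (g₀ x) (g₀ y) =
        if ρ ⟨x, Finset.mem_insert_of_mem hx⟩ < ρ ⟨y, Finset.mem_insert_of_mem hy⟩ then
          ψ (M.s x y) else D.opp (ψ (M.s y x)) := h2
    have h4 := hM.1 x y hxy
    have h5 := hM.1 y x hxy.symm
    have h6 : ψ (M.s x y) = M.s x y := hi.2 _ (by rw [h4.1]; exact hF x hx)
      (by rw [h4.2.1]; exact hF y hy)
    have h7 : ψ (M.s y x) = M.s y x := hi.2 _ (by rw [h5.1]; exact hF y hy)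
      (by rw [h5.2.1]; exact hF x hx)
    rw [h3, h6, h7, h4.2.2, D.opp_opp, ite_self]
  obtain ⟨k, hk, h8⟩ := homog hM (fun x : {x : V // x ∈ F} => g₀ (x : V))
    (fun x : {x : V // x ∈ F} => (x : V))
    (fun x y hxy => Subtype.ext (g₀.injective hxy)) Subtype.val_injective
    ⟨fun x => (hc ⟨x, Finset.mem_insert_of_mem x.2⟩).trans (hF x x.2), fun x y hxy =>
      hs x y x.2 y.2 (fun h9 => hxy (Subtype.ext h9))⟩
  refine ⟨k * g₀, G.mul_mem (hG hk) hg₀, fun x hx => ?_, ?_⟩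
  · rw [Perm.mul_apply]
    exact h8 ⟨x, hx⟩
  · rw [Perm.mul_apply, hk.1, hc ⟨w, Finset.mem_insert_self w F⟩, hi.1]

end Pool.Agent.Lib.H3R
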