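import Pool.Agent.Lib.H3R.G2
import Pool.Agent.Lib.H3R.H2
import Pool.Agent.Lib.H3R.J3

/-! # K1: finitely many closed supergroups -/

namespace Pool.Agent.Lib.H3R

open Equiv Function
open Pool.Agent.Lib.H3C (Cl FR Olig Sup pai pia)

/-- **The main theorem**: the automorphism group of a random structure with finitely many colours and
2-types has finitely many closed supergroups.

Proof. Strong induction on `Nat.card I + Nat.card T`, for all `I`, `T`, `V`, `D`, `M`.  The set of the closed
supergroups is the union of the sets of `finite_one` (`ih` by the induction hypothesis and `gen_quo`), `finite_two`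
(`gen_sub`; `Nat.card J < Nat.card I` for `J ≠ Set.univ` and the types of `subTD` are a subtype of `T`) and
`finite_three`. -/
theorem fr_Au {I T V : Type} [Countable V] [Finite I] [Finite T] {D : TD I T} {M : Str I T V}
    (hM : Gen D M) : FR (Au M) := by
  have key : ∀ n : ℕ, ∀ (I T V : Type) [Countable V] [Finite I] [Finite T] (D : TD I T)
      (M : Str I T V), Nat.card I + Nat.card T = n → Gen D M → FR (Au M) := by
    intro n
    induction n using Nat.strong_induction_on with
    | _ n ihn =>
      intro I T V _ _ _ D M hn hM
      have h1 := finite_one hM (fun S hS hlt => by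
        have : Finite (Quotient S) := Quotient.finite S
        exact ihn (Nat.card I + Nat.card (Quotient S)) (by omega) I (Quotient S) V (quoTD D S hS)
          (quoM M S) rfl (gen_quo hM S hS))
      have h2 := finite_two hM (fun J hJ => by
        obtain ⟨i, hi⟩ := (Set.ne_univ_iff_exists_notMem J).1 hJ
        have hlt : Nat.card J < Nat.card I := Finite.card_subtype_lt (p := fun i => i ∈ J) hi
        have hle : Nat.card {a : T // D.src a ∈ J ∧ D.tgt a ∈ J} ≤ Nat.card T :=
          Finite.card_subtype_le _
        exact ihn (Nat.card J + Nat.card {a : T // D.src a ∈ J ∧ D.tgt a ∈ J}) (by omega) J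
          {a : T // D.src a ∈ J ∧ D.tgt a ∈ J} {v : V // M.c v ∈ J} (subTD D J) (subM D M J) rfl
          (gen_sub hM J))
      have h3 := finite_three hM
      refine ((h1.union h2).union h3).subset ?_
      intro G hG
      by_cases hns : NS D M G
      · by_cases hnm : NM D M G
        · exact Or.inr ⟨hG, hns, hnm⟩
        · exact Or.inl (Or.inr ⟨hG, hns, hnm⟩)
      · exact Or.inl (Or.inl ⟨hG, hns⟩)
  exact key _ I T V D M rfl hM

end Pool.Agent.Lib.H3R
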