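import Pool.Agent.Lib.H3R.T1a

/-! # T1b: colours and 2-types in a relational structure of arity at most 2 -/

namespace Pool.Agent.Lib.H3R

open Equiv Function FirstOrder Language
open Pool.Agent.Lib.H3C (Cl FR Olig Sup pai pia autP)

/-- Elements of `autP` preserve colours and types.  Proof. Unfold; `![σ x, σ y] = σ ∘ ![x, y]`. -/
theorem colR_aut (L : Language.{0, 0}) {M : Type} [L.Structure M] {σ : Perm M}
    (hσ : σ ∈ autP L M) (x : M) : colR L (σ x) = colR L x := by
  ext r
  exact hσ r.1 r.2 (fun _ => x)

theorem typR_aut (L : Language.{0, 0}) {M : Type} [L.Structure M] {σ : Perm M}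
    (hσ : σ ∈ autP L M) (x y : M) : typR L (σ x) (σ y) = typR L x y := by
  have key : ∀ a b : M, {r : L.Relations 2 | Structure.RelMap r ![σ a, σ b]} =
      {r : L.Relations 2 | Structure.RelMap r ![a, b]} := by
    intro a b
    ext r
    have h1 : (fun i => σ (![a, b] i)) = ![σ a, σ b] := by
      funext i
      fin_cases i <;> rfl
    have h2 := hσ 2 r ![a, b]
    rw [h1] at h2
    exact h2
  unfold typR
  rw [colR_aut L hσ, colR_aut L hσ, key, key]

/-- Permutations which preserve colours and types are in `autP`.  Proof. `pres` with `S = Set.univ`. -/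
theorem mem_autP (L : Language.{0, 0}) (h2 : ∀ (n : ℕ) (_ : L.Relations n), n ≤ 2) {M : Type}
    [L.Structure M] (σ : Perm M) (hc : ∀ x, colR L (σ x) = colR L x)
    (ht : ∀ x y, x ≠ y → typR L (σ x) (σ y) = typR L x y) : σ ∈ autP L M := by
  intro n r x
  exact pres L h2 σ Set.univ (fun _ => Iff.rfl) (fun x _ => hc x) (fun x _ y _ h => ht x y h) n r x
    (fun _ => Set.mem_univ _)

end Pool.Agent.Lib.H3R
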