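import Pool.Agent.Lib.H3R.T1b

/-! # T1c: colours and 2-types in a relational structure of arity at most 2 -/

namespace Pool.Agent.Lib.H3R

open Equiv Function FirstOrder Language
open Pool.Agent.Lib.H3C (Cl FR Olig Sup pai pia autP)

/-- Ultrahomogeneity, for finite partial maps which preserve the relations.

Proof. As in `Pool.Agent.Lib.H3C.L7_hom` (file `H3C/L7.lean`): the substructure `S` with carrier `F`
(no function symbols: `hL`), finitely generated as it is finite; the embedding `S ↪[L] M` given by
`f`; `hu` gives an automorphism of `M` which extends it. -/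
theorem ultra_ext (L : Language.{0, 0}) {M : Type} [L.Structure M] (hL : L.IsRelational)
    (hu : L.IsUltrahomogeneous M) (F : Finset M) (f : M → M) (hf : Set.InjOn f F)
    (hr : ∀ (n : ℕ) (r : L.Relations n) (x : Fin n → M), (∀ k, x k ∈ F) →
      (Structure.RelMap r (fun k => f (x k)) ↔ Structure.RelMap r x)) :
    ∃ σ ∈ autP L M, ∀ x ∈ F, σ x = f x := by
  let S : L.Substructure M :=
    { carrier := (F : Set M)
      fun_mem := fun {n} g => ((hL n).elim g) }
  have hS : S.FG := by
    refine ⟨F, ?_⟩
    apply SetLike.coe_injective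
    exact Substructure.closure_eq_of_isRelational L (F : Set M)
  have hmem : ∀ x : S, (x : M) ∈ F := fun x => x.2
  let φ : S ↪[L] M :=
    { toFun := fun x => f x
      inj' := fun x y hxy => Subtype.ext (hf (hmem x) (hmem y) hxy)
      map_fun' := fun {n} g => (hL n).elim g
      map_rel' := fun {n} R x => hr n R (fun i => (x i : M)) (fun i => hmem (x i)) }
  obtain ⟨g, hg⟩ := hu S hS φ
  refine ⟨g.toEquiv, ?_, ?_⟩
  · intro n R x
    exact g.map_rel' R x
  · intro x hx
    have h := congrArg (fun k : S ↪[L] M => k ⟨x, hx⟩) hg
    exact h.symm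

end Pool.Agent.Lib.H3R
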