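import Pool.Agent.Lib.H3R.T1a
import Pool.Agent.Lib.H3R.T1b
import Pool.Agent.Lib.H3R.T1c

/-! # T1 (all parts): colours and 2-types in a relational structure of arity at most 2 -/
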