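import Pool.Agent.Lib.H3C.K1
import Mathlib.ModelTheory.Fraisse

/-! # T1a: colours and 2-types in a relational structure of arity at most 2 -/

namespace Pool.Agent.Lib.H3R

open Equiv Function FirstOrder Language
open Pool.Agent.Lib.H3C (Cl FR Olig Sup pai pia autP)

/-- The colour of `x`: the relations which hold at the constant tuple `x`. -/
def colR (L : Language.{0, 0}) {A : Type} [L.Structure A] (x : A) : Set (Σ n, L.Relations n) :=
  {r | Structure.RelMap r.2 (fun _ => x)}

/-- The types of pairs as sets of relations. -/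
abbrev T0 (L : Language.{0, 0}) : Type :=
  Set (Σ n, L.Relations n) × Set (Σ n, L.Relations n) × Set (L.Relations 2) × Set (L.Relations 2)

/-- The 2-type of `(x, y)`. -/
def typR (L : Language.{0, 0}) {A : Type} [L.Structure A] (x y : A) : T0 L :=
  (colR L x, colR L y, {r | Structure.RelMap r ![x, y]}, {r | Structure.RelMap r ![y, x]})

/-- Maps which preserve colours and 2-types preserve the relations.

Proof. `n = 0`: `h0` (all functions from `Fin 0` are equal).  `n = 1`: `x` is the constant `x 0`; `hc`.
`n = 2`: if `x 0 = x 1` then `x` is constant; `hc`.  Otherwise `x = ![x 0, x 1]` and the third component of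
`ht`. -/
theorem pres (L : Language.{0, 0}) (h2 : ∀ (n : ℕ) (_ : L.Relations n), n ≤ 2) {A B : Type}
    [L.Structure A] [L.Structure B] (f : A → B) (S : Set A)
    (h0 : ∀ r : L.Relations 0, Structure.RelMap r (fun k : Fin 0 => (k.elim0 : B)) ↔
      Structure.RelMap r (fun k : Fin 0 => (k.elim0 : A)))
    (hc : ∀ x ∈ S, colR L (f x) = colR L x)
    (ht : ∀ x ∈ S, ∀ y ∈ S, x ≠ y → typR L (f x) (f y) = typR L x y) (n : ℕ)
    (r : L.Relations n) (x : Fin n → A) (hx : ∀ k, x k ∈ S) :
    Structure.RelMap r (fun k => f (x k)) ↔ Structure.RelMap r x := by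
  have hconst : ∀ (n : ℕ) (r : L.Relations n) (a : A), a ∈ S →
      (Structure.RelMap r (fun _ : Fin n => f a) ↔ Structure.RelMap r (fun _ : Fin n => a)) := by
    intro n r a ha
    exact Set.ext_iff.mp (hc a ha) ⟨n, r⟩
  have hn := h2 n r
  interval_cases n
  · have e1 : (fun k => f (x k)) = fun k : Fin 0 => (k.elim0 : B) := by
      funext k; exact k.elim0
    have e2 : x = fun k : Fin 0 => (k.elim0 : A) := by
      funext k; exact k.elim0
    rw [e1, e2]
    exact h0 r
  · have e1 : (fun k => f (x k)) = fun _ : Fin 1 => f (x 0) := by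
      funext k
      rw [Subsingleton.elim k 0]
    have e2 : x = fun _ : Fin 1 => x 0 := by
      funext k
      rw [Subsingleton.elim k 0]
    rw [e1, e2]
    exact hconst 1 r (x 0) (hx 0)
  · by_cases h01 : x 0 = x 1
    · have e2 : ∀ k, x k = x 0 := by
        intro k
        fin_cases k
        · rfl
        · exact h01.symm
      have e1 : (fun k => f (x k)) = fun _ : Fin 2 => f (x 0) := by
        funext k
        rw [e2 k]
      have e3 : x = fun _ : Fin 2 => x 0 := funext e2
      rw [e1]
      conv_rhs => rw [e3]
      exact hconst 2 r (x 0) (hx 0)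
    · have e1 : (fun k => f (x k)) = ![f (x 0), f (x 1)] := by
        funext k
        fin_cases k <;> rfl
      have e2 : x = ![x 0, x 1] := by
        funext k
        fin_cases k <;> rfl
      have h := ht (x 0) (hx 0) (x 1) (hx 1) h01
      have h3 : {r : L.Relations 2 | Structure.RelMap r ![f (x 0), f (x 1)]} =
          {r : L.Relations 2 | Structure.RelMap r ![x 0, x 1]} := congrArg (fun p => p.2.2.1) h
      rw [e1]
      conv_rhs => rw [e2]
      exact Set.ext_iff.mp h3 r

end Pool.Agent.Lib.H3R
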