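import Pool.Agent.Lib.H3R.T2a

/-! # T2b: one-point extensions -/

namespace Pool.Agent.Lib.H3R

open Equiv Function FirstOrder Language
open Pool.Agent.Lib.H3C (Cl FR Olig Sup pai pia autP)

private theorem T2b_col (L : Language.{0, 0}) {A M : Type} [L.Structure A] [L.Structure M]
    (f : A ↪[L] M) (a : A) : colR L (f a) = colR L a := by
  ext ⟨n, r⟩
  exact f.map_rel r (fun _ => a)

private theorem T2b_two (L : Language.{0, 0}) {A M : Type} [L.Structure A] [L.Structure M]
    (f : A ↪[L] M) (a b : A) (r : L.Relations 2) :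
    Structure.RelMap r ![f a, f b] ↔ Structure.RelMap r ![a, b] := by
  have h := f.map_rel r ![a, b]
  have e : f ∘ ![a, b] = ![f a, f b] := by
    funext k
    fin_cases k <;> rfl
  rw [e] at h
  exact h

private theorem T2b_typ (L : Language.{0, 0}) {A M : Type} [L.Structure A] [L.Structure M]
    (f : A ↪[L] M) (a b : A) : typR L (f a) (f b) = typR L a b :=
  Prod.ext (T2b_col L f a) (Prod.ext (T2b_col L f b)
    (Prod.ext (Set.ext (T2b_two L f a b)) (Set.ext (T2b_two L f b a))))

/-- One-point extensions in `M`.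

Proof. Apply `hage` to the structure of `opt_str`: an embedding `f : Option F ↪[L] M`.  The map
`f (some v) ↦ v` (choose preimages; anything outside the finite set of the `f (some v)`) is injective on it
and preserves the relations (second statement of `opt_str` and `f.map_rel`), so `ultra_ext` gives `σ ∈ autP L M` with
`σ (f (some v)) = v`.  Let `w = σ (f none)`: it is not in `F` (`σ ∘ f` is injective), its colour is that of
`f none` (`colR_aut`), which is that of `none` (`f.map_rel`), `colR L p₀`; and
`typR L w v = typR L (f none) (f (some v)) = typR L none (some v) = typR L (p v) (q v)`. -/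
theorem one_point (L : Language.{0, 0}) (h2 : ∀ (n : ℕ) (_ : L.Relations n), n ≤ 2)
    (hL : L.IsRelational) {M : Type} [L.Structure M] (hu : L.IsUltrahomogeneous M)
    (hage : ∀ (A : Type) [L.Structure A], Finite A →
      (∀ S : L.Substructure A, Nat.card S ≤ 2 → Nonempty (S ↪[L] M)) → Nonempty (A ↪[L] M))
    (F : Finset M) (p₀ : M) (p q : M → M)
    (hpq : ∀ v ∈ F, p v ≠ q v ∧ colR L (p v) = colR L p₀ ∧ colR L (q v) = colR L v) :
    ∃ w, w ∉ F ∧ colR L w = colR L p₀ ∧ ∀ v ∈ F, typR L w v = typR L (p v) (q v) := by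
  classical
  obtain ⟨inst, hS, hR, hc, ht⟩ := opt_str L h2 hL F p₀ p q hpq
  obtain ⟨f⟩ := hage (Option {v : M // v ∈ F}) inferInstance hS
  have hg : ∃ g : M → M, ∀ v : {v : M // v ∈ F}, g (f (some v)) = v.1 := by
    refine ⟨fun x => if h : ∃ v : {v : M // v ∈ F}, f (some v) = x then h.choose.1 else x, ?_⟩
    intro v
    have h : ∃ w : {v : M // v ∈ F}, f (some w) = f (some v) := ⟨v, rfl⟩
    have h1 : h.choose = v := Option.some.inj (f.injective h.choose_spec)
    simp only
    rw [dif_pos h, h1]
  obtain ⟨g, hg⟩ := hg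
  have hmem : ∀ x ∈ F.attach.image (fun v => f (some v)), ∃ v : {v : M // v ∈ F}, f (some v) = x := by
    intro x hx
    obtain ⟨v, -, hv⟩ := Finset.mem_image.1 hx
    exact ⟨v, hv⟩
  obtain ⟨σ, hσ, hσg⟩ := ultra_ext L hL hu (F.attach.image (fun v => f (some v))) g (by
    intro x hx y hy hxy
    obtain ⟨v, rfl⟩ := hmem x hx
    obtain ⟨w, rfl⟩ := hmem y hy
    rw [hg, hg] at hxy
    rw [Subtype.ext hxy]) (by
    intro n r x hx
    choose v hv using fun k => hmem (x k) (hx k)
    have e1 : (fun k => g (x k)) = fun k => ((v k : {v : M // v ∈ F}) : M) := by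
      funext k
      rw [← hv k, hg]
    have e2 : x = f ∘ fun k => some (v k) := by
      funext k
      exact (hv k).symm
    rw [e1, e2]
    exact (hR n r v).symm.trans (f.map_rel r (fun k => some (v k))).symm)
  have hσf : ∀ v : {v : M // v ∈ F}, σ (f (some v)) = v.1 := by
    intro v
    rw [hσg _ (Finset.mem_image.2 ⟨v, Finset.mem_attach _ _, rfl⟩), hg]
  refine ⟨σ (f none), ?_, ?_, ?_⟩
  · intro hw
    have h1 := hσf ⟨σ (f none), hw⟩
    have h2 := f.injective (σ.injective h1)
    exact absurd h2 (by simp)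
  · rw [colR_aut L hσ, T2b_col L f, hc]
  · intro v hv
    have h1 := typR_aut L hσ (f none) (f (some ⟨v, hv⟩))
    rw [hσf ⟨v, hv⟩, T2b_typ L f, ht ⟨v, hv⟩] at h1
    exact h1

end Pool.Agent.Lib.H3R
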