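import Pool.Agent.Lib.H3R.T1

/-! # T2a: one-point extensions -/

namespace Pool.Agent.Lib.H3R

open Equiv Function FirstOrder Language
open Pool.Agent.Lib.H3C (Cl FR Olig Sup pai pia autP)

/-- The value of a point of `Option F` in `M` (with `p₀` for `none`). -/
private def T2a_g {M : Type} {F : Finset M} (p₀ : M) : Option {v : M // v ∈ F} → M
  | none => p₀
  | some v => v.1

open Classical in
/-- The structure of `opt_str`. -/
@[reducible] private noncomputable def T2a_str (L : Language.{0, 0}) (hL : L.IsRelational) {M : Type}
    [L.Structure M] (F : Finset M) (p₀ : M) (p q : M → M) :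
    L.Structure (Option {v : M // v ∈ F}) where
  funMap := fun {n} f _ => ((hL n).false f).elim
  RelMap := fun {_} r x =>
    if h : (∃ k, x k = none) ∧ ∃ v, ∃ k, x k = some v then
      Structure.RelMap r (fun k => if x k = none then p h.2.choose.1 else q h.2.choose.1)
    else Structure.RelMap r (fun k => T2a_g p₀ (x k))

private theorem T2a_else (L : Language.{0, 0}) (hL : L.IsRelational) {M : Type}
    [L.Structure M] (F : Finset M) (p₀ : M) (p q : M → M) {n : ℕ} (r : L.Relations n)
    (x : Fin n → Option {v : M // v ∈ F}) (h : ¬ ((∃ k, x k = none) ∧ ∃ v, ∃ k, x k = some v)) :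
    (T2a_str L hL F p₀ p q).RelMap r x ↔ Structure.RelMap r (fun k => T2a_g p₀ (x k)) := by
  exact iff_of_eq (dif_neg h)

open Classical in
private theorem T2a_pair (L : Language.{0, 0}) (hL : L.IsRelational) {M : Type}
    [L.Structure M] (F : Finset M) (p₀ : M) (p q : M → M) (v : {v : M // v ∈ F})
    (hp : colR L (p v.1) = colR L p₀) (hq : colR L (q v.1) = colR L v.1) {n : ℕ}
    (r : L.Relations n) (x : Fin n → Option {v : M // v ∈ F})
    (hx : ∀ k, x k = none ∨ x k = some v) :
    (T2a_str L hL F p₀ p q).RelMap r x ↔
      Structure.RelMap r (fun k => if x k = none then p v.1 else q v.1) := by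
  by_cases h : (∃ k, x k = none) ∧ ∃ v, ∃ k, x k = some v
  · have e : h.2.choose = v := by
      obtain ⟨k, hk⟩ := h.2.choose_spec
      rcases hx k with h1 | h1
      · rw [h1] at hk
        exact absurd hk (by simp)
      · rw [h1] at hk
        exact (Option.some.inj hk).symm
    have h5 : (T2a_str L hL F p₀ p q).RelMap r x ↔
        Structure.RelMap r (fun k => if x k = none then p h.2.choose.1 else q h.2.choose.1) :=
      iff_of_eq (dif_pos h)
    rw [h5, e]
  · rw [T2a_else L hL F p₀ p q r x h]
    by_cases h1 : ∃ k, x k = none
    · have h2 : ∀ k, x k = none := by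
        intro k
        rcases hx k with h3 | h3
        · exact h3
        · exact absurd ⟨h1, v, k, h3⟩ h
      have e1 : (fun k => T2a_g p₀ (x k)) = fun _ => p₀ := by
        funext k
        rw [h2 k]
        rfl
      have e2 : (fun k => if x k = none then p v.1 else q v.1) = fun _ => p v.1 := by
        funext k
        rw [if_pos (h2 k)]
      rw [e1, e2]
      have e3 := Set.ext_iff.1 hp ⟨n, r⟩
      exact e3.symm
    · have h2 : ∀ k, x k = some v := by
        intro k
        rcases hx k with h3 | h3
        · exact absurd ⟨k, h3⟩ h1
        · exact h3
      have e1 : (fun k => T2a_g p₀ (x k)) = fun _ => v.1 := by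
        funext k
        rw [h2 k]
        rfl
      have e2 : (fun k => if x k = none then p v.1 else q v.1) = fun _ => q v.1 := by
        funext k
        rw [if_neg (by rw [h2 k]; simp)]
      rw [e1, e2]
      have e3 := Set.ext_iff.1 hq ⟨n, r⟩
      exact e3.symm

/-- A structure on `Option F` which extends the structure of `F` and in which the pair
`(none, some v)` has the type of `(p v, q v)`.

Proof. For `x : Fin n → Option F` define `RelMap r x` as follows.  (1) If no `x k` is `none`: `RelMap r` in `M` of the
elements of `F`.  (2) If some `x k` is `none` and some `x k` is `some v`, choose such a `v` and take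
`RelMap r (fun k => if x k = none then p v else q v)` in `M`.  (3) If all `x k` are `none` and `0 < n`:
`RelMap r (fun _ => p₀)` in `M`.  (No function symbols by `hL`.)
Substructures `S` with at most two elements embed in `M`: if `none` is not in `S`, take the inclusion in
`F ⊆ M`.  If `S` contains `none` and `some v`, these are all elements; map `none` to `p v` and `some v` to `q v`
(`p v ≠ q v`).  For `x : Fin n → S`: if both values occur, (2) with the same `v`; if `x` is constant
`some v` then (1) and `colR L (q v) = colR L v` (`hpq`; for `n = 0` both sides are the truth value of `r` in `M`);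
if `x` is constant `none`, (3) and `colR L (p v) = colR L p₀`.  If `S = {none}` map it to `p₀`; if `S` is empty
take the empty map.
The other statements are the definition: `colR L none = colR L p₀` by (3) (and (1) for `n = 0`), and the
components of `typR L none (some v)` by (3), (1), `hpq`, (2), (2). -/
theorem opt_str (L : Language.{0, 0}) (h2 : ∀ (n : ℕ) (_ : L.Relations n), n ≤ 2)
    (hL : L.IsRelational) {M : Type} [L.Structure M] (F : Finset M) (p₀ : M) (p q : M → M)
    (hpq : ∀ v ∈ F, p v ≠ q v ∧ colR L (p v) = colR L p₀ ∧ colR L (q v) = colR L v) :
    ∃ inst : L.Structure (Option {v : M // v ∈ F}),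
      (∀ S : L.Substructure (Option {v : M // v ∈ F}), Nat.card S ≤ 2 → Nonempty (S ↪[L] M)) ∧
      (∀ (n : ℕ) (r : L.Relations n) (x : Fin n → {v : M // v ∈ F}),
        Structure.RelMap r (fun k => some (x k)) ↔
          Structure.RelMap r (fun k => ((x k : {v : M // v ∈ F}) : M))) ∧
      colR L (none : Option {v : M // v ∈ F}) = colR L p₀ ∧
      ∀ v : {v : M // v ∈ F}, typR L (none : Option {v : M // v ∈ F}) (some v) =
        typR L (p v) (q v) := by
  classical
  refine ⟨T2a_str L hL F p₀ p q, ?_, ?_, ?_, ?_⟩
  · intro S hS
    let _ := T2a_str L hL F p₀ p q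
    by_cases hn : none ∈ S
    · by_cases hv : ∃ v, some v ∈ S
      · obtain ⟨v, hv⟩ := hv
        have hall : ∀ x ∈ S, x = none ∨ x = some v := by
          intro x hx
          by_contra hne
          rw [not_or] at hne
          have h3 : ({none, some v, x} : Set (Option {v : M // v ∈ F})).ncard ≤
              (S : Set (Option {v : M // v ∈ F})).ncard := by
            apply Set.ncard_le_ncard _ (Set.toFinite _)
            intro y hy
            simp only [Set.mem_insert_iff, Set.mem_singleton_iff] at hy
            rcases hy with rfl | rfl | rfl
            · exact hn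
            · exact hv
            · exact hx
          have h4 : ({none, some v, x} : Set (Option {v : M // v ∈ F})).ncard = 3 := by
            rw [Set.ncard_eq_three]
            exact ⟨none, some v, x, by simp, fun h => hne.1 h.symm, fun h => hne.2 h.symm, rfl⟩
          have h5 : (S : Set (Option {v : M // v ∈ F})).ncard = Nat.card S := rfl
          omega
        obtain ⟨w1, w2, w3⟩ := hpq v.1 v.2
        refine ⟨{ toFun := fun x => if (x : Option {v : M // v ∈ F}) = none then p v.1 else q v.1
                  inj' := ?_
                  map_fun' := fun {n} f _ => ((hL n).false f).elim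
                  map_rel' := ?_ }⟩
        · intro x y hxy
          apply Subtype.ext
          simp only at hxy
          rcases hall x.1 x.2 with hx | hx <;> rcases hall y.1 y.2 with hy | hy
          · rw [hx, hy]
          · rw [hx, hy, if_pos rfl, if_neg (by simp)] at hxy
            exact absurd hxy w1
          · rw [hx, hy, if_pos rfl, if_neg (by simp)] at hxy
            exact absurd hxy.symm w1
          · rw [hx, hy]
        · intro n r x
          exact (T2a_pair L hL F p₀ p q v w2 w3 r (fun k => (x k : Option {v : M // v ∈ F}))
            (fun k => hall (x k).1 (x k).2)).symm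
      · have hall : ∀ x ∈ S, x = none := by
          intro x hx
          cases x with
          | none => rfl
          | some v => exact absurd ⟨v, hx⟩ hv
        refine ⟨{ toFun := fun _ => p₀
                  inj' := ?_
                  map_fun' := fun {n} f _ => ((hL n).false f).elim
                  map_rel' := ?_ }⟩
        · intro x y _
          apply Subtype.ext
          rw [hall x.1 x.2, hall y.1 y.2]
        · intro n r x
          have h1 := T2a_else L hL F p₀ p q r (fun k => (x k : Option {v : M // v ∈ F})) (by
            rintro ⟨-, v, k, hk⟩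
            exact hv ⟨v, by rw [← hk]; exact (x k).2⟩)
          have e1 : (fun k => T2a_g p₀ (x k : Option {v : M // v ∈ F})) = fun _ => p₀ := by
            funext k
            rw [hall (x k).1 (x k).2]
            rfl
          rw [e1] at h1
          exact h1.symm
    · have hall : ∀ x ∈ S, x ≠ none := by
        rintro x hx rfl
        exact hn hx
      refine ⟨{ toFun := fun x => T2a_g p₀ (x : Option {v : M // v ∈ F})
                inj' := ?_
                map_fun' := fun {n} f _ => ((hL n).false f).elim
                map_rel' := ?_ }⟩
      · intro x y hxy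
        apply Subtype.ext
        simp only at hxy
        obtain ⟨v, hv⟩ := Option.ne_none_iff_exists'.1 (hall x.1 x.2)
        obtain ⟨w, hw⟩ := Option.ne_none_iff_exists'.1 (hall y.1 y.2)
        rw [hv, hw] at hxy ⊢
        exact congrArg some (Subtype.ext hxy)
      · intro n r x
        exact (T2a_else L hL F p₀ p q r (fun k => (x k : Option {v : M // v ∈ F})) (by
          rintro ⟨⟨k, hk⟩, -⟩
          exact hall _ (x k).2 hk)).symm
  · intro n r x
    exact T2a_else L hL F p₀ p q r (fun k => some (x k)) (by
      rintro ⟨⟨k, hk⟩, -⟩
      exact absurd hk (by simp))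
  · have key : @colR L _ (T2a_str L hL F p₀ p q) (none : Option {v : M // v ∈ F}) = colR L p₀ := by
      ext ⟨n, r⟩
      exact T2a_else L hL F p₀ p q r (fun _ => none) (by
        rintro ⟨-, v, k, hk⟩
        exact absurd hk (by simp))
    exact key
  · intro v
    obtain ⟨w1, w2, w3⟩ := hpq v.1 v.2
    have k1 : @colR L _ (T2a_str L hL F p₀ p q) (none : Option {v : M // v ∈ F}) =
        colR L (p v.1) := by
      rw [w2]
      ext ⟨n, r⟩
      exact T2a_else L hL F p₀ p q r (fun _ => none) (by
        rintro ⟨-, v, k, hk⟩
        exact absurd hk (by simp))
    have k2 : @colR L _ (T2a_str L hL F p₀ p q) (some v : Option {v : M // v ∈ F}) =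
        colR L (q v.1) := by
      rw [w3]
      ext ⟨n, r⟩
      exact T2a_else L hL F p₀ p q r (fun _ => some v) (by
        rintro ⟨⟨k, hk⟩, -⟩
        exact absurd hk (by simp))
    have k3 : ∀ r : L.Relations 2, (T2a_str L hL F p₀ p q).RelMap r ![none, some v] ↔
        Structure.RelMap r ![p v.1, q v.1] := by
      intro r
      rw [T2a_pair L hL F p₀ p q v w2 w3 r ![none, some v] (by
        intro k
        fin_cases k <;> simp)]
      have e : (fun k => if (![none, some v] : Fin 2 → Option {v : M // v ∈ F}) k = none then p v.1
          else q v.1) = ![p v.1, q v.1] := by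
        funext k
        fin_cases k <;> simp
      rw [e]
    have k4 : ∀ r : L.Relations 2, (T2a_str L hL F p₀ p q).RelMap r ![some v, none] ↔
        Structure.RelMap r ![q v.1, p v.1] := by
      intro r
      rw [T2a_pair L hL F p₀ p q v w2 w3 r ![some v, none] (by
        intro k
        fin_cases k <;> simp)]
      have e : (fun k => if (![some v, none] : Fin 2 → Option {v : M // v ∈ F}) k = none then p v.1
          else q v.1) = ![q v.1, p v.1] := by
        funext k
        fin_cases k <;> simp
      rw [e]
    exact Prod.ext k1 (Prod.ext k2 (Prod.ext (Set.ext k3) (Set.ext k4)))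

end Pool.Agent.Lib.H3R
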