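import Pool.Agent.Lib.H3R.T2
import Pool.Agent.Lib.H3R.A1

/-! # T3: the random structure of a homogeneous structure -/

namespace Pool.Agent.Lib.H3R

open Equiv Function FirstOrder Language
open Pool.Agent.Lib.H3C (Cl FR Olig Sup pai pia autP)

/-- The colour `i` occurs at least twice. -/
def BigC (L : Language.{0, 0}) (M : Type) [L.Structure M] (i : Set (Σ n, L.Relations n)) : Prop :=
  ∃ x y : M, x ≠ y ∧ colR L x = i ∧ colR L y = i

/-- The 2-types which occur between points whose colours occur at least twice. -/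
def Occ (L : Language.{0, 0}) (M : Type) [L.Structure M] (t : T0 L) : Prop :=
  ∃ x y : M, x ≠ y ∧ BigC L M (colR L x) ∧ BigC L M (colR L y) ∧ typR L x y = t

/-- The type data of a structure. -/
def tdM (L : Language.{0, 0}) (M : Type) [L.Structure M] :
    TD {i // BigC L M i} {t // Occ L M t} where
  src := fun t => ⟨t.1.1, by
    obtain ⟨x, y, -, h1, -, h2⟩ := t.2
    rw [← h2]
    exact h1⟩
  tgt := fun t => ⟨t.1.2.1, by
    obtain ⟨x, y, -, -, h1, h2⟩ := t.2
    rw [← h2]
    exact h1⟩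
  opp := fun t => ⟨(t.1.2.1, t.1.1, t.1.2.2.2, t.1.2.2.1), by
    obtain ⟨x, y, h0, h1, h1', h2⟩ := t.2
    exact ⟨y, x, h0.symm, h1', h1, by rw [← h2]; rfl⟩⟩
  opp_opp := fun t => rfl
  src_opp := fun t => rfl
  ex := by
    rintro ⟨i, hi⟩ ⟨j, hj⟩
    by_cases hij : i = j
    · subst hij
      obtain ⟨x, y, h, h1, h2⟩ := hi
      exact ⟨⟨typR L x y, x, y, h, by rw [h1]; exact hj, by rw [h2]; exact hj, rfl⟩,
        Subtype.ext h1, Subtype.ext h2⟩
    · obtain ⟨x, x', hx, h1, h1'⟩ := id hi
      obtain ⟨y, y', hy, h2, h2'⟩ := id hj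
      refine ⟨⟨typR L x y, x, y, ?_, by rw [h1]; exact hi, by rw [h2]; exact hj, rfl⟩,
        Subtype.ext h1, Subtype.ext h2⟩
      rintro rfl
      exact hij (h1.symm.trans h2)

open Classical in
/-- The structure of colours and types on the points whose colour occurs at least twice. -/
noncomputable def strM (L : Language.{0, 0}) (M : Type) [L.Structure M] :
    Str {i // BigC L M i} {t // Occ L M t} {x : M // BigC L M (colR L x)} :=
  ⟨fun x => ⟨colR L x.1, x.2⟩, fun x y =>
    if h : x.1 ≠ y.1 then ⟨typR L x.1 y.1, x.1, y.1, h, x.2, y.2, rfl⟩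
    else ((tdM L M).ex ⟨colR L x.1, x.2⟩ ⟨colR L y.1, y.2⟩).choose⟩

/-- Proof. Definition (`x.1 ≠ y.1`). -/
theorem strM_s (L : Language.{0, 0}) (M : Type) [L.Structure M]
    (x y : {x : M // BigC L M (colR L x)}) (h : x ≠ y) :
    ((strM L M).s x y).1 = typR L x.1 y.1 := by
  have h1 : x.1 ≠ y.1 := fun h2 => h (Subtype.ext h2)
  simp only [strM]
  rw [dif_pos h1]

/-- **The extension property.**

Proof. Validity: `strM_s` (`Subtype.ext`).  Let `F`, `i`, `τ` be as in `Gen`.  `i.2` gives `p₀ : M` with `colR L p₀ = i`.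
For `v ∈ F` (as an element of `M`) `(τ v).2` gives `p v ≠ q v` with `typR L (p v) (q v) = (τ v).1`, so
`colR L (p v) = i` (source of `τ v`), `colR L (q v) = colR L v` (target).  `one_point` for the image of `F` in `M` gives
`w`; `colR L w = i` is `BigC`, so `w` is a point of the subtype, not in `F`, of colour `i` and
`((strM L M).s w v).1 = typR L w v = (τ v).1`. -/
theorem gen_strM (L : Language.{0, 0}) (h2 : ∀ (n : ℕ) (_ : L.Relations n), n ≤ 2)
    (hL : L.IsRelational) {M : Type} [L.Structure M] (hu : L.IsUltrahomogeneous M)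
    (hage : ∀ (A : Type) [L.Structure A], Finite A →
      (∀ S : L.Substructure A, Nat.card S ≤ 2 → Nonempty (S ↪[L] M)) → Nonempty (A ↪[L] M)) :
    Gen (tdM L M) (strM L M) := by
  classical
  refine ⟨?_, ?_⟩
  · intro u v huv
    have e := strM_s L M u v huv
    have e' := strM_s L M v u huv.symm
    refine ⟨Subtype.ext ?_, Subtype.ext ?_, Subtype.ext ?_⟩
    · show ((strM L M).s u v).1.1 = colR L u.1
      rw [e]
      rfl
    · show ((strM L M).s u v).1.2.1 = colR L v.1
      rw [e]
      rfl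
    · show ((strM L M).s v u).1 = (((strM L M).s u v).1.2.1, ((strM L M).s u v).1.1,
        ((strM L M).s u v).1.2.2.2, ((strM L M).s u v).1.2.2.1)
      rw [e', e]
      rfl
  · intro F i τ hτ
    obtain ⟨p₀, -, -, hp₀, -⟩ := id i.2
    choose P Q hPQ using fun v => (τ v).2
    have hp : ∃ p : M → M, ∀ v : {x : M // BigC L M (colR L x)}, p v.1 = P v := by
      refine ⟨fun x => if h : BigC L M (colR L x) then P ⟨x, h⟩ else x, fun v => ?_⟩
      simp only
      rw [dif_pos v.2]
    have hq : ∃ q : M → M, ∀ v : {x : M // BigC L M (colR L x)}, q v.1 = Q v := by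
      refine ⟨fun x => if h : BigC L M (colR L x) then Q ⟨x, h⟩ else x, fun v => ?_⟩
      simp only
      rw [dif_pos v.2]
    obtain ⟨p, hp⟩ := hp
    obtain ⟨q, hq⟩ := hq
    obtain ⟨w, hw, hc, ht⟩ := one_point L h2 hL hu hage (F.image Subtype.val) p₀ p q (by
      intro v hv
      obtain ⟨v', hv', rfl⟩ := Finset.mem_image.1 hv
      rw [hp, hq]
      obtain ⟨h1, -, -, h4⟩ := hPQ v'
      obtain ⟨h5, h6⟩ := hτ v' hv'
      refine ⟨h1, ?_, ?_⟩
      · rw [hp₀, ← congrArg Subtype.val h5]
        exact congrArg Prod.fst h4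
      · have h7 : (τ v').1.2.1 = colR L v'.1 := congrArg Subtype.val h6
        rw [← h7]
        exact congrArg (fun t => t.2.1) h4)
    have hB : BigC L M (colR L w) := by
      rw [hc, hp₀]
      exact i.2
    refine ⟨⟨w, hB⟩, ?_, Subtype.ext (hc.trans hp₀), ?_⟩
    · intro h
      exact hw (Finset.mem_image.2 ⟨_, h, rfl⟩)
    · intro v hv
      apply Subtype.ext
      have hne : (⟨w, hB⟩ : {x : M // BigC L M (colR L x)}) ≠ v := by
        rintro rfl
        exact hw (Finset.mem_image.2 ⟨_, hv, rfl⟩)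
      rw [strM_s L M _ _ hne]
      have h1 := ht v.1 (Finset.mem_image.2 ⟨v, hv, rfl⟩)
      rw [hp, hq] at h1
      exact h1.trans (hPQ v).2.2.2

end Pool.Agent.Lib.H3R
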