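import Pool.Agent.Lib.H3R.T4a

/-! # T4b: extending permutations of a subset by the identity -/

namespace Pool.Agent.Lib.H3R

open Equiv Function
open Pool.Agent.Lib.H3C (Cl FR Olig Sup pai pia)

private theorem T4b_ext {M : Type} {p : M → Prop} [DecidablePred p] (g : Perm M)
    (hg : ∀ x, ¬ p x → g x = x) : ∃ τ : Perm (Subtype p), Equiv.Perm.ofSubtype τ = g := by
  have hp : ∀ x, p (g x) ↔ p x := by
    intro x
    constructor
    · intro h
      by_contra hn
      rw [hg x hn] at h
      exact hn h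
    · intro h
      by_contra hn
      have h1 := hg (g x) hn
      have h2 := g.injective h1
      rw [h2] at hn
      exact hn h
  refine ⟨g.subtypePerm hp, ?_⟩
  apply Equiv.ext
  intro x
  by_cases hx : p x
  · rw [Perm.ofSubtype_apply_of_mem _ hx]
    rfl
  · rw [Perm.ofSubtype_apply_of_not_mem _ hx, hg x hx]

/-- Proof. As `H3C.sup_extG_finite` (file `H3C/L4b.lean`): `G ↦ G.comap Equiv.Perm.ofSubtype` is injective on
`Sup (extS p K) F` (every `g ∈ G` fixes the points outside `p`, so it maps the points with `p` to themselves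
and is `ofSubtype` of its restriction) and its values are closed and contain `K`. -/
theorem sup_extS_finite {M : Type} (p : M → Prop) [DecidablePred p]
    (K : Subgroup (Perm (Subtype p))) (h : FR K) (F : Finset M) (hF : ∀ x, x ∈ F ↔ ¬ p x) :
    (Sup (extS p K) F).Finite := by
  refine Set.Finite.of_injOn (f := fun G : Subgroup (Perm M) =>
    G.comap (Equiv.Perm.ofSubtype (p := p))) (t := {G : Subgroup (Perm (Subtype p)) | K ≤ G ∧ Cl G})
    ?_ ?_ h
  · rintro G ⟨h1, h2, h3⟩
    refine ⟨?_, ?_⟩
    · unfold extS at h1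
      rw [Subgroup.map_le_iff_le_comap] at h1
      exact h1
    · intro σ hσ
      show Equiv.Perm.ofSubtype σ ∈ G
      apply h2
      intro F'
      classical
      obtain ⟨g, hg, hgx⟩ := hσ (F'.subtype p)
      refine ⟨Equiv.Perm.ofSubtype g, hg, fun x hx => ?_⟩
      by_cases hpx : p x
      · rw [Perm.ofSubtype_apply_of_mem _ hpx, Perm.ofSubtype_apply_of_mem _ hpx, hgx]
        exact Finset.mem_subtype.2 hx
      · rw [Perm.ofSubtype_apply_of_not_mem _ hpx, Perm.ofSubtype_apply_of_not_mem _ hpx]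
  · have key : ∀ G1 ∈ Sup (extS p K) F, ∀ G2 : Subgroup (Perm M),
        G1.comap (Equiv.Perm.ofSubtype (p := p)) = G2.comap (Equiv.Perm.ofSubtype (p := p)) →
          G1 ≤ G2 := by
      rintro G1 ⟨_, _, h3⟩ G2 he g hg
      obtain ⟨τ, hτ⟩ := T4b_ext (p := p) g (fun x hx => h3 g hg x ((hF x).2 hx))
      have h4 : τ ∈ G1.comap (Equiv.Perm.ofSubtype (p := p)) := by
        show Equiv.Perm.ofSubtype τ ∈ G1
        rw [hτ]
        exact hg
      rw [he] at h4
      have h5 : Equiv.Perm.ofSubtype τ ∈ G2 := h4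
      rw [hτ] at h5
      exact h5
    intro G1 hG1 G2 hG2 he
    exact le_antisymm (key G1 hG1 G2 he) (key G2 hG2 G1 he.symm)

end Pool.Agent.Lib.H3R
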