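import Pool.Agent.Lib.H3C.Defs

/-! # T4a: extending permutations of a subset by the identity -/

namespace Pool.Agent.Lib.H3R

open Equiv Function
open Pool.Agent.Lib.H3C (Cl FR Olig Sup pai pia)

/-- The permutations of `K`, extended by the identity. -/
def extS {M : Type} (p : M → Prop) [DecidablePred p] (K : Subgroup (Perm (Subtype p))) :
    Subgroup (Perm M) :=
  K.map (Equiv.Perm.ofSubtype)

/-- Proof. As `H3C.olig_extG` (file `H3C/L4.lean`): for a `k`-tuple `a` in `M` take the tuple in the subtype which
is `a i` where `p (a i)` and a fixed element elsewhere (`hne`); a representative of its orbit together with the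
values of `a` outside the subtype (finitely many) represents the orbit of `a`. -/
theorem olig_extS {M : Type} (p : M → Prop) [DecidablePred p] (K : Subgroup (Perm (Subtype p)))
    (hne : Nonempty (Subtype p)) (h : Olig K) (hfin : {x : M | ¬ p x}.Finite) :
    Olig (extS p K) := by
  classical
  intro k
  obtain ⟨x₀⟩ := hne
  obtain ⟨T, hT⟩ := h k
  have : Finite {x : M // ¬ p x} := hfin.to_subtype
  let _ : Fintype {x : M // ¬ p x} := Fintype.ofFinite _
  refine ⟨(T ×ˢ (Finset.univ : Finset (Fin k → Option {x : M // ¬ p x}))).image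
    (fun q i => (q.2 i).elim ((q.1 i : Subtype p) : M) (fun y => (y : M))), fun a => ?_⟩
  obtain ⟨t, ht, g, hg, h1⟩ := hT fun i => if hp : p (a i) then ⟨a i, hp⟩ else x₀
  refine ⟨fun i => if p (a i) then ((t i : Subtype p) : M) else a i, ?_,
    Equiv.Perm.ofSubtype g, ⟨g, hg, rfl⟩, fun i => ?_⟩
  · rw [Finset.mem_image]
    refine ⟨(t, fun i => if hp : p (a i) then none else some ⟨a i, hp⟩),
      Finset.mem_product.2 ⟨ht, Finset.mem_univ _⟩, ?_⟩
    funext i
    by_cases hp : p (a i)
    · simp [hp]
    · simp [hp]
  · show Equiv.Perm.ofSubtype g (if p (a i) then ((t i : Subtype p) : M) else a i) = a i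
    by_cases hp : p (a i)
    · have h2 := h1 i
      rw [dif_pos hp] at h2
      rw [if_pos hp, Equiv.Perm.ofSubtype_apply_coe, h2]
    · rw [if_neg hp]
      exact Equiv.Perm.ofSubtype_apply_of_not_mem g hp

end Pool.Agent.Lib.H3R
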