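import Pool.Agent.Lib.H3R.T3
import Pool.Agent.Lib.H3R.T4

/-! # T5a: points of rare colours -/

namespace Pool.Agent.Lib.H3R

open Equiv Function FirstOrder Language
open Pool.Agent.Lib.H3C (Cl FR Olig Sup pai pia autP)

/-- A point whose colour occurs only once is fixed.  Proof. `colR_aut`. -/
theorem rare_fixed (L : Language.{0, 0}) {M : Type} [L.Structure M] {σ : Perm M}
    (hσ : σ ∈ autP L M) (x : M) (hx : ¬ BigC L M (colR L x)) : σ x = x := by
  by_contra h
  exact hx ⟨σ x, x, h, colR_aut L hσ x, rfl⟩

/-- Proof. `colR L` is injective on them, and there are finitely many colours (`hfin`). -/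
theorem rare_finite (L : Language.{0, 0}) {M : Type} [L.Structure M]
    (hfin : Finite (Σ n, L.Relations n)) : {x : M | ¬ BigC L M (colR L x)}.Finite := by
  have : Finite (Set (Σ n, L.Relations n)) := inferInstance
  refine Set.Finite.of_finite_image (f := fun x => colR L x) (Set.toFinite _) ?_
  intro x hx y hy hxy
  by_contra hne
  exact hx ⟨x, y, hne, rfl, hxy.symm⟩

end Pool.Agent.Lib.H3R
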