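import Pool.Agent.Lib.H3R.T5
import Pool.Agent.Lib.H3R.K1
import Pool.Agent.Lib.H3R.A5
import Pool.Agent.Lib.H3C.A6
import Pool.Agent.Lib.H3C.K3

/-! # T6: the theorem -/

namespace Pool.Agent.Lib.H3R

open Equiv Function FirstOrder Language
open Pool.Agent.Lib.H3C (Cl FR Olig Sup pai pia autP olig_mono fr_of_sup finite_reducts)

/-- Proof. As `H3C.fr_hom` (file `H3C/L5.lean`).  If no colour occurs twice then `M` is finite (`rare_finite`) and
everything is finite.  Otherwise the subtype is nonempty.  `H' = extS _ (Au (strM L M)) ≤ autP L M` (`extS_le`);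
`Olig H'` (`olig_extS`, `olig_Au` with `gen_strM`; the types of colours and 2-types are finite), so
`Olig (autP L M)` (`olig_mono`).  With `F` the finite set of the rare points `(Sup H' F).Finite` (`sup_extS_finite`,
`fr_Au`), so `FR H'` (`fr_of_sup`; the elements of `H'` fix the points of `F`), and `FR (autP L M)` as a closed
supergroup of `autP L M` is one of `H'`. -/
theorem fr_autP (L : Language.{0, 0}) (h2 : ∀ (n : ℕ) (_ : L.Relations n), n ≤ 2)
    (hL : L.IsRelational) {M : Type} [L.Structure M] [Countable M]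
    (hfin : Finite (Σ n, L.Relations n)) (hu : L.IsUltrahomogeneous M)
    (hage : ∀ (A : Type) [L.Structure A], Finite A →
      (∀ S : L.Substructure A, Nat.card S ≤ 2 → Nonempty (S ↪[L] M)) → Nonempty (A ↪[L] M)) :
    Olig (autP L M) ∧ FR (autP L M) := by
  classical
  have : Finite (Set (Σ n, L.Relations n)) := inferInstance
  have : Finite (L.Relations 2) :=
    Finite.of_injective (fun r : L.Relations 2 => (⟨2, r⟩ : Σ n, L.Relations n))
      (fun r r' h => eq_of_heq (Sigma.mk.inj h).2)
  have : Finite (T0 L) := inferInstance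
  have : Finite {i // BigC L M i} := inferInstance
  have : Finite {t // Occ L M t} := inferInstance
  have hrare : {x : M | ¬ BigC L M (colR L x)}.Finite := rare_finite L hfin
  by_cases hn : Nonempty {x : M // BigC L M (colR L x)}
  · have hgen := gen_strM L h2 hL hu hage
    have hle : extS (fun x : M => BigC L M (colR L x)) (Au (strM L M)) ≤ autP L M :=
      extS_le L h2 hL hu
    have hol' : Olig (extS (fun x : M => BigC L M (colR L x)) (Au (strM L M))) :=
      olig_extS _ _ hn (olig_Au hgen) hrare
    refine ⟨olig_mono hle hol', ?_⟩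
    have hF : ∀ x, x ∈ hrare.toFinset ↔ ¬ BigC L M (colR L x) := fun x => by
      rw [Set.Finite.mem_toFinset, Set.mem_ofPred_eq]
    have hsup := sup_extS_finite (fun x : M => BigC L M (colR L x)) (Au (strM L M))
      (fr_Au hgen) hrare.toFinset hF
    have hfr : FR (extS (fun x : M => BigC L M (colR L x)) (Au (strM L M))) := by
      refine fr_of_sup _ hol' hrare.toFinset ?_ hsup
      intro h hh x hx
      exact rare_fixed L (hle hh) x ((hF x).1 hx)
    exact Set.Finite.subset hfr (fun G hG => ⟨hle.trans hG.1, hG.2⟩)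
  · have huniv : {x : M | ¬ BigC L M (colR L x)} = Set.univ :=
      Set.eq_univ_of_forall fun x h => hn ⟨⟨x, h⟩⟩
    rw [huniv] at hrare
    have : Finite M := Set.finite_univ_iff.1 hrare
    let _ : Fintype M := Fintype.ofFinite M
    refine ⟨fun k => ⟨Finset.univ, fun a => ⟨a, Finset.mem_univ _, 1, (autP L M).one_mem,
      fun _ => rfl⟩⟩, ?_⟩
    exact Set.toFinite _

/-- **Thomas's conjecture for random binary structures.** -/
theorem thomas_random_binary (L : Language.{0, 0}) (M : Type) [L.Structure M]
    (hM : Countable M) (hL : L.IsRelational) (hfin : Finite (Σ n, L.Relations n))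
    (hu : L.IsUltrahomogeneous M) (h2 : ∀ (n : ℕ) (_ : L.Relations n), n ≤ 2)
    (hage : ∀ (A : Type) [L.Structure A], Finite A →
      (∀ S : L.Substructure A, Nat.card S ≤ 2 → Nonempty (S ↪[L] M)) → Nonempty (A ↪[L] M)) :
    Set.Finite {D : Set (Σ n : ℕ, Set (Fin n → M)) |
      ∃ (L' : FirstOrder.Language.{0, 0}) (inst' : L'.Structure M), L'.IsRelational ∧
        (∀ (n : ℕ) (r : L'.Relations n),
          (∅ : Set M).Definable L (setOf (FirstOrder.Language.Structure.RelMap r))) ∧
        D = {p : Σ n : ℕ, Set (Fin n → M) | (∅ : Set M).Definable L' p.2}} := by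
  obtain ⟨h1, h3⟩ := fr_autP L h2 hL hfin hu hage
  exact finite_reducts L M hL h1 h3

end Pool.Agent.Lib.H3R
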